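import Mathlib

set_option autoImplicit false
set_option maxRecDepth 100000

/-!
# The first terms of the chi sequence
-/

namespace Pool.Agent.Helper994_AS

open Finset

/-- The first 40 terms (with a dummy value in front). -/
def tab : ℕ → ℤ := fun i => ([0, 1, 2, 4, 6, 9, 12, 15, 18, 21, 24, 28, 32, 36, 40, 45, 50, 55, 60,
  65, 70, 75, 80, 85, 90, 96, 102, 108, 114, 120, 126, 133, 140, 147, 154, 161, 168, 176, 184,
  192, 200] : List ℤ).getD i 0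

lemma tab_check : ∀ i ∈ Icc (2 : ℕ) 40, (∀ j ∈ Icc (1 : ℕ) (i - 1), ((j : ℤ) + 1) * ((i : ℤ) - tab j) ≤ tab i) ∧
    ∃ j ∈ Icc (1 : ℕ) (i - 1), tab i = ((j : ℤ) + 1) * ((i : ℤ) - tab j) := by
  decide +kernel

lemma tab_sum : 2713762 ≤ ∑ i ∈ Icc 1 40, 1000000 / tab i := by decide +kernel

lemma tab_pos : ∀ i ∈ Icc 1 40, 0 < tab i := by decide +kernel

lemma chi_eq_tab (χ : ℕ → ℤ) (h1 : χ 1 = 1)
    (h : ∀ i, 1 < i → IsGreatest {v : ℤ | ∃ j : ℕ, 1 ≤ j ∧ j ≤ i - 1 ∧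
      v = ((j : ℤ) + 1) * ((i : ℤ) - χ j)} (χ i)) (i : ℕ) (hi : 1 ≤ i) (hi2 : i ≤ 40) :
    χ i = tab i := by
  induction i using Nat.strong_induction_on with
  | _ i ih =>
    rcases Nat.eq_or_lt_of_le hi with h2 | h2
    · rw [← h2, h1]; rfl
    · have h3 := h i h2
      have h4 := tab_check i (mem_Icc.mpr ⟨by omega, hi2⟩)
      apply h3.unique
      constructor
      · obtain ⟨j, hj, h5⟩ := h4.2
        rw [mem_Icc] at hj
        exact ⟨j, hj.1, hj.2, by rw [h5, ih j (by omega) hj.1 (by omega)]⟩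
      · rintro v ⟨j, hj1, hj2, rfl⟩
        rw [ih j (by omega) hj1 (by omega)]
        exact h4.1 j (mem_Icc.mpr ⟨hj1, hj2⟩)

theorem chi_sum (χ : ℕ → ℤ) (h1 : χ 1 = 1)
    (h : ∀ i, 1 < i → IsGreatest {v : ℤ | ∃ j : ℕ, 1 ≤ j ∧ j ≤ i - 1 ∧
      v = ((j : ℤ) + 1) * ((i : ℤ) - χ j)} (χ i)) :
    (27 / 10 : ℝ) < ∑ k ∈ range 40, 1 / (χ (k + 1) : ℝ) := by
  have e1 : ∑ k ∈ range 40, 1 / (χ (k + 1) : ℝ) = ∑ i ∈ Icc 1 40, 1 / (tab i : ℝ) := by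
    rw [range_eq_Ico, sum_Ico_add' (fun i => 1 / (χ i : ℝ)) 0 40 1]
    have e2 : Ico (0 + 1) (40 + 1) = Icc 1 40 := by
      ext i
      simp only [mem_Ico, mem_Icc]
      omega
    rw [e2]
    apply sum_congr rfl
    intro i hi
    rw [mem_Icc] at hi
    rw [chi_eq_tab χ h1 h i hi.1 hi.2]
  rw [e1]
  have h2 : ((∑ i ∈ Icc 1 40, 1000000 / tab i : ℤ) : ℝ) ≤ 1000000 * ∑ i ∈ Icc 1 40, 1 / (tab i : ℝ) := by
    push_cast
    rw [mul_sum]
    apply sum_le_sum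
    intro i hi
    have h3 := tab_pos i hi
    have h4 : (0 : ℝ) < tab i := by exact_mod_cast h3
    rw [mul_one_div, le_div_iff₀ h4]
    have h5 : 1000000 / tab i * tab i ≤ 1000000 := Int.ediv_mul_le _ h3.ne'
    exact_mod_cast h5
  have h6 : ((2713762 : ℤ) : ℝ) ≤ ((∑ i ∈ Icc 1 40, 1000000 / tab i : ℤ) : ℝ) := by
    exact_mod_cast tab_sum
  push_cast at h6 h2
  linarith

end Pool.Agent.Helper994_AS
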