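import Pool.Agent.Helper994_AS.Tail2

set_option autoImplicit false

/-!
# Sequences without terms that are sums of distinct earlier terms
-/

namespace Pool.Agent.Helper994_AS

open Finset

/-- An A-sequence, indexed from `0`. -/
structure IsA (a : ℕ → ℕ) : Prop where
  mono : StrictMono a
  pos : 0 < a 0
  free : ∀ n (F : Finset ℕ), (∀ i ∈ F, i < n) → 2 ≤ F.card → ∑ i ∈ F, a i ≠ a n

/-- `v` is a sum of distinct terms with indices below `J`. -/
def SS (a : ℕ → ℕ) (J v : ℕ) : Prop :=
  ∃ F : Finset ℕ, F ⊆ range J ∧ F.Nonempty ∧ ∑ i ∈ F, a i = v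

/-- All differences of `D` are sums of distinct terms with indices below `J`. -/
def DS (a : ℕ → ℕ) (J : ℕ) (D : Finset ℕ) : Prop :=
  ∀ d ∈ D, ∀ d' ∈ D, d' < d → SS a J (d - d')

/-- The extended shift sets. -/
def DD (b : ℕ → ℕ) (D : Finset ℕ) (s : ℕ) : ℕ → Finset ℕ
  | 0 => D
  | k + 1 => insert (s + ∑ l ∈ range (k + 1), b l) (DD b D s k)

lemma DD_facts {a : ℕ → ℕ} (hA : IsA a) (J : ℕ) (D : Finset ℕ) (s : ℕ) (hD : DS a J D)
    (hs : s ∈ D) (hs' : ∀ d ∈ D, d ≤ s) (k : ℕ) :
    (∀ d ∈ DD (fun i => a (J + i)) D s k, d ≤ s + ∑ l ∈ range k, a (J + l)) ∧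
    s + ∑ l ∈ range k, a (J + l) ∈ DD (fun i => a (J + i)) D s k ∧
    (DD (fun i => a (J + i)) D s k).card = D.card + k ∧
    DS a (J + k) (DD (fun i => a (J + i)) D s k) := by
  induction k with
  | zero => simpa [DD] using ⟨hs', hs, hD⟩
  | succ k ih =>
    obtain ⟨h1, h2, h3, h4⟩ := ih
    have hpos : 0 < a (J + k) := lt_of_lt_of_le hA.pos (hA.mono.monotone (Nat.zero_le _))
    have hsum : ∑ l ∈ range (k + 1), a (J + l) = ∑ l ∈ range k, a (J + l) + a (J + k) :=
      sum_range_succ _ _
    refine ⟨?_, ?_, ?_, ?_⟩
    · intro d hd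
      rw [DD, mem_insert] at hd
      rcases hd with hd | hd
      · exact le_of_eq hd
      · have := h1 d hd
        omega
    · rw [DD]
      exact mem_insert_self _ _
    · rw [DD, card_insert_of_notMem, h3]
      · ring
      · intro hc
        have := h1 _ hc
        omega
    · intro d hd d' hd' hlt
      rw [DD, mem_insert] at hd hd'
      rcases hd with hd | hd
      · rcases hd' with hd' | hd'
        · omega
        · -- `d` is the new element
          have h5 := h1 d' hd'
          rcases Nat.eq_or_lt_of_le h5 with h6 | h6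
          · refine ⟨{J + k}, ?_, ⟨J + k, mem_singleton_self _⟩, ?_⟩
            · intro i hi
              rw [mem_singleton] at hi
              rw [mem_range]; omega
            · rw [sum_singleton]; omega
          · obtain ⟨F, hF1, hF2, hF3⟩ := h4 _ h2 d' hd' h6
            have hn : J + k ∉ F := by
              intro hc
              have := hF1 hc
              rw [mem_range] at this
              omega
            refine ⟨insert (J + k) F, ?_, ⟨J + k, mem_insert_self _ _⟩, ?_⟩
            · intro i hi
              rw [mem_insert] at hi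
              rw [mem_range]
              rcases hi with hi | hi
              · omega
              · have := hF1 hi
                rw [mem_range] at this
                omega
            · rw [sum_insert hn, hF3]; omega
      · rcases hd' with hd' | hd'
        · have := h1 d hd
          omega
        · obtain ⟨F, hF1, hF2, hF3⟩ := h4 d hd d' hd' hlt
          refine ⟨F, ?_, hF2, hF3⟩
          intro i hi
          have := hF1 hi
          rw [mem_range] at this ⊢
          omega

/-- The packing property of the tail of an A-sequence. -/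
theorem tail_of_isA {a : ℕ → ℕ} (hA : IsA a) (J X : ℕ) (D : Finset ℕ) (s : ℕ) (hD : DS a J D)
    (hs : s ∈ D) (hs' : ∀ d ∈ D, d ≤ s) (hX : X ≤ a J) :
    Tail D.card s X (fun i => a (J + i)) := by
  refine ⟨?_, by simpa using hX, ?_⟩
  · intro i j hij
    exact hA.mono (by omega)
  · intro k i hki
    obtain ⟨h1, h2, h3, h4⟩ := DD_facts hA J D s hD hs hs' k
    set E := DD (fun i => a (J + i)) D s k with hE
    set sk := s + ∑ l ∈ range k, a (J + l) with hsk
    have hcard : (Icc k i ×ˢ E).card ≤ (Icc (a (J + k)) (a (J + i) + sk)).card := by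
      apply card_le_card_of_injOn (fun p => a (J + p.1) + p.2)
      · intro p hp
        rw [mem_coe, mem_product, mem_Icc] at hp
        rw [mem_coe, mem_Icc]
        have h5 : a (J + k) ≤ a (J + p.1) := hA.mono.monotone (by omega)
        have h6 : a (J + p.1) ≤ a (J + i) := hA.mono.monotone (by omega)
        have h7 := h1 p.2 hp.2
        constructor
        · simp only; omega
        · simp only; omega
      · -- injectivity
        have key : ∀ l d l' d', k ≤ l → d ∈ E → d' ∈ E → l < l' →
            a (J + l) + d ≠ a (J + l') + d' := by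
          intro l d l' d' hl hd hd' hll hc
          have h5 : a (J + l) < a (J + l') := hA.mono (by omega)
          obtain ⟨F, hF1, hF2, hF3⟩ := h4 d hd d' hd' (by omega)
          have hn : J + l ∉ F := by
            intro hc2
            have := hF1 hc2
            rw [mem_range] at this
            omega
          apply hA.free (J + l') (insert (J + l) F)
          · intro j hj
            rw [mem_insert] at hj
            rcases hj with hj | hj
            · omega
            · have := hF1 hj
              rw [mem_range] at this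
              omega
          · rw [card_insert_of_notMem hn]
            have := hF2.card_pos
            omega
          · rw [sum_insert hn, hF3]; omega
        intro p hp p' hp' hpp
        rw [mem_coe, mem_product, mem_Icc] at hp hp'
        simp only at hpp
        rcases lt_trichotomy p.1 p'.1 with h | h | h
        · exact absurd hpp (key _ _ _ _ hp.1.1 hp.2 hp'.2 h)
        · have : p.2 = p'.2 := by rw [h] at hpp; omega
          exact Prod.ext h this
        · exact absurd hpp.symm (key _ _ _ _ hp'.1.1 hp'.2 hp.2 h)
    rw [card_product, Nat.card_Icc, Nat.card_Icc, h3] at hcard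
    have h5 : a (J + k) ≤ a (J + i) := hA.mono.monotone (by omega)
    rw [mul_comm] at hcard
    omega

/-- The list of pairs (sum, number of summands) of all subsets of the first `J` terms. -/
def subsC (p : ℕ → ℕ) : ℕ → List (ℕ × ℕ)
  | 0 => [(0, 0)]
  | J + 1 => subsC p J ++ (subsC p J).map (fun v => (v.1 + p J, v.2 + 1))

lemma subsC_mem (p : ℕ → ℕ) (J : ℕ) (v c : ℕ) (h : (v, c) ∈ subsC p J) :
    ∃ F : Finset ℕ, F ⊆ range J ∧ F.card = c ∧ ∑ i ∈ F, p i = v := by
  induction J generalizing v c with
  | zero =>
    simp only [subsC, List.mem_singleton, Prod.mk.injEq] at h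
    exact ⟨∅, by simp, by simp [h.2], by simp [h.1]⟩
  | succ J ih =>
    rw [subsC, List.mem_append, List.mem_map] at h
    rcases h with h | ⟨⟨v', c'⟩, h1, h2⟩
    · obtain ⟨F, h1, h2, h3⟩ := ih v c h
      refine ⟨F, ?_, h2, h3⟩
      intro i hi
      have := h1 hi
      rw [mem_range] at this ⊢
      omega
    · obtain ⟨F, h3, h4, h5⟩ := ih v' c' h1
      simp only [Prod.mk.injEq] at h2
      have hn : J ∉ F := by
        intro hc
        have := h3 hc
        rw [mem_range] at this
        omega
      refine ⟨insert J F, ?_, ?_, ?_⟩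
      · intro i hi
        rw [mem_insert] at hi
        rw [mem_range]
        rcases hi with hi | hi
        · omega
        · have := h3 hi
          rw [mem_range] at this
          omega
      · rw [card_insert_of_notMem hn]; omega
      · rw [sum_insert hn]; omega

/-- Every A-sequence with the given first terms and next term at least `X` has partial sums of
reciprocals at most `B`. -/
def Good (B : ℝ) (pre : List ℕ) (X : ℕ) : Prop :=
  ∀ a : ℕ → ℕ, IsA a → (∀ i, i < pre.length → a i = pre.getD i 0) → X ≤ a pre.length →
    ∀ N, ∑ i ∈ range N, (1 : ℝ) / a i ≤ B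

lemma Good.branch {B : ℝ} {pre : List ℕ} {X : ℕ} (h1 : Good B (pre ++ [X]) (X + 1))
    (h2 : Good B pre (X + 1)) : Good B pre X := by
  intro a hA hpre hX
  rcases Nat.eq_or_lt_of_le hX with h | h
  · apply h1 a hA
    · intro i hi
      rw [List.length_append, List.length_singleton] at hi
      rcases Nat.lt_or_ge i pre.length with h3 | h3
      · rw [hpre i h3, List.getD_append _ _ _ _ h3]
      · have h4 : i = pre.length := by omega
        rw [h4, List.getD_append_right _ _ _ _ le_rfl, ← h]
        simp
    · rw [List.length_append, List.length_singleton, h]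
      exact hA.mono (by omega)
  · exact h2 a hA hpre h

lemma Good.skip {B : ℝ} {pre : List ℕ} {X : ℕ}
    (hs : (subsC (fun i => pre.getD i 0) pre.length).any
      (fun v => decide (v.1 = X) && decide (2 ≤ v.2)) = true)
    (h2 : Good B pre (X + 1)) : Good B pre X := by
  intro a hA hpre hX
  rcases Nat.eq_or_lt_of_le hX with h | h
  · exfalso
    rw [List.any_eq_true] at hs
    obtain ⟨⟨v, c⟩, h1, h3⟩ := hs
    simp only [Bool.and_eq_true, decide_eq_true_eq] at h3
    obtain ⟨F, hF1, hF2, hF3⟩ := subsC_mem _ _ v c h1
    apply hA.free pre.length F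
    · intro i hi
      have := hF1 hi
      rwa [mem_range] at this
    · omega
    · rw [← h, ← h3.1, ← hF3]
      apply sum_congr rfl
      intro i hi
      have := hF1 hi
      rw [mem_range] at this
      exact hpre i this
  · exact h2 a hA hpre h

/-- The check of a shift set: all differences of the (increasing) list are sums of distinct terms. -/
def okD (pre : List ℕ) (D : List ℕ) (s : ℕ) : Bool :=
  let S := (subsC (fun i => pre.getD i 0) pre.length).map Prod.fst
  D.all (fun d => decide (d ≤ s) && D.all (fun d' => decide (d ≤ d') || S.contains (d - d'))) &&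
    D.contains s && decide D.Nodup

lemma okD_DS {pre D : List ℕ} {s : ℕ} (h : okD pre D s = true) (a : ℕ → ℕ)
    (hpre : ∀ i, i < pre.length → a i = pre.getD i 0) :
    DS a pre.length D.toFinset ∧ s ∈ D.toFinset ∧ (∀ d ∈ D.toFinset, d ≤ s) ∧
      D.toFinset.card = D.length := by
  simp only [okD, Bool.and_eq_true, List.all_eq_true, decide_eq_true_eq, Bool.or_eq_true,
    List.contains_iff_mem] at h
  obtain ⟨⟨h1, h2⟩, h3⟩ := h
  refine ⟨?_, by simpa using h2, ?_, List.toFinset_card_of_nodup h3⟩
  · intro d hd d' hd' hlt
    rw [List.mem_toFinset] at hd hd'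
    have h4 := (h1 d hd).2 d' hd'
    rcases h4 with h4 | h4
    · omega
    · rw [List.mem_map] at h4
      obtain ⟨⟨v, c⟩, h5, h6⟩ := h4
      obtain ⟨F, hF1, hF2, hF3⟩ := subsC_mem _ _ v c h5
      simp only at h6
      refine ⟨F, hF1, ?_, ?_⟩
      · rw [nonempty_iff_ne_empty]
        intro hc
        rw [hc] at hF3
        simp at hF3
        omega
      · rw [← h6, ← hF3]
        apply sum_congr rfl
        intro i hi
        have := hF1 hi
        rw [mem_range] at this
        exact hpre i this
  · intro d hd
    rw [List.mem_toFinset] at hd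
    exact (h1 d hd).1

/-- A leaf of the case distinction. -/
theorem Good.leaf {B : ℝ} {pre : List ℕ} {X : ℕ} (D : List ℕ) (s e C : ℕ)
    (L : List (ℕ × ℕ × ℕ)) (hD : okD pre D s = true)
    (hok : (okL D.length s X e L && decide (costL e L ≤ C) && decide (3 ≤ X) && decide (X ≤ 1000) &&
      decide (D.length ≤ 100) && decide (s ≤ 1000000) && decide (2 ^ 20 ≤ e * D.length) &&
      decide (2 ^ 20 * (s + 1) ≤ e * D.length * X)) = true)
    (hB : (pre.map (fun p => (1 : ℝ) / (p : ℕ))).sum + 0.6931471808 * C / (4 * 2 ^ 20) ≤ B) :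
    Good B pre X := by
  simp only [Bool.and_eq_true, decide_eq_true_eq] at hok
  obtain ⟨⟨⟨⟨⟨⟨⟨c1, c2⟩, c3⟩, c4⟩, c5⟩, c6⟩, c7⟩, c8⟩ := hok
  intro a hA hpre hX N
  obtain ⟨d1, d2, d3, d4⟩ := okD_DS hD a hpre
  have T := tail_of_isA hA pre.length X D.toFinset s d1 d2 d3 hX
  rw [d4] at T
  have h1 := tail_bound T c3 c4 c5 c6 e L c1 c7 c8 N
  have h2 : ∑ i ∈ range N, (1 : ℝ) / a i ≤ ∑ i ∈ range (pre.length + N), (1 : ℝ) / a i := by
    apply sum_le_sum_of_subset_of_nonneg
    · intro i hi
      rw [mem_range] at hi ⊢
      omega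
    · intro i _ _
      positivity
  have h3 : ∑ i ∈ range (pre.length + N), (1 : ℝ) / a i =
      ∑ i ∈ range pre.length, (1 : ℝ) / a i + ∑ i ∈ range N, (1 : ℝ) / a (pre.length + i) :=
    sum_range_add _ _ _
  have h4 : ∑ i ∈ range pre.length, (1 : ℝ) / a i = (pre.map (fun p => (1 : ℝ) / (p : ℕ))).sum := by
    have h5 : ∑ i ∈ range pre.length, (1 : ℝ) / a i =
        ∑ i ∈ range pre.length, (1 : ℝ) / (pre.getD i 0 : ℕ) := by
      apply sum_congr rfl
      intro i hi
      rw [mem_range] at hi
      rw [hpre i hi]
    rw [h5]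
    clear h5 h3 h2 h1 T d1 d2 d3 d4 hX hpre hB hD c1 c2 c7 c8
    induction pre with
    | nil => simp
    | cons p t ih =>
      rw [List.length_cons, sum_range_succ', List.map_cons, List.sum_cons, ← ih, add_comm]
      simp
  have h5 : Real.log 2 < 0.6931471808 := Real.log_two_lt_d9
  have h6 : Real.log 2 * (costL e L : ℝ) / (4 * 2 ^ 20) ≤ 0.6931471808 * C / (4 * 2 ^ 20) := by
    apply div_le_div_of_nonneg_right _ (by positivity)
    apply mul_le_mul h5.le _ (by positivity) (by norm_num)
    exact_mod_cast c2
  linarith

end Pool.Agent.Helper994_AS
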