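import Mathlib

set_option autoImplicit false

/-!
# An upper bound for reciprocal sums of sequences with a packing property

`b` is a strictly increasing sequence with `b 0 ≥ X` such that for all `k ≤ i` the
`(m + k) (i + 1 - k)` translates of `b k, …, b i` by `m + k` shifts of size at most
`s + b 0 + … + b (k - 1)` are distinct.  We bound the sum of `1 / b i` by a layer cake argument: for
every level `ε` the set of all `x` for which `b` has more than `ε x` terms up to `x` has small
logarithmic measure.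
-/

namespace Pool.Agent.Helper994_AS

open Finset

/-- The packing property of the tail of a sequence. -/
structure Tail (m s X : ℕ) (b : ℕ → ℕ) : Prop where
  mono : StrictMono b
  lb : X ≤ b 0
  con : ∀ k i, k ≤ i → (m + k) * (i + 1 - k) + b k ≤ b i + 1 + s + ∑ l ∈ range k, b l

/-- The number of the first `N` terms which are at most `x`. -/
def cnt (b : ℕ → ℕ) (N x : ℕ) : ℕ := ((range N).filter (fun i => b i ≤ x)).card

lemma cnt_le {b : ℕ → ℕ} (hb : StrictMono b) (N x : ℕ) (h : 1 ≤ cnt b N x) :
    b (cnt b N x - 1) ≤ x := by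
  by_contra hc
  push Not at hc
  have h1 : (range N).filter (fun i => b i ≤ x) ⊆ range (cnt b N x - 1) := by
    intro i hi
    rw [mem_filter] at hi
    rw [mem_range]
    by_contra h2
    push Not at h2
    have := hb.monotone h2
    omega
  have h2 := card_le_card h1
  rw [card_range] at h2
  unfold cnt at h h2
  omega

variable {m s X : ℕ} {b : ℕ → ℕ}

lemma cnt_zero_bound (T : Tail m s X b) (N x : ℕ) (h : 1 ≤ cnt b N x) :
    m * cnt b N x + X ≤ x + 1 + s := by
  have h1 := T.con 0 (cnt b N x - 1) (Nat.zero_le _)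
  have h2 := cnt_le T.mono N x h
  have h3 := T.lb
  simp only [add_zero, range_zero, sum_empty, Nat.sub_zero] at h1
  have e : cnt b N x - 1 + 1 = cnt b N x := by omega
  rw [e] at h1
  omega

lemma cnt_bound (T : Tail m s X b) (N x k : ℕ) (hk : 1 ≤ k) :
    (m + k) * (cnt b N x - k) ≤ x + s + (k - 1) * b (k - 1) := by
  rcases Nat.lt_or_ge k (cnt b N x) with h | h
  · have h1 := T.con k (cnt b N x - 1) (by omega)
    have h2 := cnt_le T.mono N x (by omega)
    have h3 : ∑ l ∈ range k, b l ≤ k * b (k - 1) := by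
      calc ∑ l ∈ range k, b l ≤ ∑ _l ∈ range k, b (k - 1) := by
            apply sum_le_sum
            intro l hl
            rw [mem_range] at hl
            exact T.mono.monotone (by omega)
        _ = k * b (k - 1) := by simp
    have h4 : b (k - 1) < b k := T.mono (by omega)
    have e : cnt b N x - 1 + 1 - k = cnt b N x - k := by omega
    rw [e] at h1
    have e2 : k * b (k - 1) = (k - 1) * b (k - 1) + b (k - 1) := by
      obtain ⟨k', rfl⟩ : ∃ k', k = k' + 1 := ⟨k - 1, by omega⟩
      simp; ring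
    omega
  · have : cnt b N x - k = 0 := by omega
    rw [this]; simp

/-- The logarithmic measure of a finite set of integers in an interval. -/
lemma sum_inv_le (S : Finset ℕ) (p : ℕ) (U : ℝ) (hp : 1 ≤ p) (hU : (p : ℝ) ≤ U)
    (hS : ∀ x ∈ S, p ≤ x ∧ (x : ℝ) + 1 ≤ U) :
    ∑ x ∈ S, (1 : ℝ) / ((x : ℝ) + 1) ≤ Real.log (U / p) := by
  have key : ∀ q : ℕ, p ≤ q → ∑ x ∈ Ico p q, (1 : ℝ) / ((x : ℝ) + 1) ≤ Real.log ((q : ℝ) / p) := by
    intro q hq
    induction q, hq using Nat.le_induction with
    | base =>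
      have : (p : ℝ) ≠ 0 := by positivity
      simp [div_self this]
    | succ q hq ih =>
      rw [sum_Ico_succ_top hq]
      have hq0 : (0 : ℝ) < q := by
        have : 0 < q := by omega
        exact_mod_cast this
      have hp0 : (0 : ℝ) < p := by exact_mod_cast hp
      have e : Real.log (((q + 1 : ℕ) : ℝ) / p) = Real.log ((q : ℝ) / p) +
          Real.log (((q : ℝ) + 1) / q) := by
        rw [← Real.log_mul (by positivity) (by positivity)]
        congr 1
        push_cast
        field_simp
      rw [e]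
      have h2 : (1 : ℝ) / ((q : ℝ) + 1) ≤ Real.log (((q : ℝ) + 1) / q) := by
        have h3 := Real.one_sub_inv_le_log_of_pos (x := ((q : ℝ) + 1) / q) (by positivity)
        have h4 : 1 - (((q : ℝ) + 1) / q)⁻¹ = 1 / ((q : ℝ) + 1) := by
          field_simp; ring
        linarith
      linarith
  have hp0 : (0 : ℝ) < p := by exact_mod_cast hp
  set q : ℕ := ⌊U⌋₊ with hq
  have hU0 : 0 ≤ U := by linarith
  have hqU : (q : ℝ) ≤ U := Nat.floor_le hU0
  have hpq : p ≤ q := Nat.le_floor hU
  have hsub : S ⊆ Ico p q := by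
    intro x hx
    obtain ⟨h1, h2⟩ := hS x hx
    rw [mem_Ico]
    refine ⟨h1, ?_⟩
    have : x + 1 ≤ q := Nat.le_floor (by push_cast; exact h2)
    omega
  calc ∑ x ∈ S, (1 : ℝ) / ((x : ℝ) + 1) ≤ ∑ x ∈ Ico p q, (1 : ℝ) / ((x : ℝ) + 1) := by
        apply sum_le_sum_of_subset_of_nonneg hsub
        intro i _ _
        positivity
    _ ≤ Real.log ((q : ℝ) / p) := key q hpq
    _ ≤ Real.log (U / p) := by
        apply Real.log_le_log
        · have : (0 : ℝ) < q := by
            have : 0 < q := by omega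
            exact_mod_cast this
          positivity
        · gcongr

/-- The logarithmic measure of the level set. -/
noncomputable def mu (b : ℕ → ℕ) (N X M : ℕ) (ε : ℝ) : ℝ :=
  ∑ x ∈ (Ico X M).filter (fun x => ε < (cnt b N x : ℝ) / x), (1 : ℝ) / ((x : ℝ) + 1)

/-- `V y` bounds the elements of the level set beyond `y`. -/
lemma level_bound (T : Tail m s X b) (hX : 1 ≤ X) (N M Q e k : ℕ) (hk : 1 ≤ k)
    (he : Q < e * (m + k)) (he0 : 0 < e) (hQ : 0 < Q)
    (R y0 D : ℕ) (hR : (k - 1) * Q / e ≤ R)
    (hy0 : y0 = max (R + 1) X) (hD : D = e * (m + k) - Q)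
    (W : ℝ) (hW : ((max X (R + 1) : ℕ) : ℝ) / X * ((max (y0 * D)
      (Q * (s + k * (m + k) + (k - 1) * y0) + D) : ℕ) : ℝ) / (y0 * D) ≤ W) :
    mu b N X M ((e : ℝ) / Q) ≤ Real.log W := by
  have hX0 : (0 : ℝ) < X := by exact_mod_cast hX
  have hD0 : 0 < D := by omega
  have hDr : (0 : ℝ) < D := by exact_mod_cast hD0
  have hQr : (0 : ℝ) < Q := by exact_mod_cast hQ
  have her : (0 : ℝ) < e := by exact_mod_cast he0
  set y := b (k - 1) with hy
  have hyX : X ≤ y := le_trans T.lb (T.mono.monotone (Nat.zero_le _))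
  set S := (Ico X M).filter (fun x => (e : ℝ) / Q < (cnt b N x : ℝ) / x) with hS
  -- membership facts
  have hmem : ∀ x ∈ S, X ≤ x ∧ e * x < Q * cnt b N x := by
    intro x hx
    rw [hS, mem_filter, mem_Ico] at hx
    refine ⟨hx.1.1, ?_⟩
    have hx0 : (0 : ℝ) < x := by
      have : 0 < x := by omega
      exact_mod_cast this
    have h := hx.2
    rw [div_lt_div_iff₀ hQr hx0] at h
    have h2 : (e : ℝ) * x < Q * cnt b N x := by linarith
    exact_mod_cast h2
  have hlow : ∀ x ∈ S, x < y → x ≤ R := by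
    intro x hx hxy
    obtain ⟨_, h2⟩ := hmem x hx
    have hc : cnt b N x ≤ k - 1 := by
      by_contra hcc
      push Not at hcc
      have h3 := cnt_le T.mono N x (by omega)
      have h4 : b (k - 1) ≤ b (cnt b N x - 1) := T.mono.monotone (by omega)
      omega
    have h3 : e * x ≤ (k - 1) * Q := by nlinarith
    have h4 : x ≤ (k - 1) * Q / e := by
      rw [Nat.le_div_iff_mul_le he0]
      linarith [mul_comm e x]
    omega
  have hhigh : ∀ x ∈ S, D * x < Q * (s + k * (m + k) + (k - 1) * y) := by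
    intro x hx
    obtain ⟨_, h2⟩ := hmem x hx
    have h3 := cnt_bound T N x k hk
    rw [← hy] at h3
    have h4 : (m + k) * cnt b N x ≤ x + s + (k - 1) * y + k * (m + k) := by
      have : (m + k) * cnt b N x ≤ (m + k) * (cnt b N x - k) + (m + k) * k := by
        rw [← mul_add]
        apply Nat.mul_le_mul_left
        omega
      nlinarith
    have h5 : (m + k) * (e * x) < (m + k) * (Q * cnt b N x) := by
      apply Nat.mul_lt_mul_of_pos_left h2
      omega
    have h6 : (m + k) * (Q * cnt b N x) ≤ Q * (x + s + (k - 1) * y + k * (m + k)) := by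
      calc (m + k) * (Q * cnt b N x) = Q * ((m + k) * cnt b N x) := by ring
        _ ≤ _ := Nat.mul_le_mul_left _ h4
    have h7 : e * (m + k) * x < Q * x + Q * (s + k * (m + k) + (k - 1) * y) := by
      calc e * (m + k) * x = (m + k) * (e * x) := by ring
        _ < _ := h5
        _ ≤ _ := h6
        _ = _ := by ring
    have h8 : D * x = e * (m + k) * x - Q * x := by rw [hD, Nat.sub_mul]
    have h9 : Q * x ≤ e * (m + k) * x := Nat.mul_le_mul_right _ (by omega)
    rw [h8]
    exact Nat.sub_lt_left_of_lt_add h9 h7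
  -- real version of the upper endpoint
  have hhigh' : ∀ x ∈ S, (x : ℝ) + 1 ≤
      ((Q : ℝ) * (s + k * (m + k) + ((k - 1 : ℕ) : ℝ) * y) + D) / D := by
    intro x hx
    have h1 := hhigh x hx
    rw [le_div_iff₀ hDr]
    have h2 : (D : ℝ) * x < Q * (s + k * (m + k) + ((k - 1 : ℕ) : ℝ) * y) := by exact_mod_cast h1
    nlinarith
  have hy0X : X ≤ y0 := by omega
  have hy0R : R + 1 ≤ y0 := by omega
  have hy00 : (0 : ℝ) < y0 := by
    have : 0 < y0 := by omega
    exact_mod_cast this
  -- the bound `U` at `y0`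
  set U : ℝ := ((max (y0 * D) (Q * (s + k * (m + k) + (k - 1) * y0) + D) : ℕ) : ℝ) / D with hU
  have hUy : (y0 : ℝ) ≤ U := by
    rw [hU, le_div_iff₀ hDr]
    have : y0 * D ≤ max (y0 * D) (Q * (s + k * (m + k) + (k - 1) * y0) + D) := le_max_left _ _
    exact_mod_cast this
  have hUV : ((Q : ℝ) * (s + k * (m + k) + ((k - 1 : ℕ) : ℝ) * y0) + D) / D ≤ U := by
    rw [hU]
    apply div_le_div_of_nonneg_right _ hDr.le
    have : Q * (s + k * (m + k) + (k - 1) * y0) + D ≤
      max (y0 * D) (Q * (s + k * (m + k) + (k - 1) * y0) + D) := le_max_right _ _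
    exact_mod_cast this
  have hWU : ((max X (R + 1) : ℕ) : ℝ) / X * (U / y0) ≤ W := by
    refine le_trans (le_of_eq ?_) hW
    rw [hU]
    field_simp
  have hmax1 : (1 : ℝ) ≤ ((max X (R + 1) : ℕ) : ℝ) / X := by
    rw [le_div_iff₀ hX0, one_mul]
    exact_mod_cast le_max_left X (R + 1)
  have hUy1 : (1 : ℝ) ≤ U / y0 := by rw [le_div_iff₀ hy00, one_mul]; exact hUy
  have hmu : mu b N X M ((e : ℝ) / Q) = ∑ x ∈ S, (1 : ℝ) / ((x : ℝ) + 1) := rfl
  rw [hmu]
  rcases Nat.lt_or_ge R y with hc | hc
  · -- `y > R`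
    have hyy : y0 ≤ y := by omega
    have hyr : (0 : ℝ) < y := by
      have : 0 < y := by omega
      exact_mod_cast this
    have hsplit : ∑ x ∈ S, (1 : ℝ) / ((x : ℝ) + 1) =
        ∑ x ∈ S.filter (fun x => x < y), (1 : ℝ) / ((x : ℝ) + 1) +
        ∑ x ∈ S.filter (fun x => ¬ x < y), (1 : ℝ) / ((x : ℝ) + 1) :=
      (sum_filter_add_sum_filter_not S _ _).symm
    have hA : ∑ x ∈ S.filter (fun x => x < y), (1 : ℝ) / ((x : ℝ) + 1) ≤
        Real.log (((max X (R + 1) : ℕ) : ℝ) / X) := by
      apply sum_inv_le _ X _ hX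
      · exact_mod_cast le_max_left X (R + 1)
      · intro x hx
        rw [mem_filter] at hx
        refine ⟨(hmem x hx.1).1, ?_⟩
        have h1 := hlow x hx.1 hx.2
        have h2 : x + 1 ≤ max X (R + 1) := by omega
        exact_mod_cast h2
    have hB : ∑ x ∈ S.filter (fun x => ¬ x < y), (1 : ℝ) / ((x : ℝ) + 1) ≤
        Real.log (U / y0) := by
      have h1 : ∑ x ∈ S.filter (fun x => ¬ x < y), (1 : ℝ) / ((x : ℝ) + 1) ≤
          Real.log ((max (y : ℝ) (((Q : ℝ) * (s + k * (m + k) +
            ((k - 1 : ℕ) : ℝ) * y) + D) / D)) / y) := by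
        apply sum_inv_le _ y _ (by omega)
        · exact le_max_left _ _
        · intro x hx
          rw [mem_filter] at hx
          refine ⟨by omega, ?_⟩
          exact le_trans (hhigh' x hx.1) (le_max_right _ _)
      refine le_trans h1 ?_
      apply Real.log_le_log
      · have : (0 : ℝ) < max (y : ℝ) (((Q : ℝ) * (s + k * (m + k) +
            ((k - 1 : ℕ) : ℝ) * y) + D) / D) := lt_of_lt_of_le hyr (le_max_left _ _)
        positivity
      · rw [div_le_iff₀ hyr]
        apply max_le
        · nlinarith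
        · have h2 : ((Q : ℝ) * (s + k * (m + k) + ((k - 1 : ℕ) : ℝ) * y) + D) / D ≤
              (((Q : ℝ) * (s + k * (m + k) + ((k - 1 : ℕ) : ℝ) * y0) + D) / D) / y0 * y := by
            rw [div_div, div_mul_eq_mul_div, div_le_div_iff₀ hDr (by positivity)]
            have hyyr : (y0 : ℝ) ≤ y := by exact_mod_cast hyy
            have h3 : (0 : ℝ) ≤ (Q : ℝ) * (s + k * (m + k)) + D := by positivity
            have h4 : (0 : ℝ) ≤ ((Q : ℝ) * (s + k * (m + k)) + D) * ((y : ℝ) - y0) :=
              mul_nonneg h3 (by linarith)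
            have h5 : (0 : ℝ) ≤ D * (((Q : ℝ) * (s + k * (m + k)) + D) * ((y : ℝ) - y0)) :=
              mul_nonneg hDr.le h4
            nlinarith
          refine le_trans h2 ?_
          apply mul_le_mul_of_nonneg_right _ hyr.le
          exact div_le_div_of_nonneg_right hUV hy00.le
    rw [hsplit]
    calc _ ≤ Real.log (((max X (R + 1) : ℕ) : ℝ) / X) + Real.log (U / y0) := add_le_add hA hB
      _ = Real.log (((max X (R + 1) : ℕ) : ℝ) / X * (U / y0)) := by
        rw [Real.log_mul (by linarith) (by linarith)]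
      _ ≤ Real.log W := by
        apply Real.log_le_log _ hWU
        have : (0 : ℝ) < ((max X (R + 1) : ℕ) : ℝ) / X := by linarith
        have : (0 : ℝ) < U / y0 := by linarith
        positivity
  · -- `y ≤ R`
    have hy0e : y0 = R + 1 := by omega
    have hm : max X (R + 1) = R + 1 := by omega
    have h1 : ∑ x ∈ S, (1 : ℝ) / ((x : ℝ) + 1) ≤ Real.log (U / X) := by
      apply sum_inv_le _ X _ hX
      · refine le_trans ?_ hUy
        exact_mod_cast hy0X
      · intro x hx
        refine ⟨(hmem x hx).1, ?_⟩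
        refine le_trans (hhigh' x hx) (le_trans ?_ hUV)
        apply div_le_div_of_nonneg_right _ hDr.le
        have h2 : (y : ℝ) ≤ y0 := by
          have : y ≤ y0 := by omega
          exact_mod_cast this
        have h3 : ((k - 1 : ℕ) : ℝ) * y ≤ ((k - 1 : ℕ) : ℝ) * y0 :=
          mul_le_mul_of_nonneg_left h2 (by positivity)
        nlinarith
    refine le_trans h1 ?_
    apply Real.log_le_log
    · have : (0 : ℝ) < U := lt_of_lt_of_le hy00 hUy
      positivity
    · refine le_trans (le_of_eq ?_) hWU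
      rw [hm, hy0e]
      have : ((R + 1 : ℕ) : ℝ) ≠ 0 := by positivity
      field_simp

end Pool.Agent.Helper994_AS
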