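import Pool.Agent.Helper994_AS.Tail

set_option autoImplicit false

/-!
# The layer cake recursion and certificates
-/

namespace Pool.Agent.Helper994_AS

open Finset

/-- The truncated sum. -/
noncomputable def Phi (b : ℕ → ℕ) (N X M : ℕ) (ε : ℝ) : ℝ :=
  ∑ x ∈ Ico X M, min ((cnt b N x : ℝ) / x) ε / ((x : ℝ) + 1)

lemma Phi_step {b : ℕ → ℕ} {N X M : ℕ} {ε ε' w : ℝ} (h : ε' ≤ ε) (hw : mu b N X M ε' ≤ w) :
    Phi b N X M ε ≤ Phi b N X M ε' + (ε - ε') * w := by
  have h1 : Phi b N X M ε ≤ Phi b N X M ε' + (ε - ε') * mu b N X M ε' := by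
    unfold Phi mu
    rw [sum_filter, mul_sum, ← sum_add_distrib]
    apply sum_le_sum
    intro x _
    have hx : (0 : ℝ) < (x : ℝ) + 1 := by positivity
    split_ifs with hc
    · rw [min_eq_right hc.le]
      have h2 : min ((cnt b N x : ℝ) / x) ε ≤ ε := min_le_right _ _
      rw [div_add' _ _ _ hx.ne', div_le_div_iff_of_pos_right hx]
      have : (ε - ε') * (1 / ((x : ℝ) + 1)) * ((x : ℝ) + 1) = ε - ε' := by field_simp
      linarith
    · push Not at hc
      rw [min_eq_left hc, min_eq_left (le_trans hc h)]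
      simp
  have h2 : (ε - ε') * mu b N X M ε' ≤ (ε - ε') * w :=
    mul_le_mul_of_nonneg_left hw (by linarith)
  linarith

lemma Phi_le (b : ℕ → ℕ) (N X M : ℕ) (ε : ℝ) :
    Phi b N X M ε ≤ ε * ∑ x ∈ Ico X M, (1 : ℝ) / ((x : ℝ) + 1) := by
  unfold Phi
  rw [mul_sum]
  apply sum_le_sum
  intro x _
  have hx : (0 : ℝ) < (x : ℝ) + 1 := by positivity
  rw [mul_one_div]
  exact div_le_div_of_nonneg_right (min_le_right _ _) hx.le

/-- Partial summation. -/
lemma sum_le_Phi {b : ℕ → ℕ} {N X M : ℕ} {ε : ℝ} (hX : 1 ≤ X) (hbX : ∀ i, X ≤ b i)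
    (hM : ∀ i < N, b i ≤ M) (hM0 : 0 < M)
    (hε : ∀ x, X ≤ x → (cnt b N x : ℝ) / x ≤ ε) :
    ∑ i ∈ range N, (1 : ℝ) / b i ≤ Phi b N X M ε + N / M := by
  have hMr : (0 : ℝ) < M := by exact_mod_cast hM0
  have h1 : ∀ i ∈ range N, (1 : ℝ) / b i =
      ∑ x ∈ Ico X M, (if b i ≤ x then (1 : ℝ) / (x * (x + 1)) else 0) + 1 / M := by
    intro i hi
    rw [mem_range] at hi
    have h2 : ∀ q, b i ≤ q → ∑ x ∈ Ico X q, (if b i ≤ x then (1 : ℝ) / (x * (x + 1)) else 0) =
        1 / (b i : ℝ) - 1 / q := by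
      intro q hq
      induction q, hq using Nat.le_induction with
      | base =>
        rw [sub_self]
        apply sum_eq_zero
        intro x hx
        rw [mem_Ico] at hx
        rw [if_neg (by omega)]
      | succ q hq ih =>
        rw [sum_Ico_succ_top (le_trans (hbX i) hq), ih, if_pos hq]
        have hq0 : (0 : ℝ) < q := by
          have : 0 < q := by have := hbX i; omega
          exact_mod_cast this
        have hb0 : (0 : ℝ) < b i := by
          have : 0 < b i := by have := hbX i; omega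
          exact_mod_cast this
        push_cast
        field_simp
        ring
    rw [h2 M (hM i hi)]
    ring
  rw [sum_congr rfl h1, sum_add_distrib, sum_comm]
  have h3 : ∑ _i ∈ range N, (1 : ℝ) / M = N / M := by
    rw [sum_const, card_range, nsmul_eq_mul, mul_one_div]
  rw [h3]
  gcongr
  unfold Phi
  apply sum_le_sum
  intro x hx
  rw [mem_Ico] at hx
  rw [← sum_filter, sum_const, nsmul_eq_mul, min_eq_left (hε x hx.1)]
  have hx0 : (0 : ℝ) < x := by
    have : 0 < x := by omega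
    exact_mod_cast this
  have : ((filter (fun i => b i ≤ x) (range N)).card : ℝ) = (cnt b N x : ℝ) := rfl
  rw [this]
  apply le_of_eq
  field_simp

/-- The bound for the dyadic levels. -/
lemma mu_dyadic {m s X : ℕ} {b : ℕ → ℕ} (T : Tail m s X b) (hX : 3 ≤ X) (hX2 : X ≤ 1000)
    (hm : m ≤ 100) (hs : s ≤ 1000000) (N M q : ℕ) :
    mu b N X M (1 / 2 ^ (10 + q)) ≤ (31 + 3 * q) * Real.log 2 := by
  set t : ℕ := 2 ^ (10 + q) with ht
  have ht1 : 1024 ≤ t := by
    rw [ht, pow_add]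
    have : 1 ≤ 2 ^ q := Nat.one_le_two_pow
    omega
  obtain ⟨k1, hk1⟩ : ∃ k1, 2 * t = k1 + 1 := ⟨2 * t - 1, by omega⟩
  have hy0 : X ≤ k1 * t + 1 := by nlinarith
  have key := level_bound T (by omega) N M t 1 (k1 + 1) (by omega) (by omega) (by omega)
    (by omega) (k1 * t) (k1 * t + 1) (m + t) (by simp) (by omega) (by omega)
    (2 * (t : ℝ) ^ 3) ?_
  · have e1 : ((1 : ℕ) : ℝ) / (t : ℝ) = 1 / 2 ^ (10 + q) := by rw [ht]; push_cast; rfl
    rw [e1] at key
    refine le_trans key (le_of_eq ?_)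
    have e2 : 2 * (t : ℝ) ^ 3 = 2 ^ (31 + 3 * q) := by
      rw [ht]; push_cast; ring
    rw [e2, Real.log_pow]
    push_cast
    ring
  · have hmx : max X (k1 * t + 1) = k1 * t + 1 := by omega
    rw [hmx]
    simp only [Nat.add_sub_cancel]
    have ht0 : 0 < t := by omega
    have hX0 : (0 : ℝ) < X := by
      have : 0 < X := by omega
      exact_mod_cast this
    have hD0 : (0 : ℝ) < ((m + t : ℕ) : ℝ) := by
      have : 0 < m + t := by omega
      exact_mod_cast this
    have hy0' : (0 : ℝ) < ((k1 * t + 1 : ℕ) : ℝ) := by positivity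
    have hk1t : k1 ≤ 2 * t := by omega
    have hbig : s + (k1 + 1) * (m + (k1 + 1)) + k1 * (k1 * t + 1) + 1 ≤ 6 * t ^ 3 := by
      have a1 : (k1 + 1) * (m + (k1 + 1)) ≤ 2 * t * (100 + 2 * t) := by
        rw [← hk1]
        apply Nat.mul_le_mul_left
        omega
      have a2 : k1 * (k1 * t + 1) ≤ 2 * t * (2 * t * t + 1) := by
        apply Nat.mul_le_mul hk1t
        have : k1 * t ≤ 2 * t * t := Nat.mul_le_mul_right _ hk1t
        omega
      have a3 : 1000000 ≤ t ^ 2 := by nlinarith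
      nlinarith [Nat.mul_le_mul_left (t ^ 2) ht1]
    have hP : max ((k1 * t + 1) * (m + t))
        (t * (s + (k1 + 1) * (m + (k1 + 1)) + k1 * (k1 * t + 1)) + (m + t)) ≤
        (m + t) * (X * (2 * t ^ 3)) := by
      have b1 : 6 * t ^ 3 ≤ X * (2 * t ^ 3) := by
        have : 3 * (2 * t ^ 3) ≤ X * (2 * t ^ 3) := Nat.mul_le_mul_right _ hX
        omega
      apply max_le
      · rw [mul_comm]
        apply Nat.mul_le_mul_left
        have : k1 * t + 1 ≤ k1 * (k1 * t + 1) := by nlinarith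
        omega
      · calc t * (s + (k1 + 1) * (m + (k1 + 1)) + k1 * (k1 * t + 1)) + (m + t)
            ≤ (m + t) * (s + (k1 + 1) * (m + (k1 + 1)) + k1 * (k1 * t + 1)) + (m + t) := by
              gcongr
              omega
          _ = (m + t) * (s + (k1 + 1) * (m + (k1 + 1)) + k1 * (k1 * t + 1) + 1) := by ring
          _ ≤ _ := Nat.mul_le_mul_left _ (le_trans hbig b1)
    have hPr : ((max ((k1 * t + 1) * (m + t))
        (t * (s + (k1 + 1) * (m + (k1 + 1)) + k1 * (k1 * t + 1)) + (m + t)) : ℕ) : ℝ) ≤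
        ((m + t : ℕ) : ℝ) * (X * (2 * (t : ℝ) ^ 3)) := by
      exact_mod_cast hP
    rw [div_mul_eq_mul_div, div_div, div_le_iff₀ (by positivity)]
    calc ((k1 * t + 1 : ℕ) : ℝ) * _ ≤ ((k1 * t + 1 : ℕ) : ℝ) *
        (((m + t : ℕ) : ℝ) * (X * (2 * (t : ℝ) ^ 3))) :=
          mul_le_mul_of_nonneg_left hPr hy0'.le
      _ = _ := by ring

lemma Phi_dyadic {m s X : ℕ} {b : ℕ → ℕ} (T : Tail m s X b) (hX : 3 ≤ X) (hX2 : X ≤ 1000)
    (hm : m ≤ 100) (hs : s ≤ 1000000) (N M n : ℕ) :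
    Phi b N X M (1 / 2 ^ 10) ≤ Phi b N X M (1 / 2 ^ (10 + n)) +
      Real.log 2 * (37 / 1024 - (37 + 3 * n) / 2 ^ (10 + n)) := by
  induction n with
  | zero => norm_num
  | succ n ih =>
    have h1 : (1 : ℝ) / 2 ^ (10 + (n + 1)) ≤ 1 / 2 ^ (10 + n) := by
      apply one_div_le_one_div_of_le (by positivity)
      apply pow_le_pow_right₀ (by norm_num)
      omega
    have h2 := Phi_step h1 (mu_dyadic T hX hX2 hm hs N M (n + 1))
    refine le_trans ih (le_trans (add_le_add_left h2 _) (le_of_eq ?_))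
    have e : (2 : ℝ) ^ (10 + (n + 1)) = 2 * 2 ^ (10 + n) := by ring
    rw [e]
    have h3 : (2 : ℝ) ^ (10 + n) ≠ 0 := by positivity
    push_cast
    field_simp
    ring

lemma Phi_small {m s X : ℕ} {b : ℕ → ℕ} (T : Tail m s X b) (hX : 3 ≤ X) (hX2 : X ≤ 1000)
    (hm : m ≤ 100) (hs : s ≤ 1000000) (N M : ℕ) :
    Phi b N X M (1 / 2 ^ 10) ≤ Real.log 2 * (37 / 1024) := by
  apply le_of_forall_pos_le_add
  intro δ hδ
  set H := ∑ x ∈ Ico X M, (1 : ℝ) / ((x : ℝ) + 1) with hH
  have hH0 : 0 ≤ H := sum_nonneg (fun x _ => by positivity)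
  obtain ⟨n, hn⟩ := exists_nat_gt (H / δ)
  have h1 := Phi_dyadic T hX hX2 hm hs N M n
  have h2 := Phi_le b N X M (1 / 2 ^ (10 + n))
  rw [← hH] at h2
  have h3 : (n : ℝ) ≤ 2 ^ (10 + n) := by
    have h4 : n ≤ 2 ^ (10 + n) := by
      calc n ≤ 2 ^ n := Nat.lt_two_pow_self.le
        _ ≤ 2 ^ (10 + n) := Nat.pow_le_pow_right (by norm_num) (by omega)
    exact_mod_cast h4
  have h5 : 1 / 2 ^ (10 + n) * H ≤ δ := by
    rw [div_mul_eq_mul_div, one_mul, div_le_iff₀ (by positivity)]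
    rw [div_lt_iff₀ hδ] at hn
    nlinarith
  have h6 : 0 ≤ Real.log 2 := Real.log_nonneg (by norm_num)
  have h7 : Real.log 2 * (37 / 1024 - (37 + 3 * n) / 2 ^ (10 + n)) ≤
      Real.log 2 * (37 / 1024) := by
    apply mul_le_mul_of_nonneg_left _ h6
    have : (0 : ℝ) ≤ (37 + 3 * n) / 2 ^ (10 + n) := by positivity
    linarith
  linarith

/-- The check of a level `e / 2 ^ 20` with the bound `w * log 2 / 4`. -/
def levelOK (m s X e k w : ℕ) : Bool :=
  let Q := 2 ^ 20
  let R := (k - 1) * Q / e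
  let y0 := max (R + 1) X
  let D := e * (m + k) - Q
  decide (1 ≤ k) && decide (0 < e) && decide (Q < e * (m + k)) &&
    decide ((max X (R + 1) * max (y0 * D) (Q * (s + k * (m + k) + (k - 1) * y0) + D)) ^ 4 ≤
      2 ^ w * (X * (y0 * D)) ^ 4)

/-- The check of a list of levels, starting at `e / 2 ^ 20`. -/
def okL (m s X : ℕ) : ℕ → List (ℕ × ℕ × ℕ) → Bool
  | e, [] => decide (1024 ≤ e)
  | e, (e', k, w) :: t => decide (e' ≤ e) && levelOK m s X e' k w && okL m s X e' t

/-- The cost of a list of levels. -/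
def costL : ℕ → List (ℕ × ℕ × ℕ) → ℕ
  | e, [] => 4 * (31 * (e - 1024) + 37 * 1024)
  | e, (e', _, w) :: t => (e - e') * w + costL e' t

lemma log_of_pow4 (A X P y D : ℝ) (w : ℕ) (hA : 0 < A) (hX : 0 < X) (hP : 0 < P) (hy : 0 < y)
    (hD : 0 < D) (h : (A * P) ^ 4 ≤ 2 ^ w * (X * (y * D)) ^ 4) :
    Real.log (A / X * P / (y * D)) ≤ w * Real.log 2 / 4 := by
  set W := A / X * P / (y * D) with hW
  have hW0 : 0 < W := by positivity
  have h6 : W ^ 4 ≤ 2 ^ w := by
    have e2 : W = (A * P) / (X * (y * D)) := by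
      rw [hW]; field_simp
    rw [e2, div_pow, div_le_iff₀ (by positivity)]
    exact h
  have h7 : Real.log (W ^ 4) ≤ Real.log (2 ^ w) := Real.log_le_log (by positivity) h6
  rw [Real.log_pow, Real.log_pow] at h7
  push_cast at h7
  linarith

lemma level_cert {m s X : ℕ} {b : ℕ → ℕ} (T : Tail m s X b) (hX : 1 ≤ X) (N M e k w : ℕ)
    (h : levelOK m s X e k w = true) :
    mu b N X M ((e : ℝ) / 2 ^ 20) ≤ w * Real.log 2 / 4 := by
  unfold levelOK at h
  simp only [Bool.and_eq_true, decide_eq_true_eq] at h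
  obtain ⟨⟨⟨h1, h2⟩, h3⟩, h4⟩ := h
  set R := (k - 1) * 2 ^ 20 / e with hR
  set y0 := max (R + 1) X with hy0
  set D := e * (m + k) - 2 ^ 20 with hD
  set P2 := max (y0 * D) (2 ^ 20 * (s + k * (m + k) + (k - 1) * y0) + D) with hP2
  have hX0 : (0 : ℝ) < X := by exact_mod_cast hX
  have hD0 : (0 : ℝ) < D := by
    have : 0 < D := by omega
    exact_mod_cast this
  have hy00 : (0 : ℝ) < y0 := by
    have : 0 < y0 := by omega
    exact_mod_cast this
  have hP20 : (0 : ℝ) < (P2 : ℝ) := by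
    have h5 : 0 < y0 * D := by
      apply Nat.mul_pos <;> omega
    have : 0 < P2 := by omega
    exact_mod_cast this
  have hm0 : (0 : ℝ) < ((max X (R + 1) : ℕ) : ℝ) := by
    have : 0 < max X (R + 1) := by omega
    exact_mod_cast this
  have key := level_bound T hX N M (2 ^ 20) e k h1 h3 h2 (by norm_num) R y0 D le_rfl hy0 hD
    (((max X (R + 1) : ℕ) : ℝ) / X * (P2 : ℝ) / (y0 * D)) (le_of_eq rfl)
  have e1 : ((2 ^ 20 : ℕ) : ℝ) = 2 ^ 20 := by norm_num
  rw [e1] at key
  refine le_trans key ?_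
  clear_value P2 y0 D R
  apply log_of_pow4 _ _ _ _ _ _ hm0 hX0 hP20 hy00 hD0
  exact_mod_cast h4

lemma Phi_cert {m s X : ℕ} {b : ℕ → ℕ} (T : Tail m s X b) (hX : 3 ≤ X) (hX2 : X ≤ 1000)
    (hm : m ≤ 100) (hs : s ≤ 1000000) (N M : ℕ) :
    ∀ (L : List (ℕ × ℕ × ℕ)) (e : ℕ), okL m s X e L = true →
      Phi b N X M ((e : ℝ) / 2 ^ 20) ≤ Real.log 2 * (costL e L : ℝ) / (4 * 2 ^ 20) := by
  intro L
  induction L with
  | nil =>
    intro e he
    simp only [okL, decide_eq_true_eq] at he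
    have h1 : (1 : ℝ) / 2 ^ 10 ≤ (e : ℝ) / 2 ^ 20 := by
      rw [div_le_div_iff₀ (by positivity) (by positivity)]
      have : (1024 : ℝ) ≤ e := by exact_mod_cast he
      nlinarith
    have h2 := Phi_step h1 (by simpa using mu_dyadic T hX hX2 hm hs N M 0)
    have h3 := Phi_small T hX hX2 hm hs N M
    refine le_trans h2 (le_trans (add_le_add_left h3 _) (le_of_eq ?_))
    simp only [costL]
    push_cast [Nat.cast_sub he]
    ring
  | cons a t ih =>
    intro e he
    obtain ⟨e', k, w⟩ := a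
    simp only [okL, Bool.and_eq_true, decide_eq_true_eq] at he
    obtain ⟨⟨h1, h2⟩, h3⟩ := he
    have h4 := ih e' h3
    have h5 := level_cert T (by omega) N M e' k w h2
    have h6 : (e' : ℝ) / 2 ^ 20 ≤ (e : ℝ) / 2 ^ 20 := by
      have : (e' : ℝ) ≤ e := by exact_mod_cast h1
      gcongr
    have h7 := Phi_step h6 h5
    refine le_trans h7 (le_trans (add_le_add_left h4 _) (le_of_eq ?_))
    simp only [costL]
    push_cast [Nat.cast_sub h1]
    ring

/-- The bound for the reciprocal sum of the tail given by a certificate. -/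
theorem tail_bound {m s X : ℕ} {b : ℕ → ℕ} (T : Tail m s X b) (hX : 3 ≤ X) (hX2 : X ≤ 1000)
    (hm : m ≤ 100) (hs : s ≤ 1000000) (e : ℕ) (L : List (ℕ × ℕ × ℕ))
    (hok : okL m s X e L = true) (he1 : 2 ^ 20 ≤ e * m) (he2 : 2 ^ 20 * (s + 1) ≤ e * m * X)
    (N : ℕ) :
    ∑ i ∈ range N, (1 : ℝ) / b i ≤ Real.log 2 * (costL e L : ℝ) / (4 * 2 ^ 20) := by
  apply le_of_forall_pos_le_add
  intro δ hδ
  obtain ⟨M0, hM0⟩ := exists_nat_gt ((N : ℝ) / δ)
  set M := M0 + b N + 1 with hM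
  have hMr : (0 : ℝ) < M := by positivity
  have h1 : ∑ i ∈ range N, (1 : ℝ) / b i ≤ Phi b N X M ((e : ℝ) / 2 ^ 20) + N / M := by
    apply sum_le_Phi (by omega)
    · intro i
      exact le_trans T.lb (T.mono.monotone (Nat.zero_le _))
    · intro i hi
      have := T.mono hi
      omega
    · omega
    · intro x hx
      have hx0 : (0 : ℝ) < x := by
        have : 0 < x := by omega
        exact_mod_cast this
      rw [div_le_div_iff₀ hx0 (by positivity)]
      rcases Nat.eq_zero_or_pos (cnt b N x) with h0 | h0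
      · rw [h0]
        simp only [Nat.cast_zero, zero_mul]
        positivity
      · have h2 := cnt_zero_bound T N x h0
        have hm0 : 0 < m := by
          rcases Nat.eq_zero_or_pos m with h | h
          · rw [h] at he1; norm_num at he1
          · exact h
        have h3 : m * (cnt b N x * 2 ^ 20) ≤ m * (e * x) := by
          have h4 : m * cnt b N x ≤ (x - X) + (s + 1) := by omega
          calc m * (cnt b N x * 2 ^ 20) = 2 ^ 20 * (m * cnt b N x) := by ring
            _ ≤ 2 ^ 20 * ((x - X) + (s + 1)) := Nat.mul_le_mul_left _ h4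
            _ = 2 ^ 20 * (x - X) + 2 ^ 20 * (s + 1) := by ring
            _ ≤ e * m * (x - X) + e * m * X := by gcongr
            _ = e * m * (x - X + X) := by ring
            _ = m * (e * x) := by rw [Nat.sub_add_cancel hx]; ring
        have h5 : cnt b N x * 2 ^ 20 ≤ e * x := Nat.le_of_mul_le_mul_left h3 hm0
        exact_mod_cast h5
  have h2 := Phi_cert T hX hX2 hm hs N M L e hok
  have h3 : (N : ℝ) / M ≤ δ := by
    rw [div_le_iff₀ hMr]
    rw [div_lt_iff₀ hδ] at hM0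
    have h4 : (M0 : ℝ) ≤ M := by
      have : M0 ≤ M := by omega
      exact_mod_cast this
    nlinarith
  linarith

end Pool.Agent.Helper994_AS
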