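import Pool.Agent.Helper994_AS.Leaves0
import Pool.Agent.Helper994_AS.Leaves1
import Pool.Agent.Helper994_AS.Leaves2
import Pool.Agent.Helper994_AS.Leaves3
import Pool.Agent.Helper994_AS.Leaves4
import Pool.Agent.Helper994_AS.Leaves5
import Pool.Agent.Helper994_AS.Leaves6
import Pool.Agent.Helper994_AS.Leaves7
import Pool.Agent.Helper994_AS.Leaves8
import Pool.Agent.Helper994_AS.Leaves9
import Pool.Agent.Helper994_AS.Leaves10
import Pool.Agent.Helper994_AS.Leaves11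
import Pool.Agent.Helper994_AS.Leaves12
import Pool.Agent.Helper994_AS.Leaves13

set_option autoImplicit false

namespace Pool.Agent.Helper994_AS

lemma g_1_2_4_8_X15 : Good (27 / 10) [1, 2, 4, 8] 15 :=
  Good.skip (by decide +kernel) g_1_2_4_8_X16

lemma g_1_2_4_8_X14 : Good (27 / 10) [1, 2, 4, 8] 14 :=
  Good.skip (by decide +kernel) g_1_2_4_8_X15

lemma g_1_2_4_8_X13 : Good (27 / 10) [1, 2, 4, 8] 13 :=
  Good.skip (by decide +kernel) g_1_2_4_8_X14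

lemma g_1_2_4_8_X12 : Good (27 / 10) [1, 2, 4, 8] 12 :=
  Good.skip (by decide +kernel) g_1_2_4_8_X13

lemma g_1_2_4_8_X11 : Good (27 / 10) [1, 2, 4, 8] 11 :=
  Good.skip (by decide +kernel) g_1_2_4_8_X12

lemma g_1_2_4_8_X10 : Good (27 / 10) [1, 2, 4, 8] 10 :=
  Good.skip (by decide +kernel) g_1_2_4_8_X11

lemma g_1_2_4_8_X9 : Good (27 / 10) [1, 2, 4, 8] 9 :=
  Good.skip (by decide +kernel) g_1_2_4_8_X10

lemma g_1_2_4_9_X16 : Good (27 / 10) [1, 2, 4, 9] 16 :=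
  Good.skip (by decide +kernel) g_1_2_4_9_X17

lemma g_1_2_4_9_X15 : Good (27 / 10) [1, 2, 4, 9] 15 :=
  Good.skip (by decide +kernel) g_1_2_4_9_X16

lemma g_1_2_4_9_X14 : Good (27 / 10) [1, 2, 4, 9] 14 :=
  Good.skip (by decide +kernel) g_1_2_4_9_X15

lemma g_1_2_4_9_X13 : Good (27 / 10) [1, 2, 4, 9] 13 :=
  Good.skip (by decide +kernel) g_1_2_4_9_X14

lemma g_1_2_4_9_X12 : Good (27 / 10) [1, 2, 4, 9] 12 :=
  Good.skip (by decide +kernel) g_1_2_4_9_X13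

lemma g_1_2_4_9_X11 : Good (27 / 10) [1, 2, 4, 9] 11 :=
  Good.skip (by decide +kernel) g_1_2_4_9_X12

lemma g_1_2_4_9_X10 : Good (27 / 10) [1, 2, 4, 9] 10 :=
  Good.skip (by decide +kernel) g_1_2_4_9_X11

lemma g_1_2_4_X9 : Good (27 / 10) [1, 2, 4] 9 :=
  Good.branch g_1_2_4_9_X10 g_1_2_4_X10

lemma g_1_2_4_X8 : Good (27 / 10) [1, 2, 4] 8 :=
  Good.branch g_1_2_4_8_X9 g_1_2_4_X9

lemma g_1_2_4_X7 : Good (27 / 10) [1, 2, 4] 7 :=
  Good.skip (by decide +kernel) g_1_2_4_X8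

lemma g_1_2_4_X6 : Good (27 / 10) [1, 2, 4] 6 :=
  Good.skip (by decide +kernel) g_1_2_4_X7

lemma g_1_2_4_X5 : Good (27 / 10) [1, 2, 4] 5 :=
  Good.skip (by decide +kernel) g_1_2_4_X6

lemma g_1_2_5_9_13_X25 : Good (27 / 10) [1, 2, 5, 9, 13] 25 :=
  Good.skip (by decide +kernel) g_1_2_5_9_13_X26

lemma g_1_2_5_9_13_X24 : Good (27 / 10) [1, 2, 5, 9, 13] 24 :=
  Good.skip (by decide +kernel) g_1_2_5_9_13_X25

lemma g_1_2_5_9_13_X23 : Good (27 / 10) [1, 2, 5, 9, 13] 23 :=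
  Good.skip (by decide +kernel) g_1_2_5_9_13_X24

lemma g_1_2_5_9_13_X22 : Good (27 / 10) [1, 2, 5, 9, 13] 22 :=
  Good.skip (by decide +kernel) g_1_2_5_9_13_X23

lemma g_1_2_5_9_13_X21 : Good (27 / 10) [1, 2, 5, 9, 13] 21 :=
  Good.skip (by decide +kernel) g_1_2_5_9_13_X22

lemma g_1_2_5_9_13_X20 : Good (27 / 10) [1, 2, 5, 9, 13] 20 :=
  Good.skip (by decide +kernel) g_1_2_5_9_13_X21

lemma g_1_2_5_9_13_X19 : Good (27 / 10) [1, 2, 5, 9, 13] 19 :=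
  Good.skip (by decide +kernel) g_1_2_5_9_13_X20

lemma g_1_2_5_9_13_X18 : Good (27 / 10) [1, 2, 5, 9, 13] 18 :=
  Good.skip (by decide +kernel) g_1_2_5_9_13_X19

lemma g_1_2_5_9_13_X17 : Good (27 / 10) [1, 2, 5, 9, 13] 17 :=
  Good.skip (by decide +kernel) g_1_2_5_9_13_X18

lemma g_1_2_5_9_13_X16 : Good (27 / 10) [1, 2, 5, 9, 13] 16 :=
  Good.skip (by decide +kernel) g_1_2_5_9_13_X17

lemma g_1_2_5_9_13_X15 : Good (27 / 10) [1, 2, 5, 9, 13] 15 :=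
  Good.skip (by decide +kernel) g_1_2_5_9_13_X16

lemma g_1_2_5_9_13_X14 : Good (27 / 10) [1, 2, 5, 9, 13] 14 :=
  Good.skip (by decide +kernel) g_1_2_5_9_13_X15

lemma g_1_2_5_9_X17 : Good (27 / 10) [1, 2, 5, 9] 17 :=
  Good.skip (by decide +kernel) g_1_2_5_9_X18

lemma g_1_2_5_9_X16 : Good (27 / 10) [1, 2, 5, 9] 16 :=
  Good.skip (by decide +kernel) g_1_2_5_9_X17

lemma g_1_2_5_9_X15 : Good (27 / 10) [1, 2, 5, 9] 15 :=
  Good.skip (by decide +kernel) g_1_2_5_9_X16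

lemma g_1_2_5_9_X14 : Good (27 / 10) [1, 2, 5, 9] 14 :=
  Good.skip (by decide +kernel) g_1_2_5_9_X15

lemma g_1_2_5_9_X13 : Good (27 / 10) [1, 2, 5, 9] 13 :=
  Good.branch g_1_2_5_9_13_X14 g_1_2_5_9_X14

lemma g_1_2_5_9_X12 : Good (27 / 10) [1, 2, 5, 9] 12 :=
  Good.skip (by decide +kernel) g_1_2_5_9_X13

lemma g_1_2_5_9_X11 : Good (27 / 10) [1, 2, 5, 9] 11 :=
  Good.skip (by decide +kernel) g_1_2_5_9_X12

lemma g_1_2_5_9_X10 : Good (27 / 10) [1, 2, 5, 9] 10 :=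
  Good.skip (by decide +kernel) g_1_2_5_9_X11

lemma g_1_2_5_10_14_X22 : Good (27 / 10) [1, 2, 5, 10, 14] 22 :=
  Good.skip (by decide +kernel) g_1_2_5_10_14_X23

lemma g_1_2_5_10_14_X21 : Good (27 / 10) [1, 2, 5, 10, 14] 21 :=
  Good.skip (by decide +kernel) g_1_2_5_10_14_X22

lemma g_1_2_5_10_14_X20 : Good (27 / 10) [1, 2, 5, 10, 14] 20 :=
  Good.skip (by decide +kernel) g_1_2_5_10_14_X21

lemma g_1_2_5_10_14_X19 : Good (27 / 10) [1, 2, 5, 10, 14] 19 :=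
  Good.skip (by decide +kernel) g_1_2_5_10_14_X20

lemma g_1_2_5_10_14_X18 : Good (27 / 10) [1, 2, 5, 10, 14] 18 :=
  Good.skip (by decide +kernel) g_1_2_5_10_14_X19

lemma g_1_2_5_10_14_X17 : Good (27 / 10) [1, 2, 5, 10, 14] 17 :=
  Good.skip (by decide +kernel) g_1_2_5_10_14_X18

lemma g_1_2_5_10_14_X16 : Good (27 / 10) [1, 2, 5, 10, 14] 16 :=
  Good.skip (by decide +kernel) g_1_2_5_10_14_X17

lemma g_1_2_5_10_14_X15 : Good (27 / 10) [1, 2, 5, 10, 14] 15 :=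
  Good.skip (by decide +kernel) g_1_2_5_10_14_X16

lemma g_1_2_5_10_X18 : Good (27 / 10) [1, 2, 5, 10] 18 :=
  Good.skip (by decide +kernel) g_1_2_5_10_X19

lemma g_1_2_5_10_X17 : Good (27 / 10) [1, 2, 5, 10] 17 :=
  Good.skip (by decide +kernel) g_1_2_5_10_X18

lemma g_1_2_5_10_X16 : Good (27 / 10) [1, 2, 5, 10] 16 :=
  Good.skip (by decide +kernel) g_1_2_5_10_X17

lemma g_1_2_5_10_X15 : Good (27 / 10) [1, 2, 5, 10] 15 :=
  Good.skip (by decide +kernel) g_1_2_5_10_X16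

lemma g_1_2_5_10_X14 : Good (27 / 10) [1, 2, 5, 10] 14 :=
  Good.branch g_1_2_5_10_14_X15 g_1_2_5_10_X15

lemma g_1_2_5_10_X13 : Good (27 / 10) [1, 2, 5, 10] 13 :=
  Good.skip (by decide +kernel) g_1_2_5_10_X14

lemma g_1_2_5_10_X12 : Good (27 / 10) [1, 2, 5, 10] 12 :=
  Good.skip (by decide +kernel) g_1_2_5_10_X13

lemma g_1_2_5_10_X11 : Good (27 / 10) [1, 2, 5, 10] 11 :=
  Good.skip (by decide +kernel) g_1_2_5_10_X12

lemma g_1_2_5_11_15_X23 : Good (27 / 10) [1, 2, 5, 11, 15] 23 :=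
  Good.skip (by decide +kernel) g_1_2_5_11_15_X24

lemma g_1_2_5_11_15_X22 : Good (27 / 10) [1, 2, 5, 11, 15] 22 :=
  Good.skip (by decide +kernel) g_1_2_5_11_15_X23

lemma g_1_2_5_11_15_X21 : Good (27 / 10) [1, 2, 5, 11, 15] 21 :=
  Good.skip (by decide +kernel) g_1_2_5_11_15_X22

lemma g_1_2_5_11_15_X20 : Good (27 / 10) [1, 2, 5, 11, 15] 20 :=
  Good.skip (by decide +kernel) g_1_2_5_11_15_X21

lemma g_1_2_5_11_15_X19 : Good (27 / 10) [1, 2, 5, 11, 15] 19 :=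
  Good.skip (by decide +kernel) g_1_2_5_11_15_X20

lemma g_1_2_5_11_15_X18 : Good (27 / 10) [1, 2, 5, 11, 15] 18 :=
  Good.skip (by decide +kernel) g_1_2_5_11_15_X19

lemma g_1_2_5_11_15_X17 : Good (27 / 10) [1, 2, 5, 11, 15] 17 :=
  Good.skip (by decide +kernel) g_1_2_5_11_15_X18

lemma g_1_2_5_11_15_X16 : Good (27 / 10) [1, 2, 5, 11, 15] 16 :=
  Good.skip (by decide +kernel) g_1_2_5_11_15_X17

lemma g_1_2_5_11_X19 : Good (27 / 10) [1, 2, 5, 11] 19 :=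
  Good.skip (by decide +kernel) g_1_2_5_11_X20

lemma g_1_2_5_11_X18 : Good (27 / 10) [1, 2, 5, 11] 18 :=
  Good.skip (by decide +kernel) g_1_2_5_11_X19

lemma g_1_2_5_11_X17 : Good (27 / 10) [1, 2, 5, 11] 17 :=
  Good.skip (by decide +kernel) g_1_2_5_11_X18

lemma g_1_2_5_11_X16 : Good (27 / 10) [1, 2, 5, 11] 16 :=
  Good.skip (by decide +kernel) g_1_2_5_11_X17

lemma g_1_2_5_11_X15 : Good (27 / 10) [1, 2, 5, 11] 15 :=
  Good.branch g_1_2_5_11_15_X16 g_1_2_5_11_X16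

lemma g_1_2_5_11_X14 : Good (27 / 10) [1, 2, 5, 11] 14 :=
  Good.skip (by decide +kernel) g_1_2_5_11_X15

lemma g_1_2_5_11_X13 : Good (27 / 10) [1, 2, 5, 11] 13 :=
  Good.skip (by decide +kernel) g_1_2_5_11_X14

lemma g_1_2_5_11_X12 : Good (27 / 10) [1, 2, 5, 11] 12 :=
  Good.skip (by decide +kernel) g_1_2_5_11_X13

lemma g_1_2_5_12_16_X24 : Good (27 / 10) [1, 2, 5, 12, 16] 24 :=
  Good.skip (by decide +kernel) g_1_2_5_12_16_X25

lemma g_1_2_5_12_16_X23 : Good (27 / 10) [1, 2, 5, 12, 16] 23 :=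
  Good.skip (by decide +kernel) g_1_2_5_12_16_X24

lemma g_1_2_5_12_16_X22 : Good (27 / 10) [1, 2, 5, 12, 16] 22 :=
  Good.skip (by decide +kernel) g_1_2_5_12_16_X23

lemma g_1_2_5_12_16_X21 : Good (27 / 10) [1, 2, 5, 12, 16] 21 :=
  Good.skip (by decide +kernel) g_1_2_5_12_16_X22

lemma g_1_2_5_12_16_X20 : Good (27 / 10) [1, 2, 5, 12, 16] 20 :=
  Good.skip (by decide +kernel) g_1_2_5_12_16_X21

lemma g_1_2_5_12_16_X19 : Good (27 / 10) [1, 2, 5, 12, 16] 19 :=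
  Good.skip (by decide +kernel) g_1_2_5_12_16_X20

lemma g_1_2_5_12_16_X18 : Good (27 / 10) [1, 2, 5, 12, 16] 18 :=
  Good.skip (by decide +kernel) g_1_2_5_12_16_X19

lemma g_1_2_5_12_16_X17 : Good (27 / 10) [1, 2, 5, 12, 16] 17 :=
  Good.skip (by decide +kernel) g_1_2_5_12_16_X18

lemma g_1_2_5_12_X20 : Good (27 / 10) [1, 2, 5, 12] 20 :=
  Good.skip (by decide +kernel) g_1_2_5_12_X21

lemma g_1_2_5_12_X19 : Good (27 / 10) [1, 2, 5, 12] 19 :=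
  Good.skip (by decide +kernel) g_1_2_5_12_X20

lemma g_1_2_5_12_X18 : Good (27 / 10) [1, 2, 5, 12] 18 :=
  Good.skip (by decide +kernel) g_1_2_5_12_X19

lemma g_1_2_5_12_X17 : Good (27 / 10) [1, 2, 5, 12] 17 :=
  Good.skip (by decide +kernel) g_1_2_5_12_X18

lemma g_1_2_5_12_X16 : Good (27 / 10) [1, 2, 5, 12] 16 :=
  Good.branch g_1_2_5_12_16_X17 g_1_2_5_12_X17

lemma g_1_2_5_12_X15 : Good (27 / 10) [1, 2, 5, 12] 15 :=
  Good.skip (by decide +kernel) g_1_2_5_12_X16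

lemma g_1_2_5_12_X14 : Good (27 / 10) [1, 2, 5, 12] 14 :=
  Good.skip (by decide +kernel) g_1_2_5_12_X15

lemma g_1_2_5_12_X13 : Good (27 / 10) [1, 2, 5, 12] 13 :=
  Good.skip (by decide +kernel) g_1_2_5_12_X14

lemma g_1_2_5_13_17_X25 : Good (27 / 10) [1, 2, 5, 13, 17] 25 :=
  Good.skip (by decide +kernel) g_1_2_5_13_17_X26

lemma g_1_2_5_13_17_X24 : Good (27 / 10) [1, 2, 5, 13, 17] 24 :=
  Good.skip (by decide +kernel) g_1_2_5_13_17_X25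

lemma g_1_2_5_13_17_X23 : Good (27 / 10) [1, 2, 5, 13, 17] 23 :=
  Good.skip (by decide +kernel) g_1_2_5_13_17_X24

lemma g_1_2_5_13_17_X22 : Good (27 / 10) [1, 2, 5, 13, 17] 22 :=
  Good.skip (by decide +kernel) g_1_2_5_13_17_X23

lemma g_1_2_5_13_17_X21 : Good (27 / 10) [1, 2, 5, 13, 17] 21 :=
  Good.skip (by decide +kernel) g_1_2_5_13_17_X22

lemma g_1_2_5_13_17_X20 : Good (27 / 10) [1, 2, 5, 13, 17] 20 :=
  Good.skip (by decide +kernel) g_1_2_5_13_17_X21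

lemma g_1_2_5_13_17_X19 : Good (27 / 10) [1, 2, 5, 13, 17] 19 :=
  Good.skip (by decide +kernel) g_1_2_5_13_17_X20

lemma g_1_2_5_13_17_X18 : Good (27 / 10) [1, 2, 5, 13, 17] 18 :=
  Good.skip (by decide +kernel) g_1_2_5_13_17_X19

lemma g_1_2_5_13_X21 : Good (27 / 10) [1, 2, 5, 13] 21 :=
  Good.skip (by decide +kernel) g_1_2_5_13_X22

lemma g_1_2_5_13_X20 : Good (27 / 10) [1, 2, 5, 13] 20 :=
  Good.skip (by decide +kernel) g_1_2_5_13_X21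

lemma g_1_2_5_13_X19 : Good (27 / 10) [1, 2, 5, 13] 19 :=
  Good.skip (by decide +kernel) g_1_2_5_13_X20

lemma g_1_2_5_13_X18 : Good (27 / 10) [1, 2, 5, 13] 18 :=
  Good.skip (by decide +kernel) g_1_2_5_13_X19

lemma g_1_2_5_13_X17 : Good (27 / 10) [1, 2, 5, 13] 17 :=
  Good.branch g_1_2_5_13_17_X18 g_1_2_5_13_X18

lemma g_1_2_5_13_X16 : Good (27 / 10) [1, 2, 5, 13] 16 :=
  Good.skip (by decide +kernel) g_1_2_5_13_X17

lemma g_1_2_5_13_X15 : Good (27 / 10) [1, 2, 5, 13] 15 :=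
  Good.skip (by decide +kernel) g_1_2_5_13_X16

lemma g_1_2_5_13_X14 : Good (27 / 10) [1, 2, 5, 13] 14 :=
  Good.skip (by decide +kernel) g_1_2_5_13_X15

lemma g_1_2_5_14_18_X26 : Good (27 / 10) [1, 2, 5, 14, 18] 26 :=
  Good.skip (by decide +kernel) g_1_2_5_14_18_X27

lemma g_1_2_5_14_18_X25 : Good (27 / 10) [1, 2, 5, 14, 18] 25 :=
  Good.skip (by decide +kernel) g_1_2_5_14_18_X26

lemma g_1_2_5_14_18_X24 : Good (27 / 10) [1, 2, 5, 14, 18] 24 :=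
  Good.skip (by decide +kernel) g_1_2_5_14_18_X25

lemma g_1_2_5_14_18_X23 : Good (27 / 10) [1, 2, 5, 14, 18] 23 :=
  Good.skip (by decide +kernel) g_1_2_5_14_18_X24

lemma g_1_2_5_14_18_X22 : Good (27 / 10) [1, 2, 5, 14, 18] 22 :=
  Good.skip (by decide +kernel) g_1_2_5_14_18_X23

lemma g_1_2_5_14_18_X21 : Good (27 / 10) [1, 2, 5, 14, 18] 21 :=
  Good.skip (by decide +kernel) g_1_2_5_14_18_X22

lemma g_1_2_5_14_18_X20 : Good (27 / 10) [1, 2, 5, 14, 18] 20 :=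
  Good.skip (by decide +kernel) g_1_2_5_14_18_X21

lemma g_1_2_5_14_18_X19 : Good (27 / 10) [1, 2, 5, 14, 18] 19 :=
  Good.skip (by decide +kernel) g_1_2_5_14_18_X20

lemma g_1_2_5_14_23_X26 : Good (27 / 10) [1, 2, 5, 14, 23] 26 :=
  Good.skip (by decide +kernel) g_1_2_5_14_23_X27

lemma g_1_2_5_14_23_X25 : Good (27 / 10) [1, 2, 5, 14, 23] 25 :=
  Good.skip (by decide +kernel) g_1_2_5_14_23_X26

lemma g_1_2_5_14_23_X24 : Good (27 / 10) [1, 2, 5, 14, 23] 24 :=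
  Good.skip (by decide +kernel) g_1_2_5_14_23_X25

lemma g_1_2_5_14_24_X27 : Good (27 / 10) [1, 2, 5, 14, 24] 27 :=
  Good.skip (by decide +kernel) g_1_2_5_14_24_X28

lemma g_1_2_5_14_24_X26 : Good (27 / 10) [1, 2, 5, 14, 24] 26 :=
  Good.skip (by decide +kernel) g_1_2_5_14_24_X27

lemma g_1_2_5_14_24_X25 : Good (27 / 10) [1, 2, 5, 14, 24] 25 :=
  Good.skip (by decide +kernel) g_1_2_5_14_24_X26

lemma g_1_2_5_14_25_X28 : Good (27 / 10) [1, 2, 5, 14, 25] 28 :=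
  Good.skip (by decide +kernel) g_1_2_5_14_25_X29

lemma g_1_2_5_14_25_X27 : Good (27 / 10) [1, 2, 5, 14, 25] 27 :=
  Good.skip (by decide +kernel) g_1_2_5_14_25_X28

lemma g_1_2_5_14_25_X26 : Good (27 / 10) [1, 2, 5, 14, 25] 26 :=
  Good.skip (by decide +kernel) g_1_2_5_14_25_X27

lemma g_1_2_5_14_26_X29 : Good (27 / 10) [1, 2, 5, 14, 26] 29 :=
  Good.skip (by decide +kernel) g_1_2_5_14_26_X30

lemma g_1_2_5_14_26_X28 : Good (27 / 10) [1, 2, 5, 14, 26] 28 :=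
  Good.skip (by decide +kernel) g_1_2_5_14_26_X29

lemma g_1_2_5_14_26_X27 : Good (27 / 10) [1, 2, 5, 14, 26] 27 :=
  Good.skip (by decide +kernel) g_1_2_5_14_26_X28

lemma g_1_2_5_14_27_X30 : Good (27 / 10) [1, 2, 5, 14, 27] 30 :=
  Good.skip (by decide +kernel) g_1_2_5_14_27_X31

lemma g_1_2_5_14_27_X29 : Good (27 / 10) [1, 2, 5, 14, 27] 29 :=
  Good.skip (by decide +kernel) g_1_2_5_14_27_X30

lemma g_1_2_5_14_27_X28 : Good (27 / 10) [1, 2, 5, 14, 27] 28 :=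
  Good.skip (by decide +kernel) g_1_2_5_14_27_X29

lemma g_1_2_5_14_28_X31 : Good (27 / 10) [1, 2, 5, 14, 28] 31 :=
  Good.skip (by decide +kernel) g_1_2_5_14_28_X32

lemma g_1_2_5_14_28_X30 : Good (27 / 10) [1, 2, 5, 14, 28] 30 :=
  Good.skip (by decide +kernel) g_1_2_5_14_28_X31

lemma g_1_2_5_14_28_X29 : Good (27 / 10) [1, 2, 5, 14, 28] 29 :=
  Good.skip (by decide +kernel) g_1_2_5_14_28_X30

lemma g_1_2_5_14_29_X32 : Good (27 / 10) [1, 2, 5, 14, 29] 32 :=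
  Good.skip (by decide +kernel) g_1_2_5_14_29_X33

lemma g_1_2_5_14_29_X31 : Good (27 / 10) [1, 2, 5, 14, 29] 31 :=
  Good.skip (by decide +kernel) g_1_2_5_14_29_X32

lemma g_1_2_5_14_29_X30 : Good (27 / 10) [1, 2, 5, 14, 29] 30 :=
  Good.skip (by decide +kernel) g_1_2_5_14_29_X31

lemma g_1_2_5_14_30_X33 : Good (27 / 10) [1, 2, 5, 14, 30] 33 :=
  Good.skip (by decide +kernel) g_1_2_5_14_30_X34

lemma g_1_2_5_14_30_X32 : Good (27 / 10) [1, 2, 5, 14, 30] 32 :=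
  Good.skip (by decide +kernel) g_1_2_5_14_30_X33

lemma g_1_2_5_14_30_X31 : Good (27 / 10) [1, 2, 5, 14, 30] 31 :=
  Good.skip (by decide +kernel) g_1_2_5_14_30_X32

lemma g_1_2_5_14_31_X34 : Good (27 / 10) [1, 2, 5, 14, 31] 34 :=
  Good.skip (by decide +kernel) g_1_2_5_14_31_X35

lemma g_1_2_5_14_31_X33 : Good (27 / 10) [1, 2, 5, 14, 31] 33 :=
  Good.skip (by decide +kernel) g_1_2_5_14_31_X34

lemma g_1_2_5_14_31_X32 : Good (27 / 10) [1, 2, 5, 14, 31] 32 :=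
  Good.skip (by decide +kernel) g_1_2_5_14_31_X33

lemma g_1_2_5_14_32_36_X44 : Good (27 / 10) [1, 2, 5, 14, 32, 36] 44 :=
  Good.skip (by decide +kernel) g_1_2_5_14_32_36_X45

lemma g_1_2_5_14_32_36_X43 : Good (27 / 10) [1, 2, 5, 14, 32, 36] 43 :=
  Good.skip (by decide +kernel) g_1_2_5_14_32_36_X44

lemma g_1_2_5_14_32_36_X42 : Good (27 / 10) [1, 2, 5, 14, 32, 36] 42 :=
  Good.skip (by decide +kernel) g_1_2_5_14_32_36_X43

lemma g_1_2_5_14_32_36_X41 : Good (27 / 10) [1, 2, 5, 14, 32, 36] 41 :=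
  Good.skip (by decide +kernel) g_1_2_5_14_32_36_X42

lemma g_1_2_5_14_32_36_X40 : Good (27 / 10) [1, 2, 5, 14, 32, 36] 40 :=
  Good.skip (by decide +kernel) g_1_2_5_14_32_36_X41

lemma g_1_2_5_14_32_36_X39 : Good (27 / 10) [1, 2, 5, 14, 32, 36] 39 :=
  Good.skip (by decide +kernel) g_1_2_5_14_32_36_X40

lemma g_1_2_5_14_32_36_X38 : Good (27 / 10) [1, 2, 5, 14, 32, 36] 38 :=
  Good.skip (by decide +kernel) g_1_2_5_14_32_36_X39

lemma g_1_2_5_14_32_36_X37 : Good (27 / 10) [1, 2, 5, 14, 32, 36] 37 :=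
  Good.skip (by decide +kernel) g_1_2_5_14_32_36_X38

lemma g_1_2_5_14_32_41_X44 : Good (27 / 10) [1, 2, 5, 14, 32, 41] 44 :=
  Good.skip (by decide +kernel) g_1_2_5_14_32_41_X45

lemma g_1_2_5_14_32_41_X43 : Good (27 / 10) [1, 2, 5, 14, 32, 41] 43 :=
  Good.skip (by decide +kernel) g_1_2_5_14_32_41_X44

lemma g_1_2_5_14_32_41_X42 : Good (27 / 10) [1, 2, 5, 14, 32, 41] 42 :=
  Good.skip (by decide +kernel) g_1_2_5_14_32_41_X43

lemma g_1_2_5_14_32_42_X54 : Good (27 / 10) [1, 2, 5, 14, 32, 42] 54 :=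
  Good.skip (by decide +kernel) g_1_2_5_14_32_42_X55

lemma g_1_2_5_14_32_42_X53 : Good (27 / 10) [1, 2, 5, 14, 32, 42] 53 :=
  Good.skip (by decide +kernel) g_1_2_5_14_32_42_X54

lemma g_1_2_5_14_32_42_X52 : Good (27 / 10) [1, 2, 5, 14, 32, 42] 52 :=
  Good.skip (by decide +kernel) g_1_2_5_14_32_42_X53

lemma g_1_2_5_14_32_42_X51 : Good (27 / 10) [1, 2, 5, 14, 32, 42] 51 :=
  Good.skip (by decide +kernel) g_1_2_5_14_32_42_X52

lemma g_1_2_5_14_32_42_X50 : Good (27 / 10) [1, 2, 5, 14, 32, 42] 50 :=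
  Good.skip (by decide +kernel) g_1_2_5_14_32_42_X51

lemma g_1_2_5_14_32_42_X49 : Good (27 / 10) [1, 2, 5, 14, 32, 42] 49 :=
  Good.skip (by decide +kernel) g_1_2_5_14_32_42_X50

lemma g_1_2_5_14_32_42_X48 : Good (27 / 10) [1, 2, 5, 14, 32, 42] 48 :=
  Good.skip (by decide +kernel) g_1_2_5_14_32_42_X49

lemma g_1_2_5_14_32_42_X47 : Good (27 / 10) [1, 2, 5, 14, 32, 42] 47 :=
  Good.skip (by decide +kernel) g_1_2_5_14_32_42_X48

lemma g_1_2_5_14_32_42_X46 : Good (27 / 10) [1, 2, 5, 14, 32, 42] 46 :=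
  Good.skip (by decide +kernel) g_1_2_5_14_32_42_X47

lemma g_1_2_5_14_32_42_X45 : Good (27 / 10) [1, 2, 5, 14, 32, 42] 45 :=
  Good.skip (by decide +kernel) g_1_2_5_14_32_42_X46

lemma g_1_2_5_14_32_42_X44 : Good (27 / 10) [1, 2, 5, 14, 32, 42] 44 :=
  Good.skip (by decide +kernel) g_1_2_5_14_32_42_X45

lemma g_1_2_5_14_32_42_X43 : Good (27 / 10) [1, 2, 5, 14, 32, 42] 43 :=
  Good.skip (by decide +kernel) g_1_2_5_14_32_42_X44

lemma g_1_2_5_14_32_43_X54 : Good (27 / 10) [1, 2, 5, 14, 32, 43] 54 :=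
  Good.skip (by decide +kernel) g_1_2_5_14_32_43_X55

lemma g_1_2_5_14_32_43_X53 : Good (27 / 10) [1, 2, 5, 14, 32, 43] 53 :=
  Good.skip (by decide +kernel) g_1_2_5_14_32_43_X54

lemma g_1_2_5_14_32_43_X52 : Good (27 / 10) [1, 2, 5, 14, 32, 43] 52 :=
  Good.skip (by decide +kernel) g_1_2_5_14_32_43_X53

lemma g_1_2_5_14_32_43_X51 : Good (27 / 10) [1, 2, 5, 14, 32, 43] 51 :=
  Good.skip (by decide +kernel) g_1_2_5_14_32_43_X52

lemma g_1_2_5_14_32_43_X50 : Good (27 / 10) [1, 2, 5, 14, 32, 43] 50 :=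
  Good.skip (by decide +kernel) g_1_2_5_14_32_43_X51

lemma g_1_2_5_14_32_43_X49 : Good (27 / 10) [1, 2, 5, 14, 32, 43] 49 :=
  Good.skip (by decide +kernel) g_1_2_5_14_32_43_X50

lemma g_1_2_5_14_32_43_X48 : Good (27 / 10) [1, 2, 5, 14, 32, 43] 48 :=
  Good.skip (by decide +kernel) g_1_2_5_14_32_43_X49

lemma g_1_2_5_14_32_43_X47 : Good (27 / 10) [1, 2, 5, 14, 32, 43] 47 :=
  Good.skip (by decide +kernel) g_1_2_5_14_32_43_X48

lemma g_1_2_5_14_32_43_X46 : Good (27 / 10) [1, 2, 5, 14, 32, 43] 46 :=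
  Good.skip (by decide +kernel) g_1_2_5_14_32_43_X47

lemma g_1_2_5_14_32_43_X45 : Good (27 / 10) [1, 2, 5, 14, 32, 43] 45 :=
  Good.skip (by decide +kernel) g_1_2_5_14_32_43_X46

lemma g_1_2_5_14_32_43_X44 : Good (27 / 10) [1, 2, 5, 14, 32, 43] 44 :=
  Good.skip (by decide +kernel) g_1_2_5_14_32_43_X45

lemma g_1_2_5_14_32_44_X54 : Good (27 / 10) [1, 2, 5, 14, 32, 44] 54 :=
  Good.skip (by decide +kernel) g_1_2_5_14_32_44_X55

lemma g_1_2_5_14_32_44_X53 : Good (27 / 10) [1, 2, 5, 14, 32, 44] 53 :=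
  Good.skip (by decide +kernel) g_1_2_5_14_32_44_X54

lemma g_1_2_5_14_32_44_X52 : Good (27 / 10) [1, 2, 5, 14, 32, 44] 52 :=
  Good.skip (by decide +kernel) g_1_2_5_14_32_44_X53

lemma g_1_2_5_14_32_44_X51 : Good (27 / 10) [1, 2, 5, 14, 32, 44] 51 :=
  Good.skip (by decide +kernel) g_1_2_5_14_32_44_X52

lemma g_1_2_5_14_32_44_X50 : Good (27 / 10) [1, 2, 5, 14, 32, 44] 50 :=
  Good.skip (by decide +kernel) g_1_2_5_14_32_44_X51

lemma g_1_2_5_14_32_44_X49 : Good (27 / 10) [1, 2, 5, 14, 32, 44] 49 :=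
  Good.skip (by decide +kernel) g_1_2_5_14_32_44_X50

lemma g_1_2_5_14_32_44_X48 : Good (27 / 10) [1, 2, 5, 14, 32, 44] 48 :=
  Good.skip (by decide +kernel) g_1_2_5_14_32_44_X49

lemma g_1_2_5_14_32_44_X47 : Good (27 / 10) [1, 2, 5, 14, 32, 44] 47 :=
  Good.skip (by decide +kernel) g_1_2_5_14_32_44_X48

lemma g_1_2_5_14_32_44_X46 : Good (27 / 10) [1, 2, 5, 14, 32, 44] 46 :=
  Good.skip (by decide +kernel) g_1_2_5_14_32_44_X47

lemma g_1_2_5_14_32_44_X45 : Good (27 / 10) [1, 2, 5, 14, 32, 44] 45 :=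
  Good.skip (by decide +kernel) g_1_2_5_14_32_44_X46

lemma g_1_2_5_14_32_X44 : Good (27 / 10) [1, 2, 5, 14, 32] 44 :=
  Good.branch g_1_2_5_14_32_44_X45 g_1_2_5_14_32_X45

lemma g_1_2_5_14_32_X43 : Good (27 / 10) [1, 2, 5, 14, 32] 43 :=
  Good.branch g_1_2_5_14_32_43_X44 g_1_2_5_14_32_X44

lemma g_1_2_5_14_32_X42 : Good (27 / 10) [1, 2, 5, 14, 32] 42 :=
  Good.branch g_1_2_5_14_32_42_X43 g_1_2_5_14_32_X43

lemma g_1_2_5_14_32_X41 : Good (27 / 10) [1, 2, 5, 14, 32] 41 :=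
  Good.branch g_1_2_5_14_32_41_X42 g_1_2_5_14_32_X42

lemma g_1_2_5_14_32_X40 : Good (27 / 10) [1, 2, 5, 14, 32] 40 :=
  Good.skip (by decide +kernel) g_1_2_5_14_32_X41

lemma g_1_2_5_14_32_X39 : Good (27 / 10) [1, 2, 5, 14, 32] 39 :=
  Good.skip (by decide +kernel) g_1_2_5_14_32_X40

lemma g_1_2_5_14_32_X38 : Good (27 / 10) [1, 2, 5, 14, 32] 38 :=
  Good.skip (by decide +kernel) g_1_2_5_14_32_X39

lemma g_1_2_5_14_32_X37 : Good (27 / 10) [1, 2, 5, 14, 32] 37 :=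
  Good.skip (by decide +kernel) g_1_2_5_14_32_X38

lemma g_1_2_5_14_32_X36 : Good (27 / 10) [1, 2, 5, 14, 32] 36 :=
  Good.branch g_1_2_5_14_32_36_X37 g_1_2_5_14_32_X37

lemma g_1_2_5_14_32_X35 : Good (27 / 10) [1, 2, 5, 14, 32] 35 :=
  Good.skip (by decide +kernel) g_1_2_5_14_32_X36

lemma g_1_2_5_14_32_X34 : Good (27 / 10) [1, 2, 5, 14, 32] 34 :=
  Good.skip (by decide +kernel) g_1_2_5_14_32_X35

lemma g_1_2_5_14_32_X33 : Good (27 / 10) [1, 2, 5, 14, 32] 33 :=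
  Good.skip (by decide +kernel) g_1_2_5_14_32_X34

lemma g_1_2_5_14_33_X36 : Good (27 / 10) [1, 2, 5, 14, 33] 36 :=
  Good.skip (by decide +kernel) g_1_2_5_14_33_X37

lemma g_1_2_5_14_33_X35 : Good (27 / 10) [1, 2, 5, 14, 33] 35 :=
  Good.skip (by decide +kernel) g_1_2_5_14_33_X36

lemma g_1_2_5_14_33_X34 : Good (27 / 10) [1, 2, 5, 14, 33] 34 :=
  Good.skip (by decide +kernel) g_1_2_5_14_33_X35

lemma g_1_2_5_14_34_X37 : Good (27 / 10) [1, 2, 5, 14, 34] 37 :=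
  Good.skip (by decide +kernel) g_1_2_5_14_34_X38

lemma g_1_2_5_14_34_X36 : Good (27 / 10) [1, 2, 5, 14, 34] 36 :=
  Good.skip (by decide +kernel) g_1_2_5_14_34_X37

lemma g_1_2_5_14_34_X35 : Good (27 / 10) [1, 2, 5, 14, 34] 35 :=
  Good.skip (by decide +kernel) g_1_2_5_14_34_X36

lemma g_1_2_5_14_35_X38 : Good (27 / 10) [1, 2, 5, 14, 35] 38 :=
  Good.skip (by decide +kernel) g_1_2_5_14_35_X39

lemma g_1_2_5_14_35_X37 : Good (27 / 10) [1, 2, 5, 14, 35] 37 :=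
  Good.skip (by decide +kernel) g_1_2_5_14_35_X38

lemma g_1_2_5_14_35_X36 : Good (27 / 10) [1, 2, 5, 14, 35] 36 :=
  Good.skip (by decide +kernel) g_1_2_5_14_35_X37

lemma g_1_2_5_14_36_X39 : Good (27 / 10) [1, 2, 5, 14, 36] 39 :=
  Good.skip (by decide +kernel) g_1_2_5_14_36_X40

lemma g_1_2_5_14_36_X38 : Good (27 / 10) [1, 2, 5, 14, 36] 38 :=
  Good.skip (by decide +kernel) g_1_2_5_14_36_X39

lemma g_1_2_5_14_36_X37 : Good (27 / 10) [1, 2, 5, 14, 36] 37 :=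
  Good.skip (by decide +kernel) g_1_2_5_14_36_X38

lemma g_1_2_5_14_X36 : Good (27 / 10) [1, 2, 5, 14] 36 :=
  Good.branch g_1_2_5_14_36_X37 g_1_2_5_14_X37

lemma g_1_2_5_14_X35 : Good (27 / 10) [1, 2, 5, 14] 35 :=
  Good.branch g_1_2_5_14_35_X36 g_1_2_5_14_X36

lemma g_1_2_5_14_X34 : Good (27 / 10) [1, 2, 5, 14] 34 :=
  Good.branch g_1_2_5_14_34_X35 g_1_2_5_14_X35

lemma g_1_2_5_14_X33 : Good (27 / 10) [1, 2, 5, 14] 33 :=
  Good.branch g_1_2_5_14_33_X34 g_1_2_5_14_X34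

lemma g_1_2_5_14_X32 : Good (27 / 10) [1, 2, 5, 14] 32 :=
  Good.branch g_1_2_5_14_32_X33 g_1_2_5_14_X33

lemma g_1_2_5_14_X31 : Good (27 / 10) [1, 2, 5, 14] 31 :=
  Good.branch g_1_2_5_14_31_X32 g_1_2_5_14_X32

lemma g_1_2_5_14_X30 : Good (27 / 10) [1, 2, 5, 14] 30 :=
  Good.branch g_1_2_5_14_30_X31 g_1_2_5_14_X31

lemma g_1_2_5_14_X29 : Good (27 / 10) [1, 2, 5, 14] 29 :=
  Good.branch g_1_2_5_14_29_X30 g_1_2_5_14_X30

lemma g_1_2_5_14_X28 : Good (27 / 10) [1, 2, 5, 14] 28 :=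
  Good.branch g_1_2_5_14_28_X29 g_1_2_5_14_X29

lemma g_1_2_5_14_X27 : Good (27 / 10) [1, 2, 5, 14] 27 :=
  Good.branch g_1_2_5_14_27_X28 g_1_2_5_14_X28

lemma g_1_2_5_14_X26 : Good (27 / 10) [1, 2, 5, 14] 26 :=
  Good.branch g_1_2_5_14_26_X27 g_1_2_5_14_X27

lemma g_1_2_5_14_X25 : Good (27 / 10) [1, 2, 5, 14] 25 :=
  Good.branch g_1_2_5_14_25_X26 g_1_2_5_14_X26

lemma g_1_2_5_14_X24 : Good (27 / 10) [1, 2, 5, 14] 24 :=
  Good.branch g_1_2_5_14_24_X25 g_1_2_5_14_X25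

lemma g_1_2_5_14_X23 : Good (27 / 10) [1, 2, 5, 14] 23 :=
  Good.branch g_1_2_5_14_23_X24 g_1_2_5_14_X24

lemma g_1_2_5_14_X22 : Good (27 / 10) [1, 2, 5, 14] 22 :=
  Good.skip (by decide +kernel) g_1_2_5_14_X23

lemma g_1_2_5_14_X21 : Good (27 / 10) [1, 2, 5, 14] 21 :=
  Good.skip (by decide +kernel) g_1_2_5_14_X22

lemma g_1_2_5_14_X20 : Good (27 / 10) [1, 2, 5, 14] 20 :=
  Good.skip (by decide +kernel) g_1_2_5_14_X21

lemma g_1_2_5_14_X19 : Good (27 / 10) [1, 2, 5, 14] 19 :=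
  Good.skip (by decide +kernel) g_1_2_5_14_X20

lemma g_1_2_5_14_X18 : Good (27 / 10) [1, 2, 5, 14] 18 :=
  Good.branch g_1_2_5_14_18_X19 g_1_2_5_14_X19

lemma g_1_2_5_14_X17 : Good (27 / 10) [1, 2, 5, 14] 17 :=
  Good.skip (by decide +kernel) g_1_2_5_14_X18

lemma g_1_2_5_14_X16 : Good (27 / 10) [1, 2, 5, 14] 16 :=
  Good.skip (by decide +kernel) g_1_2_5_14_X17

lemma g_1_2_5_14_X15 : Good (27 / 10) [1, 2, 5, 14] 15 :=
  Good.skip (by decide +kernel) g_1_2_5_14_X16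

lemma g_1_2_5_15_19_X27 : Good (27 / 10) [1, 2, 5, 15, 19] 27 :=
  Good.skip (by decide +kernel) g_1_2_5_15_19_X28

lemma g_1_2_5_15_19_X26 : Good (27 / 10) [1, 2, 5, 15, 19] 26 :=
  Good.skip (by decide +kernel) g_1_2_5_15_19_X27

lemma g_1_2_5_15_19_X25 : Good (27 / 10) [1, 2, 5, 15, 19] 25 :=
  Good.skip (by decide +kernel) g_1_2_5_15_19_X26

lemma g_1_2_5_15_19_X24 : Good (27 / 10) [1, 2, 5, 15, 19] 24 :=
  Good.skip (by decide +kernel) g_1_2_5_15_19_X25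

lemma g_1_2_5_15_19_X23 : Good (27 / 10) [1, 2, 5, 15, 19] 23 :=
  Good.skip (by decide +kernel) g_1_2_5_15_19_X24

lemma g_1_2_5_15_19_X22 : Good (27 / 10) [1, 2, 5, 15, 19] 22 :=
  Good.skip (by decide +kernel) g_1_2_5_15_19_X23

lemma g_1_2_5_15_19_X21 : Good (27 / 10) [1, 2, 5, 15, 19] 21 :=
  Good.skip (by decide +kernel) g_1_2_5_15_19_X22

lemma g_1_2_5_15_19_X20 : Good (27 / 10) [1, 2, 5, 15, 19] 20 :=
  Good.skip (by decide +kernel) g_1_2_5_15_19_X21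

lemma g_1_2_5_15_24_X27 : Good (27 / 10) [1, 2, 5, 15, 24] 27 :=
  Good.skip (by decide +kernel) g_1_2_5_15_24_X28

lemma g_1_2_5_15_24_X26 : Good (27 / 10) [1, 2, 5, 15, 24] 26 :=
  Good.skip (by decide +kernel) g_1_2_5_15_24_X27

lemma g_1_2_5_15_24_X25 : Good (27 / 10) [1, 2, 5, 15, 24] 25 :=
  Good.skip (by decide +kernel) g_1_2_5_15_24_X26

lemma g_1_2_5_15_25_X28 : Good (27 / 10) [1, 2, 5, 15, 25] 28 :=
  Good.skip (by decide +kernel) g_1_2_5_15_25_X29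

lemma g_1_2_5_15_25_X27 : Good (27 / 10) [1, 2, 5, 15, 25] 27 :=
  Good.skip (by decide +kernel) g_1_2_5_15_25_X28

lemma g_1_2_5_15_25_X26 : Good (27 / 10) [1, 2, 5, 15, 25] 26 :=
  Good.skip (by decide +kernel) g_1_2_5_15_25_X27

lemma g_1_2_5_15_26_X29 : Good (27 / 10) [1, 2, 5, 15, 26] 29 :=
  Good.skip (by decide +kernel) g_1_2_5_15_26_X30

lemma g_1_2_5_15_26_X28 : Good (27 / 10) [1, 2, 5, 15, 26] 28 :=
  Good.skip (by decide +kernel) g_1_2_5_15_26_X29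

lemma g_1_2_5_15_26_X27 : Good (27 / 10) [1, 2, 5, 15, 26] 27 :=
  Good.skip (by decide +kernel) g_1_2_5_15_26_X28

lemma g_1_2_5_15_27_X30 : Good (27 / 10) [1, 2, 5, 15, 27] 30 :=
  Good.skip (by decide +kernel) g_1_2_5_15_27_X31

lemma g_1_2_5_15_27_X29 : Good (27 / 10) [1, 2, 5, 15, 27] 29 :=
  Good.skip (by decide +kernel) g_1_2_5_15_27_X30

lemma g_1_2_5_15_27_X28 : Good (27 / 10) [1, 2, 5, 15, 27] 28 :=
  Good.skip (by decide +kernel) g_1_2_5_15_27_X29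

lemma g_1_2_5_15_28_X31 : Good (27 / 10) [1, 2, 5, 15, 28] 31 :=
  Good.skip (by decide +kernel) g_1_2_5_15_28_X32

lemma g_1_2_5_15_28_X30 : Good (27 / 10) [1, 2, 5, 15, 28] 30 :=
  Good.skip (by decide +kernel) g_1_2_5_15_28_X31

lemma g_1_2_5_15_28_X29 : Good (27 / 10) [1, 2, 5, 15, 28] 29 :=
  Good.skip (by decide +kernel) g_1_2_5_15_28_X30

lemma g_1_2_5_15_29_33_X41 : Good (27 / 10) [1, 2, 5, 15, 29, 33] 41 :=
  Good.skip (by decide +kernel) g_1_2_5_15_29_33_X42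

lemma g_1_2_5_15_29_33_X40 : Good (27 / 10) [1, 2, 5, 15, 29, 33] 40 :=
  Good.skip (by decide +kernel) g_1_2_5_15_29_33_X41

lemma g_1_2_5_15_29_33_X39 : Good (27 / 10) [1, 2, 5, 15, 29, 33] 39 :=
  Good.skip (by decide +kernel) g_1_2_5_15_29_33_X40

lemma g_1_2_5_15_29_33_X38 : Good (27 / 10) [1, 2, 5, 15, 29, 33] 38 :=
  Good.skip (by decide +kernel) g_1_2_5_15_29_33_X39

lemma g_1_2_5_15_29_33_X37 : Good (27 / 10) [1, 2, 5, 15, 29, 33] 37 :=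
  Good.skip (by decide +kernel) g_1_2_5_15_29_33_X38

lemma g_1_2_5_15_29_33_X36 : Good (27 / 10) [1, 2, 5, 15, 29, 33] 36 :=
  Good.skip (by decide +kernel) g_1_2_5_15_29_33_X37

lemma g_1_2_5_15_29_33_X35 : Good (27 / 10) [1, 2, 5, 15, 29, 33] 35 :=
  Good.skip (by decide +kernel) g_1_2_5_15_29_33_X36

lemma g_1_2_5_15_29_33_X34 : Good (27 / 10) [1, 2, 5, 15, 29, 33] 34 :=
  Good.skip (by decide +kernel) g_1_2_5_15_29_33_X35

lemma g_1_2_5_15_29_38_X41 : Good (27 / 10) [1, 2, 5, 15, 29, 38] 41 :=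
  Good.skip (by decide +kernel) g_1_2_5_15_29_38_X42

lemma g_1_2_5_15_29_38_X40 : Good (27 / 10) [1, 2, 5, 15, 29, 38] 40 :=
  Good.skip (by decide +kernel) g_1_2_5_15_29_38_X41

lemma g_1_2_5_15_29_38_X39 : Good (27 / 10) [1, 2, 5, 15, 29, 38] 39 :=
  Good.skip (by decide +kernel) g_1_2_5_15_29_38_X40

lemma g_1_2_5_15_29_39_X42 : Good (27 / 10) [1, 2, 5, 15, 29, 39] 42 :=
  Good.skip (by decide +kernel) g_1_2_5_15_29_39_X43

lemma g_1_2_5_15_29_39_X41 : Good (27 / 10) [1, 2, 5, 15, 29, 39] 41 :=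
  Good.skip (by decide +kernel) g_1_2_5_15_29_39_X42

lemma g_1_2_5_15_29_39_X40 : Good (27 / 10) [1, 2, 5, 15, 29, 39] 40 :=
  Good.skip (by decide +kernel) g_1_2_5_15_29_39_X41

lemma g_1_2_5_15_29_40_X52 : Good (27 / 10) [1, 2, 5, 15, 29, 40] 52 :=
  Good.skip (by decide +kernel) g_1_2_5_15_29_40_X53

lemma g_1_2_5_15_29_40_X51 : Good (27 / 10) [1, 2, 5, 15, 29, 40] 51 :=
  Good.skip (by decide +kernel) g_1_2_5_15_29_40_X52

lemma g_1_2_5_15_29_40_X50 : Good (27 / 10) [1, 2, 5, 15, 29, 40] 50 :=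
  Good.skip (by decide +kernel) g_1_2_5_15_29_40_X51

lemma g_1_2_5_15_29_40_X49 : Good (27 / 10) [1, 2, 5, 15, 29, 40] 49 :=
  Good.skip (by decide +kernel) g_1_2_5_15_29_40_X50

lemma g_1_2_5_15_29_40_X48 : Good (27 / 10) [1, 2, 5, 15, 29, 40] 48 :=
  Good.skip (by decide +kernel) g_1_2_5_15_29_40_X49

lemma g_1_2_5_15_29_40_X47 : Good (27 / 10) [1, 2, 5, 15, 29, 40] 47 :=
  Good.skip (by decide +kernel) g_1_2_5_15_29_40_X48

lemma g_1_2_5_15_29_40_X46 : Good (27 / 10) [1, 2, 5, 15, 29, 40] 46 :=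
  Good.skip (by decide +kernel) g_1_2_5_15_29_40_X47

lemma g_1_2_5_15_29_40_X45 : Good (27 / 10) [1, 2, 5, 15, 29, 40] 45 :=
  Good.skip (by decide +kernel) g_1_2_5_15_29_40_X46

lemma g_1_2_5_15_29_40_X44 : Good (27 / 10) [1, 2, 5, 15, 29, 40] 44 :=
  Good.skip (by decide +kernel) g_1_2_5_15_29_40_X45

lemma g_1_2_5_15_29_40_X43 : Good (27 / 10) [1, 2, 5, 15, 29, 40] 43 :=
  Good.skip (by decide +kernel) g_1_2_5_15_29_40_X44

lemma g_1_2_5_15_29_40_X42 : Good (27 / 10) [1, 2, 5, 15, 29, 40] 42 :=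
  Good.skip (by decide +kernel) g_1_2_5_15_29_40_X43

lemma g_1_2_5_15_29_40_X41 : Good (27 / 10) [1, 2, 5, 15, 29, 40] 41 :=
  Good.skip (by decide +kernel) g_1_2_5_15_29_40_X42

lemma g_1_2_5_15_29_41_X52 : Good (27 / 10) [1, 2, 5, 15, 29, 41] 52 :=
  Good.skip (by decide +kernel) g_1_2_5_15_29_41_X53

lemma g_1_2_5_15_29_41_X51 : Good (27 / 10) [1, 2, 5, 15, 29, 41] 51 :=
  Good.skip (by decide +kernel) g_1_2_5_15_29_41_X52

lemma g_1_2_5_15_29_41_X50 : Good (27 / 10) [1, 2, 5, 15, 29, 41] 50 :=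
  Good.skip (by decide +kernel) g_1_2_5_15_29_41_X51

lemma g_1_2_5_15_29_41_X49 : Good (27 / 10) [1, 2, 5, 15, 29, 41] 49 :=
  Good.skip (by decide +kernel) g_1_2_5_15_29_41_X50

lemma g_1_2_5_15_29_41_X48 : Good (27 / 10) [1, 2, 5, 15, 29, 41] 48 :=
  Good.skip (by decide +kernel) g_1_2_5_15_29_41_X49

lemma g_1_2_5_15_29_41_X47 : Good (27 / 10) [1, 2, 5, 15, 29, 41] 47 :=
  Good.skip (by decide +kernel) g_1_2_5_15_29_41_X48

lemma g_1_2_5_15_29_41_X46 : Good (27 / 10) [1, 2, 5, 15, 29, 41] 46 :=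
  Good.skip (by decide +kernel) g_1_2_5_15_29_41_X47

lemma g_1_2_5_15_29_41_X45 : Good (27 / 10) [1, 2, 5, 15, 29, 41] 45 :=
  Good.skip (by decide +kernel) g_1_2_5_15_29_41_X46

lemma g_1_2_5_15_29_41_X44 : Good (27 / 10) [1, 2, 5, 15, 29, 41] 44 :=
  Good.skip (by decide +kernel) g_1_2_5_15_29_41_X45

lemma g_1_2_5_15_29_41_X43 : Good (27 / 10) [1, 2, 5, 15, 29, 41] 43 :=
  Good.skip (by decide +kernel) g_1_2_5_15_29_41_X44

lemma g_1_2_5_15_29_41_X42 : Good (27 / 10) [1, 2, 5, 15, 29, 41] 42 :=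
  Good.skip (by decide +kernel) g_1_2_5_15_29_41_X43

lemma g_1_2_5_15_29_42_X52 : Good (27 / 10) [1, 2, 5, 15, 29, 42] 52 :=
  Good.skip (by decide +kernel) g_1_2_5_15_29_42_X53

lemma g_1_2_5_15_29_42_X51 : Good (27 / 10) [1, 2, 5, 15, 29, 42] 51 :=
  Good.skip (by decide +kernel) g_1_2_5_15_29_42_X52

lemma g_1_2_5_15_29_42_X50 : Good (27 / 10) [1, 2, 5, 15, 29, 42] 50 :=
  Good.skip (by decide +kernel) g_1_2_5_15_29_42_X51

lemma g_1_2_5_15_29_42_X49 : Good (27 / 10) [1, 2, 5, 15, 29, 42] 49 :=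
  Good.skip (by decide +kernel) g_1_2_5_15_29_42_X50

lemma g_1_2_5_15_29_42_X48 : Good (27 / 10) [1, 2, 5, 15, 29, 42] 48 :=
  Good.skip (by decide +kernel) g_1_2_5_15_29_42_X49

lemma g_1_2_5_15_29_42_X47 : Good (27 / 10) [1, 2, 5, 15, 29, 42] 47 :=
  Good.skip (by decide +kernel) g_1_2_5_15_29_42_X48

lemma g_1_2_5_15_29_42_X46 : Good (27 / 10) [1, 2, 5, 15, 29, 42] 46 :=
  Good.skip (by decide +kernel) g_1_2_5_15_29_42_X47

lemma g_1_2_5_15_29_42_X45 : Good (27 / 10) [1, 2, 5, 15, 29, 42] 45 :=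
  Good.skip (by decide +kernel) g_1_2_5_15_29_42_X46

lemma g_1_2_5_15_29_42_X44 : Good (27 / 10) [1, 2, 5, 15, 29, 42] 44 :=
  Good.skip (by decide +kernel) g_1_2_5_15_29_42_X45

lemma g_1_2_5_15_29_42_X43 : Good (27 / 10) [1, 2, 5, 15, 29, 42] 43 :=
  Good.skip (by decide +kernel) g_1_2_5_15_29_42_X44

lemma g_1_2_5_15_29_43_X52 : Good (27 / 10) [1, 2, 5, 15, 29, 43] 52 :=
  Good.skip (by decide +kernel) g_1_2_5_15_29_43_X53

lemma g_1_2_5_15_29_43_X51 : Good (27 / 10) [1, 2, 5, 15, 29, 43] 51 :=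
  Good.skip (by decide +kernel) g_1_2_5_15_29_43_X52

lemma g_1_2_5_15_29_43_X50 : Good (27 / 10) [1, 2, 5, 15, 29, 43] 50 :=
  Good.skip (by decide +kernel) g_1_2_5_15_29_43_X51

lemma g_1_2_5_15_29_43_X49 : Good (27 / 10) [1, 2, 5, 15, 29, 43] 49 :=
  Good.skip (by decide +kernel) g_1_2_5_15_29_43_X50

lemma g_1_2_5_15_29_43_X48 : Good (27 / 10) [1, 2, 5, 15, 29, 43] 48 :=
  Good.skip (by decide +kernel) g_1_2_5_15_29_43_X49

lemma g_1_2_5_15_29_43_X47 : Good (27 / 10) [1, 2, 5, 15, 29, 43] 47 :=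
  Good.skip (by decide +kernel) g_1_2_5_15_29_43_X48

lemma g_1_2_5_15_29_43_X46 : Good (27 / 10) [1, 2, 5, 15, 29, 43] 46 :=
  Good.skip (by decide +kernel) g_1_2_5_15_29_43_X47

lemma g_1_2_5_15_29_43_X45 : Good (27 / 10) [1, 2, 5, 15, 29, 43] 45 :=
  Good.skip (by decide +kernel) g_1_2_5_15_29_43_X46

lemma g_1_2_5_15_29_43_X44 : Good (27 / 10) [1, 2, 5, 15, 29, 43] 44 :=
  Good.skip (by decide +kernel) g_1_2_5_15_29_43_X45

lemma g_1_2_5_15_29_X47 : Good (27 / 10) [1, 2, 5, 15, 29] 47 :=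
  Good.skip (by decide +kernel) g_1_2_5_15_29_X48

lemma g_1_2_5_15_29_X46 : Good (27 / 10) [1, 2, 5, 15, 29] 46 :=
  Good.skip (by decide +kernel) g_1_2_5_15_29_X47

lemma g_1_2_5_15_29_X45 : Good (27 / 10) [1, 2, 5, 15, 29] 45 :=
  Good.skip (by decide +kernel) g_1_2_5_15_29_X46

lemma g_1_2_5_15_29_X44 : Good (27 / 10) [1, 2, 5, 15, 29] 44 :=
  Good.skip (by decide +kernel) g_1_2_5_15_29_X45

lemma g_1_2_5_15_29_X43 : Good (27 / 10) [1, 2, 5, 15, 29] 43 :=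
  Good.branch g_1_2_5_15_29_43_X44 g_1_2_5_15_29_X44

lemma g_1_2_5_15_29_X42 : Good (27 / 10) [1, 2, 5, 15, 29] 42 :=
  Good.branch g_1_2_5_15_29_42_X43 g_1_2_5_15_29_X43

lemma g_1_2_5_15_29_X41 : Good (27 / 10) [1, 2, 5, 15, 29] 41 :=
  Good.branch g_1_2_5_15_29_41_X42 g_1_2_5_15_29_X42

lemma g_1_2_5_15_29_X40 : Good (27 / 10) [1, 2, 5, 15, 29] 40 :=
  Good.branch g_1_2_5_15_29_40_X41 g_1_2_5_15_29_X41

lemma g_1_2_5_15_29_X39 : Good (27 / 10) [1, 2, 5, 15, 29] 39 :=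
  Good.branch g_1_2_5_15_29_39_X40 g_1_2_5_15_29_X40

lemma g_1_2_5_15_29_X38 : Good (27 / 10) [1, 2, 5, 15, 29] 38 :=
  Good.branch g_1_2_5_15_29_38_X39 g_1_2_5_15_29_X39

lemma g_1_2_5_15_29_X37 : Good (27 / 10) [1, 2, 5, 15, 29] 37 :=
  Good.skip (by decide +kernel) g_1_2_5_15_29_X38

lemma g_1_2_5_15_29_X36 : Good (27 / 10) [1, 2, 5, 15, 29] 36 :=
  Good.skip (by decide +kernel) g_1_2_5_15_29_X37

lemma g_1_2_5_15_29_X35 : Good (27 / 10) [1, 2, 5, 15, 29] 35 :=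
  Good.skip (by decide +kernel) g_1_2_5_15_29_X36

lemma g_1_2_5_15_29_X34 : Good (27 / 10) [1, 2, 5, 15, 29] 34 :=
  Good.skip (by decide +kernel) g_1_2_5_15_29_X35

lemma g_1_2_5_15_29_X33 : Good (27 / 10) [1, 2, 5, 15, 29] 33 :=
  Good.branch g_1_2_5_15_29_33_X34 g_1_2_5_15_29_X34

lemma g_1_2_5_15_29_X32 : Good (27 / 10) [1, 2, 5, 15, 29] 32 :=
  Good.skip (by decide +kernel) g_1_2_5_15_29_X33

lemma g_1_2_5_15_29_X31 : Good (27 / 10) [1, 2, 5, 15, 29] 31 :=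
  Good.skip (by decide +kernel) g_1_2_5_15_29_X32

lemma g_1_2_5_15_29_X30 : Good (27 / 10) [1, 2, 5, 15, 29] 30 :=
  Good.skip (by decide +kernel) g_1_2_5_15_29_X31

lemma g_1_2_5_15_30_X33 : Good (27 / 10) [1, 2, 5, 15, 30] 33 :=
  Good.skip (by decide +kernel) g_1_2_5_15_30_X34

lemma g_1_2_5_15_30_X32 : Good (27 / 10) [1, 2, 5, 15, 30] 32 :=
  Good.skip (by decide +kernel) g_1_2_5_15_30_X33

lemma g_1_2_5_15_30_X31 : Good (27 / 10) [1, 2, 5, 15, 30] 31 :=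
  Good.skip (by decide +kernel) g_1_2_5_15_30_X32

lemma g_1_2_5_15_31_X34 : Good (27 / 10) [1, 2, 5, 15, 31] 34 :=
  Good.skip (by decide +kernel) g_1_2_5_15_31_X35

lemma g_1_2_5_15_31_X33 : Good (27 / 10) [1, 2, 5, 15, 31] 33 :=
  Good.skip (by decide +kernel) g_1_2_5_15_31_X34

lemma g_1_2_5_15_31_X32 : Good (27 / 10) [1, 2, 5, 15, 31] 32 :=
  Good.skip (by decide +kernel) g_1_2_5_15_31_X33

lemma g_1_2_5_15_32_X35 : Good (27 / 10) [1, 2, 5, 15, 32] 35 :=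
  Good.skip (by decide +kernel) g_1_2_5_15_32_X36

lemma g_1_2_5_15_32_X34 : Good (27 / 10) [1, 2, 5, 15, 32] 34 :=
  Good.skip (by decide +kernel) g_1_2_5_15_32_X35

lemma g_1_2_5_15_32_X33 : Good (27 / 10) [1, 2, 5, 15, 32] 33 :=
  Good.skip (by decide +kernel) g_1_2_5_15_32_X34

lemma g_1_2_5_15_33_X36 : Good (27 / 10) [1, 2, 5, 15, 33] 36 :=
  Good.skip (by decide +kernel) g_1_2_5_15_33_X37

lemma g_1_2_5_15_33_X35 : Good (27 / 10) [1, 2, 5, 15, 33] 35 :=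
  Good.skip (by decide +kernel) g_1_2_5_15_33_X36

lemma g_1_2_5_15_33_X34 : Good (27 / 10) [1, 2, 5, 15, 33] 34 :=
  Good.skip (by decide +kernel) g_1_2_5_15_33_X35

lemma g_1_2_5_15_34_38_X46 : Good (27 / 10) [1, 2, 5, 15, 34, 38] 46 :=
  Good.skip (by decide +kernel) g_1_2_5_15_34_38_X47

lemma g_1_2_5_15_34_38_X45 : Good (27 / 10) [1, 2, 5, 15, 34, 38] 45 :=
  Good.skip (by decide +kernel) g_1_2_5_15_34_38_X46

lemma g_1_2_5_15_34_38_X44 : Good (27 / 10) [1, 2, 5, 15, 34, 38] 44 :=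
  Good.skip (by decide +kernel) g_1_2_5_15_34_38_X45

lemma g_1_2_5_15_34_38_X43 : Good (27 / 10) [1, 2, 5, 15, 34, 38] 43 :=
  Good.skip (by decide +kernel) g_1_2_5_15_34_38_X44

lemma g_1_2_5_15_34_38_X42 : Good (27 / 10) [1, 2, 5, 15, 34, 38] 42 :=
  Good.skip (by decide +kernel) g_1_2_5_15_34_38_X43

lemma g_1_2_5_15_34_38_X41 : Good (27 / 10) [1, 2, 5, 15, 34, 38] 41 :=
  Good.skip (by decide +kernel) g_1_2_5_15_34_38_X42

lemma g_1_2_5_15_34_38_X40 : Good (27 / 10) [1, 2, 5, 15, 34, 38] 40 :=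
  Good.skip (by decide +kernel) g_1_2_5_15_34_38_X41

lemma g_1_2_5_15_34_38_X39 : Good (27 / 10) [1, 2, 5, 15, 34, 38] 39 :=
  Good.skip (by decide +kernel) g_1_2_5_15_34_38_X40

lemma g_1_2_5_15_34_43_X46 : Good (27 / 10) [1, 2, 5, 15, 34, 43] 46 :=
  Good.skip (by decide +kernel) g_1_2_5_15_34_43_X47

lemma g_1_2_5_15_34_43_X45 : Good (27 / 10) [1, 2, 5, 15, 34, 43] 45 :=
  Good.skip (by decide +kernel) g_1_2_5_15_34_43_X46

lemma g_1_2_5_15_34_43_X44 : Good (27 / 10) [1, 2, 5, 15, 34, 43] 44 :=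
  Good.skip (by decide +kernel) g_1_2_5_15_34_43_X45

lemma g_1_2_5_15_34_X43 : Good (27 / 10) [1, 2, 5, 15, 34] 43 :=
  Good.branch g_1_2_5_15_34_43_X44 g_1_2_5_15_34_X44

lemma g_1_2_5_15_34_X42 : Good (27 / 10) [1, 2, 5, 15, 34] 42 :=
  Good.skip (by decide +kernel) g_1_2_5_15_34_X43

lemma g_1_2_5_15_34_X41 : Good (27 / 10) [1, 2, 5, 15, 34] 41 :=
  Good.skip (by decide +kernel) g_1_2_5_15_34_X42

lemma g_1_2_5_15_34_X40 : Good (27 / 10) [1, 2, 5, 15, 34] 40 :=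
  Good.skip (by decide +kernel) g_1_2_5_15_34_X41

lemma g_1_2_5_15_34_X39 : Good (27 / 10) [1, 2, 5, 15, 34] 39 :=
  Good.skip (by decide +kernel) g_1_2_5_15_34_X40

lemma g_1_2_5_15_34_X38 : Good (27 / 10) [1, 2, 5, 15, 34] 38 :=
  Good.branch g_1_2_5_15_34_38_X39 g_1_2_5_15_34_X39

lemma g_1_2_5_15_34_X37 : Good (27 / 10) [1, 2, 5, 15, 34] 37 :=
  Good.skip (by decide +kernel) g_1_2_5_15_34_X38

lemma g_1_2_5_15_34_X36 : Good (27 / 10) [1, 2, 5, 15, 34] 36 :=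
  Good.skip (by decide +kernel) g_1_2_5_15_34_X37

lemma g_1_2_5_15_34_X35 : Good (27 / 10) [1, 2, 5, 15, 34] 35 :=
  Good.skip (by decide +kernel) g_1_2_5_15_34_X36

lemma g_1_2_5_15_35_X38 : Good (27 / 10) [1, 2, 5, 15, 35] 38 :=
  Good.skip (by decide +kernel) g_1_2_5_15_35_X39

lemma g_1_2_5_15_35_X37 : Good (27 / 10) [1, 2, 5, 15, 35] 37 :=
  Good.skip (by decide +kernel) g_1_2_5_15_35_X38

lemma g_1_2_5_15_35_X36 : Good (27 / 10) [1, 2, 5, 15, 35] 36 :=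
  Good.skip (by decide +kernel) g_1_2_5_15_35_X37

lemma g_1_2_5_15_X35 : Good (27 / 10) [1, 2, 5, 15] 35 :=
  Good.branch g_1_2_5_15_35_X36 g_1_2_5_15_X36

lemma g_1_2_5_15_X34 : Good (27 / 10) [1, 2, 5, 15] 34 :=
  Good.branch g_1_2_5_15_34_X35 g_1_2_5_15_X35

lemma g_1_2_5_15_X33 : Good (27 / 10) [1, 2, 5, 15] 33 :=
  Good.branch g_1_2_5_15_33_X34 g_1_2_5_15_X34

lemma g_1_2_5_15_X32 : Good (27 / 10) [1, 2, 5, 15] 32 :=
  Good.branch g_1_2_5_15_32_X33 g_1_2_5_15_X33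

lemma g_1_2_5_15_X31 : Good (27 / 10) [1, 2, 5, 15] 31 :=
  Good.branch g_1_2_5_15_31_X32 g_1_2_5_15_X32

lemma g_1_2_5_15_X30 : Good (27 / 10) [1, 2, 5, 15] 30 :=
  Good.branch g_1_2_5_15_30_X31 g_1_2_5_15_X31

lemma g_1_2_5_15_X29 : Good (27 / 10) [1, 2, 5, 15] 29 :=
  Good.branch g_1_2_5_15_29_X30 g_1_2_5_15_X30

lemma g_1_2_5_15_X28 : Good (27 / 10) [1, 2, 5, 15] 28 :=
  Good.branch g_1_2_5_15_28_X29 g_1_2_5_15_X29

lemma g_1_2_5_15_X27 : Good (27 / 10) [1, 2, 5, 15] 27 :=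
  Good.branch g_1_2_5_15_27_X28 g_1_2_5_15_X28

lemma g_1_2_5_15_X26 : Good (27 / 10) [1, 2, 5, 15] 26 :=
  Good.branch g_1_2_5_15_26_X27 g_1_2_5_15_X27

lemma g_1_2_5_15_X25 : Good (27 / 10) [1, 2, 5, 15] 25 :=
  Good.branch g_1_2_5_15_25_X26 g_1_2_5_15_X26

lemma g_1_2_5_15_X24 : Good (27 / 10) [1, 2, 5, 15] 24 :=
  Good.branch g_1_2_5_15_24_X25 g_1_2_5_15_X25

lemma g_1_2_5_15_X23 : Good (27 / 10) [1, 2, 5, 15] 23 :=
  Good.skip (by decide +kernel) g_1_2_5_15_X24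

lemma g_1_2_5_15_X22 : Good (27 / 10) [1, 2, 5, 15] 22 :=
  Good.skip (by decide +kernel) g_1_2_5_15_X23

lemma g_1_2_5_15_X21 : Good (27 / 10) [1, 2, 5, 15] 21 :=
  Good.skip (by decide +kernel) g_1_2_5_15_X22

lemma g_1_2_5_15_X20 : Good (27 / 10) [1, 2, 5, 15] 20 :=
  Good.skip (by decide +kernel) g_1_2_5_15_X21

lemma g_1_2_5_15_X19 : Good (27 / 10) [1, 2, 5, 15] 19 :=
  Good.branch g_1_2_5_15_19_X20 g_1_2_5_15_X20

lemma g_1_2_5_15_X18 : Good (27 / 10) [1, 2, 5, 15] 18 :=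
  Good.skip (by decide +kernel) g_1_2_5_15_X19

lemma g_1_2_5_15_X17 : Good (27 / 10) [1, 2, 5, 15] 17 :=
  Good.skip (by decide +kernel) g_1_2_5_15_X18

lemma g_1_2_5_15_X16 : Good (27 / 10) [1, 2, 5, 15] 16 :=
  Good.skip (by decide +kernel) g_1_2_5_15_X17

lemma g_1_2_5_16_20_X28 : Good (27 / 10) [1, 2, 5, 16, 20] 28 :=
  Good.skip (by decide +kernel) g_1_2_5_16_20_X29

lemma g_1_2_5_16_20_X27 : Good (27 / 10) [1, 2, 5, 16, 20] 27 :=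
  Good.skip (by decide +kernel) g_1_2_5_16_20_X28

lemma g_1_2_5_16_20_X26 : Good (27 / 10) [1, 2, 5, 16, 20] 26 :=
  Good.skip (by decide +kernel) g_1_2_5_16_20_X27

lemma g_1_2_5_16_20_X25 : Good (27 / 10) [1, 2, 5, 16, 20] 25 :=
  Good.skip (by decide +kernel) g_1_2_5_16_20_X26

lemma g_1_2_5_16_20_X24 : Good (27 / 10) [1, 2, 5, 16, 20] 24 :=
  Good.skip (by decide +kernel) g_1_2_5_16_20_X25

lemma g_1_2_5_16_20_X23 : Good (27 / 10) [1, 2, 5, 16, 20] 23 :=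
  Good.skip (by decide +kernel) g_1_2_5_16_20_X24

lemma g_1_2_5_16_20_X22 : Good (27 / 10) [1, 2, 5, 16, 20] 22 :=
  Good.skip (by decide +kernel) g_1_2_5_16_20_X23

lemma g_1_2_5_16_20_X21 : Good (27 / 10) [1, 2, 5, 16, 20] 21 :=
  Good.skip (by decide +kernel) g_1_2_5_16_20_X22

lemma g_1_2_5_16_25_X28 : Good (27 / 10) [1, 2, 5, 16, 25] 28 :=
  Good.skip (by decide +kernel) g_1_2_5_16_25_X29

lemma g_1_2_5_16_25_X27 : Good (27 / 10) [1, 2, 5, 16, 25] 27 :=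
  Good.skip (by decide +kernel) g_1_2_5_16_25_X28

lemma g_1_2_5_16_25_X26 : Good (27 / 10) [1, 2, 5, 16, 25] 26 :=
  Good.skip (by decide +kernel) g_1_2_5_16_25_X27

lemma g_1_2_5_16_26_X29 : Good (27 / 10) [1, 2, 5, 16, 26] 29 :=
  Good.skip (by decide +kernel) g_1_2_5_16_26_X30

lemma g_1_2_5_16_26_X28 : Good (27 / 10) [1, 2, 5, 16, 26] 28 :=
  Good.skip (by decide +kernel) g_1_2_5_16_26_X29

lemma g_1_2_5_16_26_X27 : Good (27 / 10) [1, 2, 5, 16, 26] 27 :=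
  Good.skip (by decide +kernel) g_1_2_5_16_26_X28

lemma g_1_2_5_16_27_X30 : Good (27 / 10) [1, 2, 5, 16, 27] 30 :=
  Good.skip (by decide +kernel) g_1_2_5_16_27_X31

lemma g_1_2_5_16_27_X29 : Good (27 / 10) [1, 2, 5, 16, 27] 29 :=
  Good.skip (by decide +kernel) g_1_2_5_16_27_X30

lemma g_1_2_5_16_27_X28 : Good (27 / 10) [1, 2, 5, 16, 27] 28 :=
  Good.skip (by decide +kernel) g_1_2_5_16_27_X29

lemma g_1_2_5_16_28_X31 : Good (27 / 10) [1, 2, 5, 16, 28] 31 :=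
  Good.skip (by decide +kernel) g_1_2_5_16_28_X32

lemma g_1_2_5_16_28_X30 : Good (27 / 10) [1, 2, 5, 16, 28] 30 :=
  Good.skip (by decide +kernel) g_1_2_5_16_28_X31

lemma g_1_2_5_16_28_X29 : Good (27 / 10) [1, 2, 5, 16, 28] 29 :=
  Good.skip (by decide +kernel) g_1_2_5_16_28_X30

lemma g_1_2_5_16_29_X32 : Good (27 / 10) [1, 2, 5, 16, 29] 32 :=
  Good.skip (by decide +kernel) g_1_2_5_16_29_X33

lemma g_1_2_5_16_29_X31 : Good (27 / 10) [1, 2, 5, 16, 29] 31 :=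
  Good.skip (by decide +kernel) g_1_2_5_16_29_X32

lemma g_1_2_5_16_29_X30 : Good (27 / 10) [1, 2, 5, 16, 29] 30 :=
  Good.skip (by decide +kernel) g_1_2_5_16_29_X31

lemma g_1_2_5_16_30_34_X42 : Good (27 / 10) [1, 2, 5, 16, 30, 34] 42 :=
  Good.skip (by decide +kernel) g_1_2_5_16_30_34_X43

lemma g_1_2_5_16_30_34_X41 : Good (27 / 10) [1, 2, 5, 16, 30, 34] 41 :=
  Good.skip (by decide +kernel) g_1_2_5_16_30_34_X42

lemma g_1_2_5_16_30_34_X40 : Good (27 / 10) [1, 2, 5, 16, 30, 34] 40 :=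
  Good.skip (by decide +kernel) g_1_2_5_16_30_34_X41

lemma g_1_2_5_16_30_34_X39 : Good (27 / 10) [1, 2, 5, 16, 30, 34] 39 :=
  Good.skip (by decide +kernel) g_1_2_5_16_30_34_X40

lemma g_1_2_5_16_30_34_X38 : Good (27 / 10) [1, 2, 5, 16, 30, 34] 38 :=
  Good.skip (by decide +kernel) g_1_2_5_16_30_34_X39

lemma g_1_2_5_16_30_34_X37 : Good (27 / 10) [1, 2, 5, 16, 30, 34] 37 :=
  Good.skip (by decide +kernel) g_1_2_5_16_30_34_X38

lemma g_1_2_5_16_30_34_X36 : Good (27 / 10) [1, 2, 5, 16, 30, 34] 36 :=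
  Good.skip (by decide +kernel) g_1_2_5_16_30_34_X37

lemma g_1_2_5_16_30_34_X35 : Good (27 / 10) [1, 2, 5, 16, 30, 34] 35 :=
  Good.skip (by decide +kernel) g_1_2_5_16_30_34_X36

lemma g_1_2_5_16_30_39_X42 : Good (27 / 10) [1, 2, 5, 16, 30, 39] 42 :=
  Good.skip (by decide +kernel) g_1_2_5_16_30_39_X43

lemma g_1_2_5_16_30_39_X41 : Good (27 / 10) [1, 2, 5, 16, 30, 39] 41 :=
  Good.skip (by decide +kernel) g_1_2_5_16_30_39_X42

lemma g_1_2_5_16_30_39_X40 : Good (27 / 10) [1, 2, 5, 16, 30, 39] 40 :=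
  Good.skip (by decide +kernel) g_1_2_5_16_30_39_X41

lemma g_1_2_5_16_30_40_X43 : Good (27 / 10) [1, 2, 5, 16, 30, 40] 43 :=
  Good.skip (by decide +kernel) g_1_2_5_16_30_40_X44

lemma g_1_2_5_16_30_40_X42 : Good (27 / 10) [1, 2, 5, 16, 30, 40] 42 :=
  Good.skip (by decide +kernel) g_1_2_5_16_30_40_X43

lemma g_1_2_5_16_30_40_X41 : Good (27 / 10) [1, 2, 5, 16, 30, 40] 41 :=
  Good.skip (by decide +kernel) g_1_2_5_16_30_40_X42

lemma g_1_2_5_16_30_41_X44 : Good (27 / 10) [1, 2, 5, 16, 30, 41] 44 :=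
  Good.skip (by decide +kernel) g_1_2_5_16_30_41_X45

lemma g_1_2_5_16_30_41_X43 : Good (27 / 10) [1, 2, 5, 16, 30, 41] 43 :=
  Good.skip (by decide +kernel) g_1_2_5_16_30_41_X44

lemma g_1_2_5_16_30_41_X42 : Good (27 / 10) [1, 2, 5, 16, 30, 41] 42 :=
  Good.skip (by decide +kernel) g_1_2_5_16_30_41_X43

lemma g_1_2_5_16_30_42_X54 : Good (27 / 10) [1, 2, 5, 16, 30, 42] 54 :=
  Good.skip (by decide +kernel) g_1_2_5_16_30_42_X55

lemma g_1_2_5_16_30_42_X53 : Good (27 / 10) [1, 2, 5, 16, 30, 42] 53 :=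
  Good.skip (by decide +kernel) g_1_2_5_16_30_42_X54

lemma g_1_2_5_16_30_42_X52 : Good (27 / 10) [1, 2, 5, 16, 30, 42] 52 :=
  Good.skip (by decide +kernel) g_1_2_5_16_30_42_X53

lemma g_1_2_5_16_30_42_X51 : Good (27 / 10) [1, 2, 5, 16, 30, 42] 51 :=
  Good.skip (by decide +kernel) g_1_2_5_16_30_42_X52

lemma g_1_2_5_16_30_42_X50 : Good (27 / 10) [1, 2, 5, 16, 30, 42] 50 :=
  Good.skip (by decide +kernel) g_1_2_5_16_30_42_X51

lemma g_1_2_5_16_30_42_X49 : Good (27 / 10) [1, 2, 5, 16, 30, 42] 49 :=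
  Good.skip (by decide +kernel) g_1_2_5_16_30_42_X50

lemma g_1_2_5_16_30_42_X48 : Good (27 / 10) [1, 2, 5, 16, 30, 42] 48 :=
  Good.skip (by decide +kernel) g_1_2_5_16_30_42_X49

lemma g_1_2_5_16_30_42_X47 : Good (27 / 10) [1, 2, 5, 16, 30, 42] 47 :=
  Good.skip (by decide +kernel) g_1_2_5_16_30_42_X48

lemma g_1_2_5_16_30_42_X46 : Good (27 / 10) [1, 2, 5, 16, 30, 42] 46 :=
  Good.skip (by decide +kernel) g_1_2_5_16_30_42_X47

lemma g_1_2_5_16_30_42_X45 : Good (27 / 10) [1, 2, 5, 16, 30, 42] 45 :=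
  Good.skip (by decide +kernel) g_1_2_5_16_30_42_X46

lemma g_1_2_5_16_30_42_X44 : Good (27 / 10) [1, 2, 5, 16, 30, 42] 44 :=
  Good.skip (by decide +kernel) g_1_2_5_16_30_42_X45

lemma g_1_2_5_16_30_42_X43 : Good (27 / 10) [1, 2, 5, 16, 30, 42] 43 :=
  Good.skip (by decide +kernel) g_1_2_5_16_30_42_X44

lemma g_1_2_5_16_30_43_X54 : Good (27 / 10) [1, 2, 5, 16, 30, 43] 54 :=
  Good.skip (by decide +kernel) g_1_2_5_16_30_43_X55

lemma g_1_2_5_16_30_43_X53 : Good (27 / 10) [1, 2, 5, 16, 30, 43] 53 :=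
  Good.skip (by decide +kernel) g_1_2_5_16_30_43_X54

lemma g_1_2_5_16_30_43_X52 : Good (27 / 10) [1, 2, 5, 16, 30, 43] 52 :=
  Good.skip (by decide +kernel) g_1_2_5_16_30_43_X53

lemma g_1_2_5_16_30_43_X51 : Good (27 / 10) [1, 2, 5, 16, 30, 43] 51 :=
  Good.skip (by decide +kernel) g_1_2_5_16_30_43_X52

lemma g_1_2_5_16_30_43_X50 : Good (27 / 10) [1, 2, 5, 16, 30, 43] 50 :=
  Good.skip (by decide +kernel) g_1_2_5_16_30_43_X51

lemma g_1_2_5_16_30_43_X49 : Good (27 / 10) [1, 2, 5, 16, 30, 43] 49 :=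
  Good.skip (by decide +kernel) g_1_2_5_16_30_43_X50

lemma g_1_2_5_16_30_43_X48 : Good (27 / 10) [1, 2, 5, 16, 30, 43] 48 :=
  Good.skip (by decide +kernel) g_1_2_5_16_30_43_X49

lemma g_1_2_5_16_30_43_X47 : Good (27 / 10) [1, 2, 5, 16, 30, 43] 47 :=
  Good.skip (by decide +kernel) g_1_2_5_16_30_43_X48

lemma g_1_2_5_16_30_43_X46 : Good (27 / 10) [1, 2, 5, 16, 30, 43] 46 :=
  Good.skip (by decide +kernel) g_1_2_5_16_30_43_X47

lemma g_1_2_5_16_30_43_X45 : Good (27 / 10) [1, 2, 5, 16, 30, 43] 45 :=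
  Good.skip (by decide +kernel) g_1_2_5_16_30_43_X46

lemma g_1_2_5_16_30_43_X44 : Good (27 / 10) [1, 2, 5, 16, 30, 43] 44 :=
  Good.skip (by decide +kernel) g_1_2_5_16_30_43_X45

lemma g_1_2_5_16_30_X43 : Good (27 / 10) [1, 2, 5, 16, 30] 43 :=
  Good.branch g_1_2_5_16_30_43_X44 g_1_2_5_16_30_X44

lemma g_1_2_5_16_30_X42 : Good (27 / 10) [1, 2, 5, 16, 30] 42 :=
  Good.branch g_1_2_5_16_30_42_X43 g_1_2_5_16_30_X43

lemma g_1_2_5_16_30_X41 : Good (27 / 10) [1, 2, 5, 16, 30] 41 :=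
  Good.branch g_1_2_5_16_30_41_X42 g_1_2_5_16_30_X42

lemma g_1_2_5_16_30_X40 : Good (27 / 10) [1, 2, 5, 16, 30] 40 :=
  Good.branch g_1_2_5_16_30_40_X41 g_1_2_5_16_30_X41

lemma g_1_2_5_16_30_X39 : Good (27 / 10) [1, 2, 5, 16, 30] 39 :=
  Good.branch g_1_2_5_16_30_39_X40 g_1_2_5_16_30_X40

lemma g_1_2_5_16_30_X38 : Good (27 / 10) [1, 2, 5, 16, 30] 38 :=
  Good.skip (by decide +kernel) g_1_2_5_16_30_X39

lemma g_1_2_5_16_30_X37 : Good (27 / 10) [1, 2, 5, 16, 30] 37 :=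
  Good.skip (by decide +kernel) g_1_2_5_16_30_X38

lemma g_1_2_5_16_30_X36 : Good (27 / 10) [1, 2, 5, 16, 30] 36 :=
  Good.skip (by decide +kernel) g_1_2_5_16_30_X37

lemma g_1_2_5_16_30_X35 : Good (27 / 10) [1, 2, 5, 16, 30] 35 :=
  Good.skip (by decide +kernel) g_1_2_5_16_30_X36

lemma g_1_2_5_16_30_X34 : Good (27 / 10) [1, 2, 5, 16, 30] 34 :=
  Good.branch g_1_2_5_16_30_34_X35 g_1_2_5_16_30_X35

lemma g_1_2_5_16_30_X33 : Good (27 / 10) [1, 2, 5, 16, 30] 33 :=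
  Good.skip (by decide +kernel) g_1_2_5_16_30_X34

lemma g_1_2_5_16_30_X32 : Good (27 / 10) [1, 2, 5, 16, 30] 32 :=
  Good.skip (by decide +kernel) g_1_2_5_16_30_X33

lemma g_1_2_5_16_30_X31 : Good (27 / 10) [1, 2, 5, 16, 30] 31 :=
  Good.skip (by decide +kernel) g_1_2_5_16_30_X32

lemma g_1_2_5_16_31_35_X43 : Good (27 / 10) [1, 2, 5, 16, 31, 35] 43 :=
  Good.skip (by decide +kernel) g_1_2_5_16_31_35_X44

lemma g_1_2_5_16_31_35_X42 : Good (27 / 10) [1, 2, 5, 16, 31, 35] 42 :=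
  Good.skip (by decide +kernel) g_1_2_5_16_31_35_X43

lemma g_1_2_5_16_31_35_X41 : Good (27 / 10) [1, 2, 5, 16, 31, 35] 41 :=
  Good.skip (by decide +kernel) g_1_2_5_16_31_35_X42

lemma g_1_2_5_16_31_35_X40 : Good (27 / 10) [1, 2, 5, 16, 31, 35] 40 :=
  Good.skip (by decide +kernel) g_1_2_5_16_31_35_X41

lemma g_1_2_5_16_31_35_X39 : Good (27 / 10) [1, 2, 5, 16, 31, 35] 39 :=
  Good.skip (by decide +kernel) g_1_2_5_16_31_35_X40

lemma g_1_2_5_16_31_35_X38 : Good (27 / 10) [1, 2, 5, 16, 31, 35] 38 :=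
  Good.skip (by decide +kernel) g_1_2_5_16_31_35_X39

lemma g_1_2_5_16_31_35_X37 : Good (27 / 10) [1, 2, 5, 16, 31, 35] 37 :=
  Good.skip (by decide +kernel) g_1_2_5_16_31_35_X38

lemma g_1_2_5_16_31_35_X36 : Good (27 / 10) [1, 2, 5, 16, 31, 35] 36 :=
  Good.skip (by decide +kernel) g_1_2_5_16_31_35_X37

lemma g_1_2_5_16_31_40_X43 : Good (27 / 10) [1, 2, 5, 16, 31, 40] 43 :=
  Good.skip (by decide +kernel) g_1_2_5_16_31_40_X44

lemma g_1_2_5_16_31_40_X42 : Good (27 / 10) [1, 2, 5, 16, 31, 40] 42 :=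
  Good.skip (by decide +kernel) g_1_2_5_16_31_40_X43

lemma g_1_2_5_16_31_40_X41 : Good (27 / 10) [1, 2, 5, 16, 31, 40] 41 :=
  Good.skip (by decide +kernel) g_1_2_5_16_31_40_X42

lemma g_1_2_5_16_31_41_X44 : Good (27 / 10) [1, 2, 5, 16, 31, 41] 44 :=
  Good.skip (by decide +kernel) g_1_2_5_16_31_41_X45

lemma g_1_2_5_16_31_41_X43 : Good (27 / 10) [1, 2, 5, 16, 31, 41] 43 :=
  Good.skip (by decide +kernel) g_1_2_5_16_31_41_X44

lemma g_1_2_5_16_31_41_X42 : Good (27 / 10) [1, 2, 5, 16, 31, 41] 42 :=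
  Good.skip (by decide +kernel) g_1_2_5_16_31_41_X43

lemma g_1_2_5_16_31_42_X45 : Good (27 / 10) [1, 2, 5, 16, 31, 42] 45 :=
  Good.skip (by decide +kernel) g_1_2_5_16_31_42_X46

lemma g_1_2_5_16_31_42_X44 : Good (27 / 10) [1, 2, 5, 16, 31, 42] 44 :=
  Good.skip (by decide +kernel) g_1_2_5_16_31_42_X45

lemma g_1_2_5_16_31_42_X43 : Good (27 / 10) [1, 2, 5, 16, 31, 42] 43 :=
  Good.skip (by decide +kernel) g_1_2_5_16_31_42_X44

lemma g_1_2_5_16_31_43_X55 : Good (27 / 10) [1, 2, 5, 16, 31, 43] 55 :=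
  Good.skip (by decide +kernel) g_1_2_5_16_31_43_X56

lemma g_1_2_5_16_31_43_X54 : Good (27 / 10) [1, 2, 5, 16, 31, 43] 54 :=
  Good.skip (by decide +kernel) g_1_2_5_16_31_43_X55

lemma g_1_2_5_16_31_43_X53 : Good (27 / 10) [1, 2, 5, 16, 31, 43] 53 :=
  Good.skip (by decide +kernel) g_1_2_5_16_31_43_X54

lemma g_1_2_5_16_31_43_X52 : Good (27 / 10) [1, 2, 5, 16, 31, 43] 52 :=
  Good.skip (by decide +kernel) g_1_2_5_16_31_43_X53

lemma g_1_2_5_16_31_43_X51 : Good (27 / 10) [1, 2, 5, 16, 31, 43] 51 :=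
  Good.skip (by decide +kernel) g_1_2_5_16_31_43_X52

lemma g_1_2_5_16_31_43_X50 : Good (27 / 10) [1, 2, 5, 16, 31, 43] 50 :=
  Good.skip (by decide +kernel) g_1_2_5_16_31_43_X51

lemma g_1_2_5_16_31_43_X49 : Good (27 / 10) [1, 2, 5, 16, 31, 43] 49 :=
  Good.skip (by decide +kernel) g_1_2_5_16_31_43_X50

lemma g_1_2_5_16_31_43_X48 : Good (27 / 10) [1, 2, 5, 16, 31, 43] 48 :=
  Good.skip (by decide +kernel) g_1_2_5_16_31_43_X49

lemma g_1_2_5_16_31_43_X47 : Good (27 / 10) [1, 2, 5, 16, 31, 43] 47 :=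
  Good.skip (by decide +kernel) g_1_2_5_16_31_43_X48

lemma g_1_2_5_16_31_43_X46 : Good (27 / 10) [1, 2, 5, 16, 31, 43] 46 :=
  Good.skip (by decide +kernel) g_1_2_5_16_31_43_X47

lemma g_1_2_5_16_31_43_X45 : Good (27 / 10) [1, 2, 5, 16, 31, 43] 45 :=
  Good.skip (by decide +kernel) g_1_2_5_16_31_43_X46

lemma g_1_2_5_16_31_43_X44 : Good (27 / 10) [1, 2, 5, 16, 31, 43] 44 :=
  Good.skip (by decide +kernel) g_1_2_5_16_31_43_X45

lemma g_1_2_5_16_31_X43 : Good (27 / 10) [1, 2, 5, 16, 31] 43 :=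
  Good.branch g_1_2_5_16_31_43_X44 g_1_2_5_16_31_X44

lemma g_1_2_5_16_31_X42 : Good (27 / 10) [1, 2, 5, 16, 31] 42 :=
  Good.branch g_1_2_5_16_31_42_X43 g_1_2_5_16_31_X43

lemma g_1_2_5_16_31_X41 : Good (27 / 10) [1, 2, 5, 16, 31] 41 :=
  Good.branch g_1_2_5_16_31_41_X42 g_1_2_5_16_31_X42

lemma g_1_2_5_16_31_X40 : Good (27 / 10) [1, 2, 5, 16, 31] 40 :=
  Good.branch g_1_2_5_16_31_40_X41 g_1_2_5_16_31_X41

lemma g_1_2_5_16_31_X39 : Good (27 / 10) [1, 2, 5, 16, 31] 39 :=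
  Good.skip (by decide +kernel) g_1_2_5_16_31_X40

lemma g_1_2_5_16_31_X38 : Good (27 / 10) [1, 2, 5, 16, 31] 38 :=
  Good.skip (by decide +kernel) g_1_2_5_16_31_X39

lemma g_1_2_5_16_31_X37 : Good (27 / 10) [1, 2, 5, 16, 31] 37 :=
  Good.skip (by decide +kernel) g_1_2_5_16_31_X38

lemma g_1_2_5_16_31_X36 : Good (27 / 10) [1, 2, 5, 16, 31] 36 :=
  Good.skip (by decide +kernel) g_1_2_5_16_31_X37

lemma g_1_2_5_16_31_X35 : Good (27 / 10) [1, 2, 5, 16, 31] 35 :=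
  Good.branch g_1_2_5_16_31_35_X36 g_1_2_5_16_31_X36

lemma g_1_2_5_16_31_X34 : Good (27 / 10) [1, 2, 5, 16, 31] 34 :=
  Good.skip (by decide +kernel) g_1_2_5_16_31_X35

lemma g_1_2_5_16_31_X33 : Good (27 / 10) [1, 2, 5, 16, 31] 33 :=
  Good.skip (by decide +kernel) g_1_2_5_16_31_X34

lemma g_1_2_5_16_31_X32 : Good (27 / 10) [1, 2, 5, 16, 31] 32 :=
  Good.skip (by decide +kernel) g_1_2_5_16_31_X33

lemma g_1_2_5_16_32_X35 : Good (27 / 10) [1, 2, 5, 16, 32] 35 :=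
  Good.skip (by decide +kernel) g_1_2_5_16_32_X36

lemma g_1_2_5_16_32_X34 : Good (27 / 10) [1, 2, 5, 16, 32] 34 :=
  Good.skip (by decide +kernel) g_1_2_5_16_32_X35

lemma g_1_2_5_16_32_X33 : Good (27 / 10) [1, 2, 5, 16, 32] 33 :=
  Good.skip (by decide +kernel) g_1_2_5_16_32_X34

lemma g_1_2_5_16_33_X36 : Good (27 / 10) [1, 2, 5, 16, 33] 36 :=
  Good.skip (by decide +kernel) g_1_2_5_16_33_X37

lemma g_1_2_5_16_33_X35 : Good (27 / 10) [1, 2, 5, 16, 33] 35 :=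
  Good.skip (by decide +kernel) g_1_2_5_16_33_X36

lemma g_1_2_5_16_33_X34 : Good (27 / 10) [1, 2, 5, 16, 33] 34 :=
  Good.skip (by decide +kernel) g_1_2_5_16_33_X35

lemma g_1_2_5_16_34_X37 : Good (27 / 10) [1, 2, 5, 16, 34] 37 :=
  Good.skip (by decide +kernel) g_1_2_5_16_34_X38

lemma g_1_2_5_16_34_X36 : Good (27 / 10) [1, 2, 5, 16, 34] 36 :=
  Good.skip (by decide +kernel) g_1_2_5_16_34_X37

lemma g_1_2_5_16_34_X35 : Good (27 / 10) [1, 2, 5, 16, 34] 35 :=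
  Good.skip (by decide +kernel) g_1_2_5_16_34_X36

lemma g_1_2_5_16_X34 : Good (27 / 10) [1, 2, 5, 16] 34 :=
  Good.branch g_1_2_5_16_34_X35 g_1_2_5_16_X35

lemma g_1_2_5_16_X33 : Good (27 / 10) [1, 2, 5, 16] 33 :=
  Good.branch g_1_2_5_16_33_X34 g_1_2_5_16_X34

lemma g_1_2_5_16_X32 : Good (27 / 10) [1, 2, 5, 16] 32 :=
  Good.branch g_1_2_5_16_32_X33 g_1_2_5_16_X33

lemma g_1_2_5_16_X31 : Good (27 / 10) [1, 2, 5, 16] 31 :=
  Good.branch g_1_2_5_16_31_X32 g_1_2_5_16_X32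

lemma g_1_2_5_16_X30 : Good (27 / 10) [1, 2, 5, 16] 30 :=
  Good.branch g_1_2_5_16_30_X31 g_1_2_5_16_X31

lemma g_1_2_5_16_X29 : Good (27 / 10) [1, 2, 5, 16] 29 :=
  Good.branch g_1_2_5_16_29_X30 g_1_2_5_16_X30

lemma g_1_2_5_16_X28 : Good (27 / 10) [1, 2, 5, 16] 28 :=
  Good.branch g_1_2_5_16_28_X29 g_1_2_5_16_X29

lemma g_1_2_5_16_X27 : Good (27 / 10) [1, 2, 5, 16] 27 :=
  Good.branch g_1_2_5_16_27_X28 g_1_2_5_16_X28

lemma g_1_2_5_16_X26 : Good (27 / 10) [1, 2, 5, 16] 26 :=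
  Good.branch g_1_2_5_16_26_X27 g_1_2_5_16_X27

lemma g_1_2_5_16_X25 : Good (27 / 10) [1, 2, 5, 16] 25 :=
  Good.branch g_1_2_5_16_25_X26 g_1_2_5_16_X26

lemma g_1_2_5_16_X24 : Good (27 / 10) [1, 2, 5, 16] 24 :=
  Good.skip (by decide +kernel) g_1_2_5_16_X25

lemma g_1_2_5_16_X23 : Good (27 / 10) [1, 2, 5, 16] 23 :=
  Good.skip (by decide +kernel) g_1_2_5_16_X24

lemma g_1_2_5_16_X22 : Good (27 / 10) [1, 2, 5, 16] 22 :=
  Good.skip (by decide +kernel) g_1_2_5_16_X23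

lemma g_1_2_5_16_X21 : Good (27 / 10) [1, 2, 5, 16] 21 :=
  Good.skip (by decide +kernel) g_1_2_5_16_X22

lemma g_1_2_5_16_X20 : Good (27 / 10) [1, 2, 5, 16] 20 :=
  Good.branch g_1_2_5_16_20_X21 g_1_2_5_16_X21

lemma g_1_2_5_16_X19 : Good (27 / 10) [1, 2, 5, 16] 19 :=
  Good.skip (by decide +kernel) g_1_2_5_16_X20

lemma g_1_2_5_16_X18 : Good (27 / 10) [1, 2, 5, 16] 18 :=
  Good.skip (by decide +kernel) g_1_2_5_16_X19

lemma g_1_2_5_16_X17 : Good (27 / 10) [1, 2, 5, 16] 17 :=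
  Good.skip (by decide +kernel) g_1_2_5_16_X18

lemma g_1_2_5_17_21_X29 : Good (27 / 10) [1, 2, 5, 17, 21] 29 :=
  Good.skip (by decide +kernel) g_1_2_5_17_21_X30

lemma g_1_2_5_17_21_X28 : Good (27 / 10) [1, 2, 5, 17, 21] 28 :=
  Good.skip (by decide +kernel) g_1_2_5_17_21_X29

lemma g_1_2_5_17_21_X27 : Good (27 / 10) [1, 2, 5, 17, 21] 27 :=
  Good.skip (by decide +kernel) g_1_2_5_17_21_X28

lemma g_1_2_5_17_21_X26 : Good (27 / 10) [1, 2, 5, 17, 21] 26 :=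
  Good.skip (by decide +kernel) g_1_2_5_17_21_X27

lemma g_1_2_5_17_21_X25 : Good (27 / 10) [1, 2, 5, 17, 21] 25 :=
  Good.skip (by decide +kernel) g_1_2_5_17_21_X26

lemma g_1_2_5_17_21_X24 : Good (27 / 10) [1, 2, 5, 17, 21] 24 :=
  Good.skip (by decide +kernel) g_1_2_5_17_21_X25

lemma g_1_2_5_17_21_X23 : Good (27 / 10) [1, 2, 5, 17, 21] 23 :=
  Good.skip (by decide +kernel) g_1_2_5_17_21_X24

lemma g_1_2_5_17_21_X22 : Good (27 / 10) [1, 2, 5, 17, 21] 22 :=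
  Good.skip (by decide +kernel) g_1_2_5_17_21_X23

lemma g_1_2_5_17_26_X29 : Good (27 / 10) [1, 2, 5, 17, 26] 29 :=
  Good.skip (by decide +kernel) g_1_2_5_17_26_X30

lemma g_1_2_5_17_26_X28 : Good (27 / 10) [1, 2, 5, 17, 26] 28 :=
  Good.skip (by decide +kernel) g_1_2_5_17_26_X29

lemma g_1_2_5_17_26_X27 : Good (27 / 10) [1, 2, 5, 17, 26] 27 :=
  Good.skip (by decide +kernel) g_1_2_5_17_26_X28

lemma g_1_2_5_17_27_X30 : Good (27 / 10) [1, 2, 5, 17, 27] 30 :=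
  Good.skip (by decide +kernel) g_1_2_5_17_27_X31

lemma g_1_2_5_17_27_X29 : Good (27 / 10) [1, 2, 5, 17, 27] 29 :=
  Good.skip (by decide +kernel) g_1_2_5_17_27_X30

lemma g_1_2_5_17_27_X28 : Good (27 / 10) [1, 2, 5, 17, 27] 28 :=
  Good.skip (by decide +kernel) g_1_2_5_17_27_X29

lemma g_1_2_5_17_28_X31 : Good (27 / 10) [1, 2, 5, 17, 28] 31 :=
  Good.skip (by decide +kernel) g_1_2_5_17_28_X32

lemma g_1_2_5_17_28_X30 : Good (27 / 10) [1, 2, 5, 17, 28] 30 :=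
  Good.skip (by decide +kernel) g_1_2_5_17_28_X31

lemma g_1_2_5_17_28_X29 : Good (27 / 10) [1, 2, 5, 17, 28] 29 :=
  Good.skip (by decide +kernel) g_1_2_5_17_28_X30

lemma g_1_2_5_17_29_X32 : Good (27 / 10) [1, 2, 5, 17, 29] 32 :=
  Good.skip (by decide +kernel) g_1_2_5_17_29_X33

lemma g_1_2_5_17_29_X31 : Good (27 / 10) [1, 2, 5, 17, 29] 31 :=
  Good.skip (by decide +kernel) g_1_2_5_17_29_X32

lemma g_1_2_5_17_29_X30 : Good (27 / 10) [1, 2, 5, 17, 29] 30 :=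
  Good.skip (by decide +kernel) g_1_2_5_17_29_X31

lemma g_1_2_5_17_30_X33 : Good (27 / 10) [1, 2, 5, 17, 30] 33 :=
  Good.skip (by decide +kernel) g_1_2_5_17_30_X34

lemma g_1_2_5_17_30_X32 : Good (27 / 10) [1, 2, 5, 17, 30] 32 :=
  Good.skip (by decide +kernel) g_1_2_5_17_30_X33

lemma g_1_2_5_17_30_X31 : Good (27 / 10) [1, 2, 5, 17, 30] 31 :=
  Good.skip (by decide +kernel) g_1_2_5_17_30_X32

lemma g_1_2_5_17_31_X34 : Good (27 / 10) [1, 2, 5, 17, 31] 34 :=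
  Good.skip (by decide +kernel) g_1_2_5_17_31_X35

lemma g_1_2_5_17_31_X33 : Good (27 / 10) [1, 2, 5, 17, 31] 33 :=
  Good.skip (by decide +kernel) g_1_2_5_17_31_X34

lemma g_1_2_5_17_31_X32 : Good (27 / 10) [1, 2, 5, 17, 31] 32 :=
  Good.skip (by decide +kernel) g_1_2_5_17_31_X33

lemma g_1_2_5_17_32_36_X44 : Good (27 / 10) [1, 2, 5, 17, 32, 36] 44 :=
  Good.skip (by decide +kernel) g_1_2_5_17_32_36_X45

lemma g_1_2_5_17_32_36_X43 : Good (27 / 10) [1, 2, 5, 17, 32, 36] 43 :=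
  Good.skip (by decide +kernel) g_1_2_5_17_32_36_X44

lemma g_1_2_5_17_32_36_X42 : Good (27 / 10) [1, 2, 5, 17, 32, 36] 42 :=
  Good.skip (by decide +kernel) g_1_2_5_17_32_36_X43

lemma g_1_2_5_17_32_36_X41 : Good (27 / 10) [1, 2, 5, 17, 32, 36] 41 :=
  Good.skip (by decide +kernel) g_1_2_5_17_32_36_X42

lemma g_1_2_5_17_32_36_X40 : Good (27 / 10) [1, 2, 5, 17, 32, 36] 40 :=
  Good.skip (by decide +kernel) g_1_2_5_17_32_36_X41

lemma g_1_2_5_17_32_36_X39 : Good (27 / 10) [1, 2, 5, 17, 32, 36] 39 :=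
  Good.skip (by decide +kernel) g_1_2_5_17_32_36_X40

lemma g_1_2_5_17_32_36_X38 : Good (27 / 10) [1, 2, 5, 17, 32, 36] 38 :=
  Good.skip (by decide +kernel) g_1_2_5_17_32_36_X39

lemma g_1_2_5_17_32_36_X37 : Good (27 / 10) [1, 2, 5, 17, 32, 36] 37 :=
  Good.skip (by decide +kernel) g_1_2_5_17_32_36_X38

lemma g_1_2_5_17_32_41_X44 : Good (27 / 10) [1, 2, 5, 17, 32, 41] 44 :=
  Good.skip (by decide +kernel) g_1_2_5_17_32_41_X45

lemma g_1_2_5_17_32_41_X43 : Good (27 / 10) [1, 2, 5, 17, 32, 41] 43 :=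
  Good.skip (by decide +kernel) g_1_2_5_17_32_41_X44

lemma g_1_2_5_17_32_41_X42 : Good (27 / 10) [1, 2, 5, 17, 32, 41] 42 :=
  Good.skip (by decide +kernel) g_1_2_5_17_32_41_X43

lemma g_1_2_5_17_32_X41 : Good (27 / 10) [1, 2, 5, 17, 32] 41 :=
  Good.branch g_1_2_5_17_32_41_X42 g_1_2_5_17_32_X42

lemma g_1_2_5_17_32_X40 : Good (27 / 10) [1, 2, 5, 17, 32] 40 :=
  Good.skip (by decide +kernel) g_1_2_5_17_32_X41

lemma g_1_2_5_17_32_X39 : Good (27 / 10) [1, 2, 5, 17, 32] 39 :=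
  Good.skip (by decide +kernel) g_1_2_5_17_32_X40

lemma g_1_2_5_17_32_X38 : Good (27 / 10) [1, 2, 5, 17, 32] 38 :=
  Good.skip (by decide +kernel) g_1_2_5_17_32_X39

lemma g_1_2_5_17_32_X37 : Good (27 / 10) [1, 2, 5, 17, 32] 37 :=
  Good.skip (by decide +kernel) g_1_2_5_17_32_X38

lemma g_1_2_5_17_32_X36 : Good (27 / 10) [1, 2, 5, 17, 32] 36 :=
  Good.branch g_1_2_5_17_32_36_X37 g_1_2_5_17_32_X37

lemma g_1_2_5_17_32_X35 : Good (27 / 10) [1, 2, 5, 17, 32] 35 :=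
  Good.skip (by decide +kernel) g_1_2_5_17_32_X36

lemma g_1_2_5_17_32_X34 : Good (27 / 10) [1, 2, 5, 17, 32] 34 :=
  Good.skip (by decide +kernel) g_1_2_5_17_32_X35

lemma g_1_2_5_17_32_X33 : Good (27 / 10) [1, 2, 5, 17, 32] 33 :=
  Good.skip (by decide +kernel) g_1_2_5_17_32_X34

lemma g_1_2_5_17_33_37_X45 : Good (27 / 10) [1, 2, 5, 17, 33, 37] 45 :=
  Good.skip (by decide +kernel) g_1_2_5_17_33_37_X46

lemma g_1_2_5_17_33_37_X44 : Good (27 / 10) [1, 2, 5, 17, 33, 37] 44 :=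
  Good.skip (by decide +kernel) g_1_2_5_17_33_37_X45

lemma g_1_2_5_17_33_37_X43 : Good (27 / 10) [1, 2, 5, 17, 33, 37] 43 :=
  Good.skip (by decide +kernel) g_1_2_5_17_33_37_X44

lemma g_1_2_5_17_33_37_X42 : Good (27 / 10) [1, 2, 5, 17, 33, 37] 42 :=
  Good.skip (by decide +kernel) g_1_2_5_17_33_37_X43

lemma g_1_2_5_17_33_37_X41 : Good (27 / 10) [1, 2, 5, 17, 33, 37] 41 :=
  Good.skip (by decide +kernel) g_1_2_5_17_33_37_X42

lemma g_1_2_5_17_33_37_X40 : Good (27 / 10) [1, 2, 5, 17, 33, 37] 40 :=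
  Good.skip (by decide +kernel) g_1_2_5_17_33_37_X41

lemma g_1_2_5_17_33_37_X39 : Good (27 / 10) [1, 2, 5, 17, 33, 37] 39 :=
  Good.skip (by decide +kernel) g_1_2_5_17_33_37_X40

lemma g_1_2_5_17_33_37_X38 : Good (27 / 10) [1, 2, 5, 17, 33, 37] 38 :=
  Good.skip (by decide +kernel) g_1_2_5_17_33_37_X39

lemma g_1_2_5_17_33_X41 : Good (27 / 10) [1, 2, 5, 17, 33] 41 :=
  Good.skip (by decide +kernel) g_1_2_5_17_33_X42

lemma g_1_2_5_17_33_X40 : Good (27 / 10) [1, 2, 5, 17, 33] 40 :=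
  Good.skip (by decide +kernel) g_1_2_5_17_33_X41

lemma g_1_2_5_17_33_X39 : Good (27 / 10) [1, 2, 5, 17, 33] 39 :=
  Good.skip (by decide +kernel) g_1_2_5_17_33_X40

lemma g_1_2_5_17_33_X38 : Good (27 / 10) [1, 2, 5, 17, 33] 38 :=
  Good.skip (by decide +kernel) g_1_2_5_17_33_X39

lemma g_1_2_5_17_33_X37 : Good (27 / 10) [1, 2, 5, 17, 33] 37 :=
  Good.branch g_1_2_5_17_33_37_X38 g_1_2_5_17_33_X38

lemma g_1_2_5_17_33_X36 : Good (27 / 10) [1, 2, 5, 17, 33] 36 :=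
  Good.skip (by decide +kernel) g_1_2_5_17_33_X37

lemma g_1_2_5_17_33_X35 : Good (27 / 10) [1, 2, 5, 17, 33] 35 :=
  Good.skip (by decide +kernel) g_1_2_5_17_33_X36

lemma g_1_2_5_17_33_X34 : Good (27 / 10) [1, 2, 5, 17, 33] 34 :=
  Good.skip (by decide +kernel) g_1_2_5_17_33_X35

lemma g_1_2_5_17_X33 : Good (27 / 10) [1, 2, 5, 17] 33 :=
  Good.branch g_1_2_5_17_33_X34 g_1_2_5_17_X34

lemma g_1_2_5_17_X32 : Good (27 / 10) [1, 2, 5, 17] 32 :=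
  Good.branch g_1_2_5_17_32_X33 g_1_2_5_17_X33

lemma g_1_2_5_17_X31 : Good (27 / 10) [1, 2, 5, 17] 31 :=
  Good.branch g_1_2_5_17_31_X32 g_1_2_5_17_X32

lemma g_1_2_5_17_X30 : Good (27 / 10) [1, 2, 5, 17] 30 :=
  Good.branch g_1_2_5_17_30_X31 g_1_2_5_17_X31

lemma g_1_2_5_17_X29 : Good (27 / 10) [1, 2, 5, 17] 29 :=
  Good.branch g_1_2_5_17_29_X30 g_1_2_5_17_X30

lemma g_1_2_5_17_X28 : Good (27 / 10) [1, 2, 5, 17] 28 :=
  Good.branch g_1_2_5_17_28_X29 g_1_2_5_17_X29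

lemma g_1_2_5_17_X27 : Good (27 / 10) [1, 2, 5, 17] 27 :=
  Good.branch g_1_2_5_17_27_X28 g_1_2_5_17_X28

lemma g_1_2_5_17_X26 : Good (27 / 10) [1, 2, 5, 17] 26 :=
  Good.branch g_1_2_5_17_26_X27 g_1_2_5_17_X27

lemma g_1_2_5_17_X25 : Good (27 / 10) [1, 2, 5, 17] 25 :=
  Good.skip (by decide +kernel) g_1_2_5_17_X26

lemma g_1_2_5_17_X24 : Good (27 / 10) [1, 2, 5, 17] 24 :=
  Good.skip (by decide +kernel) g_1_2_5_17_X25

lemma g_1_2_5_17_X23 : Good (27 / 10) [1, 2, 5, 17] 23 :=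
  Good.skip (by decide +kernel) g_1_2_5_17_X24

lemma g_1_2_5_17_X22 : Good (27 / 10) [1, 2, 5, 17] 22 :=
  Good.skip (by decide +kernel) g_1_2_5_17_X23

lemma g_1_2_5_17_X21 : Good (27 / 10) [1, 2, 5, 17] 21 :=
  Good.branch g_1_2_5_17_21_X22 g_1_2_5_17_X22

lemma g_1_2_5_17_X20 : Good (27 / 10) [1, 2, 5, 17] 20 :=
  Good.skip (by decide +kernel) g_1_2_5_17_X21

lemma g_1_2_5_17_X19 : Good (27 / 10) [1, 2, 5, 17] 19 :=
  Good.skip (by decide +kernel) g_1_2_5_17_X20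

lemma g_1_2_5_17_X18 : Good (27 / 10) [1, 2, 5, 17] 18 :=
  Good.skip (by decide +kernel) g_1_2_5_17_X19

lemma g_1_2_5_18_22_X30 : Good (27 / 10) [1, 2, 5, 18, 22] 30 :=
  Good.skip (by decide +kernel) g_1_2_5_18_22_X31

lemma g_1_2_5_18_22_X29 : Good (27 / 10) [1, 2, 5, 18, 22] 29 :=
  Good.skip (by decide +kernel) g_1_2_5_18_22_X30

lemma g_1_2_5_18_22_X28 : Good (27 / 10) [1, 2, 5, 18, 22] 28 :=
  Good.skip (by decide +kernel) g_1_2_5_18_22_X29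

lemma g_1_2_5_18_22_X27 : Good (27 / 10) [1, 2, 5, 18, 22] 27 :=
  Good.skip (by decide +kernel) g_1_2_5_18_22_X28

lemma g_1_2_5_18_22_X26 : Good (27 / 10) [1, 2, 5, 18, 22] 26 :=
  Good.skip (by decide +kernel) g_1_2_5_18_22_X27

lemma g_1_2_5_18_22_X25 : Good (27 / 10) [1, 2, 5, 18, 22] 25 :=
  Good.skip (by decide +kernel) g_1_2_5_18_22_X26

lemma g_1_2_5_18_22_X24 : Good (27 / 10) [1, 2, 5, 18, 22] 24 :=
  Good.skip (by decide +kernel) g_1_2_5_18_22_X25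

lemma g_1_2_5_18_22_X23 : Good (27 / 10) [1, 2, 5, 18, 22] 23 :=
  Good.skip (by decide +kernel) g_1_2_5_18_22_X24

lemma g_1_2_5_18_27_X30 : Good (27 / 10) [1, 2, 5, 18, 27] 30 :=
  Good.skip (by decide +kernel) g_1_2_5_18_27_X31

lemma g_1_2_5_18_27_X29 : Good (27 / 10) [1, 2, 5, 18, 27] 29 :=
  Good.skip (by decide +kernel) g_1_2_5_18_27_X30

lemma g_1_2_5_18_27_X28 : Good (27 / 10) [1, 2, 5, 18, 27] 28 :=
  Good.skip (by decide +kernel) g_1_2_5_18_27_X29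

lemma g_1_2_5_18_28_X31 : Good (27 / 10) [1, 2, 5, 18, 28] 31 :=
  Good.skip (by decide +kernel) g_1_2_5_18_28_X32

lemma g_1_2_5_18_28_X30 : Good (27 / 10) [1, 2, 5, 18, 28] 30 :=
  Good.skip (by decide +kernel) g_1_2_5_18_28_X31

lemma g_1_2_5_18_28_X29 : Good (27 / 10) [1, 2, 5, 18, 28] 29 :=
  Good.skip (by decide +kernel) g_1_2_5_18_28_X30

lemma g_1_2_5_18_29_X32 : Good (27 / 10) [1, 2, 5, 18, 29] 32 :=
  Good.skip (by decide +kernel) g_1_2_5_18_29_X33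

lemma g_1_2_5_18_29_X31 : Good (27 / 10) [1, 2, 5, 18, 29] 31 :=
  Good.skip (by decide +kernel) g_1_2_5_18_29_X32

lemma g_1_2_5_18_29_X30 : Good (27 / 10) [1, 2, 5, 18, 29] 30 :=
  Good.skip (by decide +kernel) g_1_2_5_18_29_X31

lemma g_1_2_5_18_30_X33 : Good (27 / 10) [1, 2, 5, 18, 30] 33 :=
  Good.skip (by decide +kernel) g_1_2_5_18_30_X34

lemma g_1_2_5_18_30_X32 : Good (27 / 10) [1, 2, 5, 18, 30] 32 :=
  Good.skip (by decide +kernel) g_1_2_5_18_30_X33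

lemma g_1_2_5_18_30_X31 : Good (27 / 10) [1, 2, 5, 18, 30] 31 :=
  Good.skip (by decide +kernel) g_1_2_5_18_30_X32

lemma g_1_2_5_18_31_X34 : Good (27 / 10) [1, 2, 5, 18, 31] 34 :=
  Good.skip (by decide +kernel) g_1_2_5_18_31_X35

lemma g_1_2_5_18_31_X33 : Good (27 / 10) [1, 2, 5, 18, 31] 33 :=
  Good.skip (by decide +kernel) g_1_2_5_18_31_X34

lemma g_1_2_5_18_31_X32 : Good (27 / 10) [1, 2, 5, 18, 31] 32 :=
  Good.skip (by decide +kernel) g_1_2_5_18_31_X33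

lemma g_1_2_5_18_32_X35 : Good (27 / 10) [1, 2, 5, 18, 32] 35 :=
  Good.skip (by decide +kernel) g_1_2_5_18_32_X36

lemma g_1_2_5_18_32_X34 : Good (27 / 10) [1, 2, 5, 18, 32] 34 :=
  Good.skip (by decide +kernel) g_1_2_5_18_32_X35

lemma g_1_2_5_18_32_X33 : Good (27 / 10) [1, 2, 5, 18, 32] 33 :=
  Good.skip (by decide +kernel) g_1_2_5_18_32_X34

lemma g_1_2_5_18_33_X36 : Good (27 / 10) [1, 2, 5, 18, 33] 36 :=
  Good.skip (by decide +kernel) g_1_2_5_18_33_X37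

lemma g_1_2_5_18_33_X35 : Good (27 / 10) [1, 2, 5, 18, 33] 35 :=
  Good.skip (by decide +kernel) g_1_2_5_18_33_X36

lemma g_1_2_5_18_33_X34 : Good (27 / 10) [1, 2, 5, 18, 33] 34 :=
  Good.skip (by decide +kernel) g_1_2_5_18_33_X35

lemma g_1_2_5_18_X33 : Good (27 / 10) [1, 2, 5, 18] 33 :=
  Good.branch g_1_2_5_18_33_X34 g_1_2_5_18_X34

lemma g_1_2_5_18_X32 : Good (27 / 10) [1, 2, 5, 18] 32 :=
  Good.branch g_1_2_5_18_32_X33 g_1_2_5_18_X33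

lemma g_1_2_5_18_X31 : Good (27 / 10) [1, 2, 5, 18] 31 :=
  Good.branch g_1_2_5_18_31_X32 g_1_2_5_18_X32

lemma g_1_2_5_18_X30 : Good (27 / 10) [1, 2, 5, 18] 30 :=
  Good.branch g_1_2_5_18_30_X31 g_1_2_5_18_X31

lemma g_1_2_5_18_X29 : Good (27 / 10) [1, 2, 5, 18] 29 :=
  Good.branch g_1_2_5_18_29_X30 g_1_2_5_18_X30

lemma g_1_2_5_18_X28 : Good (27 / 10) [1, 2, 5, 18] 28 :=
  Good.branch g_1_2_5_18_28_X29 g_1_2_5_18_X29

lemma g_1_2_5_18_X27 : Good (27 / 10) [1, 2, 5, 18] 27 :=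
  Good.branch g_1_2_5_18_27_X28 g_1_2_5_18_X28

lemma g_1_2_5_18_X26 : Good (27 / 10) [1, 2, 5, 18] 26 :=
  Good.skip (by decide +kernel) g_1_2_5_18_X27

lemma g_1_2_5_18_X25 : Good (27 / 10) [1, 2, 5, 18] 25 :=
  Good.skip (by decide +kernel) g_1_2_5_18_X26

lemma g_1_2_5_18_X24 : Good (27 / 10) [1, 2, 5, 18] 24 :=
  Good.skip (by decide +kernel) g_1_2_5_18_X25

lemma g_1_2_5_18_X23 : Good (27 / 10) [1, 2, 5, 18] 23 :=
  Good.skip (by decide +kernel) g_1_2_5_18_X24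

lemma g_1_2_5_18_X22 : Good (27 / 10) [1, 2, 5, 18] 22 :=
  Good.branch g_1_2_5_18_22_X23 g_1_2_5_18_X23

lemma g_1_2_5_18_X21 : Good (27 / 10) [1, 2, 5, 18] 21 :=
  Good.skip (by decide +kernel) g_1_2_5_18_X22

lemma g_1_2_5_18_X20 : Good (27 / 10) [1, 2, 5, 18] 20 :=
  Good.skip (by decide +kernel) g_1_2_5_18_X21

lemma g_1_2_5_18_X19 : Good (27 / 10) [1, 2, 5, 18] 19 :=
  Good.skip (by decide +kernel) g_1_2_5_18_X20

lemma g_1_2_5_19_23_X31 : Good (27 / 10) [1, 2, 5, 19, 23] 31 :=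
  Good.skip (by decide +kernel) g_1_2_5_19_23_X32

lemma g_1_2_5_19_23_X30 : Good (27 / 10) [1, 2, 5, 19, 23] 30 :=
  Good.skip (by decide +kernel) g_1_2_5_19_23_X31

lemma g_1_2_5_19_23_X29 : Good (27 / 10) [1, 2, 5, 19, 23] 29 :=
  Good.skip (by decide +kernel) g_1_2_5_19_23_X30

lemma g_1_2_5_19_23_X28 : Good (27 / 10) [1, 2, 5, 19, 23] 28 :=
  Good.skip (by decide +kernel) g_1_2_5_19_23_X29

lemma g_1_2_5_19_23_X27 : Good (27 / 10) [1, 2, 5, 19, 23] 27 :=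
  Good.skip (by decide +kernel) g_1_2_5_19_23_X28

lemma g_1_2_5_19_23_X26 : Good (27 / 10) [1, 2, 5, 19, 23] 26 :=
  Good.skip (by decide +kernel) g_1_2_5_19_23_X27

lemma g_1_2_5_19_23_X25 : Good (27 / 10) [1, 2, 5, 19, 23] 25 :=
  Good.skip (by decide +kernel) g_1_2_5_19_23_X26

lemma g_1_2_5_19_23_X24 : Good (27 / 10) [1, 2, 5, 19, 23] 24 :=
  Good.skip (by decide +kernel) g_1_2_5_19_23_X25

lemma g_1_2_5_19_28_X31 : Good (27 / 10) [1, 2, 5, 19, 28] 31 :=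
  Good.skip (by decide +kernel) g_1_2_5_19_28_X32

lemma g_1_2_5_19_28_X30 : Good (27 / 10) [1, 2, 5, 19, 28] 30 :=
  Good.skip (by decide +kernel) g_1_2_5_19_28_X31

lemma g_1_2_5_19_28_X29 : Good (27 / 10) [1, 2, 5, 19, 28] 29 :=
  Good.skip (by decide +kernel) g_1_2_5_19_28_X30

lemma g_1_2_5_19_29_X32 : Good (27 / 10) [1, 2, 5, 19, 29] 32 :=
  Good.skip (by decide +kernel) g_1_2_5_19_29_X33

lemma g_1_2_5_19_29_X31 : Good (27 / 10) [1, 2, 5, 19, 29] 31 :=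
  Good.skip (by decide +kernel) g_1_2_5_19_29_X32

lemma g_1_2_5_19_29_X30 : Good (27 / 10) [1, 2, 5, 19, 29] 30 :=
  Good.skip (by decide +kernel) g_1_2_5_19_29_X31

lemma g_1_2_5_19_30_X33 : Good (27 / 10) [1, 2, 5, 19, 30] 33 :=
  Good.skip (by decide +kernel) g_1_2_5_19_30_X34

lemma g_1_2_5_19_30_X32 : Good (27 / 10) [1, 2, 5, 19, 30] 32 :=
  Good.skip (by decide +kernel) g_1_2_5_19_30_X33

lemma g_1_2_5_19_30_X31 : Good (27 / 10) [1, 2, 5, 19, 30] 31 :=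
  Good.skip (by decide +kernel) g_1_2_5_19_30_X32

lemma g_1_2_5_19_31_X34 : Good (27 / 10) [1, 2, 5, 19, 31] 34 :=
  Good.skip (by decide +kernel) g_1_2_5_19_31_X35

lemma g_1_2_5_19_31_X33 : Good (27 / 10) [1, 2, 5, 19, 31] 33 :=
  Good.skip (by decide +kernel) g_1_2_5_19_31_X34

lemma g_1_2_5_19_31_X32 : Good (27 / 10) [1, 2, 5, 19, 31] 32 :=
  Good.skip (by decide +kernel) g_1_2_5_19_31_X33

lemma g_1_2_5_19_32_X35 : Good (27 / 10) [1, 2, 5, 19, 32] 35 :=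
  Good.skip (by decide +kernel) g_1_2_5_19_32_X36

lemma g_1_2_5_19_32_X34 : Good (27 / 10) [1, 2, 5, 19, 32] 34 :=
  Good.skip (by decide +kernel) g_1_2_5_19_32_X35

lemma g_1_2_5_19_32_X33 : Good (27 / 10) [1, 2, 5, 19, 32] 33 :=
  Good.skip (by decide +kernel) g_1_2_5_19_32_X34

lemma g_1_2_5_19_X32 : Good (27 / 10) [1, 2, 5, 19] 32 :=
  Good.branch g_1_2_5_19_32_X33 g_1_2_5_19_X33

lemma g_1_2_5_19_X31 : Good (27 / 10) [1, 2, 5, 19] 31 :=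
  Good.branch g_1_2_5_19_31_X32 g_1_2_5_19_X32

lemma g_1_2_5_19_X30 : Good (27 / 10) [1, 2, 5, 19] 30 :=
  Good.branch g_1_2_5_19_30_X31 g_1_2_5_19_X31

lemma g_1_2_5_19_X29 : Good (27 / 10) [1, 2, 5, 19] 29 :=
  Good.branch g_1_2_5_19_29_X30 g_1_2_5_19_X30

lemma g_1_2_5_19_X28 : Good (27 / 10) [1, 2, 5, 19] 28 :=
  Good.branch g_1_2_5_19_28_X29 g_1_2_5_19_X29

lemma g_1_2_5_19_X27 : Good (27 / 10) [1, 2, 5, 19] 27 :=
  Good.skip (by decide +kernel) g_1_2_5_19_X28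

lemma g_1_2_5_19_X26 : Good (27 / 10) [1, 2, 5, 19] 26 :=
  Good.skip (by decide +kernel) g_1_2_5_19_X27

lemma g_1_2_5_19_X25 : Good (27 / 10) [1, 2, 5, 19] 25 :=
  Good.skip (by decide +kernel) g_1_2_5_19_X26

lemma g_1_2_5_19_X24 : Good (27 / 10) [1, 2, 5, 19] 24 :=
  Good.skip (by decide +kernel) g_1_2_5_19_X25

lemma g_1_2_5_19_X23 : Good (27 / 10) [1, 2, 5, 19] 23 :=
  Good.branch g_1_2_5_19_23_X24 g_1_2_5_19_X24

lemma g_1_2_5_19_X22 : Good (27 / 10) [1, 2, 5, 19] 22 :=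
  Good.skip (by decide +kernel) g_1_2_5_19_X23

lemma g_1_2_5_19_X21 : Good (27 / 10) [1, 2, 5, 19] 21 :=
  Good.skip (by decide +kernel) g_1_2_5_19_X22

lemma g_1_2_5_19_X20 : Good (27 / 10) [1, 2, 5, 19] 20 :=
  Good.skip (by decide +kernel) g_1_2_5_19_X21

lemma g_1_2_5_20_24_X32 : Good (27 / 10) [1, 2, 5, 20, 24] 32 :=
  Good.skip (by decide +kernel) g_1_2_5_20_24_X33

lemma g_1_2_5_20_24_X31 : Good (27 / 10) [1, 2, 5, 20, 24] 31 :=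
  Good.skip (by decide +kernel) g_1_2_5_20_24_X32

lemma g_1_2_5_20_24_X30 : Good (27 / 10) [1, 2, 5, 20, 24] 30 :=
  Good.skip (by decide +kernel) g_1_2_5_20_24_X31

lemma g_1_2_5_20_24_X29 : Good (27 / 10) [1, 2, 5, 20, 24] 29 :=
  Good.skip (by decide +kernel) g_1_2_5_20_24_X30

lemma g_1_2_5_20_24_X28 : Good (27 / 10) [1, 2, 5, 20, 24] 28 :=
  Good.skip (by decide +kernel) g_1_2_5_20_24_X29

lemma g_1_2_5_20_24_X27 : Good (27 / 10) [1, 2, 5, 20, 24] 27 :=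
  Good.skip (by decide +kernel) g_1_2_5_20_24_X28

lemma g_1_2_5_20_24_X26 : Good (27 / 10) [1, 2, 5, 20, 24] 26 :=
  Good.skip (by decide +kernel) g_1_2_5_20_24_X27

lemma g_1_2_5_20_24_X25 : Good (27 / 10) [1, 2, 5, 20, 24] 25 :=
  Good.skip (by decide +kernel) g_1_2_5_20_24_X26

lemma g_1_2_5_20_29_X32 : Good (27 / 10) [1, 2, 5, 20, 29] 32 :=
  Good.skip (by decide +kernel) g_1_2_5_20_29_X33

lemma g_1_2_5_20_29_X31 : Good (27 / 10) [1, 2, 5, 20, 29] 31 :=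
  Good.skip (by decide +kernel) g_1_2_5_20_29_X32

lemma g_1_2_5_20_29_X30 : Good (27 / 10) [1, 2, 5, 20, 29] 30 :=
  Good.skip (by decide +kernel) g_1_2_5_20_29_X31

lemma g_1_2_5_20_30_X33 : Good (27 / 10) [1, 2, 5, 20, 30] 33 :=
  Good.skip (by decide +kernel) g_1_2_5_20_30_X34

lemma g_1_2_5_20_30_X32 : Good (27 / 10) [1, 2, 5, 20, 30] 32 :=
  Good.skip (by decide +kernel) g_1_2_5_20_30_X33

lemma g_1_2_5_20_30_X31 : Good (27 / 10) [1, 2, 5, 20, 30] 31 :=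
  Good.skip (by decide +kernel) g_1_2_5_20_30_X32

lemma g_1_2_5_20_31_X34 : Good (27 / 10) [1, 2, 5, 20, 31] 34 :=
  Good.skip (by decide +kernel) g_1_2_5_20_31_X35

lemma g_1_2_5_20_31_X33 : Good (27 / 10) [1, 2, 5, 20, 31] 33 :=
  Good.skip (by decide +kernel) g_1_2_5_20_31_X34

lemma g_1_2_5_20_31_X32 : Good (27 / 10) [1, 2, 5, 20, 31] 32 :=
  Good.skip (by decide +kernel) g_1_2_5_20_31_X33

lemma g_1_2_5_20_32_X35 : Good (27 / 10) [1, 2, 5, 20, 32] 35 :=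
  Good.skip (by decide +kernel) g_1_2_5_20_32_X36

lemma g_1_2_5_20_32_X34 : Good (27 / 10) [1, 2, 5, 20, 32] 34 :=
  Good.skip (by decide +kernel) g_1_2_5_20_32_X35

lemma g_1_2_5_20_32_X33 : Good (27 / 10) [1, 2, 5, 20, 32] 33 :=
  Good.skip (by decide +kernel) g_1_2_5_20_32_X34

lemma g_1_2_5_20_X32 : Good (27 / 10) [1, 2, 5, 20] 32 :=
  Good.branch g_1_2_5_20_32_X33 g_1_2_5_20_X33

lemma g_1_2_5_20_X31 : Good (27 / 10) [1, 2, 5, 20] 31 :=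
  Good.branch g_1_2_5_20_31_X32 g_1_2_5_20_X32

lemma g_1_2_5_20_X30 : Good (27 / 10) [1, 2, 5, 20] 30 :=
  Good.branch g_1_2_5_20_30_X31 g_1_2_5_20_X31

lemma g_1_2_5_20_X29 : Good (27 / 10) [1, 2, 5, 20] 29 :=
  Good.branch g_1_2_5_20_29_X30 g_1_2_5_20_X30

lemma g_1_2_5_20_X28 : Good (27 / 10) [1, 2, 5, 20] 28 :=
  Good.skip (by decide +kernel) g_1_2_5_20_X29

lemma g_1_2_5_20_X27 : Good (27 / 10) [1, 2, 5, 20] 27 :=
  Good.skip (by decide +kernel) g_1_2_5_20_X28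

lemma g_1_2_5_20_X26 : Good (27 / 10) [1, 2, 5, 20] 26 :=
  Good.skip (by decide +kernel) g_1_2_5_20_X27

lemma g_1_2_5_20_X25 : Good (27 / 10) [1, 2, 5, 20] 25 :=
  Good.skip (by decide +kernel) g_1_2_5_20_X26

lemma g_1_2_5_20_X24 : Good (27 / 10) [1, 2, 5, 20] 24 :=
  Good.branch g_1_2_5_20_24_X25 g_1_2_5_20_X25

lemma g_1_2_5_20_X23 : Good (27 / 10) [1, 2, 5, 20] 23 :=
  Good.skip (by decide +kernel) g_1_2_5_20_X24

lemma g_1_2_5_20_X22 : Good (27 / 10) [1, 2, 5, 20] 22 :=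
  Good.skip (by decide +kernel) g_1_2_5_20_X23

lemma g_1_2_5_20_X21 : Good (27 / 10) [1, 2, 5, 20] 21 :=
  Good.skip (by decide +kernel) g_1_2_5_20_X22

lemma g_1_2_5_21_25_X33 : Good (27 / 10) [1, 2, 5, 21, 25] 33 :=
  Good.skip (by decide +kernel) g_1_2_5_21_25_X34

lemma g_1_2_5_21_25_X32 : Good (27 / 10) [1, 2, 5, 21, 25] 32 :=
  Good.skip (by decide +kernel) g_1_2_5_21_25_X33

lemma g_1_2_5_21_25_X31 : Good (27 / 10) [1, 2, 5, 21, 25] 31 :=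
  Good.skip (by decide +kernel) g_1_2_5_21_25_X32

lemma g_1_2_5_21_25_X30 : Good (27 / 10) [1, 2, 5, 21, 25] 30 :=
  Good.skip (by decide +kernel) g_1_2_5_21_25_X31

lemma g_1_2_5_21_25_X29 : Good (27 / 10) [1, 2, 5, 21, 25] 29 :=
  Good.skip (by decide +kernel) g_1_2_5_21_25_X30

lemma g_1_2_5_21_25_X28 : Good (27 / 10) [1, 2, 5, 21, 25] 28 :=
  Good.skip (by decide +kernel) g_1_2_5_21_25_X29

lemma g_1_2_5_21_25_X27 : Good (27 / 10) [1, 2, 5, 21, 25] 27 :=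
  Good.skip (by decide +kernel) g_1_2_5_21_25_X28

lemma g_1_2_5_21_25_X26 : Good (27 / 10) [1, 2, 5, 21, 25] 26 :=
  Good.skip (by decide +kernel) g_1_2_5_21_25_X27

lemma g_1_2_5_21_30_X33 : Good (27 / 10) [1, 2, 5, 21, 30] 33 :=
  Good.skip (by decide +kernel) g_1_2_5_21_30_X34

lemma g_1_2_5_21_30_X32 : Good (27 / 10) [1, 2, 5, 21, 30] 32 :=
  Good.skip (by decide +kernel) g_1_2_5_21_30_X33

lemma g_1_2_5_21_30_X31 : Good (27 / 10) [1, 2, 5, 21, 30] 31 :=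
  Good.skip (by decide +kernel) g_1_2_5_21_30_X32

lemma g_1_2_5_21_31_X34 : Good (27 / 10) [1, 2, 5, 21, 31] 34 :=
  Good.skip (by decide +kernel) g_1_2_5_21_31_X35

lemma g_1_2_5_21_31_X33 : Good (27 / 10) [1, 2, 5, 21, 31] 33 :=
  Good.skip (by decide +kernel) g_1_2_5_21_31_X34

lemma g_1_2_5_21_31_X32 : Good (27 / 10) [1, 2, 5, 21, 31] 32 :=
  Good.skip (by decide +kernel) g_1_2_5_21_31_X33

lemma g_1_2_5_21_X31 : Good (27 / 10) [1, 2, 5, 21] 31 :=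
  Good.branch g_1_2_5_21_31_X32 g_1_2_5_21_X32

lemma g_1_2_5_21_X30 : Good (27 / 10) [1, 2, 5, 21] 30 :=
  Good.branch g_1_2_5_21_30_X31 g_1_2_5_21_X31

lemma g_1_2_5_21_X29 : Good (27 / 10) [1, 2, 5, 21] 29 :=
  Good.skip (by decide +kernel) g_1_2_5_21_X30

lemma g_1_2_5_21_X28 : Good (27 / 10) [1, 2, 5, 21] 28 :=
  Good.skip (by decide +kernel) g_1_2_5_21_X29

lemma g_1_2_5_21_X27 : Good (27 / 10) [1, 2, 5, 21] 27 :=
  Good.skip (by decide +kernel) g_1_2_5_21_X28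

lemma g_1_2_5_21_X26 : Good (27 / 10) [1, 2, 5, 21] 26 :=
  Good.skip (by decide +kernel) g_1_2_5_21_X27

lemma g_1_2_5_21_X25 : Good (27 / 10) [1, 2, 5, 21] 25 :=
  Good.branch g_1_2_5_21_25_X26 g_1_2_5_21_X26

lemma g_1_2_5_21_X24 : Good (27 / 10) [1, 2, 5, 21] 24 :=
  Good.skip (by decide +kernel) g_1_2_5_21_X25

lemma g_1_2_5_21_X23 : Good (27 / 10) [1, 2, 5, 21] 23 :=
  Good.skip (by decide +kernel) g_1_2_5_21_X24

lemma g_1_2_5_21_X22 : Good (27 / 10) [1, 2, 5, 21] 22 :=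
  Good.skip (by decide +kernel) g_1_2_5_21_X23

lemma g_1_2_5_22_26_X34 : Good (27 / 10) [1, 2, 5, 22, 26] 34 :=
  Good.skip (by decide +kernel) g_1_2_5_22_26_X35

lemma g_1_2_5_22_26_X33 : Good (27 / 10) [1, 2, 5, 22, 26] 33 :=
  Good.skip (by decide +kernel) g_1_2_5_22_26_X34

lemma g_1_2_5_22_26_X32 : Good (27 / 10) [1, 2, 5, 22, 26] 32 :=
  Good.skip (by decide +kernel) g_1_2_5_22_26_X33

lemma g_1_2_5_22_26_X31 : Good (27 / 10) [1, 2, 5, 22, 26] 31 :=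
  Good.skip (by decide +kernel) g_1_2_5_22_26_X32

lemma g_1_2_5_22_26_X30 : Good (27 / 10) [1, 2, 5, 22, 26] 30 :=
  Good.skip (by decide +kernel) g_1_2_5_22_26_X31

lemma g_1_2_5_22_26_X29 : Good (27 / 10) [1, 2, 5, 22, 26] 29 :=
  Good.skip (by decide +kernel) g_1_2_5_22_26_X30

lemma g_1_2_5_22_26_X28 : Good (27 / 10) [1, 2, 5, 22, 26] 28 :=
  Good.skip (by decide +kernel) g_1_2_5_22_26_X29

lemma g_1_2_5_22_26_X27 : Good (27 / 10) [1, 2, 5, 22, 26] 27 :=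
  Good.skip (by decide +kernel) g_1_2_5_22_26_X28

lemma g_1_2_5_22_31_X34 : Good (27 / 10) [1, 2, 5, 22, 31] 34 :=
  Good.skip (by decide +kernel) g_1_2_5_22_31_X35

lemma g_1_2_5_22_31_X33 : Good (27 / 10) [1, 2, 5, 22, 31] 33 :=
  Good.skip (by decide +kernel) g_1_2_5_22_31_X34

lemma g_1_2_5_22_31_X32 : Good (27 / 10) [1, 2, 5, 22, 31] 32 :=
  Good.skip (by decide +kernel) g_1_2_5_22_31_X33

lemma g_1_2_5_22_X31 : Good (27 / 10) [1, 2, 5, 22] 31 :=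
  Good.branch g_1_2_5_22_31_X32 g_1_2_5_22_X32

lemma g_1_2_5_22_X30 : Good (27 / 10) [1, 2, 5, 22] 30 :=
  Good.skip (by decide +kernel) g_1_2_5_22_X31

lemma g_1_2_5_22_X29 : Good (27 / 10) [1, 2, 5, 22] 29 :=
  Good.skip (by decide +kernel) g_1_2_5_22_X30

lemma g_1_2_5_22_X28 : Good (27 / 10) [1, 2, 5, 22] 28 :=
  Good.skip (by decide +kernel) g_1_2_5_22_X29

lemma g_1_2_5_22_X27 : Good (27 / 10) [1, 2, 5, 22] 27 :=
  Good.skip (by decide +kernel) g_1_2_5_22_X28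

lemma g_1_2_5_22_X26 : Good (27 / 10) [1, 2, 5, 22] 26 :=
  Good.branch g_1_2_5_22_26_X27 g_1_2_5_22_X27

lemma g_1_2_5_22_X25 : Good (27 / 10) [1, 2, 5, 22] 25 :=
  Good.skip (by decide +kernel) g_1_2_5_22_X26

lemma g_1_2_5_22_X24 : Good (27 / 10) [1, 2, 5, 22] 24 :=
  Good.skip (by decide +kernel) g_1_2_5_22_X25

lemma g_1_2_5_22_X23 : Good (27 / 10) [1, 2, 5, 22] 23 :=
  Good.skip (by decide +kernel) g_1_2_5_22_X24

lemma g_1_2_5_23_27_X35 : Good (27 / 10) [1, 2, 5, 23, 27] 35 :=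
  Good.skip (by decide +kernel) g_1_2_5_23_27_X36

lemma g_1_2_5_23_27_X34 : Good (27 / 10) [1, 2, 5, 23, 27] 34 :=
  Good.skip (by decide +kernel) g_1_2_5_23_27_X35

lemma g_1_2_5_23_27_X33 : Good (27 / 10) [1, 2, 5, 23, 27] 33 :=
  Good.skip (by decide +kernel) g_1_2_5_23_27_X34

lemma g_1_2_5_23_27_X32 : Good (27 / 10) [1, 2, 5, 23, 27] 32 :=
  Good.skip (by decide +kernel) g_1_2_5_23_27_X33

lemma g_1_2_5_23_27_X31 : Good (27 / 10) [1, 2, 5, 23, 27] 31 :=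
  Good.skip (by decide +kernel) g_1_2_5_23_27_X32

lemma g_1_2_5_23_27_X30 : Good (27 / 10) [1, 2, 5, 23, 27] 30 :=
  Good.skip (by decide +kernel) g_1_2_5_23_27_X31

lemma g_1_2_5_23_27_X29 : Good (27 / 10) [1, 2, 5, 23, 27] 29 :=
  Good.skip (by decide +kernel) g_1_2_5_23_27_X30

lemma g_1_2_5_23_27_X28 : Good (27 / 10) [1, 2, 5, 23, 27] 28 :=
  Good.skip (by decide +kernel) g_1_2_5_23_27_X29

lemma g_1_2_5_23_X31 : Good (27 / 10) [1, 2, 5, 23] 31 :=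
  Good.skip (by decide +kernel) g_1_2_5_23_X32

lemma g_1_2_5_23_X30 : Good (27 / 10) [1, 2, 5, 23] 30 :=
  Good.skip (by decide +kernel) g_1_2_5_23_X31

lemma g_1_2_5_23_X29 : Good (27 / 10) [1, 2, 5, 23] 29 :=
  Good.skip (by decide +kernel) g_1_2_5_23_X30

lemma g_1_2_5_23_X28 : Good (27 / 10) [1, 2, 5, 23] 28 :=
  Good.skip (by decide +kernel) g_1_2_5_23_X29

lemma g_1_2_5_23_X27 : Good (27 / 10) [1, 2, 5, 23] 27 :=
  Good.branch g_1_2_5_23_27_X28 g_1_2_5_23_X28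

lemma g_1_2_5_23_X26 : Good (27 / 10) [1, 2, 5, 23] 26 :=
  Good.skip (by decide +kernel) g_1_2_5_23_X27

lemma g_1_2_5_23_X25 : Good (27 / 10) [1, 2, 5, 23] 25 :=
  Good.skip (by decide +kernel) g_1_2_5_23_X26

lemma g_1_2_5_23_X24 : Good (27 / 10) [1, 2, 5, 23] 24 :=
  Good.skip (by decide +kernel) g_1_2_5_23_X25

lemma g_1_2_5_24_28_X36 : Good (27 / 10) [1, 2, 5, 24, 28] 36 :=
  Good.skip (by decide +kernel) g_1_2_5_24_28_X37

lemma g_1_2_5_24_28_X35 : Good (27 / 10) [1, 2, 5, 24, 28] 35 :=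
  Good.skip (by decide +kernel) g_1_2_5_24_28_X36

lemma g_1_2_5_24_28_X34 : Good (27 / 10) [1, 2, 5, 24, 28] 34 :=
  Good.skip (by decide +kernel) g_1_2_5_24_28_X35

lemma g_1_2_5_24_28_X33 : Good (27 / 10) [1, 2, 5, 24, 28] 33 :=
  Good.skip (by decide +kernel) g_1_2_5_24_28_X34

lemma g_1_2_5_24_28_X32 : Good (27 / 10) [1, 2, 5, 24, 28] 32 :=
  Good.skip (by decide +kernel) g_1_2_5_24_28_X33

lemma g_1_2_5_24_28_X31 : Good (27 / 10) [1, 2, 5, 24, 28] 31 :=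
  Good.skip (by decide +kernel) g_1_2_5_24_28_X32

lemma g_1_2_5_24_28_X30 : Good (27 / 10) [1, 2, 5, 24, 28] 30 :=
  Good.skip (by decide +kernel) g_1_2_5_24_28_X31

lemma g_1_2_5_24_28_X29 : Good (27 / 10) [1, 2, 5, 24, 28] 29 :=
  Good.skip (by decide +kernel) g_1_2_5_24_28_X30

lemma g_1_2_5_24_X32 : Good (27 / 10) [1, 2, 5, 24] 32 :=
  Good.skip (by decide +kernel) g_1_2_5_24_X33

lemma g_1_2_5_24_X31 : Good (27 / 10) [1, 2, 5, 24] 31 :=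
  Good.skip (by decide +kernel) g_1_2_5_24_X32

lemma g_1_2_5_24_X30 : Good (27 / 10) [1, 2, 5, 24] 30 :=
  Good.skip (by decide +kernel) g_1_2_5_24_X31

lemma g_1_2_5_24_X29 : Good (27 / 10) [1, 2, 5, 24] 29 :=
  Good.skip (by decide +kernel) g_1_2_5_24_X30

lemma g_1_2_5_24_X28 : Good (27 / 10) [1, 2, 5, 24] 28 :=
  Good.branch g_1_2_5_24_28_X29 g_1_2_5_24_X29

lemma g_1_2_5_24_X27 : Good (27 / 10) [1, 2, 5, 24] 27 :=
  Good.skip (by decide +kernel) g_1_2_5_24_X28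

lemma g_1_2_5_24_X26 : Good (27 / 10) [1, 2, 5, 24] 26 :=
  Good.skip (by decide +kernel) g_1_2_5_24_X27

lemma g_1_2_5_24_X25 : Good (27 / 10) [1, 2, 5, 24] 25 :=
  Good.skip (by decide +kernel) g_1_2_5_24_X26

lemma g_1_2_5_25_29_X37 : Good (27 / 10) [1, 2, 5, 25, 29] 37 :=
  Good.skip (by decide +kernel) g_1_2_5_25_29_X38

lemma g_1_2_5_25_29_X36 : Good (27 / 10) [1, 2, 5, 25, 29] 36 :=
  Good.skip (by decide +kernel) g_1_2_5_25_29_X37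

lemma g_1_2_5_25_29_X35 : Good (27 / 10) [1, 2, 5, 25, 29] 35 :=
  Good.skip (by decide +kernel) g_1_2_5_25_29_X36

lemma g_1_2_5_25_29_X34 : Good (27 / 10) [1, 2, 5, 25, 29] 34 :=
  Good.skip (by decide +kernel) g_1_2_5_25_29_X35

lemma g_1_2_5_25_29_X33 : Good (27 / 10) [1, 2, 5, 25, 29] 33 :=
  Good.skip (by decide +kernel) g_1_2_5_25_29_X34

lemma g_1_2_5_25_29_X32 : Good (27 / 10) [1, 2, 5, 25, 29] 32 :=
  Good.skip (by decide +kernel) g_1_2_5_25_29_X33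

lemma g_1_2_5_25_29_X31 : Good (27 / 10) [1, 2, 5, 25, 29] 31 :=
  Good.skip (by decide +kernel) g_1_2_5_25_29_X32

lemma g_1_2_5_25_29_X30 : Good (27 / 10) [1, 2, 5, 25, 29] 30 :=
  Good.skip (by decide +kernel) g_1_2_5_25_29_X31

lemma g_1_2_5_25_X33 : Good (27 / 10) [1, 2, 5, 25] 33 :=
  Good.skip (by decide +kernel) g_1_2_5_25_X34

lemma g_1_2_5_25_X32 : Good (27 / 10) [1, 2, 5, 25] 32 :=
  Good.skip (by decide +kernel) g_1_2_5_25_X33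

lemma g_1_2_5_25_X31 : Good (27 / 10) [1, 2, 5, 25] 31 :=
  Good.skip (by decide +kernel) g_1_2_5_25_X32

lemma g_1_2_5_25_X30 : Good (27 / 10) [1, 2, 5, 25] 30 :=
  Good.skip (by decide +kernel) g_1_2_5_25_X31

lemma g_1_2_5_25_X29 : Good (27 / 10) [1, 2, 5, 25] 29 :=
  Good.branch g_1_2_5_25_29_X30 g_1_2_5_25_X30

lemma g_1_2_5_25_X28 : Good (27 / 10) [1, 2, 5, 25] 28 :=
  Good.skip (by decide +kernel) g_1_2_5_25_X29

lemma g_1_2_5_25_X27 : Good (27 / 10) [1, 2, 5, 25] 27 :=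
  Good.skip (by decide +kernel) g_1_2_5_25_X28

lemma g_1_2_5_25_X26 : Good (27 / 10) [1, 2, 5, 25] 26 :=
  Good.skip (by decide +kernel) g_1_2_5_25_X27

lemma g_1_2_5_26_30_X38 : Good (27 / 10) [1, 2, 5, 26, 30] 38 :=
  Good.skip (by decide +kernel) g_1_2_5_26_30_X39

lemma g_1_2_5_26_30_X37 : Good (27 / 10) [1, 2, 5, 26, 30] 37 :=
  Good.skip (by decide +kernel) g_1_2_5_26_30_X38

lemma g_1_2_5_26_30_X36 : Good (27 / 10) [1, 2, 5, 26, 30] 36 :=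
  Good.skip (by decide +kernel) g_1_2_5_26_30_X37

lemma g_1_2_5_26_30_X35 : Good (27 / 10) [1, 2, 5, 26, 30] 35 :=
  Good.skip (by decide +kernel) g_1_2_5_26_30_X36

lemma g_1_2_5_26_30_X34 : Good (27 / 10) [1, 2, 5, 26, 30] 34 :=
  Good.skip (by decide +kernel) g_1_2_5_26_30_X35

lemma g_1_2_5_26_30_X33 : Good (27 / 10) [1, 2, 5, 26, 30] 33 :=
  Good.skip (by decide +kernel) g_1_2_5_26_30_X34

lemma g_1_2_5_26_30_X32 : Good (27 / 10) [1, 2, 5, 26, 30] 32 :=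
  Good.skip (by decide +kernel) g_1_2_5_26_30_X33

lemma g_1_2_5_26_30_X31 : Good (27 / 10) [1, 2, 5, 26, 30] 31 :=
  Good.skip (by decide +kernel) g_1_2_5_26_30_X32

lemma g_1_2_5_26_X34 : Good (27 / 10) [1, 2, 5, 26] 34 :=
  Good.skip (by decide +kernel) g_1_2_5_26_X35

lemma g_1_2_5_26_X33 : Good (27 / 10) [1, 2, 5, 26] 33 :=
  Good.skip (by decide +kernel) g_1_2_5_26_X34

lemma g_1_2_5_26_X32 : Good (27 / 10) [1, 2, 5, 26] 32 :=
  Good.skip (by decide +kernel) g_1_2_5_26_X33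

lemma g_1_2_5_26_X31 : Good (27 / 10) [1, 2, 5, 26] 31 :=
  Good.skip (by decide +kernel) g_1_2_5_26_X32

lemma g_1_2_5_26_X30 : Good (27 / 10) [1, 2, 5, 26] 30 :=
  Good.branch g_1_2_5_26_30_X31 g_1_2_5_26_X31

lemma g_1_2_5_26_X29 : Good (27 / 10) [1, 2, 5, 26] 29 :=
  Good.skip (by decide +kernel) g_1_2_5_26_X30

lemma g_1_2_5_26_X28 : Good (27 / 10) [1, 2, 5, 26] 28 :=
  Good.skip (by decide +kernel) g_1_2_5_26_X29

lemma g_1_2_5_26_X27 : Good (27 / 10) [1, 2, 5, 26] 27 :=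
  Good.skip (by decide +kernel) g_1_2_5_26_X28

lemma g_1_2_5_27_31_X39 : Good (27 / 10) [1, 2, 5, 27, 31] 39 :=
  Good.skip (by decide +kernel) g_1_2_5_27_31_X40

lemma g_1_2_5_27_31_X38 : Good (27 / 10) [1, 2, 5, 27, 31] 38 :=
  Good.skip (by decide +kernel) g_1_2_5_27_31_X39

lemma g_1_2_5_27_31_X37 : Good (27 / 10) [1, 2, 5, 27, 31] 37 :=
  Good.skip (by decide +kernel) g_1_2_5_27_31_X38

lemma g_1_2_5_27_31_X36 : Good (27 / 10) [1, 2, 5, 27, 31] 36 :=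
  Good.skip (by decide +kernel) g_1_2_5_27_31_X37

lemma g_1_2_5_27_31_X35 : Good (27 / 10) [1, 2, 5, 27, 31] 35 :=
  Good.skip (by decide +kernel) g_1_2_5_27_31_X36

lemma g_1_2_5_27_31_X34 : Good (27 / 10) [1, 2, 5, 27, 31] 34 :=
  Good.skip (by decide +kernel) g_1_2_5_27_31_X35

lemma g_1_2_5_27_31_X33 : Good (27 / 10) [1, 2, 5, 27, 31] 33 :=
  Good.skip (by decide +kernel) g_1_2_5_27_31_X34

lemma g_1_2_5_27_31_X32 : Good (27 / 10) [1, 2, 5, 27, 31] 32 :=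
  Good.skip (by decide +kernel) g_1_2_5_27_31_X33

lemma g_1_2_5_27_X35 : Good (27 / 10) [1, 2, 5, 27] 35 :=
  Good.skip (by decide +kernel) g_1_2_5_27_X36

lemma g_1_2_5_27_X34 : Good (27 / 10) [1, 2, 5, 27] 34 :=
  Good.skip (by decide +kernel) g_1_2_5_27_X35

lemma g_1_2_5_27_X33 : Good (27 / 10) [1, 2, 5, 27] 33 :=
  Good.skip (by decide +kernel) g_1_2_5_27_X34

lemma g_1_2_5_27_X32 : Good (27 / 10) [1, 2, 5, 27] 32 :=
  Good.skip (by decide +kernel) g_1_2_5_27_X33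

lemma g_1_2_5_27_X31 : Good (27 / 10) [1, 2, 5, 27] 31 :=
  Good.branch g_1_2_5_27_31_X32 g_1_2_5_27_X32

lemma g_1_2_5_27_X30 : Good (27 / 10) [1, 2, 5, 27] 30 :=
  Good.skip (by decide +kernel) g_1_2_5_27_X31

lemma g_1_2_5_27_X29 : Good (27 / 10) [1, 2, 5, 27] 29 :=
  Good.skip (by decide +kernel) g_1_2_5_27_X30

lemma g_1_2_5_27_X28 : Good (27 / 10) [1, 2, 5, 27] 28 :=
  Good.skip (by decide +kernel) g_1_2_5_27_X29

lemma g_1_2_5_28_32_X40 : Good (27 / 10) [1, 2, 5, 28, 32] 40 :=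
  Good.skip (by decide +kernel) g_1_2_5_28_32_X41

lemma g_1_2_5_28_32_X39 : Good (27 / 10) [1, 2, 5, 28, 32] 39 :=
  Good.skip (by decide +kernel) g_1_2_5_28_32_X40

lemma g_1_2_5_28_32_X38 : Good (27 / 10) [1, 2, 5, 28, 32] 38 :=
  Good.skip (by decide +kernel) g_1_2_5_28_32_X39

lemma g_1_2_5_28_32_X37 : Good (27 / 10) [1, 2, 5, 28, 32] 37 :=
  Good.skip (by decide +kernel) g_1_2_5_28_32_X38

lemma g_1_2_5_28_32_X36 : Good (27 / 10) [1, 2, 5, 28, 32] 36 :=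
  Good.skip (by decide +kernel) g_1_2_5_28_32_X37

lemma g_1_2_5_28_32_X35 : Good (27 / 10) [1, 2, 5, 28, 32] 35 :=
  Good.skip (by decide +kernel) g_1_2_5_28_32_X36

lemma g_1_2_5_28_32_X34 : Good (27 / 10) [1, 2, 5, 28, 32] 34 :=
  Good.skip (by decide +kernel) g_1_2_5_28_32_X35

lemma g_1_2_5_28_32_X33 : Good (27 / 10) [1, 2, 5, 28, 32] 33 :=
  Good.skip (by decide +kernel) g_1_2_5_28_32_X34

lemma g_1_2_5_28_X36 : Good (27 / 10) [1, 2, 5, 28] 36 :=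
  Good.skip (by decide +kernel) g_1_2_5_28_X37

lemma g_1_2_5_28_X35 : Good (27 / 10) [1, 2, 5, 28] 35 :=
  Good.skip (by decide +kernel) g_1_2_5_28_X36

lemma g_1_2_5_28_X34 : Good (27 / 10) [1, 2, 5, 28] 34 :=
  Good.skip (by decide +kernel) g_1_2_5_28_X35

lemma g_1_2_5_28_X33 : Good (27 / 10) [1, 2, 5, 28] 33 :=
  Good.skip (by decide +kernel) g_1_2_5_28_X34

lemma g_1_2_5_28_X32 : Good (27 / 10) [1, 2, 5, 28] 32 :=
  Good.branch g_1_2_5_28_32_X33 g_1_2_5_28_X33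

lemma g_1_2_5_28_X31 : Good (27 / 10) [1, 2, 5, 28] 31 :=
  Good.skip (by decide +kernel) g_1_2_5_28_X32

lemma g_1_2_5_28_X30 : Good (27 / 10) [1, 2, 5, 28] 30 :=
  Good.skip (by decide +kernel) g_1_2_5_28_X31

lemma g_1_2_5_28_X29 : Good (27 / 10) [1, 2, 5, 28] 29 :=
  Good.skip (by decide +kernel) g_1_2_5_28_X30

lemma g_1_2_5_29_33_X41 : Good (27 / 10) [1, 2, 5, 29, 33] 41 :=
  Good.skip (by decide +kernel) g_1_2_5_29_33_X42

lemma g_1_2_5_29_33_X40 : Good (27 / 10) [1, 2, 5, 29, 33] 40 :=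
  Good.skip (by decide +kernel) g_1_2_5_29_33_X41

lemma g_1_2_5_29_33_X39 : Good (27 / 10) [1, 2, 5, 29, 33] 39 :=
  Good.skip (by decide +kernel) g_1_2_5_29_33_X40

lemma g_1_2_5_29_33_X38 : Good (27 / 10) [1, 2, 5, 29, 33] 38 :=
  Good.skip (by decide +kernel) g_1_2_5_29_33_X39

lemma g_1_2_5_29_33_X37 : Good (27 / 10) [1, 2, 5, 29, 33] 37 :=
  Good.skip (by decide +kernel) g_1_2_5_29_33_X38

lemma g_1_2_5_29_33_X36 : Good (27 / 10) [1, 2, 5, 29, 33] 36 :=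
  Good.skip (by decide +kernel) g_1_2_5_29_33_X37

lemma g_1_2_5_29_33_X35 : Good (27 / 10) [1, 2, 5, 29, 33] 35 :=
  Good.skip (by decide +kernel) g_1_2_5_29_33_X36

lemma g_1_2_5_29_33_X34 : Good (27 / 10) [1, 2, 5, 29, 33] 34 :=
  Good.skip (by decide +kernel) g_1_2_5_29_33_X35

lemma g_1_2_5_29_X37 : Good (27 / 10) [1, 2, 5, 29] 37 :=
  Good.skip (by decide +kernel) g_1_2_5_29_X38

lemma g_1_2_5_29_X36 : Good (27 / 10) [1, 2, 5, 29] 36 :=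
  Good.skip (by decide +kernel) g_1_2_5_29_X37

lemma g_1_2_5_29_X35 : Good (27 / 10) [1, 2, 5, 29] 35 :=
  Good.skip (by decide +kernel) g_1_2_5_29_X36

lemma g_1_2_5_29_X34 : Good (27 / 10) [1, 2, 5, 29] 34 :=
  Good.skip (by decide +kernel) g_1_2_5_29_X35

lemma g_1_2_5_29_X33 : Good (27 / 10) [1, 2, 5, 29] 33 :=
  Good.branch g_1_2_5_29_33_X34 g_1_2_5_29_X34

lemma g_1_2_5_29_X32 : Good (27 / 10) [1, 2, 5, 29] 32 :=
  Good.skip (by decide +kernel) g_1_2_5_29_X33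

lemma g_1_2_5_29_X31 : Good (27 / 10) [1, 2, 5, 29] 31 :=
  Good.skip (by decide +kernel) g_1_2_5_29_X32

lemma g_1_2_5_29_X30 : Good (27 / 10) [1, 2, 5, 29] 30 :=
  Good.skip (by decide +kernel) g_1_2_5_29_X31

lemma g_1_2_5_30_34_X42 : Good (27 / 10) [1, 2, 5, 30, 34] 42 :=
  Good.skip (by decide +kernel) g_1_2_5_30_34_X43

lemma g_1_2_5_30_34_X41 : Good (27 / 10) [1, 2, 5, 30, 34] 41 :=
  Good.skip (by decide +kernel) g_1_2_5_30_34_X42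

lemma g_1_2_5_30_34_X40 : Good (27 / 10) [1, 2, 5, 30, 34] 40 :=
  Good.skip (by decide +kernel) g_1_2_5_30_34_X41

lemma g_1_2_5_30_34_X39 : Good (27 / 10) [1, 2, 5, 30, 34] 39 :=
  Good.skip (by decide +kernel) g_1_2_5_30_34_X40

lemma g_1_2_5_30_34_X38 : Good (27 / 10) [1, 2, 5, 30, 34] 38 :=
  Good.skip (by decide +kernel) g_1_2_5_30_34_X39

lemma g_1_2_5_30_34_X37 : Good (27 / 10) [1, 2, 5, 30, 34] 37 :=
  Good.skip (by decide +kernel) g_1_2_5_30_34_X38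

lemma g_1_2_5_30_34_X36 : Good (27 / 10) [1, 2, 5, 30, 34] 36 :=
  Good.skip (by decide +kernel) g_1_2_5_30_34_X37

lemma g_1_2_5_30_34_X35 : Good (27 / 10) [1, 2, 5, 30, 34] 35 :=
  Good.skip (by decide +kernel) g_1_2_5_30_34_X36

lemma g_1_2_5_30_X38 : Good (27 / 10) [1, 2, 5, 30] 38 :=
  Good.skip (by decide +kernel) g_1_2_5_30_X39

lemma g_1_2_5_30_X37 : Good (27 / 10) [1, 2, 5, 30] 37 :=
  Good.skip (by decide +kernel) g_1_2_5_30_X38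

lemma g_1_2_5_30_X36 : Good (27 / 10) [1, 2, 5, 30] 36 :=
  Good.skip (by decide +kernel) g_1_2_5_30_X37

lemma g_1_2_5_30_X35 : Good (27 / 10) [1, 2, 5, 30] 35 :=
  Good.skip (by decide +kernel) g_1_2_5_30_X36

lemma g_1_2_5_30_X34 : Good (27 / 10) [1, 2, 5, 30] 34 :=
  Good.branch g_1_2_5_30_34_X35 g_1_2_5_30_X35

lemma g_1_2_5_30_X33 : Good (27 / 10) [1, 2, 5, 30] 33 :=
  Good.skip (by decide +kernel) g_1_2_5_30_X34

lemma g_1_2_5_30_X32 : Good (27 / 10) [1, 2, 5, 30] 32 :=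
  Good.skip (by decide +kernel) g_1_2_5_30_X33

lemma g_1_2_5_30_X31 : Good (27 / 10) [1, 2, 5, 30] 31 :=
  Good.skip (by decide +kernel) g_1_2_5_30_X32

lemma g_1_2_5_31_35_X43 : Good (27 / 10) [1, 2, 5, 31, 35] 43 :=
  Good.skip (by decide +kernel) g_1_2_5_31_35_X44

lemma g_1_2_5_31_35_X42 : Good (27 / 10) [1, 2, 5, 31, 35] 42 :=
  Good.skip (by decide +kernel) g_1_2_5_31_35_X43

lemma g_1_2_5_31_35_X41 : Good (27 / 10) [1, 2, 5, 31, 35] 41 :=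
  Good.skip (by decide +kernel) g_1_2_5_31_35_X42

lemma g_1_2_5_31_35_X40 : Good (27 / 10) [1, 2, 5, 31, 35] 40 :=
  Good.skip (by decide +kernel) g_1_2_5_31_35_X41

lemma g_1_2_5_31_35_X39 : Good (27 / 10) [1, 2, 5, 31, 35] 39 :=
  Good.skip (by decide +kernel) g_1_2_5_31_35_X40

lemma g_1_2_5_31_35_X38 : Good (27 / 10) [1, 2, 5, 31, 35] 38 :=
  Good.skip (by decide +kernel) g_1_2_5_31_35_X39

lemma g_1_2_5_31_35_X37 : Good (27 / 10) [1, 2, 5, 31, 35] 37 :=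
  Good.skip (by decide +kernel) g_1_2_5_31_35_X38

lemma g_1_2_5_31_35_X36 : Good (27 / 10) [1, 2, 5, 31, 35] 36 :=
  Good.skip (by decide +kernel) g_1_2_5_31_35_X37

lemma g_1_2_5_31_X39 : Good (27 / 10) [1, 2, 5, 31] 39 :=
  Good.skip (by decide +kernel) g_1_2_5_31_X40

lemma g_1_2_5_31_X38 : Good (27 / 10) [1, 2, 5, 31] 38 :=
  Good.skip (by decide +kernel) g_1_2_5_31_X39

lemma g_1_2_5_31_X37 : Good (27 / 10) [1, 2, 5, 31] 37 :=
  Good.skip (by decide +kernel) g_1_2_5_31_X38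

lemma g_1_2_5_31_X36 : Good (27 / 10) [1, 2, 5, 31] 36 :=
  Good.skip (by decide +kernel) g_1_2_5_31_X37

lemma g_1_2_5_31_X35 : Good (27 / 10) [1, 2, 5, 31] 35 :=
  Good.branch g_1_2_5_31_35_X36 g_1_2_5_31_X36

lemma g_1_2_5_31_X34 : Good (27 / 10) [1, 2, 5, 31] 34 :=
  Good.skip (by decide +kernel) g_1_2_5_31_X35

lemma g_1_2_5_31_X33 : Good (27 / 10) [1, 2, 5, 31] 33 :=
  Good.skip (by decide +kernel) g_1_2_5_31_X34

lemma g_1_2_5_31_X32 : Good (27 / 10) [1, 2, 5, 31] 32 :=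
  Good.skip (by decide +kernel) g_1_2_5_31_X33

lemma g_1_2_5_32_36_X44 : Good (27 / 10) [1, 2, 5, 32, 36] 44 :=
  Good.skip (by decide +kernel) g_1_2_5_32_36_X45

lemma g_1_2_5_32_36_X43 : Good (27 / 10) [1, 2, 5, 32, 36] 43 :=
  Good.skip (by decide +kernel) g_1_2_5_32_36_X44

lemma g_1_2_5_32_36_X42 : Good (27 / 10) [1, 2, 5, 32, 36] 42 :=
  Good.skip (by decide +kernel) g_1_2_5_32_36_X43

lemma g_1_2_5_32_36_X41 : Good (27 / 10) [1, 2, 5, 32, 36] 41 :=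
  Good.skip (by decide +kernel) g_1_2_5_32_36_X42

lemma g_1_2_5_32_36_X40 : Good (27 / 10) [1, 2, 5, 32, 36] 40 :=
  Good.skip (by decide +kernel) g_1_2_5_32_36_X41

lemma g_1_2_5_32_36_X39 : Good (27 / 10) [1, 2, 5, 32, 36] 39 :=
  Good.skip (by decide +kernel) g_1_2_5_32_36_X40

lemma g_1_2_5_32_36_X38 : Good (27 / 10) [1, 2, 5, 32, 36] 38 :=
  Good.skip (by decide +kernel) g_1_2_5_32_36_X39

lemma g_1_2_5_32_36_X37 : Good (27 / 10) [1, 2, 5, 32, 36] 37 :=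
  Good.skip (by decide +kernel) g_1_2_5_32_36_X38

lemma g_1_2_5_32_X40 : Good (27 / 10) [1, 2, 5, 32] 40 :=
  Good.skip (by decide +kernel) g_1_2_5_32_X41

lemma g_1_2_5_32_X39 : Good (27 / 10) [1, 2, 5, 32] 39 :=
  Good.skip (by decide +kernel) g_1_2_5_32_X40

lemma g_1_2_5_32_X38 : Good (27 / 10) [1, 2, 5, 32] 38 :=
  Good.skip (by decide +kernel) g_1_2_5_32_X39

lemma g_1_2_5_32_X37 : Good (27 / 10) [1, 2, 5, 32] 37 :=
  Good.skip (by decide +kernel) g_1_2_5_32_X38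

lemma g_1_2_5_32_X36 : Good (27 / 10) [1, 2, 5, 32] 36 :=
  Good.branch g_1_2_5_32_36_X37 g_1_2_5_32_X37

lemma g_1_2_5_32_X35 : Good (27 / 10) [1, 2, 5, 32] 35 :=
  Good.skip (by decide +kernel) g_1_2_5_32_X36

lemma g_1_2_5_32_X34 : Good (27 / 10) [1, 2, 5, 32] 34 :=
  Good.skip (by decide +kernel) g_1_2_5_32_X35

lemma g_1_2_5_32_X33 : Good (27 / 10) [1, 2, 5, 32] 33 :=
  Good.skip (by decide +kernel) g_1_2_5_32_X34

lemma g_1_2_5_33_37_X45 : Good (27 / 10) [1, 2, 5, 33, 37] 45 :=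
  Good.skip (by decide +kernel) g_1_2_5_33_37_X46

lemma g_1_2_5_33_37_X44 : Good (27 / 10) [1, 2, 5, 33, 37] 44 :=
  Good.skip (by decide +kernel) g_1_2_5_33_37_X45

lemma g_1_2_5_33_37_X43 : Good (27 / 10) [1, 2, 5, 33, 37] 43 :=
  Good.skip (by decide +kernel) g_1_2_5_33_37_X44

lemma g_1_2_5_33_37_X42 : Good (27 / 10) [1, 2, 5, 33, 37] 42 :=
  Good.skip (by decide +kernel) g_1_2_5_33_37_X43

lemma g_1_2_5_33_37_X41 : Good (27 / 10) [1, 2, 5, 33, 37] 41 :=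
  Good.skip (by decide +kernel) g_1_2_5_33_37_X42

lemma g_1_2_5_33_37_X40 : Good (27 / 10) [1, 2, 5, 33, 37] 40 :=
  Good.skip (by decide +kernel) g_1_2_5_33_37_X41

lemma g_1_2_5_33_37_X39 : Good (27 / 10) [1, 2, 5, 33, 37] 39 :=
  Good.skip (by decide +kernel) g_1_2_5_33_37_X40

lemma g_1_2_5_33_37_X38 : Good (27 / 10) [1, 2, 5, 33, 37] 38 :=
  Good.skip (by decide +kernel) g_1_2_5_33_37_X39

lemma g_1_2_5_33_X41 : Good (27 / 10) [1, 2, 5, 33] 41 :=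
  Good.skip (by decide +kernel) g_1_2_5_33_X42

lemma g_1_2_5_33_X40 : Good (27 / 10) [1, 2, 5, 33] 40 :=
  Good.skip (by decide +kernel) g_1_2_5_33_X41

lemma g_1_2_5_33_X39 : Good (27 / 10) [1, 2, 5, 33] 39 :=
  Good.skip (by decide +kernel) g_1_2_5_33_X40

lemma g_1_2_5_33_X38 : Good (27 / 10) [1, 2, 5, 33] 38 :=
  Good.skip (by decide +kernel) g_1_2_5_33_X39

lemma g_1_2_5_33_X37 : Good (27 / 10) [1, 2, 5, 33] 37 :=
  Good.branch g_1_2_5_33_37_X38 g_1_2_5_33_X38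

lemma g_1_2_5_33_X36 : Good (27 / 10) [1, 2, 5, 33] 36 :=
  Good.skip (by decide +kernel) g_1_2_5_33_X37

lemma g_1_2_5_33_X35 : Good (27 / 10) [1, 2, 5, 33] 35 :=
  Good.skip (by decide +kernel) g_1_2_5_33_X36

lemma g_1_2_5_33_X34 : Good (27 / 10) [1, 2, 5, 33] 34 :=
  Good.skip (by decide +kernel) g_1_2_5_33_X35

lemma g_1_2_5_34_X37 : Good (27 / 10) [1, 2, 5, 34] 37 :=
  Good.skip (by decide +kernel) g_1_2_5_34_X38

lemma g_1_2_5_34_X36 : Good (27 / 10) [1, 2, 5, 34] 36 :=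
  Good.skip (by decide +kernel) g_1_2_5_34_X37

lemma g_1_2_5_34_X35 : Good (27 / 10) [1, 2, 5, 34] 35 :=
  Good.skip (by decide +kernel) g_1_2_5_34_X36

lemma g_1_2_5_35_X38 : Good (27 / 10) [1, 2, 5, 35] 38 :=
  Good.skip (by decide +kernel) g_1_2_5_35_X39

lemma g_1_2_5_35_X37 : Good (27 / 10) [1, 2, 5, 35] 37 :=
  Good.skip (by decide +kernel) g_1_2_5_35_X38

lemma g_1_2_5_35_X36 : Good (27 / 10) [1, 2, 5, 35] 36 :=
  Good.skip (by decide +kernel) g_1_2_5_35_X37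

lemma g_1_2_5_36_X39 : Good (27 / 10) [1, 2, 5, 36] 39 :=
  Good.skip (by decide +kernel) g_1_2_5_36_X40

lemma g_1_2_5_36_X38 : Good (27 / 10) [1, 2, 5, 36] 38 :=
  Good.skip (by decide +kernel) g_1_2_5_36_X39

lemma g_1_2_5_36_X37 : Good (27 / 10) [1, 2, 5, 36] 37 :=
  Good.skip (by decide +kernel) g_1_2_5_36_X38

lemma g_1_2_5_X36 : Good (27 / 10) [1, 2, 5] 36 :=
  Good.branch g_1_2_5_36_X37 g_1_2_5_X37

lemma g_1_2_5_X35 : Good (27 / 10) [1, 2, 5] 35 :=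
  Good.branch g_1_2_5_35_X36 g_1_2_5_X36

lemma g_1_2_5_X34 : Good (27 / 10) [1, 2, 5] 34 :=
  Good.branch g_1_2_5_34_X35 g_1_2_5_X35

lemma g_1_2_5_X33 : Good (27 / 10) [1, 2, 5] 33 :=
  Good.branch g_1_2_5_33_X34 g_1_2_5_X34

lemma g_1_2_5_X32 : Good (27 / 10) [1, 2, 5] 32 :=
  Good.branch g_1_2_5_32_X33 g_1_2_5_X33

lemma g_1_2_5_X31 : Good (27 / 10) [1, 2, 5] 31 :=
  Good.branch g_1_2_5_31_X32 g_1_2_5_X32

lemma g_1_2_5_X30 : Good (27 / 10) [1, 2, 5] 30 :=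
  Good.branch g_1_2_5_30_X31 g_1_2_5_X31

lemma g_1_2_5_X29 : Good (27 / 10) [1, 2, 5] 29 :=
  Good.branch g_1_2_5_29_X30 g_1_2_5_X30

lemma g_1_2_5_X28 : Good (27 / 10) [1, 2, 5] 28 :=
  Good.branch g_1_2_5_28_X29 g_1_2_5_X29

lemma g_1_2_5_X27 : Good (27 / 10) [1, 2, 5] 27 :=
  Good.branch g_1_2_5_27_X28 g_1_2_5_X28

lemma g_1_2_5_X26 : Good (27 / 10) [1, 2, 5] 26 :=
  Good.branch g_1_2_5_26_X27 g_1_2_5_X27

lemma g_1_2_5_X25 : Good (27 / 10) [1, 2, 5] 25 :=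
  Good.branch g_1_2_5_25_X26 g_1_2_5_X26

lemma g_1_2_5_X24 : Good (27 / 10) [1, 2, 5] 24 :=
  Good.branch g_1_2_5_24_X25 g_1_2_5_X25

lemma g_1_2_5_X23 : Good (27 / 10) [1, 2, 5] 23 :=
  Good.branch g_1_2_5_23_X24 g_1_2_5_X24

lemma g_1_2_5_X22 : Good (27 / 10) [1, 2, 5] 22 :=
  Good.branch g_1_2_5_22_X23 g_1_2_5_X23

lemma g_1_2_5_X21 : Good (27 / 10) [1, 2, 5] 21 :=
  Good.branch g_1_2_5_21_X22 g_1_2_5_X22

lemma g_1_2_5_X20 : Good (27 / 10) [1, 2, 5] 20 :=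
  Good.branch g_1_2_5_20_X21 g_1_2_5_X21

lemma g_1_2_5_X19 : Good (27 / 10) [1, 2, 5] 19 :=
  Good.branch g_1_2_5_19_X20 g_1_2_5_X20

lemma g_1_2_5_X18 : Good (27 / 10) [1, 2, 5] 18 :=
  Good.branch g_1_2_5_18_X19 g_1_2_5_X19

lemma g_1_2_5_X17 : Good (27 / 10) [1, 2, 5] 17 :=
  Good.branch g_1_2_5_17_X18 g_1_2_5_X18

lemma g_1_2_5_X16 : Good (27 / 10) [1, 2, 5] 16 :=
  Good.branch g_1_2_5_16_X17 g_1_2_5_X17

lemma g_1_2_5_X15 : Good (27 / 10) [1, 2, 5] 15 :=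
  Good.branch g_1_2_5_15_X16 g_1_2_5_X16

lemma g_1_2_5_X14 : Good (27 / 10) [1, 2, 5] 14 :=
  Good.branch g_1_2_5_14_X15 g_1_2_5_X15

lemma g_1_2_5_X13 : Good (27 / 10) [1, 2, 5] 13 :=
  Good.branch g_1_2_5_13_X14 g_1_2_5_X14

lemma g_1_2_5_X12 : Good (27 / 10) [1, 2, 5] 12 :=
  Good.branch g_1_2_5_12_X13 g_1_2_5_X13

lemma g_1_2_5_X11 : Good (27 / 10) [1, 2, 5] 11 :=
  Good.branch g_1_2_5_11_X12 g_1_2_5_X12

lemma g_1_2_5_X10 : Good (27 / 10) [1, 2, 5] 10 :=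
  Good.branch g_1_2_5_10_X11 g_1_2_5_X11

lemma g_1_2_5_X9 : Good (27 / 10) [1, 2, 5] 9 :=
  Good.branch g_1_2_5_9_X10 g_1_2_5_X10

lemma g_1_2_5_X8 : Good (27 / 10) [1, 2, 5] 8 :=
  Good.skip (by decide +kernel) g_1_2_5_X9

lemma g_1_2_5_X7 : Good (27 / 10) [1, 2, 5] 7 :=
  Good.skip (by decide +kernel) g_1_2_5_X8

lemma g_1_2_5_X6 : Good (27 / 10) [1, 2, 5] 6 :=
  Good.skip (by decide +kernel) g_1_2_5_X7

lemma g_1_2_6_10_X13 : Good (27 / 10) [1, 2, 6, 10] 13 :=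
  Good.skip (by decide +kernel) g_1_2_6_10_X14

lemma g_1_2_6_10_X12 : Good (27 / 10) [1, 2, 6, 10] 12 :=
  Good.skip (by decide +kernel) g_1_2_6_10_X13

lemma g_1_2_6_10_X11 : Good (27 / 10) [1, 2, 6, 10] 11 :=
  Good.skip (by decide +kernel) g_1_2_6_10_X12

lemma g_1_2_6_11_15_X24 : Good (27 / 10) [1, 2, 6, 11, 15] 24 :=
  Good.skip (by decide +kernel) g_1_2_6_11_15_X25

lemma g_1_2_6_11_15_X23 : Good (27 / 10) [1, 2, 6, 11, 15] 23 :=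
  Good.skip (by decide +kernel) g_1_2_6_11_15_X24

lemma g_1_2_6_11_15_X22 : Good (27 / 10) [1, 2, 6, 11, 15] 22 :=
  Good.skip (by decide +kernel) g_1_2_6_11_15_X23

lemma g_1_2_6_11_15_X21 : Good (27 / 10) [1, 2, 6, 11, 15] 21 :=
  Good.skip (by decide +kernel) g_1_2_6_11_15_X22

lemma g_1_2_6_11_15_X20 : Good (27 / 10) [1, 2, 6, 11, 15] 20 :=
  Good.skip (by decide +kernel) g_1_2_6_11_15_X21

lemma g_1_2_6_11_15_X19 : Good (27 / 10) [1, 2, 6, 11, 15] 19 :=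
  Good.skip (by decide +kernel) g_1_2_6_11_15_X20

lemma g_1_2_6_11_15_X18 : Good (27 / 10) [1, 2, 6, 11, 15] 18 :=
  Good.skip (by decide +kernel) g_1_2_6_11_15_X19

lemma g_1_2_6_11_15_X17 : Good (27 / 10) [1, 2, 6, 11, 15] 17 :=
  Good.skip (by decide +kernel) g_1_2_6_11_15_X18

lemma g_1_2_6_11_15_X16 : Good (27 / 10) [1, 2, 6, 11, 15] 16 :=
  Good.skip (by decide +kernel) g_1_2_6_11_15_X17

lemma g_1_2_6_11_16_21_X25 : Good (27 / 10) [1, 2, 6, 11, 16, 21] 25 :=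
  Good.skip (by decide +kernel) g_1_2_6_11_16_21_X26

lemma g_1_2_6_11_16_21_X24 : Good (27 / 10) [1, 2, 6, 11, 16, 21] 24 :=
  Good.skip (by decide +kernel) g_1_2_6_11_16_21_X25

lemma g_1_2_6_11_16_21_X23 : Good (27 / 10) [1, 2, 6, 11, 16, 21] 23 :=
  Good.skip (by decide +kernel) g_1_2_6_11_16_21_X24

lemma g_1_2_6_11_16_21_X22 : Good (27 / 10) [1, 2, 6, 11, 16, 21] 22 :=
  Good.skip (by decide +kernel) g_1_2_6_11_16_21_X23

lemma g_1_2_6_11_16_X25 : Good (27 / 10) [1, 2, 6, 11, 16] 25 :=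
  Good.skip (by decide +kernel) g_1_2_6_11_16_X26

lemma g_1_2_6_11_16_X24 : Good (27 / 10) [1, 2, 6, 11, 16] 24 :=
  Good.skip (by decide +kernel) g_1_2_6_11_16_X25

lemma g_1_2_6_11_16_X23 : Good (27 / 10) [1, 2, 6, 11, 16] 23 :=
  Good.skip (by decide +kernel) g_1_2_6_11_16_X24

lemma g_1_2_6_11_16_X22 : Good (27 / 10) [1, 2, 6, 11, 16] 22 :=
  Good.skip (by decide +kernel) g_1_2_6_11_16_X23

lemma g_1_2_6_11_16_X21 : Good (27 / 10) [1, 2, 6, 11, 16] 21 :=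
  Good.branch g_1_2_6_11_16_21_X22 g_1_2_6_11_16_X22

lemma g_1_2_6_11_16_X20 : Good (27 / 10) [1, 2, 6, 11, 16] 20 :=
  Good.skip (by decide +kernel) g_1_2_6_11_16_X21

lemma g_1_2_6_11_16_X19 : Good (27 / 10) [1, 2, 6, 11, 16] 19 :=
  Good.skip (by decide +kernel) g_1_2_6_11_16_X20

lemma g_1_2_6_11_16_X18 : Good (27 / 10) [1, 2, 6, 11, 16] 18 :=
  Good.skip (by decide +kernel) g_1_2_6_11_16_X19

lemma g_1_2_6_11_16_X17 : Good (27 / 10) [1, 2, 6, 11, 16] 17 :=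
  Good.skip (by decide +kernel) g_1_2_6_11_16_X18

lemma g_1_2_6_11_21_X24 : Good (27 / 10) [1, 2, 6, 11, 21] 24 :=
  Good.skip (by decide +kernel) g_1_2_6_11_21_X25

lemma g_1_2_6_11_21_X23 : Good (27 / 10) [1, 2, 6, 11, 21] 23 :=
  Good.skip (by decide +kernel) g_1_2_6_11_21_X24

lemma g_1_2_6_11_21_X22 : Good (27 / 10) [1, 2, 6, 11, 21] 22 :=
  Good.skip (by decide +kernel) g_1_2_6_11_21_X23

lemma g_1_2_6_11_22_X25 : Good (27 / 10) [1, 2, 6, 11, 22] 25 :=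
  Good.skip (by decide +kernel) g_1_2_6_11_22_X26

lemma g_1_2_6_11_22_X24 : Good (27 / 10) [1, 2, 6, 11, 22] 24 :=
  Good.skip (by decide +kernel) g_1_2_6_11_22_X25

lemma g_1_2_6_11_22_X23 : Good (27 / 10) [1, 2, 6, 11, 22] 23 :=
  Good.skip (by decide +kernel) g_1_2_6_11_22_X24

lemma g_1_2_6_11_23_X26 : Good (27 / 10) [1, 2, 6, 11, 23] 26 :=
  Good.skip (by decide +kernel) g_1_2_6_11_23_X27

lemma g_1_2_6_11_23_X25 : Good (27 / 10) [1, 2, 6, 11, 23] 25 :=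
  Good.skip (by decide +kernel) g_1_2_6_11_23_X26

lemma g_1_2_6_11_23_X24 : Good (27 / 10) [1, 2, 6, 11, 23] 24 :=
  Good.skip (by decide +kernel) g_1_2_6_11_23_X25

lemma g_1_2_6_11_24_X27 : Good (27 / 10) [1, 2, 6, 11, 24] 27 :=
  Good.skip (by decide +kernel) g_1_2_6_11_24_X28

lemma g_1_2_6_11_24_X26 : Good (27 / 10) [1, 2, 6, 11, 24] 26 :=
  Good.skip (by decide +kernel) g_1_2_6_11_24_X27

lemma g_1_2_6_11_24_X25 : Good (27 / 10) [1, 2, 6, 11, 24] 25 :=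
  Good.skip (by decide +kernel) g_1_2_6_11_24_X26

lemma g_1_2_6_11_25_X28 : Good (27 / 10) [1, 2, 6, 11, 25] 28 :=
  Good.skip (by decide +kernel) g_1_2_6_11_25_X29

lemma g_1_2_6_11_25_X27 : Good (27 / 10) [1, 2, 6, 11, 25] 27 :=
  Good.skip (by decide +kernel) g_1_2_6_11_25_X28

lemma g_1_2_6_11_25_X26 : Good (27 / 10) [1, 2, 6, 11, 25] 26 :=
  Good.skip (by decide +kernel) g_1_2_6_11_25_X27

lemma g_1_2_6_11_26_X29 : Good (27 / 10) [1, 2, 6, 11, 26] 29 :=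
  Good.skip (by decide +kernel) g_1_2_6_11_26_X30

lemma g_1_2_6_11_26_X28 : Good (27 / 10) [1, 2, 6, 11, 26] 28 :=
  Good.skip (by decide +kernel) g_1_2_6_11_26_X29

lemma g_1_2_6_11_26_X27 : Good (27 / 10) [1, 2, 6, 11, 26] 27 :=
  Good.skip (by decide +kernel) g_1_2_6_11_26_X28

lemma g_1_2_6_11_27_X30 : Good (27 / 10) [1, 2, 6, 11, 27] 30 :=
  Good.skip (by decide +kernel) g_1_2_6_11_27_X31

lemma g_1_2_6_11_27_X29 : Good (27 / 10) [1, 2, 6, 11, 27] 29 :=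
  Good.skip (by decide +kernel) g_1_2_6_11_27_X30

lemma g_1_2_6_11_27_X28 : Good (27 / 10) [1, 2, 6, 11, 27] 28 :=
  Good.skip (by decide +kernel) g_1_2_6_11_27_X29

lemma g_1_2_6_11_28_X31 : Good (27 / 10) [1, 2, 6, 11, 28] 31 :=
  Good.skip (by decide +kernel) g_1_2_6_11_28_X32

lemma g_1_2_6_11_28_X30 : Good (27 / 10) [1, 2, 6, 11, 28] 30 :=
  Good.skip (by decide +kernel) g_1_2_6_11_28_X31

lemma g_1_2_6_11_28_X29 : Good (27 / 10) [1, 2, 6, 11, 28] 29 :=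
  Good.skip (by decide +kernel) g_1_2_6_11_28_X30

lemma g_1_2_6_11_29_X32 : Good (27 / 10) [1, 2, 6, 11, 29] 32 :=
  Good.skip (by decide +kernel) g_1_2_6_11_29_X33

lemma g_1_2_6_11_29_X31 : Good (27 / 10) [1, 2, 6, 11, 29] 31 :=
  Good.skip (by decide +kernel) g_1_2_6_11_29_X32

lemma g_1_2_6_11_29_X30 : Good (27 / 10) [1, 2, 6, 11, 29] 30 :=
  Good.skip (by decide +kernel) g_1_2_6_11_29_X31

lemma g_1_2_6_11_30_X33 : Good (27 / 10) [1, 2, 6, 11, 30] 33 :=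
  Good.skip (by decide +kernel) g_1_2_6_11_30_X34

lemma g_1_2_6_11_30_X32 : Good (27 / 10) [1, 2, 6, 11, 30] 32 :=
  Good.skip (by decide +kernel) g_1_2_6_11_30_X33

lemma g_1_2_6_11_30_X31 : Good (27 / 10) [1, 2, 6, 11, 30] 31 :=
  Good.skip (by decide +kernel) g_1_2_6_11_30_X32

lemma g_1_2_6_11_31_X34 : Good (27 / 10) [1, 2, 6, 11, 31] 34 :=
  Good.skip (by decide +kernel) g_1_2_6_11_31_X35

lemma g_1_2_6_11_31_X33 : Good (27 / 10) [1, 2, 6, 11, 31] 33 :=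
  Good.skip (by decide +kernel) g_1_2_6_11_31_X34

lemma g_1_2_6_11_31_X32 : Good (27 / 10) [1, 2, 6, 11, 31] 32 :=
  Good.skip (by decide +kernel) g_1_2_6_11_31_X33

lemma g_1_2_6_11_32_36_X56 : Good (27 / 10) [1, 2, 6, 11, 32, 36] 56 :=
  Good.skip (by decide +kernel) g_1_2_6_11_32_36_X57

lemma g_1_2_6_11_32_36_X55 : Good (27 / 10) [1, 2, 6, 11, 32, 36] 55 :=
  Good.skip (by decide +kernel) g_1_2_6_11_32_36_X56

lemma g_1_2_6_11_32_36_X54 : Good (27 / 10) [1, 2, 6, 11, 32, 36] 54 :=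
  Good.skip (by decide +kernel) g_1_2_6_11_32_36_X55

lemma g_1_2_6_11_32_36_X53 : Good (27 / 10) [1, 2, 6, 11, 32, 36] 53 :=
  Good.skip (by decide +kernel) g_1_2_6_11_32_36_X54

lemma g_1_2_6_11_32_36_X52 : Good (27 / 10) [1, 2, 6, 11, 32, 36] 52 :=
  Good.skip (by decide +kernel) g_1_2_6_11_32_36_X53

lemma g_1_2_6_11_32_36_X51 : Good (27 / 10) [1, 2, 6, 11, 32, 36] 51 :=
  Good.skip (by decide +kernel) g_1_2_6_11_32_36_X52

lemma g_1_2_6_11_32_36_X50 : Good (27 / 10) [1, 2, 6, 11, 32, 36] 50 :=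
  Good.skip (by decide +kernel) g_1_2_6_11_32_36_X51

lemma g_1_2_6_11_32_36_X49 : Good (27 / 10) [1, 2, 6, 11, 32, 36] 49 :=
  Good.skip (by decide +kernel) g_1_2_6_11_32_36_X50

lemma g_1_2_6_11_32_36_X48 : Good (27 / 10) [1, 2, 6, 11, 32, 36] 48 :=
  Good.skip (by decide +kernel) g_1_2_6_11_32_36_X49

lemma g_1_2_6_11_32_36_X47 : Good (27 / 10) [1, 2, 6, 11, 32, 36] 47 :=
  Good.skip (by decide +kernel) g_1_2_6_11_32_36_X48

lemma g_1_2_6_11_32_36_X46 : Good (27 / 10) [1, 2, 6, 11, 32, 36] 46 :=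
  Good.skip (by decide +kernel) g_1_2_6_11_32_36_X47

lemma g_1_2_6_11_32_36_X45 : Good (27 / 10) [1, 2, 6, 11, 32, 36] 45 :=
  Good.skip (by decide +kernel) g_1_2_6_11_32_36_X46

lemma g_1_2_6_11_32_36_X44 : Good (27 / 10) [1, 2, 6, 11, 32, 36] 44 :=
  Good.skip (by decide +kernel) g_1_2_6_11_32_36_X45

lemma g_1_2_6_11_32_36_X43 : Good (27 / 10) [1, 2, 6, 11, 32, 36] 43 :=
  Good.skip (by decide +kernel) g_1_2_6_11_32_36_X44

lemma g_1_2_6_11_32_36_X42 : Good (27 / 10) [1, 2, 6, 11, 32, 36] 42 :=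
  Good.skip (by decide +kernel) g_1_2_6_11_32_36_X43

lemma g_1_2_6_11_32_36_X41 : Good (27 / 10) [1, 2, 6, 11, 32, 36] 41 :=
  Good.skip (by decide +kernel) g_1_2_6_11_32_36_X42

lemma g_1_2_6_11_32_36_X40 : Good (27 / 10) [1, 2, 6, 11, 32, 36] 40 :=
  Good.skip (by decide +kernel) g_1_2_6_11_32_36_X41

lemma g_1_2_6_11_32_36_X39 : Good (27 / 10) [1, 2, 6, 11, 32, 36] 39 :=
  Good.skip (by decide +kernel) g_1_2_6_11_32_36_X40

lemma g_1_2_6_11_32_36_X38 : Good (27 / 10) [1, 2, 6, 11, 32, 36] 38 :=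
  Good.skip (by decide +kernel) g_1_2_6_11_32_36_X39

lemma g_1_2_6_11_32_36_X37 : Good (27 / 10) [1, 2, 6, 11, 32, 36] 37 :=
  Good.skip (by decide +kernel) g_1_2_6_11_32_36_X38

lemma g_1_2_6_11_32_37_X41 : Good (27 / 10) [1, 2, 6, 11, 32, 37] 41 :=
  Good.skip (by decide +kernel) g_1_2_6_11_32_37_X42

lemma g_1_2_6_11_32_37_X40 : Good (27 / 10) [1, 2, 6, 11, 32, 37] 40 :=
  Good.skip (by decide +kernel) g_1_2_6_11_32_37_X41

lemma g_1_2_6_11_32_37_X39 : Good (27 / 10) [1, 2, 6, 11, 32, 37] 39 :=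
  Good.skip (by decide +kernel) g_1_2_6_11_32_37_X40

lemma g_1_2_6_11_32_37_X38 : Good (27 / 10) [1, 2, 6, 11, 32, 37] 38 :=
  Good.skip (by decide +kernel) g_1_2_6_11_32_37_X39

lemma g_1_2_6_11_32_X41 : Good (27 / 10) [1, 2, 6, 11, 32] 41 :=
  Good.skip (by decide +kernel) g_1_2_6_11_32_X42

lemma g_1_2_6_11_32_X40 : Good (27 / 10) [1, 2, 6, 11, 32] 40 :=
  Good.skip (by decide +kernel) g_1_2_6_11_32_X41

lemma g_1_2_6_11_32_X39 : Good (27 / 10) [1, 2, 6, 11, 32] 39 :=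
  Good.skip (by decide +kernel) g_1_2_6_11_32_X40

lemma g_1_2_6_11_32_X38 : Good (27 / 10) [1, 2, 6, 11, 32] 38 :=
  Good.skip (by decide +kernel) g_1_2_6_11_32_X39

lemma g_1_2_6_11_32_X37 : Good (27 / 10) [1, 2, 6, 11, 32] 37 :=
  Good.branch g_1_2_6_11_32_37_X38 g_1_2_6_11_32_X38

lemma g_1_2_6_11_32_X36 : Good (27 / 10) [1, 2, 6, 11, 32] 36 :=
  Good.branch g_1_2_6_11_32_36_X37 g_1_2_6_11_32_X37

lemma g_1_2_6_11_32_X35 : Good (27 / 10) [1, 2, 6, 11, 32] 35 :=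
  Good.skip (by decide +kernel) g_1_2_6_11_32_X36

lemma g_1_2_6_11_32_X34 : Good (27 / 10) [1, 2, 6, 11, 32] 34 :=
  Good.skip (by decide +kernel) g_1_2_6_11_32_X35

lemma g_1_2_6_11_32_X33 : Good (27 / 10) [1, 2, 6, 11, 32] 33 :=
  Good.skip (by decide +kernel) g_1_2_6_11_32_X34

lemma g_1_2_6_11_X32 : Good (27 / 10) [1, 2, 6, 11] 32 :=
  Good.branch g_1_2_6_11_32_X33 g_1_2_6_11_X33

lemma g_1_2_6_11_X31 : Good (27 / 10) [1, 2, 6, 11] 31 :=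
  Good.branch g_1_2_6_11_31_X32 g_1_2_6_11_X32

lemma g_1_2_6_11_X30 : Good (27 / 10) [1, 2, 6, 11] 30 :=
  Good.branch g_1_2_6_11_30_X31 g_1_2_6_11_X31

lemma g_1_2_6_11_X29 : Good (27 / 10) [1, 2, 6, 11] 29 :=
  Good.branch g_1_2_6_11_29_X30 g_1_2_6_11_X30

lemma g_1_2_6_11_X28 : Good (27 / 10) [1, 2, 6, 11] 28 :=
  Good.branch g_1_2_6_11_28_X29 g_1_2_6_11_X29

lemma g_1_2_6_11_X27 : Good (27 / 10) [1, 2, 6, 11] 27 :=
  Good.branch g_1_2_6_11_27_X28 g_1_2_6_11_X28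

lemma g_1_2_6_11_X26 : Good (27 / 10) [1, 2, 6, 11] 26 :=
  Good.branch g_1_2_6_11_26_X27 g_1_2_6_11_X27

lemma g_1_2_6_11_X25 : Good (27 / 10) [1, 2, 6, 11] 25 :=
  Good.branch g_1_2_6_11_25_X26 g_1_2_6_11_X26

lemma g_1_2_6_11_X24 : Good (27 / 10) [1, 2, 6, 11] 24 :=
  Good.branch g_1_2_6_11_24_X25 g_1_2_6_11_X25

lemma g_1_2_6_11_X23 : Good (27 / 10) [1, 2, 6, 11] 23 :=
  Good.branch g_1_2_6_11_23_X24 g_1_2_6_11_X24

lemma g_1_2_6_11_X22 : Good (27 / 10) [1, 2, 6, 11] 22 :=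
  Good.branch g_1_2_6_11_22_X23 g_1_2_6_11_X23

lemma g_1_2_6_11_X21 : Good (27 / 10) [1, 2, 6, 11] 21 :=
  Good.branch g_1_2_6_11_21_X22 g_1_2_6_11_X22

lemma g_1_2_6_11_X20 : Good (27 / 10) [1, 2, 6, 11] 20 :=
  Good.skip (by decide +kernel) g_1_2_6_11_X21

lemma g_1_2_6_11_X19 : Good (27 / 10) [1, 2, 6, 11] 19 :=
  Good.skip (by decide +kernel) g_1_2_6_11_X20

lemma g_1_2_6_11_X18 : Good (27 / 10) [1, 2, 6, 11] 18 :=
  Good.skip (by decide +kernel) g_1_2_6_11_X19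

lemma g_1_2_6_11_X17 : Good (27 / 10) [1, 2, 6, 11] 17 :=
  Good.skip (by decide +kernel) g_1_2_6_11_X18

lemma g_1_2_6_11_X16 : Good (27 / 10) [1, 2, 6, 11] 16 :=
  Good.branch g_1_2_6_11_16_X17 g_1_2_6_11_X17

lemma g_1_2_6_11_X15 : Good (27 / 10) [1, 2, 6, 11] 15 :=
  Good.branch g_1_2_6_11_15_X16 g_1_2_6_11_X16

lemma g_1_2_6_11_X14 : Good (27 / 10) [1, 2, 6, 11] 14 :=
  Good.skip (by decide +kernel) g_1_2_6_11_X15

lemma g_1_2_6_11_X13 : Good (27 / 10) [1, 2, 6, 11] 13 :=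
  Good.skip (by decide +kernel) g_1_2_6_11_X14

lemma g_1_2_6_11_X12 : Good (27 / 10) [1, 2, 6, 11] 12 :=
  Good.skip (by decide +kernel) g_1_2_6_11_X13

lemma g_1_2_6_12_16_X25 : Good (27 / 10) [1, 2, 6, 12, 16] 25 :=
  Good.skip (by decide +kernel) g_1_2_6_12_16_X26

lemma g_1_2_6_12_16_X24 : Good (27 / 10) [1, 2, 6, 12, 16] 24 :=
  Good.skip (by decide +kernel) g_1_2_6_12_16_X25

lemma g_1_2_6_12_16_X23 : Good (27 / 10) [1, 2, 6, 12, 16] 23 :=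
  Good.skip (by decide +kernel) g_1_2_6_12_16_X24

lemma g_1_2_6_12_16_X22 : Good (27 / 10) [1, 2, 6, 12, 16] 22 :=
  Good.skip (by decide +kernel) g_1_2_6_12_16_X23

lemma g_1_2_6_12_16_X21 : Good (27 / 10) [1, 2, 6, 12, 16] 21 :=
  Good.skip (by decide +kernel) g_1_2_6_12_16_X22

lemma g_1_2_6_12_16_X20 : Good (27 / 10) [1, 2, 6, 12, 16] 20 :=
  Good.skip (by decide +kernel) g_1_2_6_12_16_X21

lemma g_1_2_6_12_16_X19 : Good (27 / 10) [1, 2, 6, 12, 16] 19 :=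
  Good.skip (by decide +kernel) g_1_2_6_12_16_X20

lemma g_1_2_6_12_16_X18 : Good (27 / 10) [1, 2, 6, 12, 16] 18 :=
  Good.skip (by decide +kernel) g_1_2_6_12_16_X19

lemma g_1_2_6_12_16_X17 : Good (27 / 10) [1, 2, 6, 12, 16] 17 :=
  Good.skip (by decide +kernel) g_1_2_6_12_16_X18

lemma g_1_2_6_12_17_X21 : Good (27 / 10) [1, 2, 6, 12, 17] 21 :=
  Good.skip (by decide +kernel) g_1_2_6_12_17_X22

lemma g_1_2_6_12_17_X20 : Good (27 / 10) [1, 2, 6, 12, 17] 20 :=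
  Good.skip (by decide +kernel) g_1_2_6_12_17_X21

lemma g_1_2_6_12_17_X19 : Good (27 / 10) [1, 2, 6, 12, 17] 19 :=
  Good.skip (by decide +kernel) g_1_2_6_12_17_X20

lemma g_1_2_6_12_17_X18 : Good (27 / 10) [1, 2, 6, 12, 17] 18 :=
  Good.skip (by decide +kernel) g_1_2_6_12_17_X19

lemma g_1_2_6_12_X21 : Good (27 / 10) [1, 2, 6, 12] 21 :=
  Good.skip (by decide +kernel) g_1_2_6_12_X22

lemma g_1_2_6_12_X20 : Good (27 / 10) [1, 2, 6, 12] 20 :=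
  Good.skip (by decide +kernel) g_1_2_6_12_X21

lemma g_1_2_6_12_X19 : Good (27 / 10) [1, 2, 6, 12] 19 :=
  Good.skip (by decide +kernel) g_1_2_6_12_X20

lemma g_1_2_6_12_X18 : Good (27 / 10) [1, 2, 6, 12] 18 :=
  Good.skip (by decide +kernel) g_1_2_6_12_X19

lemma g_1_2_6_12_X17 : Good (27 / 10) [1, 2, 6, 12] 17 :=
  Good.branch g_1_2_6_12_17_X18 g_1_2_6_12_X18

lemma g_1_2_6_12_X16 : Good (27 / 10) [1, 2, 6, 12] 16 :=
  Good.branch g_1_2_6_12_16_X17 g_1_2_6_12_X17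

lemma g_1_2_6_12_X15 : Good (27 / 10) [1, 2, 6, 12] 15 :=
  Good.skip (by decide +kernel) g_1_2_6_12_X16

lemma g_1_2_6_12_X14 : Good (27 / 10) [1, 2, 6, 12] 14 :=
  Good.skip (by decide +kernel) g_1_2_6_12_X15

lemma g_1_2_6_12_X13 : Good (27 / 10) [1, 2, 6, 12] 13 :=
  Good.skip (by decide +kernel) g_1_2_6_12_X14

lemma g_1_2_6_13_X16 : Good (27 / 10) [1, 2, 6, 13] 16 :=
  Good.skip (by decide +kernel) g_1_2_6_13_X17

lemma g_1_2_6_13_X15 : Good (27 / 10) [1, 2, 6, 13] 15 :=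
  Good.skip (by decide +kernel) g_1_2_6_13_X16

lemma g_1_2_6_13_X14 : Good (27 / 10) [1, 2, 6, 13] 14 :=
  Good.skip (by decide +kernel) g_1_2_6_13_X15

lemma g_1_2_6_14_X17 : Good (27 / 10) [1, 2, 6, 14] 17 :=
  Good.skip (by decide +kernel) g_1_2_6_14_X18

lemma g_1_2_6_14_X16 : Good (27 / 10) [1, 2, 6, 14] 16 :=
  Good.skip (by decide +kernel) g_1_2_6_14_X17

lemma g_1_2_6_14_X15 : Good (27 / 10) [1, 2, 6, 14] 15 :=
  Good.skip (by decide +kernel) g_1_2_6_14_X16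

lemma g_1_2_6_15_19_X28 : Good (27 / 10) [1, 2, 6, 15, 19] 28 :=
  Good.skip (by decide +kernel) g_1_2_6_15_19_X29

lemma g_1_2_6_15_19_X27 : Good (27 / 10) [1, 2, 6, 15, 19] 27 :=
  Good.skip (by decide +kernel) g_1_2_6_15_19_X28

lemma g_1_2_6_15_19_X26 : Good (27 / 10) [1, 2, 6, 15, 19] 26 :=
  Good.skip (by decide +kernel) g_1_2_6_15_19_X27

lemma g_1_2_6_15_19_X25 : Good (27 / 10) [1, 2, 6, 15, 19] 25 :=
  Good.skip (by decide +kernel) g_1_2_6_15_19_X26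

lemma g_1_2_6_15_19_X24 : Good (27 / 10) [1, 2, 6, 15, 19] 24 :=
  Good.skip (by decide +kernel) g_1_2_6_15_19_X25

lemma g_1_2_6_15_19_X23 : Good (27 / 10) [1, 2, 6, 15, 19] 23 :=
  Good.skip (by decide +kernel) g_1_2_6_15_19_X24

lemma g_1_2_6_15_19_X22 : Good (27 / 10) [1, 2, 6, 15, 19] 22 :=
  Good.skip (by decide +kernel) g_1_2_6_15_19_X23

lemma g_1_2_6_15_19_X21 : Good (27 / 10) [1, 2, 6, 15, 19] 21 :=
  Good.skip (by decide +kernel) g_1_2_6_15_19_X22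

lemma g_1_2_6_15_19_X20 : Good (27 / 10) [1, 2, 6, 15, 19] 20 :=
  Good.skip (by decide +kernel) g_1_2_6_15_19_X21

lemma g_1_2_6_15_20_X24 : Good (27 / 10) [1, 2, 6, 15, 20] 24 :=
  Good.skip (by decide +kernel) g_1_2_6_15_20_X25

lemma g_1_2_6_15_20_X23 : Good (27 / 10) [1, 2, 6, 15, 20] 23 :=
  Good.skip (by decide +kernel) g_1_2_6_15_20_X24

lemma g_1_2_6_15_20_X22 : Good (27 / 10) [1, 2, 6, 15, 20] 22 :=
  Good.skip (by decide +kernel) g_1_2_6_15_20_X23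

lemma g_1_2_6_15_20_X21 : Good (27 / 10) [1, 2, 6, 15, 20] 21 :=
  Good.skip (by decide +kernel) g_1_2_6_15_20_X22

lemma g_1_2_6_15_X24 : Good (27 / 10) [1, 2, 6, 15] 24 :=
  Good.skip (by decide +kernel) g_1_2_6_15_X25

lemma g_1_2_6_15_X23 : Good (27 / 10) [1, 2, 6, 15] 23 :=
  Good.skip (by decide +kernel) g_1_2_6_15_X24

lemma g_1_2_6_15_X22 : Good (27 / 10) [1, 2, 6, 15] 22 :=
  Good.skip (by decide +kernel) g_1_2_6_15_X23

lemma g_1_2_6_15_X21 : Good (27 / 10) [1, 2, 6, 15] 21 :=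
  Good.skip (by decide +kernel) g_1_2_6_15_X22

lemma g_1_2_6_15_X20 : Good (27 / 10) [1, 2, 6, 15] 20 :=
  Good.branch g_1_2_6_15_20_X21 g_1_2_6_15_X21

lemma g_1_2_6_15_X19 : Good (27 / 10) [1, 2, 6, 15] 19 :=
  Good.branch g_1_2_6_15_19_X20 g_1_2_6_15_X20

lemma g_1_2_6_15_X18 : Good (27 / 10) [1, 2, 6, 15] 18 :=
  Good.skip (by decide +kernel) g_1_2_6_15_X19

lemma g_1_2_6_15_X17 : Good (27 / 10) [1, 2, 6, 15] 17 :=
  Good.skip (by decide +kernel) g_1_2_6_15_X18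

lemma g_1_2_6_15_X16 : Good (27 / 10) [1, 2, 6, 15] 16 :=
  Good.skip (by decide +kernel) g_1_2_6_15_X17

lemma g_1_2_6_16_20_X29 : Good (27 / 10) [1, 2, 6, 16, 20] 29 :=
  Good.skip (by decide +kernel) g_1_2_6_16_20_X30

lemma g_1_2_6_16_20_X28 : Good (27 / 10) [1, 2, 6, 16, 20] 28 :=
  Good.skip (by decide +kernel) g_1_2_6_16_20_X29

lemma g_1_2_6_16_20_X27 : Good (27 / 10) [1, 2, 6, 16, 20] 27 :=
  Good.skip (by decide +kernel) g_1_2_6_16_20_X28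

lemma g_1_2_6_16_20_X26 : Good (27 / 10) [1, 2, 6, 16, 20] 26 :=
  Good.skip (by decide +kernel) g_1_2_6_16_20_X27

lemma g_1_2_6_16_20_X25 : Good (27 / 10) [1, 2, 6, 16, 20] 25 :=
  Good.skip (by decide +kernel) g_1_2_6_16_20_X26

lemma g_1_2_6_16_20_X24 : Good (27 / 10) [1, 2, 6, 16, 20] 24 :=
  Good.skip (by decide +kernel) g_1_2_6_16_20_X25

lemma g_1_2_6_16_20_X23 : Good (27 / 10) [1, 2, 6, 16, 20] 23 :=
  Good.skip (by decide +kernel) g_1_2_6_16_20_X24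

lemma g_1_2_6_16_20_X22 : Good (27 / 10) [1, 2, 6, 16, 20] 22 :=
  Good.skip (by decide +kernel) g_1_2_6_16_20_X23

lemma g_1_2_6_16_20_X21 : Good (27 / 10) [1, 2, 6, 16, 20] 21 :=
  Good.skip (by decide +kernel) g_1_2_6_16_20_X22

lemma g_1_2_6_16_21_26_X30 : Good (27 / 10) [1, 2, 6, 16, 21, 26] 30 :=
  Good.skip (by decide +kernel) g_1_2_6_16_21_26_X31

lemma g_1_2_6_16_21_26_X29 : Good (27 / 10) [1, 2, 6, 16, 21, 26] 29 :=
  Good.skip (by decide +kernel) g_1_2_6_16_21_26_X30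

lemma g_1_2_6_16_21_26_X28 : Good (27 / 10) [1, 2, 6, 16, 21, 26] 28 :=
  Good.skip (by decide +kernel) g_1_2_6_16_21_26_X29

lemma g_1_2_6_16_21_26_X27 : Good (27 / 10) [1, 2, 6, 16, 21, 26] 27 :=
  Good.skip (by decide +kernel) g_1_2_6_16_21_26_X28

lemma g_1_2_6_16_21_X30 : Good (27 / 10) [1, 2, 6, 16, 21] 30 :=
  Good.skip (by decide +kernel) g_1_2_6_16_21_X31

lemma g_1_2_6_16_21_X29 : Good (27 / 10) [1, 2, 6, 16, 21] 29 :=
  Good.skip (by decide +kernel) g_1_2_6_16_21_X30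

lemma g_1_2_6_16_21_X28 : Good (27 / 10) [1, 2, 6, 16, 21] 28 :=
  Good.skip (by decide +kernel) g_1_2_6_16_21_X29

lemma g_1_2_6_16_21_X27 : Good (27 / 10) [1, 2, 6, 16, 21] 27 :=
  Good.skip (by decide +kernel) g_1_2_6_16_21_X28

lemma g_1_2_6_16_21_X26 : Good (27 / 10) [1, 2, 6, 16, 21] 26 :=
  Good.branch g_1_2_6_16_21_26_X27 g_1_2_6_16_21_X27

lemma g_1_2_6_16_21_X25 : Good (27 / 10) [1, 2, 6, 16, 21] 25 :=
  Good.skip (by decide +kernel) g_1_2_6_16_21_X26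

lemma g_1_2_6_16_21_X24 : Good (27 / 10) [1, 2, 6, 16, 21] 24 :=
  Good.skip (by decide +kernel) g_1_2_6_16_21_X25

lemma g_1_2_6_16_21_X23 : Good (27 / 10) [1, 2, 6, 16, 21] 23 :=
  Good.skip (by decide +kernel) g_1_2_6_16_21_X24

lemma g_1_2_6_16_21_X22 : Good (27 / 10) [1, 2, 6, 16, 21] 22 :=
  Good.skip (by decide +kernel) g_1_2_6_16_21_X23

lemma g_1_2_6_16_26_X29 : Good (27 / 10) [1, 2, 6, 16, 26] 29 :=
  Good.skip (by decide +kernel) g_1_2_6_16_26_X30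

lemma g_1_2_6_16_26_X28 : Good (27 / 10) [1, 2, 6, 16, 26] 28 :=
  Good.skip (by decide +kernel) g_1_2_6_16_26_X29

lemma g_1_2_6_16_26_X27 : Good (27 / 10) [1, 2, 6, 16, 26] 27 :=
  Good.skip (by decide +kernel) g_1_2_6_16_26_X28

lemma g_1_2_6_16_27_X30 : Good (27 / 10) [1, 2, 6, 16, 27] 30 :=
  Good.skip (by decide +kernel) g_1_2_6_16_27_X31

lemma g_1_2_6_16_27_X29 : Good (27 / 10) [1, 2, 6, 16, 27] 29 :=
  Good.skip (by decide +kernel) g_1_2_6_16_27_X30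

lemma g_1_2_6_16_27_X28 : Good (27 / 10) [1, 2, 6, 16, 27] 28 :=
  Good.skip (by decide +kernel) g_1_2_6_16_27_X29

lemma g_1_2_6_16_X27 : Good (27 / 10) [1, 2, 6, 16] 27 :=
  Good.branch g_1_2_6_16_27_X28 g_1_2_6_16_X28

lemma g_1_2_6_16_X26 : Good (27 / 10) [1, 2, 6, 16] 26 :=
  Good.branch g_1_2_6_16_26_X27 g_1_2_6_16_X27

lemma g_1_2_6_16_X25 : Good (27 / 10) [1, 2, 6, 16] 25 :=
  Good.skip (by decide +kernel) g_1_2_6_16_X26

lemma g_1_2_6_16_X24 : Good (27 / 10) [1, 2, 6, 16] 24 :=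
  Good.skip (by decide +kernel) g_1_2_6_16_X25

lemma g_1_2_6_16_X23 : Good (27 / 10) [1, 2, 6, 16] 23 :=
  Good.skip (by decide +kernel) g_1_2_6_16_X24

lemma g_1_2_6_16_X22 : Good (27 / 10) [1, 2, 6, 16] 22 :=
  Good.skip (by decide +kernel) g_1_2_6_16_X23

lemma g_1_2_6_16_X21 : Good (27 / 10) [1, 2, 6, 16] 21 :=
  Good.branch g_1_2_6_16_21_X22 g_1_2_6_16_X22

lemma g_1_2_6_16_X20 : Good (27 / 10) [1, 2, 6, 16] 20 :=
  Good.branch g_1_2_6_16_20_X21 g_1_2_6_16_X21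

lemma g_1_2_6_16_X19 : Good (27 / 10) [1, 2, 6, 16] 19 :=
  Good.skip (by decide +kernel) g_1_2_6_16_X20

lemma g_1_2_6_16_X18 : Good (27 / 10) [1, 2, 6, 16] 18 :=
  Good.skip (by decide +kernel) g_1_2_6_16_X19

lemma g_1_2_6_16_X17 : Good (27 / 10) [1, 2, 6, 16] 17 :=
  Good.skip (by decide +kernel) g_1_2_6_16_X18

lemma g_1_2_6_17_21_X30 : Good (27 / 10) [1, 2, 6, 17, 21] 30 :=
  Good.skip (by decide +kernel) g_1_2_6_17_21_X31

lemma g_1_2_6_17_21_X29 : Good (27 / 10) [1, 2, 6, 17, 21] 29 :=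
  Good.skip (by decide +kernel) g_1_2_6_17_21_X30

lemma g_1_2_6_17_21_X28 : Good (27 / 10) [1, 2, 6, 17, 21] 28 :=
  Good.skip (by decide +kernel) g_1_2_6_17_21_X29

lemma g_1_2_6_17_21_X27 : Good (27 / 10) [1, 2, 6, 17, 21] 27 :=
  Good.skip (by decide +kernel) g_1_2_6_17_21_X28

lemma g_1_2_6_17_21_X26 : Good (27 / 10) [1, 2, 6, 17, 21] 26 :=
  Good.skip (by decide +kernel) g_1_2_6_17_21_X27

lemma g_1_2_6_17_21_X25 : Good (27 / 10) [1, 2, 6, 17, 21] 25 :=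
  Good.skip (by decide +kernel) g_1_2_6_17_21_X26

lemma g_1_2_6_17_21_X24 : Good (27 / 10) [1, 2, 6, 17, 21] 24 :=
  Good.skip (by decide +kernel) g_1_2_6_17_21_X25

lemma g_1_2_6_17_21_X23 : Good (27 / 10) [1, 2, 6, 17, 21] 23 :=
  Good.skip (by decide +kernel) g_1_2_6_17_21_X24

lemma g_1_2_6_17_21_X22 : Good (27 / 10) [1, 2, 6, 17, 21] 22 :=
  Good.skip (by decide +kernel) g_1_2_6_17_21_X23

lemma g_1_2_6_17_22_X26 : Good (27 / 10) [1, 2, 6, 17, 22] 26 :=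
  Good.skip (by decide +kernel) g_1_2_6_17_22_X27

lemma g_1_2_6_17_22_X25 : Good (27 / 10) [1, 2, 6, 17, 22] 25 :=
  Good.skip (by decide +kernel) g_1_2_6_17_22_X26

lemma g_1_2_6_17_22_X24 : Good (27 / 10) [1, 2, 6, 17, 22] 24 :=
  Good.skip (by decide +kernel) g_1_2_6_17_22_X25

lemma g_1_2_6_17_22_X23 : Good (27 / 10) [1, 2, 6, 17, 22] 23 :=
  Good.skip (by decide +kernel) g_1_2_6_17_22_X24

lemma g_1_2_6_17_27_X30 : Good (27 / 10) [1, 2, 6, 17, 27] 30 :=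
  Good.skip (by decide +kernel) g_1_2_6_17_27_X31

lemma g_1_2_6_17_27_X29 : Good (27 / 10) [1, 2, 6, 17, 27] 29 :=
  Good.skip (by decide +kernel) g_1_2_6_17_27_X30

lemma g_1_2_6_17_27_X28 : Good (27 / 10) [1, 2, 6, 17, 27] 28 :=
  Good.skip (by decide +kernel) g_1_2_6_17_27_X29

lemma g_1_2_6_17_X27 : Good (27 / 10) [1, 2, 6, 17] 27 :=
  Good.branch g_1_2_6_17_27_X28 g_1_2_6_17_X28

lemma g_1_2_6_17_X26 : Good (27 / 10) [1, 2, 6, 17] 26 :=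
  Good.skip (by decide +kernel) g_1_2_6_17_X27

lemma g_1_2_6_17_X25 : Good (27 / 10) [1, 2, 6, 17] 25 :=
  Good.skip (by decide +kernel) g_1_2_6_17_X26

lemma g_1_2_6_17_X24 : Good (27 / 10) [1, 2, 6, 17] 24 :=
  Good.skip (by decide +kernel) g_1_2_6_17_X25

lemma g_1_2_6_17_X23 : Good (27 / 10) [1, 2, 6, 17] 23 :=
  Good.skip (by decide +kernel) g_1_2_6_17_X24

lemma g_1_2_6_17_X22 : Good (27 / 10) [1, 2, 6, 17] 22 :=
  Good.branch g_1_2_6_17_22_X23 g_1_2_6_17_X23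

lemma g_1_2_6_17_X21 : Good (27 / 10) [1, 2, 6, 17] 21 :=
  Good.branch g_1_2_6_17_21_X22 g_1_2_6_17_X22

lemma g_1_2_6_17_X20 : Good (27 / 10) [1, 2, 6, 17] 20 :=
  Good.skip (by decide +kernel) g_1_2_6_17_X21

lemma g_1_2_6_17_X19 : Good (27 / 10) [1, 2, 6, 17] 19 :=
  Good.skip (by decide +kernel) g_1_2_6_17_X20

lemma g_1_2_6_17_X18 : Good (27 / 10) [1, 2, 6, 17] 18 :=
  Good.skip (by decide +kernel) g_1_2_6_17_X19

lemma g_1_2_6_18_22_X31 : Good (27 / 10) [1, 2, 6, 18, 22] 31 :=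
  Good.skip (by decide +kernel) g_1_2_6_18_22_X32

lemma g_1_2_6_18_22_X30 : Good (27 / 10) [1, 2, 6, 18, 22] 30 :=
  Good.skip (by decide +kernel) g_1_2_6_18_22_X31

lemma g_1_2_6_18_22_X29 : Good (27 / 10) [1, 2, 6, 18, 22] 29 :=
  Good.skip (by decide +kernel) g_1_2_6_18_22_X30

lemma g_1_2_6_18_22_X28 : Good (27 / 10) [1, 2, 6, 18, 22] 28 :=
  Good.skip (by decide +kernel) g_1_2_6_18_22_X29

lemma g_1_2_6_18_22_X27 : Good (27 / 10) [1, 2, 6, 18, 22] 27 :=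
  Good.skip (by decide +kernel) g_1_2_6_18_22_X28

lemma g_1_2_6_18_22_X26 : Good (27 / 10) [1, 2, 6, 18, 22] 26 :=
  Good.skip (by decide +kernel) g_1_2_6_18_22_X27

lemma g_1_2_6_18_22_X25 : Good (27 / 10) [1, 2, 6, 18, 22] 25 :=
  Good.skip (by decide +kernel) g_1_2_6_18_22_X26

lemma g_1_2_6_18_22_X24 : Good (27 / 10) [1, 2, 6, 18, 22] 24 :=
  Good.skip (by decide +kernel) g_1_2_6_18_22_X25

lemma g_1_2_6_18_22_X23 : Good (27 / 10) [1, 2, 6, 18, 22] 23 :=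
  Good.skip (by decide +kernel) g_1_2_6_18_22_X24

lemma g_1_2_6_18_23_X27 : Good (27 / 10) [1, 2, 6, 18, 23] 27 :=
  Good.skip (by decide +kernel) g_1_2_6_18_23_X28

lemma g_1_2_6_18_23_X26 : Good (27 / 10) [1, 2, 6, 18, 23] 26 :=
  Good.skip (by decide +kernel) g_1_2_6_18_23_X27

lemma g_1_2_6_18_23_X25 : Good (27 / 10) [1, 2, 6, 18, 23] 25 :=
  Good.skip (by decide +kernel) g_1_2_6_18_23_X26

lemma g_1_2_6_18_23_X24 : Good (27 / 10) [1, 2, 6, 18, 23] 24 :=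
  Good.skip (by decide +kernel) g_1_2_6_18_23_X25

lemma g_1_2_6_18_X27 : Good (27 / 10) [1, 2, 6, 18] 27 :=
  Good.skip (by decide +kernel) g_1_2_6_18_X28

lemma g_1_2_6_18_X26 : Good (27 / 10) [1, 2, 6, 18] 26 :=
  Good.skip (by decide +kernel) g_1_2_6_18_X27

lemma g_1_2_6_18_X25 : Good (27 / 10) [1, 2, 6, 18] 25 :=
  Good.skip (by decide +kernel) g_1_2_6_18_X26

lemma g_1_2_6_18_X24 : Good (27 / 10) [1, 2, 6, 18] 24 :=
  Good.skip (by decide +kernel) g_1_2_6_18_X25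

lemma g_1_2_6_18_X23 : Good (27 / 10) [1, 2, 6, 18] 23 :=
  Good.branch g_1_2_6_18_23_X24 g_1_2_6_18_X24

lemma g_1_2_6_18_X22 : Good (27 / 10) [1, 2, 6, 18] 22 :=
  Good.branch g_1_2_6_18_22_X23 g_1_2_6_18_X23

lemma g_1_2_6_18_X21 : Good (27 / 10) [1, 2, 6, 18] 21 :=
  Good.skip (by decide +kernel) g_1_2_6_18_X22

lemma g_1_2_6_18_X20 : Good (27 / 10) [1, 2, 6, 18] 20 :=
  Good.skip (by decide +kernel) g_1_2_6_18_X21

lemma g_1_2_6_18_X19 : Good (27 / 10) [1, 2, 6, 18] 19 :=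
  Good.skip (by decide +kernel) g_1_2_6_18_X20

lemma g_1_2_6_19_23_X32 : Good (27 / 10) [1, 2, 6, 19, 23] 32 :=
  Good.skip (by decide +kernel) g_1_2_6_19_23_X33

lemma g_1_2_6_19_23_X31 : Good (27 / 10) [1, 2, 6, 19, 23] 31 :=
  Good.skip (by decide +kernel) g_1_2_6_19_23_X32

lemma g_1_2_6_19_23_X30 : Good (27 / 10) [1, 2, 6, 19, 23] 30 :=
  Good.skip (by decide +kernel) g_1_2_6_19_23_X31

lemma g_1_2_6_19_23_X29 : Good (27 / 10) [1, 2, 6, 19, 23] 29 :=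
  Good.skip (by decide +kernel) g_1_2_6_19_23_X30

lemma g_1_2_6_19_23_X28 : Good (27 / 10) [1, 2, 6, 19, 23] 28 :=
  Good.skip (by decide +kernel) g_1_2_6_19_23_X29

lemma g_1_2_6_19_23_X27 : Good (27 / 10) [1, 2, 6, 19, 23] 27 :=
  Good.skip (by decide +kernel) g_1_2_6_19_23_X28

lemma g_1_2_6_19_23_X26 : Good (27 / 10) [1, 2, 6, 19, 23] 26 :=
  Good.skip (by decide +kernel) g_1_2_6_19_23_X27

lemma g_1_2_6_19_23_X25 : Good (27 / 10) [1, 2, 6, 19, 23] 25 :=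
  Good.skip (by decide +kernel) g_1_2_6_19_23_X26

lemma g_1_2_6_19_23_X24 : Good (27 / 10) [1, 2, 6, 19, 23] 24 :=
  Good.skip (by decide +kernel) g_1_2_6_19_23_X25

lemma g_1_2_6_19_24_X28 : Good (27 / 10) [1, 2, 6, 19, 24] 28 :=
  Good.skip (by decide +kernel) g_1_2_6_19_24_X29

lemma g_1_2_6_19_24_X27 : Good (27 / 10) [1, 2, 6, 19, 24] 27 :=
  Good.skip (by decide +kernel) g_1_2_6_19_24_X28

lemma g_1_2_6_19_24_X26 : Good (27 / 10) [1, 2, 6, 19, 24] 26 :=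
  Good.skip (by decide +kernel) g_1_2_6_19_24_X27

lemma g_1_2_6_19_24_X25 : Good (27 / 10) [1, 2, 6, 19, 24] 25 :=
  Good.skip (by decide +kernel) g_1_2_6_19_24_X26

lemma g_1_2_6_19_X28 : Good (27 / 10) [1, 2, 6, 19] 28 :=
  Good.skip (by decide +kernel) g_1_2_6_19_X29

lemma g_1_2_6_19_X27 : Good (27 / 10) [1, 2, 6, 19] 27 :=
  Good.skip (by decide +kernel) g_1_2_6_19_X28

lemma g_1_2_6_19_X26 : Good (27 / 10) [1, 2, 6, 19] 26 :=
  Good.skip (by decide +kernel) g_1_2_6_19_X27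

lemma g_1_2_6_19_X25 : Good (27 / 10) [1, 2, 6, 19] 25 :=
  Good.skip (by decide +kernel) g_1_2_6_19_X26

lemma g_1_2_6_19_X24 : Good (27 / 10) [1, 2, 6, 19] 24 :=
  Good.branch g_1_2_6_19_24_X25 g_1_2_6_19_X25

lemma g_1_2_6_19_X23 : Good (27 / 10) [1, 2, 6, 19] 23 :=
  Good.branch g_1_2_6_19_23_X24 g_1_2_6_19_X24

lemma g_1_2_6_19_X22 : Good (27 / 10) [1, 2, 6, 19] 22 :=
  Good.skip (by decide +kernel) g_1_2_6_19_X23

lemma g_1_2_6_19_X21 : Good (27 / 10) [1, 2, 6, 19] 21 :=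
  Good.skip (by decide +kernel) g_1_2_6_19_X22

lemma g_1_2_6_19_X20 : Good (27 / 10) [1, 2, 6, 19] 20 :=
  Good.skip (by decide +kernel) g_1_2_6_19_X21

lemma g_1_2_6_20_24_X33 : Good (27 / 10) [1, 2, 6, 20, 24] 33 :=
  Good.skip (by decide +kernel) g_1_2_6_20_24_X34

lemma g_1_2_6_20_24_X32 : Good (27 / 10) [1, 2, 6, 20, 24] 32 :=
  Good.skip (by decide +kernel) g_1_2_6_20_24_X33

lemma g_1_2_6_20_24_X31 : Good (27 / 10) [1, 2, 6, 20, 24] 31 :=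
  Good.skip (by decide +kernel) g_1_2_6_20_24_X32

lemma g_1_2_6_20_24_X30 : Good (27 / 10) [1, 2, 6, 20, 24] 30 :=
  Good.skip (by decide +kernel) g_1_2_6_20_24_X31

lemma g_1_2_6_20_24_X29 : Good (27 / 10) [1, 2, 6, 20, 24] 29 :=
  Good.skip (by decide +kernel) g_1_2_6_20_24_X30

lemma g_1_2_6_20_24_X28 : Good (27 / 10) [1, 2, 6, 20, 24] 28 :=
  Good.skip (by decide +kernel) g_1_2_6_20_24_X29

lemma g_1_2_6_20_24_X27 : Good (27 / 10) [1, 2, 6, 20, 24] 27 :=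
  Good.skip (by decide +kernel) g_1_2_6_20_24_X28

lemma g_1_2_6_20_24_X26 : Good (27 / 10) [1, 2, 6, 20, 24] 26 :=
  Good.skip (by decide +kernel) g_1_2_6_20_24_X27

lemma g_1_2_6_20_24_X25 : Good (27 / 10) [1, 2, 6, 20, 24] 25 :=
  Good.skip (by decide +kernel) g_1_2_6_20_24_X26

lemma g_1_2_6_20_25_X29 : Good (27 / 10) [1, 2, 6, 20, 25] 29 :=
  Good.skip (by decide +kernel) g_1_2_6_20_25_X30

lemma g_1_2_6_20_25_X28 : Good (27 / 10) [1, 2, 6, 20, 25] 28 :=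
  Good.skip (by decide +kernel) g_1_2_6_20_25_X29

lemma g_1_2_6_20_25_X27 : Good (27 / 10) [1, 2, 6, 20, 25] 27 :=
  Good.skip (by decide +kernel) g_1_2_6_20_25_X28

lemma g_1_2_6_20_25_X26 : Good (27 / 10) [1, 2, 6, 20, 25] 26 :=
  Good.skip (by decide +kernel) g_1_2_6_20_25_X27

lemma g_1_2_6_20_X29 : Good (27 / 10) [1, 2, 6, 20] 29 :=
  Good.skip (by decide +kernel) g_1_2_6_20_X30

lemma g_1_2_6_20_X28 : Good (27 / 10) [1, 2, 6, 20] 28 :=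
  Good.skip (by decide +kernel) g_1_2_6_20_X29

lemma g_1_2_6_20_X27 : Good (27 / 10) [1, 2, 6, 20] 27 :=
  Good.skip (by decide +kernel) g_1_2_6_20_X28

lemma g_1_2_6_20_X26 : Good (27 / 10) [1, 2, 6, 20] 26 :=
  Good.skip (by decide +kernel) g_1_2_6_20_X27

lemma g_1_2_6_20_X25 : Good (27 / 10) [1, 2, 6, 20] 25 :=
  Good.branch g_1_2_6_20_25_X26 g_1_2_6_20_X26

lemma g_1_2_6_20_X24 : Good (27 / 10) [1, 2, 6, 20] 24 :=
  Good.branch g_1_2_6_20_24_X25 g_1_2_6_20_X25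

lemma g_1_2_6_20_X23 : Good (27 / 10) [1, 2, 6, 20] 23 :=
  Good.skip (by decide +kernel) g_1_2_6_20_X24

lemma g_1_2_6_20_X22 : Good (27 / 10) [1, 2, 6, 20] 22 :=
  Good.skip (by decide +kernel) g_1_2_6_20_X23

lemma g_1_2_6_20_X21 : Good (27 / 10) [1, 2, 6, 20] 21 :=
  Good.skip (by decide +kernel) g_1_2_6_20_X22

lemma g_1_2_6_21_25_X34 : Good (27 / 10) [1, 2, 6, 21, 25] 34 :=
  Good.skip (by decide +kernel) g_1_2_6_21_25_X35

lemma g_1_2_6_21_25_X33 : Good (27 / 10) [1, 2, 6, 21, 25] 33 :=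
  Good.skip (by decide +kernel) g_1_2_6_21_25_X34

lemma g_1_2_6_21_25_X32 : Good (27 / 10) [1, 2, 6, 21, 25] 32 :=
  Good.skip (by decide +kernel) g_1_2_6_21_25_X33

lemma g_1_2_6_21_25_X31 : Good (27 / 10) [1, 2, 6, 21, 25] 31 :=
  Good.skip (by decide +kernel) g_1_2_6_21_25_X32

lemma g_1_2_6_21_25_X30 : Good (27 / 10) [1, 2, 6, 21, 25] 30 :=
  Good.skip (by decide +kernel) g_1_2_6_21_25_X31

lemma g_1_2_6_21_25_X29 : Good (27 / 10) [1, 2, 6, 21, 25] 29 :=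
  Good.skip (by decide +kernel) g_1_2_6_21_25_X30

lemma g_1_2_6_21_25_X28 : Good (27 / 10) [1, 2, 6, 21, 25] 28 :=
  Good.skip (by decide +kernel) g_1_2_6_21_25_X29

lemma g_1_2_6_21_25_X27 : Good (27 / 10) [1, 2, 6, 21, 25] 27 :=
  Good.skip (by decide +kernel) g_1_2_6_21_25_X28

lemma g_1_2_6_21_25_X26 : Good (27 / 10) [1, 2, 6, 21, 25] 26 :=
  Good.skip (by decide +kernel) g_1_2_6_21_25_X27

lemma g_1_2_6_21_26_X30 : Good (27 / 10) [1, 2, 6, 21, 26] 30 :=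
  Good.skip (by decide +kernel) g_1_2_6_21_26_X31

lemma g_1_2_6_21_26_X29 : Good (27 / 10) [1, 2, 6, 21, 26] 29 :=
  Good.skip (by decide +kernel) g_1_2_6_21_26_X30

lemma g_1_2_6_21_26_X28 : Good (27 / 10) [1, 2, 6, 21, 26] 28 :=
  Good.skip (by decide +kernel) g_1_2_6_21_26_X29

lemma g_1_2_6_21_26_X27 : Good (27 / 10) [1, 2, 6, 21, 26] 27 :=
  Good.skip (by decide +kernel) g_1_2_6_21_26_X28

lemma g_1_2_6_21_X30 : Good (27 / 10) [1, 2, 6, 21] 30 :=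
  Good.skip (by decide +kernel) g_1_2_6_21_X31

lemma g_1_2_6_21_X29 : Good (27 / 10) [1, 2, 6, 21] 29 :=
  Good.skip (by decide +kernel) g_1_2_6_21_X30

lemma g_1_2_6_21_X28 : Good (27 / 10) [1, 2, 6, 21] 28 :=
  Good.skip (by decide +kernel) g_1_2_6_21_X29

lemma g_1_2_6_21_X27 : Good (27 / 10) [1, 2, 6, 21] 27 :=
  Good.skip (by decide +kernel) g_1_2_6_21_X28

lemma g_1_2_6_21_X26 : Good (27 / 10) [1, 2, 6, 21] 26 :=
  Good.branch g_1_2_6_21_26_X27 g_1_2_6_21_X27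

lemma g_1_2_6_21_X25 : Good (27 / 10) [1, 2, 6, 21] 25 :=
  Good.branch g_1_2_6_21_25_X26 g_1_2_6_21_X26

lemma g_1_2_6_21_X24 : Good (27 / 10) [1, 2, 6, 21] 24 :=
  Good.skip (by decide +kernel) g_1_2_6_21_X25

lemma g_1_2_6_21_X23 : Good (27 / 10) [1, 2, 6, 21] 23 :=
  Good.skip (by decide +kernel) g_1_2_6_21_X24

lemma g_1_2_6_21_X22 : Good (27 / 10) [1, 2, 6, 21] 22 :=
  Good.skip (by decide +kernel) g_1_2_6_21_X23

lemma g_1_2_6_22_26_X35 : Good (27 / 10) [1, 2, 6, 22, 26] 35 :=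
  Good.skip (by decide +kernel) g_1_2_6_22_26_X36

lemma g_1_2_6_22_26_X34 : Good (27 / 10) [1, 2, 6, 22, 26] 34 :=
  Good.skip (by decide +kernel) g_1_2_6_22_26_X35

lemma g_1_2_6_22_26_X33 : Good (27 / 10) [1, 2, 6, 22, 26] 33 :=
  Good.skip (by decide +kernel) g_1_2_6_22_26_X34

lemma g_1_2_6_22_26_X32 : Good (27 / 10) [1, 2, 6, 22, 26] 32 :=
  Good.skip (by decide +kernel) g_1_2_6_22_26_X33

lemma g_1_2_6_22_26_X31 : Good (27 / 10) [1, 2, 6, 22, 26] 31 :=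
  Good.skip (by decide +kernel) g_1_2_6_22_26_X32

lemma g_1_2_6_22_26_X30 : Good (27 / 10) [1, 2, 6, 22, 26] 30 :=
  Good.skip (by decide +kernel) g_1_2_6_22_26_X31

lemma g_1_2_6_22_26_X29 : Good (27 / 10) [1, 2, 6, 22, 26] 29 :=
  Good.skip (by decide +kernel) g_1_2_6_22_26_X30

lemma g_1_2_6_22_26_X28 : Good (27 / 10) [1, 2, 6, 22, 26] 28 :=
  Good.skip (by decide +kernel) g_1_2_6_22_26_X29

lemma g_1_2_6_22_26_X27 : Good (27 / 10) [1, 2, 6, 22, 26] 27 :=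
  Good.skip (by decide +kernel) g_1_2_6_22_26_X28

lemma g_1_2_6_22_27_X31 : Good (27 / 10) [1, 2, 6, 22, 27] 31 :=
  Good.skip (by decide +kernel) g_1_2_6_22_27_X32

lemma g_1_2_6_22_27_X30 : Good (27 / 10) [1, 2, 6, 22, 27] 30 :=
  Good.skip (by decide +kernel) g_1_2_6_22_27_X31

lemma g_1_2_6_22_27_X29 : Good (27 / 10) [1, 2, 6, 22, 27] 29 :=
  Good.skip (by decide +kernel) g_1_2_6_22_27_X30

lemma g_1_2_6_22_27_X28 : Good (27 / 10) [1, 2, 6, 22, 27] 28 :=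
  Good.skip (by decide +kernel) g_1_2_6_22_27_X29

lemma g_1_2_6_22_X31 : Good (27 / 10) [1, 2, 6, 22] 31 :=
  Good.skip (by decide +kernel) g_1_2_6_22_X32

lemma g_1_2_6_22_X30 : Good (27 / 10) [1, 2, 6, 22] 30 :=
  Good.skip (by decide +kernel) g_1_2_6_22_X31

lemma g_1_2_6_22_X29 : Good (27 / 10) [1, 2, 6, 22] 29 :=
  Good.skip (by decide +kernel) g_1_2_6_22_X30

lemma g_1_2_6_22_X28 : Good (27 / 10) [1, 2, 6, 22] 28 :=
  Good.skip (by decide +kernel) g_1_2_6_22_X29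

lemma g_1_2_6_22_X27 : Good (27 / 10) [1, 2, 6, 22] 27 :=
  Good.branch g_1_2_6_22_27_X28 g_1_2_6_22_X28

lemma g_1_2_6_22_X26 : Good (27 / 10) [1, 2, 6, 22] 26 :=
  Good.branch g_1_2_6_22_26_X27 g_1_2_6_22_X27

lemma g_1_2_6_22_X25 : Good (27 / 10) [1, 2, 6, 22] 25 :=
  Good.skip (by decide +kernel) g_1_2_6_22_X26

lemma g_1_2_6_22_X24 : Good (27 / 10) [1, 2, 6, 22] 24 :=
  Good.skip (by decide +kernel) g_1_2_6_22_X25

lemma g_1_2_6_22_X23 : Good (27 / 10) [1, 2, 6, 22] 23 :=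
  Good.skip (by decide +kernel) g_1_2_6_22_X24

lemma g_1_2_6_23_27_X36 : Good (27 / 10) [1, 2, 6, 23, 27] 36 :=
  Good.skip (by decide +kernel) g_1_2_6_23_27_X37

lemma g_1_2_6_23_27_X35 : Good (27 / 10) [1, 2, 6, 23, 27] 35 :=
  Good.skip (by decide +kernel) g_1_2_6_23_27_X36

lemma g_1_2_6_23_27_X34 : Good (27 / 10) [1, 2, 6, 23, 27] 34 :=
  Good.skip (by decide +kernel) g_1_2_6_23_27_X35

lemma g_1_2_6_23_27_X33 : Good (27 / 10) [1, 2, 6, 23, 27] 33 :=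
  Good.skip (by decide +kernel) g_1_2_6_23_27_X34

lemma g_1_2_6_23_27_X32 : Good (27 / 10) [1, 2, 6, 23, 27] 32 :=
  Good.skip (by decide +kernel) g_1_2_6_23_27_X33

lemma g_1_2_6_23_27_X31 : Good (27 / 10) [1, 2, 6, 23, 27] 31 :=
  Good.skip (by decide +kernel) g_1_2_6_23_27_X32

lemma g_1_2_6_23_27_X30 : Good (27 / 10) [1, 2, 6, 23, 27] 30 :=
  Good.skip (by decide +kernel) g_1_2_6_23_27_X31

lemma g_1_2_6_23_27_X29 : Good (27 / 10) [1, 2, 6, 23, 27] 29 :=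
  Good.skip (by decide +kernel) g_1_2_6_23_27_X30

lemma g_1_2_6_23_27_X28 : Good (27 / 10) [1, 2, 6, 23, 27] 28 :=
  Good.skip (by decide +kernel) g_1_2_6_23_27_X29

lemma g_1_2_6_23_28_X32 : Good (27 / 10) [1, 2, 6, 23, 28] 32 :=
  Good.skip (by decide +kernel) g_1_2_6_23_28_X33

lemma g_1_2_6_23_28_X31 : Good (27 / 10) [1, 2, 6, 23, 28] 31 :=
  Good.skip (by decide +kernel) g_1_2_6_23_28_X32

lemma g_1_2_6_23_28_X30 : Good (27 / 10) [1, 2, 6, 23, 28] 30 :=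
  Good.skip (by decide +kernel) g_1_2_6_23_28_X31

lemma g_1_2_6_23_28_X29 : Good (27 / 10) [1, 2, 6, 23, 28] 29 :=
  Good.skip (by decide +kernel) g_1_2_6_23_28_X30

lemma g_1_2_6_23_X32 : Good (27 / 10) [1, 2, 6, 23] 32 :=
  Good.skip (by decide +kernel) g_1_2_6_23_X33

lemma g_1_2_6_23_X31 : Good (27 / 10) [1, 2, 6, 23] 31 :=
  Good.skip (by decide +kernel) g_1_2_6_23_X32

lemma g_1_2_6_23_X30 : Good (27 / 10) [1, 2, 6, 23] 30 :=
  Good.skip (by decide +kernel) g_1_2_6_23_X31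

lemma g_1_2_6_23_X29 : Good (27 / 10) [1, 2, 6, 23] 29 :=
  Good.skip (by decide +kernel) g_1_2_6_23_X30

lemma g_1_2_6_23_X28 : Good (27 / 10) [1, 2, 6, 23] 28 :=
  Good.branch g_1_2_6_23_28_X29 g_1_2_6_23_X29

lemma g_1_2_6_23_X27 : Good (27 / 10) [1, 2, 6, 23] 27 :=
  Good.branch g_1_2_6_23_27_X28 g_1_2_6_23_X28

lemma g_1_2_6_23_X26 : Good (27 / 10) [1, 2, 6, 23] 26 :=
  Good.skip (by decide +kernel) g_1_2_6_23_X27

lemma g_1_2_6_23_X25 : Good (27 / 10) [1, 2, 6, 23] 25 :=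
  Good.skip (by decide +kernel) g_1_2_6_23_X26

lemma g_1_2_6_23_X24 : Good (27 / 10) [1, 2, 6, 23] 24 :=
  Good.skip (by decide +kernel) g_1_2_6_23_X25

lemma g_1_2_6_24_28_X37 : Good (27 / 10) [1, 2, 6, 24, 28] 37 :=
  Good.skip (by decide +kernel) g_1_2_6_24_28_X38

lemma g_1_2_6_24_28_X36 : Good (27 / 10) [1, 2, 6, 24, 28] 36 :=
  Good.skip (by decide +kernel) g_1_2_6_24_28_X37

lemma g_1_2_6_24_28_X35 : Good (27 / 10) [1, 2, 6, 24, 28] 35 :=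
  Good.skip (by decide +kernel) g_1_2_6_24_28_X36

lemma g_1_2_6_24_28_X34 : Good (27 / 10) [1, 2, 6, 24, 28] 34 :=
  Good.skip (by decide +kernel) g_1_2_6_24_28_X35

lemma g_1_2_6_24_28_X33 : Good (27 / 10) [1, 2, 6, 24, 28] 33 :=
  Good.skip (by decide +kernel) g_1_2_6_24_28_X34

lemma g_1_2_6_24_28_X32 : Good (27 / 10) [1, 2, 6, 24, 28] 32 :=
  Good.skip (by decide +kernel) g_1_2_6_24_28_X33

lemma g_1_2_6_24_28_X31 : Good (27 / 10) [1, 2, 6, 24, 28] 31 :=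
  Good.skip (by decide +kernel) g_1_2_6_24_28_X32

lemma g_1_2_6_24_28_X30 : Good (27 / 10) [1, 2, 6, 24, 28] 30 :=
  Good.skip (by decide +kernel) g_1_2_6_24_28_X31

lemma g_1_2_6_24_28_X29 : Good (27 / 10) [1, 2, 6, 24, 28] 29 :=
  Good.skip (by decide +kernel) g_1_2_6_24_28_X30

lemma g_1_2_6_24_29_X33 : Good (27 / 10) [1, 2, 6, 24, 29] 33 :=
  Good.skip (by decide +kernel) g_1_2_6_24_29_X34

lemma g_1_2_6_24_29_X32 : Good (27 / 10) [1, 2, 6, 24, 29] 32 :=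
  Good.skip (by decide +kernel) g_1_2_6_24_29_X33

lemma g_1_2_6_24_29_X31 : Good (27 / 10) [1, 2, 6, 24, 29] 31 :=
  Good.skip (by decide +kernel) g_1_2_6_24_29_X32

lemma g_1_2_6_24_29_X30 : Good (27 / 10) [1, 2, 6, 24, 29] 30 :=
  Good.skip (by decide +kernel) g_1_2_6_24_29_X31

lemma g_1_2_6_24_X33 : Good (27 / 10) [1, 2, 6, 24] 33 :=
  Good.skip (by decide +kernel) g_1_2_6_24_X34

lemma g_1_2_6_24_X32 : Good (27 / 10) [1, 2, 6, 24] 32 :=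
  Good.skip (by decide +kernel) g_1_2_6_24_X33

lemma g_1_2_6_24_X31 : Good (27 / 10) [1, 2, 6, 24] 31 :=
  Good.skip (by decide +kernel) g_1_2_6_24_X32

lemma g_1_2_6_24_X30 : Good (27 / 10) [1, 2, 6, 24] 30 :=
  Good.skip (by decide +kernel) g_1_2_6_24_X31

lemma g_1_2_6_24_X29 : Good (27 / 10) [1, 2, 6, 24] 29 :=
  Good.branch g_1_2_6_24_29_X30 g_1_2_6_24_X30

lemma g_1_2_6_24_X28 : Good (27 / 10) [1, 2, 6, 24] 28 :=
  Good.branch g_1_2_6_24_28_X29 g_1_2_6_24_X29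

lemma g_1_2_6_24_X27 : Good (27 / 10) [1, 2, 6, 24] 27 :=
  Good.skip (by decide +kernel) g_1_2_6_24_X28

lemma g_1_2_6_24_X26 : Good (27 / 10) [1, 2, 6, 24] 26 :=
  Good.skip (by decide +kernel) g_1_2_6_24_X27

lemma g_1_2_6_24_X25 : Good (27 / 10) [1, 2, 6, 24] 25 :=
  Good.skip (by decide +kernel) g_1_2_6_24_X26

lemma g_1_2_6_25_29_X38 : Good (27 / 10) [1, 2, 6, 25, 29] 38 :=
  Good.skip (by decide +kernel) g_1_2_6_25_29_X39

lemma g_1_2_6_25_29_X37 : Good (27 / 10) [1, 2, 6, 25, 29] 37 :=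
  Good.skip (by decide +kernel) g_1_2_6_25_29_X38

lemma g_1_2_6_25_29_X36 : Good (27 / 10) [1, 2, 6, 25, 29] 36 :=
  Good.skip (by decide +kernel) g_1_2_6_25_29_X37

lemma g_1_2_6_25_29_X35 : Good (27 / 10) [1, 2, 6, 25, 29] 35 :=
  Good.skip (by decide +kernel) g_1_2_6_25_29_X36

lemma g_1_2_6_25_29_X34 : Good (27 / 10) [1, 2, 6, 25, 29] 34 :=
  Good.skip (by decide +kernel) g_1_2_6_25_29_X35

lemma g_1_2_6_25_29_X33 : Good (27 / 10) [1, 2, 6, 25, 29] 33 :=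
  Good.skip (by decide +kernel) g_1_2_6_25_29_X34

lemma g_1_2_6_25_29_X32 : Good (27 / 10) [1, 2, 6, 25, 29] 32 :=
  Good.skip (by decide +kernel) g_1_2_6_25_29_X33

lemma g_1_2_6_25_29_X31 : Good (27 / 10) [1, 2, 6, 25, 29] 31 :=
  Good.skip (by decide +kernel) g_1_2_6_25_29_X32

lemma g_1_2_6_25_29_X30 : Good (27 / 10) [1, 2, 6, 25, 29] 30 :=
  Good.skip (by decide +kernel) g_1_2_6_25_29_X31

lemma g_1_2_6_25_30_X34 : Good (27 / 10) [1, 2, 6, 25, 30] 34 :=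
  Good.skip (by decide +kernel) g_1_2_6_25_30_X35

lemma g_1_2_6_25_30_X33 : Good (27 / 10) [1, 2, 6, 25, 30] 33 :=
  Good.skip (by decide +kernel) g_1_2_6_25_30_X34

lemma g_1_2_6_25_30_X32 : Good (27 / 10) [1, 2, 6, 25, 30] 32 :=
  Good.skip (by decide +kernel) g_1_2_6_25_30_X33

lemma g_1_2_6_25_30_X31 : Good (27 / 10) [1, 2, 6, 25, 30] 31 :=
  Good.skip (by decide +kernel) g_1_2_6_25_30_X32

lemma g_1_2_6_25_X34 : Good (27 / 10) [1, 2, 6, 25] 34 :=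
  Good.skip (by decide +kernel) g_1_2_6_25_X35

lemma g_1_2_6_25_X33 : Good (27 / 10) [1, 2, 6, 25] 33 :=
  Good.skip (by decide +kernel) g_1_2_6_25_X34

lemma g_1_2_6_25_X32 : Good (27 / 10) [1, 2, 6, 25] 32 :=
  Good.skip (by decide +kernel) g_1_2_6_25_X33

lemma g_1_2_6_25_X31 : Good (27 / 10) [1, 2, 6, 25] 31 :=
  Good.skip (by decide +kernel) g_1_2_6_25_X32

lemma g_1_2_6_25_X30 : Good (27 / 10) [1, 2, 6, 25] 30 :=
  Good.branch g_1_2_6_25_30_X31 g_1_2_6_25_X31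

lemma g_1_2_6_25_X29 : Good (27 / 10) [1, 2, 6, 25] 29 :=
  Good.branch g_1_2_6_25_29_X30 g_1_2_6_25_X30

lemma g_1_2_6_25_X28 : Good (27 / 10) [1, 2, 6, 25] 28 :=
  Good.skip (by decide +kernel) g_1_2_6_25_X29

lemma g_1_2_6_25_X27 : Good (27 / 10) [1, 2, 6, 25] 27 :=
  Good.skip (by decide +kernel) g_1_2_6_25_X28

lemma g_1_2_6_25_X26 : Good (27 / 10) [1, 2, 6, 25] 26 :=
  Good.skip (by decide +kernel) g_1_2_6_25_X27

lemma g_1_2_6_26_30_X39 : Good (27 / 10) [1, 2, 6, 26, 30] 39 :=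
  Good.skip (by decide +kernel) g_1_2_6_26_30_X40

lemma g_1_2_6_26_30_X38 : Good (27 / 10) [1, 2, 6, 26, 30] 38 :=
  Good.skip (by decide +kernel) g_1_2_6_26_30_X39

lemma g_1_2_6_26_30_X37 : Good (27 / 10) [1, 2, 6, 26, 30] 37 :=
  Good.skip (by decide +kernel) g_1_2_6_26_30_X38

lemma g_1_2_6_26_30_X36 : Good (27 / 10) [1, 2, 6, 26, 30] 36 :=
  Good.skip (by decide +kernel) g_1_2_6_26_30_X37

lemma g_1_2_6_26_30_X35 : Good (27 / 10) [1, 2, 6, 26, 30] 35 :=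
  Good.skip (by decide +kernel) g_1_2_6_26_30_X36

lemma g_1_2_6_26_30_X34 : Good (27 / 10) [1, 2, 6, 26, 30] 34 :=
  Good.skip (by decide +kernel) g_1_2_6_26_30_X35

lemma g_1_2_6_26_30_X33 : Good (27 / 10) [1, 2, 6, 26, 30] 33 :=
  Good.skip (by decide +kernel) g_1_2_6_26_30_X34

lemma g_1_2_6_26_30_X32 : Good (27 / 10) [1, 2, 6, 26, 30] 32 :=
  Good.skip (by decide +kernel) g_1_2_6_26_30_X33

lemma g_1_2_6_26_30_X31 : Good (27 / 10) [1, 2, 6, 26, 30] 31 :=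
  Good.skip (by decide +kernel) g_1_2_6_26_30_X32

lemma g_1_2_6_26_31_X35 : Good (27 / 10) [1, 2, 6, 26, 31] 35 :=
  Good.skip (by decide +kernel) g_1_2_6_26_31_X36

lemma g_1_2_6_26_31_X34 : Good (27 / 10) [1, 2, 6, 26, 31] 34 :=
  Good.skip (by decide +kernel) g_1_2_6_26_31_X35

lemma g_1_2_6_26_31_X33 : Good (27 / 10) [1, 2, 6, 26, 31] 33 :=
  Good.skip (by decide +kernel) g_1_2_6_26_31_X34

lemma g_1_2_6_26_31_X32 : Good (27 / 10) [1, 2, 6, 26, 31] 32 :=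
  Good.skip (by decide +kernel) g_1_2_6_26_31_X33

lemma g_1_2_6_26_X35 : Good (27 / 10) [1, 2, 6, 26] 35 :=
  Good.skip (by decide +kernel) g_1_2_6_26_X36

lemma g_1_2_6_26_X34 : Good (27 / 10) [1, 2, 6, 26] 34 :=
  Good.skip (by decide +kernel) g_1_2_6_26_X35

lemma g_1_2_6_26_X33 : Good (27 / 10) [1, 2, 6, 26] 33 :=
  Good.skip (by decide +kernel) g_1_2_6_26_X34

lemma g_1_2_6_26_X32 : Good (27 / 10) [1, 2, 6, 26] 32 :=
  Good.skip (by decide +kernel) g_1_2_6_26_X33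

lemma g_1_2_6_26_X31 : Good (27 / 10) [1, 2, 6, 26] 31 :=
  Good.branch g_1_2_6_26_31_X32 g_1_2_6_26_X32

lemma g_1_2_6_26_X30 : Good (27 / 10) [1, 2, 6, 26] 30 :=
  Good.branch g_1_2_6_26_30_X31 g_1_2_6_26_X31

lemma g_1_2_6_26_X29 : Good (27 / 10) [1, 2, 6, 26] 29 :=
  Good.skip (by decide +kernel) g_1_2_6_26_X30

lemma g_1_2_6_26_X28 : Good (27 / 10) [1, 2, 6, 26] 28 :=
  Good.skip (by decide +kernel) g_1_2_6_26_X29

lemma g_1_2_6_26_X27 : Good (27 / 10) [1, 2, 6, 26] 27 :=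
  Good.skip (by decide +kernel) g_1_2_6_26_X28

lemma g_1_2_6_27_31_X40 : Good (27 / 10) [1, 2, 6, 27, 31] 40 :=
  Good.skip (by decide +kernel) g_1_2_6_27_31_X41

lemma g_1_2_6_27_31_X39 : Good (27 / 10) [1, 2, 6, 27, 31] 39 :=
  Good.skip (by decide +kernel) g_1_2_6_27_31_X40

lemma g_1_2_6_27_31_X38 : Good (27 / 10) [1, 2, 6, 27, 31] 38 :=
  Good.skip (by decide +kernel) g_1_2_6_27_31_X39

lemma g_1_2_6_27_31_X37 : Good (27 / 10) [1, 2, 6, 27, 31] 37 :=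
  Good.skip (by decide +kernel) g_1_2_6_27_31_X38

lemma g_1_2_6_27_31_X36 : Good (27 / 10) [1, 2, 6, 27, 31] 36 :=
  Good.skip (by decide +kernel) g_1_2_6_27_31_X37

lemma g_1_2_6_27_31_X35 : Good (27 / 10) [1, 2, 6, 27, 31] 35 :=
  Good.skip (by decide +kernel) g_1_2_6_27_31_X36

lemma g_1_2_6_27_31_X34 : Good (27 / 10) [1, 2, 6, 27, 31] 34 :=
  Good.skip (by decide +kernel) g_1_2_6_27_31_X35

lemma g_1_2_6_27_31_X33 : Good (27 / 10) [1, 2, 6, 27, 31] 33 :=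
  Good.skip (by decide +kernel) g_1_2_6_27_31_X34

lemma g_1_2_6_27_31_X32 : Good (27 / 10) [1, 2, 6, 27, 31] 32 :=
  Good.skip (by decide +kernel) g_1_2_6_27_31_X33

lemma g_1_2_6_27_32_X36 : Good (27 / 10) [1, 2, 6, 27, 32] 36 :=
  Good.skip (by decide +kernel) g_1_2_6_27_32_X37

lemma g_1_2_6_27_32_X35 : Good (27 / 10) [1, 2, 6, 27, 32] 35 :=
  Good.skip (by decide +kernel) g_1_2_6_27_32_X36

lemma g_1_2_6_27_32_X34 : Good (27 / 10) [1, 2, 6, 27, 32] 34 :=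
  Good.skip (by decide +kernel) g_1_2_6_27_32_X35

lemma g_1_2_6_27_32_X33 : Good (27 / 10) [1, 2, 6, 27, 32] 33 :=
  Good.skip (by decide +kernel) g_1_2_6_27_32_X34

lemma g_1_2_6_27_X36 : Good (27 / 10) [1, 2, 6, 27] 36 :=
  Good.skip (by decide +kernel) g_1_2_6_27_X37

lemma g_1_2_6_27_X35 : Good (27 / 10) [1, 2, 6, 27] 35 :=
  Good.skip (by decide +kernel) g_1_2_6_27_X36

lemma g_1_2_6_27_X34 : Good (27 / 10) [1, 2, 6, 27] 34 :=
  Good.skip (by decide +kernel) g_1_2_6_27_X35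

lemma g_1_2_6_27_X33 : Good (27 / 10) [1, 2, 6, 27] 33 :=
  Good.skip (by decide +kernel) g_1_2_6_27_X34

lemma g_1_2_6_27_X32 : Good (27 / 10) [1, 2, 6, 27] 32 :=
  Good.branch g_1_2_6_27_32_X33 g_1_2_6_27_X33

lemma g_1_2_6_27_X31 : Good (27 / 10) [1, 2, 6, 27] 31 :=
  Good.branch g_1_2_6_27_31_X32 g_1_2_6_27_X32

lemma g_1_2_6_27_X30 : Good (27 / 10) [1, 2, 6, 27] 30 :=
  Good.skip (by decide +kernel) g_1_2_6_27_X31

lemma g_1_2_6_27_X29 : Good (27 / 10) [1, 2, 6, 27] 29 :=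
  Good.skip (by decide +kernel) g_1_2_6_27_X30

lemma g_1_2_6_27_X28 : Good (27 / 10) [1, 2, 6, 27] 28 :=
  Good.skip (by decide +kernel) g_1_2_6_27_X29

lemma g_1_2_6_28_32_X41 : Good (27 / 10) [1, 2, 6, 28, 32] 41 :=
  Good.skip (by decide +kernel) g_1_2_6_28_32_X42

lemma g_1_2_6_28_32_X40 : Good (27 / 10) [1, 2, 6, 28, 32] 40 :=
  Good.skip (by decide +kernel) g_1_2_6_28_32_X41

lemma g_1_2_6_28_32_X39 : Good (27 / 10) [1, 2, 6, 28, 32] 39 :=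
  Good.skip (by decide +kernel) g_1_2_6_28_32_X40

lemma g_1_2_6_28_32_X38 : Good (27 / 10) [1, 2, 6, 28, 32] 38 :=
  Good.skip (by decide +kernel) g_1_2_6_28_32_X39

lemma g_1_2_6_28_32_X37 : Good (27 / 10) [1, 2, 6, 28, 32] 37 :=
  Good.skip (by decide +kernel) g_1_2_6_28_32_X38

lemma g_1_2_6_28_32_X36 : Good (27 / 10) [1, 2, 6, 28, 32] 36 :=
  Good.skip (by decide +kernel) g_1_2_6_28_32_X37

lemma g_1_2_6_28_32_X35 : Good (27 / 10) [1, 2, 6, 28, 32] 35 :=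
  Good.skip (by decide +kernel) g_1_2_6_28_32_X36

lemma g_1_2_6_28_32_X34 : Good (27 / 10) [1, 2, 6, 28, 32] 34 :=
  Good.skip (by decide +kernel) g_1_2_6_28_32_X35

lemma g_1_2_6_28_32_X33 : Good (27 / 10) [1, 2, 6, 28, 32] 33 :=
  Good.skip (by decide +kernel) g_1_2_6_28_32_X34

lemma g_1_2_6_28_X32 : Good (27 / 10) [1, 2, 6, 28] 32 :=
  Good.branch g_1_2_6_28_32_X33 g_1_2_6_28_X33

lemma g_1_2_6_28_X31 : Good (27 / 10) [1, 2, 6, 28] 31 :=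
  Good.skip (by decide +kernel) g_1_2_6_28_X32

lemma g_1_2_6_28_X30 : Good (27 / 10) [1, 2, 6, 28] 30 :=
  Good.skip (by decide +kernel) g_1_2_6_28_X31

lemma g_1_2_6_28_X29 : Good (27 / 10) [1, 2, 6, 28] 29 :=
  Good.skip (by decide +kernel) g_1_2_6_28_X30

lemma g_1_2_6_29_33_X42 : Good (27 / 10) [1, 2, 6, 29, 33] 42 :=
  Good.skip (by decide +kernel) g_1_2_6_29_33_X43

lemma g_1_2_6_29_33_X41 : Good (27 / 10) [1, 2, 6, 29, 33] 41 :=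
  Good.skip (by decide +kernel) g_1_2_6_29_33_X42

lemma g_1_2_6_29_33_X40 : Good (27 / 10) [1, 2, 6, 29, 33] 40 :=
  Good.skip (by decide +kernel) g_1_2_6_29_33_X41

lemma g_1_2_6_29_33_X39 : Good (27 / 10) [1, 2, 6, 29, 33] 39 :=
  Good.skip (by decide +kernel) g_1_2_6_29_33_X40

lemma g_1_2_6_29_33_X38 : Good (27 / 10) [1, 2, 6, 29, 33] 38 :=
  Good.skip (by decide +kernel) g_1_2_6_29_33_X39

lemma g_1_2_6_29_33_X37 : Good (27 / 10) [1, 2, 6, 29, 33] 37 :=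
  Good.skip (by decide +kernel) g_1_2_6_29_33_X38

lemma g_1_2_6_29_33_X36 : Good (27 / 10) [1, 2, 6, 29, 33] 36 :=
  Good.skip (by decide +kernel) g_1_2_6_29_33_X37

lemma g_1_2_6_29_33_X35 : Good (27 / 10) [1, 2, 6, 29, 33] 35 :=
  Good.skip (by decide +kernel) g_1_2_6_29_33_X36

lemma g_1_2_6_29_33_X34 : Good (27 / 10) [1, 2, 6, 29, 33] 34 :=
  Good.skip (by decide +kernel) g_1_2_6_29_33_X35

lemma g_1_2_6_29_X33 : Good (27 / 10) [1, 2, 6, 29] 33 :=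
  Good.branch g_1_2_6_29_33_X34 g_1_2_6_29_X34

lemma g_1_2_6_29_X32 : Good (27 / 10) [1, 2, 6, 29] 32 :=
  Good.skip (by decide +kernel) g_1_2_6_29_X33

lemma g_1_2_6_29_X31 : Good (27 / 10) [1, 2, 6, 29] 31 :=
  Good.skip (by decide +kernel) g_1_2_6_29_X32

lemma g_1_2_6_29_X30 : Good (27 / 10) [1, 2, 6, 29] 30 :=
  Good.skip (by decide +kernel) g_1_2_6_29_X31

lemma g_1_2_6_30_X33 : Good (27 / 10) [1, 2, 6, 30] 33 :=
  Good.skip (by decide +kernel) g_1_2_6_30_X34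

lemma g_1_2_6_30_X32 : Good (27 / 10) [1, 2, 6, 30] 32 :=
  Good.skip (by decide +kernel) g_1_2_6_30_X33

lemma g_1_2_6_30_X31 : Good (27 / 10) [1, 2, 6, 30] 31 :=
  Good.skip (by decide +kernel) g_1_2_6_30_X32

lemma g_1_2_6_X30 : Good (27 / 10) [1, 2, 6] 30 :=
  Good.branch g_1_2_6_30_X31 g_1_2_6_X31

lemma g_1_2_6_X29 : Good (27 / 10) [1, 2, 6] 29 :=
  Good.branch g_1_2_6_29_X30 g_1_2_6_X30

lemma g_1_2_6_X28 : Good (27 / 10) [1, 2, 6] 28 :=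
  Good.branch g_1_2_6_28_X29 g_1_2_6_X29

lemma g_1_2_6_X27 : Good (27 / 10) [1, 2, 6] 27 :=
  Good.branch g_1_2_6_27_X28 g_1_2_6_X28

lemma g_1_2_6_X26 : Good (27 / 10) [1, 2, 6] 26 :=
  Good.branch g_1_2_6_26_X27 g_1_2_6_X27

lemma g_1_2_6_X25 : Good (27 / 10) [1, 2, 6] 25 :=
  Good.branch g_1_2_6_25_X26 g_1_2_6_X26

lemma g_1_2_6_X24 : Good (27 / 10) [1, 2, 6] 24 :=
  Good.branch g_1_2_6_24_X25 g_1_2_6_X25

lemma g_1_2_6_X23 : Good (27 / 10) [1, 2, 6] 23 :=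
  Good.branch g_1_2_6_23_X24 g_1_2_6_X24

lemma g_1_2_6_X22 : Good (27 / 10) [1, 2, 6] 22 :=
  Good.branch g_1_2_6_22_X23 g_1_2_6_X23

lemma g_1_2_6_X21 : Good (27 / 10) [1, 2, 6] 21 :=
  Good.branch g_1_2_6_21_X22 g_1_2_6_X22

lemma g_1_2_6_X20 : Good (27 / 10) [1, 2, 6] 20 :=
  Good.branch g_1_2_6_20_X21 g_1_2_6_X21

lemma g_1_2_6_X19 : Good (27 / 10) [1, 2, 6] 19 :=
  Good.branch g_1_2_6_19_X20 g_1_2_6_X20

lemma g_1_2_6_X18 : Good (27 / 10) [1, 2, 6] 18 :=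
  Good.branch g_1_2_6_18_X19 g_1_2_6_X19

lemma g_1_2_6_X17 : Good (27 / 10) [1, 2, 6] 17 :=
  Good.branch g_1_2_6_17_X18 g_1_2_6_X18

lemma g_1_2_6_X16 : Good (27 / 10) [1, 2, 6] 16 :=
  Good.branch g_1_2_6_16_X17 g_1_2_6_X17

lemma g_1_2_6_X15 : Good (27 / 10) [1, 2, 6] 15 :=
  Good.branch g_1_2_6_15_X16 g_1_2_6_X16

lemma g_1_2_6_X14 : Good (27 / 10) [1, 2, 6] 14 :=
  Good.branch g_1_2_6_14_X15 g_1_2_6_X15

lemma g_1_2_6_X13 : Good (27 / 10) [1, 2, 6] 13 :=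
  Good.branch g_1_2_6_13_X14 g_1_2_6_X14

lemma g_1_2_6_X12 : Good (27 / 10) [1, 2, 6] 12 :=
  Good.branch g_1_2_6_12_X13 g_1_2_6_X13

lemma g_1_2_6_X11 : Good (27 / 10) [1, 2, 6] 11 :=
  Good.branch g_1_2_6_11_X12 g_1_2_6_X12

lemma g_1_2_6_X10 : Good (27 / 10) [1, 2, 6] 10 :=
  Good.branch g_1_2_6_10_X11 g_1_2_6_X11

lemma g_1_2_6_X9 : Good (27 / 10) [1, 2, 6] 9 :=
  Good.skip (by decide +kernel) g_1_2_6_X10

lemma g_1_2_6_X8 : Good (27 / 10) [1, 2, 6] 8 :=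
  Good.skip (by decide +kernel) g_1_2_6_X9

lemma g_1_2_6_X7 : Good (27 / 10) [1, 2, 6] 7 :=
  Good.skip (by decide +kernel) g_1_2_6_X8

lemma g_1_2_7_11_X14 : Good (27 / 10) [1, 2, 7, 11] 14 :=
  Good.skip (by decide +kernel) g_1_2_7_11_X15

lemma g_1_2_7_11_X13 : Good (27 / 10) [1, 2, 7, 11] 13 :=
  Good.skip (by decide +kernel) g_1_2_7_11_X14

lemma g_1_2_7_11_X12 : Good (27 / 10) [1, 2, 7, 11] 12 :=
  Good.skip (by decide +kernel) g_1_2_7_11_X13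

lemma g_1_2_7_12_16_X26 : Good (27 / 10) [1, 2, 7, 12, 16] 26 :=
  Good.skip (by decide +kernel) g_1_2_7_12_16_X27

lemma g_1_2_7_12_16_X25 : Good (27 / 10) [1, 2, 7, 12, 16] 25 :=
  Good.skip (by decide +kernel) g_1_2_7_12_16_X26

lemma g_1_2_7_12_16_X24 : Good (27 / 10) [1, 2, 7, 12, 16] 24 :=
  Good.skip (by decide +kernel) g_1_2_7_12_16_X25

lemma g_1_2_7_12_16_X23 : Good (27 / 10) [1, 2, 7, 12, 16] 23 :=
  Good.skip (by decide +kernel) g_1_2_7_12_16_X24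

lemma g_1_2_7_12_16_X22 : Good (27 / 10) [1, 2, 7, 12, 16] 22 :=
  Good.skip (by decide +kernel) g_1_2_7_12_16_X23

lemma g_1_2_7_12_16_X21 : Good (27 / 10) [1, 2, 7, 12, 16] 21 :=
  Good.skip (by decide +kernel) g_1_2_7_12_16_X22

lemma g_1_2_7_12_16_X20 : Good (27 / 10) [1, 2, 7, 12, 16] 20 :=
  Good.skip (by decide +kernel) g_1_2_7_12_16_X21

lemma g_1_2_7_12_16_X19 : Good (27 / 10) [1, 2, 7, 12, 16] 19 :=
  Good.skip (by decide +kernel) g_1_2_7_12_16_X20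

lemma g_1_2_7_12_16_X18 : Good (27 / 10) [1, 2, 7, 12, 16] 18 :=
  Good.skip (by decide +kernel) g_1_2_7_12_16_X19

lemma g_1_2_7_12_16_X17 : Good (27 / 10) [1, 2, 7, 12, 16] 17 :=
  Good.skip (by decide +kernel) g_1_2_7_12_16_X18

lemma g_1_2_7_12_17_X22 : Good (27 / 10) [1, 2, 7, 12, 17] 22 :=
  Good.skip (by decide +kernel) g_1_2_7_12_17_X23

lemma g_1_2_7_12_17_X21 : Good (27 / 10) [1, 2, 7, 12, 17] 21 :=
  Good.skip (by decide +kernel) g_1_2_7_12_17_X22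

lemma g_1_2_7_12_17_X20 : Good (27 / 10) [1, 2, 7, 12, 17] 20 :=
  Good.skip (by decide +kernel) g_1_2_7_12_17_X21

lemma g_1_2_7_12_17_X19 : Good (27 / 10) [1, 2, 7, 12, 17] 19 :=
  Good.skip (by decide +kernel) g_1_2_7_12_17_X20

lemma g_1_2_7_12_17_X18 : Good (27 / 10) [1, 2, 7, 12, 17] 18 :=
  Good.skip (by decide +kernel) g_1_2_7_12_17_X19

lemma g_1_2_7_12_18_23_X28 : Good (27 / 10) [1, 2, 7, 12, 18, 23] 28 :=
  Good.skip (by decide +kernel) g_1_2_7_12_18_23_X29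

lemma g_1_2_7_12_18_23_X27 : Good (27 / 10) [1, 2, 7, 12, 18, 23] 27 :=
  Good.skip (by decide +kernel) g_1_2_7_12_18_23_X28

lemma g_1_2_7_12_18_23_X26 : Good (27 / 10) [1, 2, 7, 12, 18, 23] 26 :=
  Good.skip (by decide +kernel) g_1_2_7_12_18_23_X27

lemma g_1_2_7_12_18_23_X25 : Good (27 / 10) [1, 2, 7, 12, 18, 23] 25 :=
  Good.skip (by decide +kernel) g_1_2_7_12_18_23_X26

lemma g_1_2_7_12_18_23_X24 : Good (27 / 10) [1, 2, 7, 12, 18, 23] 24 :=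
  Good.skip (by decide +kernel) g_1_2_7_12_18_23_X25

lemma g_1_2_7_12_18_24_X28 : Good (27 / 10) [1, 2, 7, 12, 18, 24] 28 :=
  Good.skip (by decide +kernel) g_1_2_7_12_18_24_X29

lemma g_1_2_7_12_18_24_X27 : Good (27 / 10) [1, 2, 7, 12, 18, 24] 27 :=
  Good.skip (by decide +kernel) g_1_2_7_12_18_24_X28

lemma g_1_2_7_12_18_24_X26 : Good (27 / 10) [1, 2, 7, 12, 18, 24] 26 :=
  Good.skip (by decide +kernel) g_1_2_7_12_18_24_X27

lemma g_1_2_7_12_18_24_X25 : Good (27 / 10) [1, 2, 7, 12, 18, 24] 25 :=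
  Good.skip (by decide +kernel) g_1_2_7_12_18_24_X26

lemma g_1_2_7_12_18_X28 : Good (27 / 10) [1, 2, 7, 12, 18] 28 :=
  Good.skip (by decide +kernel) g_1_2_7_12_18_X29

lemma g_1_2_7_12_18_X27 : Good (27 / 10) [1, 2, 7, 12, 18] 27 :=
  Good.skip (by decide +kernel) g_1_2_7_12_18_X28

lemma g_1_2_7_12_18_X26 : Good (27 / 10) [1, 2, 7, 12, 18] 26 :=
  Good.skip (by decide +kernel) g_1_2_7_12_18_X27

lemma g_1_2_7_12_18_X25 : Good (27 / 10) [1, 2, 7, 12, 18] 25 :=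
  Good.skip (by decide +kernel) g_1_2_7_12_18_X26

lemma g_1_2_7_12_18_X24 : Good (27 / 10) [1, 2, 7, 12, 18] 24 :=
  Good.branch g_1_2_7_12_18_24_X25 g_1_2_7_12_18_X25

lemma g_1_2_7_12_18_X23 : Good (27 / 10) [1, 2, 7, 12, 18] 23 :=
  Good.branch g_1_2_7_12_18_23_X24 g_1_2_7_12_18_X24

lemma g_1_2_7_12_18_X22 : Good (27 / 10) [1, 2, 7, 12, 18] 22 :=
  Good.skip (by decide +kernel) g_1_2_7_12_18_X23

lemma g_1_2_7_12_18_X21 : Good (27 / 10) [1, 2, 7, 12, 18] 21 :=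
  Good.skip (by decide +kernel) g_1_2_7_12_18_X22

lemma g_1_2_7_12_18_X20 : Good (27 / 10) [1, 2, 7, 12, 18] 20 :=
  Good.skip (by decide +kernel) g_1_2_7_12_18_X21

lemma g_1_2_7_12_18_X19 : Good (27 / 10) [1, 2, 7, 12, 18] 19 :=
  Good.skip (by decide +kernel) g_1_2_7_12_18_X20

lemma g_1_2_7_12_23_X26 : Good (27 / 10) [1, 2, 7, 12, 23] 26 :=
  Good.skip (by decide +kernel) g_1_2_7_12_23_X27

lemma g_1_2_7_12_23_X25 : Good (27 / 10) [1, 2, 7, 12, 23] 25 :=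
  Good.skip (by decide +kernel) g_1_2_7_12_23_X26

lemma g_1_2_7_12_23_X24 : Good (27 / 10) [1, 2, 7, 12, 23] 24 :=
  Good.skip (by decide +kernel) g_1_2_7_12_23_X25

lemma g_1_2_7_12_24_X27 : Good (27 / 10) [1, 2, 7, 12, 24] 27 :=
  Good.skip (by decide +kernel) g_1_2_7_12_24_X28

lemma g_1_2_7_12_24_X26 : Good (27 / 10) [1, 2, 7, 12, 24] 26 :=
  Good.skip (by decide +kernel) g_1_2_7_12_24_X27

lemma g_1_2_7_12_24_X25 : Good (27 / 10) [1, 2, 7, 12, 24] 25 :=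
  Good.skip (by decide +kernel) g_1_2_7_12_24_X26

lemma g_1_2_7_12_25_X28 : Good (27 / 10) [1, 2, 7, 12, 25] 28 :=
  Good.skip (by decide +kernel) g_1_2_7_12_25_X29

lemma g_1_2_7_12_25_X27 : Good (27 / 10) [1, 2, 7, 12, 25] 27 :=
  Good.skip (by decide +kernel) g_1_2_7_12_25_X28

lemma g_1_2_7_12_25_X26 : Good (27 / 10) [1, 2, 7, 12, 25] 26 :=
  Good.skip (by decide +kernel) g_1_2_7_12_25_X27

lemma g_1_2_7_12_26_X29 : Good (27 / 10) [1, 2, 7, 12, 26] 29 :=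
  Good.skip (by decide +kernel) g_1_2_7_12_26_X30

lemma g_1_2_7_12_26_X28 : Good (27 / 10) [1, 2, 7, 12, 26] 28 :=
  Good.skip (by decide +kernel) g_1_2_7_12_26_X29

lemma g_1_2_7_12_26_X27 : Good (27 / 10) [1, 2, 7, 12, 26] 27 :=
  Good.skip (by decide +kernel) g_1_2_7_12_26_X28

lemma g_1_2_7_12_X26 : Good (27 / 10) [1, 2, 7, 12] 26 :=
  Good.branch g_1_2_7_12_26_X27 g_1_2_7_12_X27

lemma g_1_2_7_12_X25 : Good (27 / 10) [1, 2, 7, 12] 25 :=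
  Good.branch g_1_2_7_12_25_X26 g_1_2_7_12_X26

lemma g_1_2_7_12_X24 : Good (27 / 10) [1, 2, 7, 12] 24 :=
  Good.branch g_1_2_7_12_24_X25 g_1_2_7_12_X25

lemma g_1_2_7_12_X23 : Good (27 / 10) [1, 2, 7, 12] 23 :=
  Good.branch g_1_2_7_12_23_X24 g_1_2_7_12_X24

lemma g_1_2_7_12_X22 : Good (27 / 10) [1, 2, 7, 12] 22 :=
  Good.skip (by decide +kernel) g_1_2_7_12_X23

lemma g_1_2_7_12_X21 : Good (27 / 10) [1, 2, 7, 12] 21 :=
  Good.skip (by decide +kernel) g_1_2_7_12_X22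

lemma g_1_2_7_12_X20 : Good (27 / 10) [1, 2, 7, 12] 20 :=
  Good.skip (by decide +kernel) g_1_2_7_12_X21

lemma g_1_2_7_12_X19 : Good (27 / 10) [1, 2, 7, 12] 19 :=
  Good.skip (by decide +kernel) g_1_2_7_12_X20

lemma g_1_2_7_12_X18 : Good (27 / 10) [1, 2, 7, 12] 18 :=
  Good.branch g_1_2_7_12_18_X19 g_1_2_7_12_X19

lemma g_1_2_7_12_X17 : Good (27 / 10) [1, 2, 7, 12] 17 :=
  Good.branch g_1_2_7_12_17_X18 g_1_2_7_12_X18

lemma g_1_2_7_12_X16 : Good (27 / 10) [1, 2, 7, 12] 16 :=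
  Good.branch g_1_2_7_12_16_X17 g_1_2_7_12_X17

lemma g_1_2_7_12_X15 : Good (27 / 10) [1, 2, 7, 12] 15 :=
  Good.skip (by decide +kernel) g_1_2_7_12_X16

lemma g_1_2_7_12_X14 : Good (27 / 10) [1, 2, 7, 12] 14 :=
  Good.skip (by decide +kernel) g_1_2_7_12_X15

lemma g_1_2_7_12_X13 : Good (27 / 10) [1, 2, 7, 12] 13 :=
  Good.skip (by decide +kernel) g_1_2_7_12_X14

lemma g_1_2_7_13_17_X27 : Good (27 / 10) [1, 2, 7, 13, 17] 27 :=
  Good.skip (by decide +kernel) g_1_2_7_13_17_X28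

lemma g_1_2_7_13_17_X26 : Good (27 / 10) [1, 2, 7, 13, 17] 26 :=
  Good.skip (by decide +kernel) g_1_2_7_13_17_X27

lemma g_1_2_7_13_17_X25 : Good (27 / 10) [1, 2, 7, 13, 17] 25 :=
  Good.skip (by decide +kernel) g_1_2_7_13_17_X26

lemma g_1_2_7_13_17_X24 : Good (27 / 10) [1, 2, 7, 13, 17] 24 :=
  Good.skip (by decide +kernel) g_1_2_7_13_17_X25

lemma g_1_2_7_13_17_X23 : Good (27 / 10) [1, 2, 7, 13, 17] 23 :=
  Good.skip (by decide +kernel) g_1_2_7_13_17_X24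

lemma g_1_2_7_13_17_X22 : Good (27 / 10) [1, 2, 7, 13, 17] 22 :=
  Good.skip (by decide +kernel) g_1_2_7_13_17_X23

lemma g_1_2_7_13_17_X21 : Good (27 / 10) [1, 2, 7, 13, 17] 21 :=
  Good.skip (by decide +kernel) g_1_2_7_13_17_X22

lemma g_1_2_7_13_17_X20 : Good (27 / 10) [1, 2, 7, 13, 17] 20 :=
  Good.skip (by decide +kernel) g_1_2_7_13_17_X21

lemma g_1_2_7_13_17_X19 : Good (27 / 10) [1, 2, 7, 13, 17] 19 :=
  Good.skip (by decide +kernel) g_1_2_7_13_17_X20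

lemma g_1_2_7_13_17_X18 : Good (27 / 10) [1, 2, 7, 13, 17] 18 :=
  Good.skip (by decide +kernel) g_1_2_7_13_17_X19

lemma g_1_2_7_13_18_X23 : Good (27 / 10) [1, 2, 7, 13, 18] 23 :=
  Good.skip (by decide +kernel) g_1_2_7_13_18_X24

lemma g_1_2_7_13_18_X22 : Good (27 / 10) [1, 2, 7, 13, 18] 22 :=
  Good.skip (by decide +kernel) g_1_2_7_13_18_X23

lemma g_1_2_7_13_18_X21 : Good (27 / 10) [1, 2, 7, 13, 18] 21 :=
  Good.skip (by decide +kernel) g_1_2_7_13_18_X22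

lemma g_1_2_7_13_18_X20 : Good (27 / 10) [1, 2, 7, 13, 18] 20 :=
  Good.skip (by decide +kernel) g_1_2_7_13_18_X21

lemma g_1_2_7_13_18_X19 : Good (27 / 10) [1, 2, 7, 13, 18] 19 :=
  Good.skip (by decide +kernel) g_1_2_7_13_18_X20

lemma g_1_2_7_13_19_24_X29 : Good (27 / 10) [1, 2, 7, 13, 19, 24] 29 :=
  Good.skip (by decide +kernel) g_1_2_7_13_19_24_X30

lemma g_1_2_7_13_19_24_X28 : Good (27 / 10) [1, 2, 7, 13, 19, 24] 28 :=
  Good.skip (by decide +kernel) g_1_2_7_13_19_24_X29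

lemma g_1_2_7_13_19_24_X27 : Good (27 / 10) [1, 2, 7, 13, 19, 24] 27 :=
  Good.skip (by decide +kernel) g_1_2_7_13_19_24_X28

lemma g_1_2_7_13_19_24_X26 : Good (27 / 10) [1, 2, 7, 13, 19, 24] 26 :=
  Good.skip (by decide +kernel) g_1_2_7_13_19_24_X27

lemma g_1_2_7_13_19_24_X25 : Good (27 / 10) [1, 2, 7, 13, 19, 24] 25 :=
  Good.skip (by decide +kernel) g_1_2_7_13_19_24_X26

lemma g_1_2_7_13_19_25_30_X35 : Good (27 / 10) [1, 2, 7, 13, 19, 25, 30] 35 :=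
  Good.skip (by decide +kernel) g_1_2_7_13_19_25_30_X36

lemma g_1_2_7_13_19_25_30_X34 : Good (27 / 10) [1, 2, 7, 13, 19, 25, 30] 34 :=
  Good.skip (by decide +kernel) g_1_2_7_13_19_25_30_X35

lemma g_1_2_7_13_19_25_30_X33 : Good (27 / 10) [1, 2, 7, 13, 19, 25, 30] 33 :=
  Good.skip (by decide +kernel) g_1_2_7_13_19_25_30_X34

lemma g_1_2_7_13_19_25_30_X32 : Good (27 / 10) [1, 2, 7, 13, 19, 25, 30] 32 :=
  Good.skip (by decide +kernel) g_1_2_7_13_19_25_30_X33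

lemma g_1_2_7_13_19_25_30_X31 : Good (27 / 10) [1, 2, 7, 13, 19, 25, 30] 31 :=
  Good.skip (by decide +kernel) g_1_2_7_13_19_25_30_X32

lemma g_1_2_7_13_19_25_31_X35 : Good (27 / 10) [1, 2, 7, 13, 19, 25, 31] 35 :=
  Good.skip (by decide +kernel) g_1_2_7_13_19_25_31_X36

lemma g_1_2_7_13_19_25_31_X34 : Good (27 / 10) [1, 2, 7, 13, 19, 25, 31] 34 :=
  Good.skip (by decide +kernel) g_1_2_7_13_19_25_31_X35

lemma g_1_2_7_13_19_25_31_X33 : Good (27 / 10) [1, 2, 7, 13, 19, 25, 31] 33 :=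
  Good.skip (by decide +kernel) g_1_2_7_13_19_25_31_X34

lemma g_1_2_7_13_19_25_31_X32 : Good (27 / 10) [1, 2, 7, 13, 19, 25, 31] 32 :=
  Good.skip (by decide +kernel) g_1_2_7_13_19_25_31_X33

lemma g_1_2_7_13_19_25_X35 : Good (27 / 10) [1, 2, 7, 13, 19, 25] 35 :=
  Good.skip (by decide +kernel) g_1_2_7_13_19_25_X36

lemma g_1_2_7_13_19_25_X34 : Good (27 / 10) [1, 2, 7, 13, 19, 25] 34 :=
  Good.skip (by decide +kernel) g_1_2_7_13_19_25_X35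

lemma g_1_2_7_13_19_25_X33 : Good (27 / 10) [1, 2, 7, 13, 19, 25] 33 :=
  Good.skip (by decide +kernel) g_1_2_7_13_19_25_X34

lemma g_1_2_7_13_19_25_X32 : Good (27 / 10) [1, 2, 7, 13, 19, 25] 32 :=
  Good.skip (by decide +kernel) g_1_2_7_13_19_25_X33

lemma g_1_2_7_13_19_25_X31 : Good (27 / 10) [1, 2, 7, 13, 19, 25] 31 :=
  Good.branch g_1_2_7_13_19_25_31_X32 g_1_2_7_13_19_25_X32

lemma g_1_2_7_13_19_25_X30 : Good (27 / 10) [1, 2, 7, 13, 19, 25] 30 :=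
  Good.branch g_1_2_7_13_19_25_30_X31 g_1_2_7_13_19_25_X31

lemma g_1_2_7_13_19_25_X29 : Good (27 / 10) [1, 2, 7, 13, 19, 25] 29 :=
  Good.skip (by decide +kernel) g_1_2_7_13_19_25_X30

lemma g_1_2_7_13_19_25_X28 : Good (27 / 10) [1, 2, 7, 13, 19, 25] 28 :=
  Good.skip (by decide +kernel) g_1_2_7_13_19_25_X29

lemma g_1_2_7_13_19_25_X27 : Good (27 / 10) [1, 2, 7, 13, 19, 25] 27 :=
  Good.skip (by decide +kernel) g_1_2_7_13_19_25_X28

lemma g_1_2_7_13_19_25_X26 : Good (27 / 10) [1, 2, 7, 13, 19, 25] 26 :=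
  Good.skip (by decide +kernel) g_1_2_7_13_19_25_X27

lemma g_1_2_7_13_19_30_X35 : Good (27 / 10) [1, 2, 7, 13, 19, 30] 35 :=
  Good.skip (by decide +kernel) g_1_2_7_13_19_30_X36

lemma g_1_2_7_13_19_30_X34 : Good (27 / 10) [1, 2, 7, 13, 19, 30] 34 :=
  Good.skip (by decide +kernel) g_1_2_7_13_19_30_X35

lemma g_1_2_7_13_19_30_X33 : Good (27 / 10) [1, 2, 7, 13, 19, 30] 33 :=
  Good.skip (by decide +kernel) g_1_2_7_13_19_30_X34

lemma g_1_2_7_13_19_30_X32 : Good (27 / 10) [1, 2, 7, 13, 19, 30] 32 :=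
  Good.skip (by decide +kernel) g_1_2_7_13_19_30_X33

lemma g_1_2_7_13_19_30_X31 : Good (27 / 10) [1, 2, 7, 13, 19, 30] 31 :=
  Good.skip (by decide +kernel) g_1_2_7_13_19_30_X32

lemma g_1_2_7_13_19_31_X35 : Good (27 / 10) [1, 2, 7, 13, 19, 31] 35 :=
  Good.skip (by decide +kernel) g_1_2_7_13_19_31_X36

lemma g_1_2_7_13_19_31_X34 : Good (27 / 10) [1, 2, 7, 13, 19, 31] 34 :=
  Good.skip (by decide +kernel) g_1_2_7_13_19_31_X35

lemma g_1_2_7_13_19_31_X33 : Good (27 / 10) [1, 2, 7, 13, 19, 31] 33 :=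
  Good.skip (by decide +kernel) g_1_2_7_13_19_31_X34

lemma g_1_2_7_13_19_31_X32 : Good (27 / 10) [1, 2, 7, 13, 19, 31] 32 :=
  Good.skip (by decide +kernel) g_1_2_7_13_19_31_X33

lemma g_1_2_7_13_19_X35 : Good (27 / 10) [1, 2, 7, 13, 19] 35 :=
  Good.skip (by decide +kernel) g_1_2_7_13_19_X36

lemma g_1_2_7_13_19_X34 : Good (27 / 10) [1, 2, 7, 13, 19] 34 :=
  Good.skip (by decide +kernel) g_1_2_7_13_19_X35

lemma g_1_2_7_13_19_X33 : Good (27 / 10) [1, 2, 7, 13, 19] 33 :=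
  Good.skip (by decide +kernel) g_1_2_7_13_19_X34

lemma g_1_2_7_13_19_X32 : Good (27 / 10) [1, 2, 7, 13, 19] 32 :=
  Good.skip (by decide +kernel) g_1_2_7_13_19_X33

lemma g_1_2_7_13_19_X31 : Good (27 / 10) [1, 2, 7, 13, 19] 31 :=
  Good.branch g_1_2_7_13_19_31_X32 g_1_2_7_13_19_X32

lemma g_1_2_7_13_19_X30 : Good (27 / 10) [1, 2, 7, 13, 19] 30 :=
  Good.branch g_1_2_7_13_19_30_X31 g_1_2_7_13_19_X31

lemma g_1_2_7_13_19_X29 : Good (27 / 10) [1, 2, 7, 13, 19] 29 :=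
  Good.skip (by decide +kernel) g_1_2_7_13_19_X30

lemma g_1_2_7_13_19_X28 : Good (27 / 10) [1, 2, 7, 13, 19] 28 :=
  Good.skip (by decide +kernel) g_1_2_7_13_19_X29

lemma g_1_2_7_13_19_X27 : Good (27 / 10) [1, 2, 7, 13, 19] 27 :=
  Good.skip (by decide +kernel) g_1_2_7_13_19_X28

lemma g_1_2_7_13_19_X26 : Good (27 / 10) [1, 2, 7, 13, 19] 26 :=
  Good.skip (by decide +kernel) g_1_2_7_13_19_X27

lemma g_1_2_7_13_19_X25 : Good (27 / 10) [1, 2, 7, 13, 19] 25 :=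
  Good.branch g_1_2_7_13_19_25_X26 g_1_2_7_13_19_X26

lemma g_1_2_7_13_19_X24 : Good (27 / 10) [1, 2, 7, 13, 19] 24 :=
  Good.branch g_1_2_7_13_19_24_X25 g_1_2_7_13_19_X25

lemma g_1_2_7_13_19_X23 : Good (27 / 10) [1, 2, 7, 13, 19] 23 :=
  Good.skip (by decide +kernel) g_1_2_7_13_19_X24

lemma g_1_2_7_13_19_X22 : Good (27 / 10) [1, 2, 7, 13, 19] 22 :=
  Good.skip (by decide +kernel) g_1_2_7_13_19_X23

lemma g_1_2_7_13_19_X21 : Good (27 / 10) [1, 2, 7, 13, 19] 21 :=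
  Good.skip (by decide +kernel) g_1_2_7_13_19_X22

lemma g_1_2_7_13_19_X20 : Good (27 / 10) [1, 2, 7, 13, 19] 20 :=
  Good.skip (by decide +kernel) g_1_2_7_13_19_X21

lemma g_1_2_7_13_24_X27 : Good (27 / 10) [1, 2, 7, 13, 24] 27 :=
  Good.skip (by decide +kernel) g_1_2_7_13_24_X28

lemma g_1_2_7_13_24_X26 : Good (27 / 10) [1, 2, 7, 13, 24] 26 :=
  Good.skip (by decide +kernel) g_1_2_7_13_24_X27

lemma g_1_2_7_13_24_X25 : Good (27 / 10) [1, 2, 7, 13, 24] 25 :=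
  Good.skip (by decide +kernel) g_1_2_7_13_24_X26

lemma g_1_2_7_13_25_29_X52 : Good (27 / 10) [1, 2, 7, 13, 25, 29] 52 :=
  Good.skip (by decide +kernel) g_1_2_7_13_25_29_X53

lemma g_1_2_7_13_25_29_X51 : Good (27 / 10) [1, 2, 7, 13, 25, 29] 51 :=
  Good.skip (by decide +kernel) g_1_2_7_13_25_29_X52

lemma g_1_2_7_13_25_29_X50 : Good (27 / 10) [1, 2, 7, 13, 25, 29] 50 :=
  Good.skip (by decide +kernel) g_1_2_7_13_25_29_X51

lemma g_1_2_7_13_25_29_X49 : Good (27 / 10) [1, 2, 7, 13, 25, 29] 49 :=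
  Good.skip (by decide +kernel) g_1_2_7_13_25_29_X50

lemma g_1_2_7_13_25_29_X48 : Good (27 / 10) [1, 2, 7, 13, 25, 29] 48 :=
  Good.skip (by decide +kernel) g_1_2_7_13_25_29_X49

lemma g_1_2_7_13_25_29_X47 : Good (27 / 10) [1, 2, 7, 13, 25, 29] 47 :=
  Good.skip (by decide +kernel) g_1_2_7_13_25_29_X48

lemma g_1_2_7_13_25_29_X46 : Good (27 / 10) [1, 2, 7, 13, 25, 29] 46 :=
  Good.skip (by decide +kernel) g_1_2_7_13_25_29_X47

lemma g_1_2_7_13_25_29_X45 : Good (27 / 10) [1, 2, 7, 13, 25, 29] 45 :=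
  Good.skip (by decide +kernel) g_1_2_7_13_25_29_X46

lemma g_1_2_7_13_25_29_X44 : Good (27 / 10) [1, 2, 7, 13, 25, 29] 44 :=
  Good.skip (by decide +kernel) g_1_2_7_13_25_29_X45

lemma g_1_2_7_13_25_29_X43 : Good (27 / 10) [1, 2, 7, 13, 25, 29] 43 :=
  Good.skip (by decide +kernel) g_1_2_7_13_25_29_X44

lemma g_1_2_7_13_25_29_X42 : Good (27 / 10) [1, 2, 7, 13, 25, 29] 42 :=
  Good.skip (by decide +kernel) g_1_2_7_13_25_29_X43

lemma g_1_2_7_13_25_29_X41 : Good (27 / 10) [1, 2, 7, 13, 25, 29] 41 :=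
  Good.skip (by decide +kernel) g_1_2_7_13_25_29_X42

lemma g_1_2_7_13_25_29_X40 : Good (27 / 10) [1, 2, 7, 13, 25, 29] 40 :=
  Good.skip (by decide +kernel) g_1_2_7_13_25_29_X41

lemma g_1_2_7_13_25_29_X39 : Good (27 / 10) [1, 2, 7, 13, 25, 29] 39 :=
  Good.skip (by decide +kernel) g_1_2_7_13_25_29_X40

lemma g_1_2_7_13_25_29_X38 : Good (27 / 10) [1, 2, 7, 13, 25, 29] 38 :=
  Good.skip (by decide +kernel) g_1_2_7_13_25_29_X39

lemma g_1_2_7_13_25_29_X37 : Good (27 / 10) [1, 2, 7, 13, 25, 29] 37 :=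
  Good.skip (by decide +kernel) g_1_2_7_13_25_29_X38

lemma g_1_2_7_13_25_29_X36 : Good (27 / 10) [1, 2, 7, 13, 25, 29] 36 :=
  Good.skip (by decide +kernel) g_1_2_7_13_25_29_X37

lemma g_1_2_7_13_25_29_X35 : Good (27 / 10) [1, 2, 7, 13, 25, 29] 35 :=
  Good.skip (by decide +kernel) g_1_2_7_13_25_29_X36

lemma g_1_2_7_13_25_29_X34 : Good (27 / 10) [1, 2, 7, 13, 25, 29] 34 :=
  Good.skip (by decide +kernel) g_1_2_7_13_25_29_X35

lemma g_1_2_7_13_25_29_X33 : Good (27 / 10) [1, 2, 7, 13, 25, 29] 33 :=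
  Good.skip (by decide +kernel) g_1_2_7_13_25_29_X34

lemma g_1_2_7_13_25_29_X32 : Good (27 / 10) [1, 2, 7, 13, 25, 29] 32 :=
  Good.skip (by decide +kernel) g_1_2_7_13_25_29_X33

lemma g_1_2_7_13_25_29_X31 : Good (27 / 10) [1, 2, 7, 13, 25, 29] 31 :=
  Good.skip (by decide +kernel) g_1_2_7_13_25_29_X32

lemma g_1_2_7_13_25_29_X30 : Good (27 / 10) [1, 2, 7, 13, 25, 29] 30 :=
  Good.skip (by decide +kernel) g_1_2_7_13_25_29_X31

lemma g_1_2_7_13_25_30_X35 : Good (27 / 10) [1, 2, 7, 13, 25, 30] 35 :=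
  Good.skip (by decide +kernel) g_1_2_7_13_25_30_X36

lemma g_1_2_7_13_25_30_X34 : Good (27 / 10) [1, 2, 7, 13, 25, 30] 34 :=
  Good.skip (by decide +kernel) g_1_2_7_13_25_30_X35

lemma g_1_2_7_13_25_30_X33 : Good (27 / 10) [1, 2, 7, 13, 25, 30] 33 :=
  Good.skip (by decide +kernel) g_1_2_7_13_25_30_X34

lemma g_1_2_7_13_25_30_X32 : Good (27 / 10) [1, 2, 7, 13, 25, 30] 32 :=
  Good.skip (by decide +kernel) g_1_2_7_13_25_30_X33

lemma g_1_2_7_13_25_30_X31 : Good (27 / 10) [1, 2, 7, 13, 25, 30] 31 :=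
  Good.skip (by decide +kernel) g_1_2_7_13_25_30_X32

lemma g_1_2_7_13_25_31_X35 : Good (27 / 10) [1, 2, 7, 13, 25, 31] 35 :=
  Good.skip (by decide +kernel) g_1_2_7_13_25_31_X36

lemma g_1_2_7_13_25_31_X34 : Good (27 / 10) [1, 2, 7, 13, 25, 31] 34 :=
  Good.skip (by decide +kernel) g_1_2_7_13_25_31_X35

lemma g_1_2_7_13_25_31_X33 : Good (27 / 10) [1, 2, 7, 13, 25, 31] 33 :=
  Good.skip (by decide +kernel) g_1_2_7_13_25_31_X34

lemma g_1_2_7_13_25_31_X32 : Good (27 / 10) [1, 2, 7, 13, 25, 31] 32 :=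
  Good.skip (by decide +kernel) g_1_2_7_13_25_31_X33

lemma g_1_2_7_13_25_X35 : Good (27 / 10) [1, 2, 7, 13, 25] 35 :=
  Good.skip (by decide +kernel) g_1_2_7_13_25_X36

lemma g_1_2_7_13_25_X34 : Good (27 / 10) [1, 2, 7, 13, 25] 34 :=
  Good.skip (by decide +kernel) g_1_2_7_13_25_X35

lemma g_1_2_7_13_25_X33 : Good (27 / 10) [1, 2, 7, 13, 25] 33 :=
  Good.skip (by decide +kernel) g_1_2_7_13_25_X34

lemma g_1_2_7_13_25_X32 : Good (27 / 10) [1, 2, 7, 13, 25] 32 :=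
  Good.skip (by decide +kernel) g_1_2_7_13_25_X33

lemma g_1_2_7_13_25_X31 : Good (27 / 10) [1, 2, 7, 13, 25] 31 :=
  Good.branch g_1_2_7_13_25_31_X32 g_1_2_7_13_25_X32

lemma g_1_2_7_13_25_X30 : Good (27 / 10) [1, 2, 7, 13, 25] 30 :=
  Good.branch g_1_2_7_13_25_30_X31 g_1_2_7_13_25_X31

lemma g_1_2_7_13_25_X29 : Good (27 / 10) [1, 2, 7, 13, 25] 29 :=
  Good.branch g_1_2_7_13_25_29_X30 g_1_2_7_13_25_X30

lemma g_1_2_7_13_25_X28 : Good (27 / 10) [1, 2, 7, 13, 25] 28 :=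
  Good.skip (by decide +kernel) g_1_2_7_13_25_X29

lemma g_1_2_7_13_25_X27 : Good (27 / 10) [1, 2, 7, 13, 25] 27 :=
  Good.skip (by decide +kernel) g_1_2_7_13_25_X28

lemma g_1_2_7_13_25_X26 : Good (27 / 10) [1, 2, 7, 13, 25] 26 :=
  Good.skip (by decide +kernel) g_1_2_7_13_25_X27

lemma g_1_2_7_13_X25 : Good (27 / 10) [1, 2, 7, 13] 25 :=
  Good.branch g_1_2_7_13_25_X26 g_1_2_7_13_X26

lemma g_1_2_7_13_X24 : Good (27 / 10) [1, 2, 7, 13] 24 :=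
  Good.branch g_1_2_7_13_24_X25 g_1_2_7_13_X25

lemma g_1_2_7_13_X23 : Good (27 / 10) [1, 2, 7, 13] 23 :=
  Good.skip (by decide +kernel) g_1_2_7_13_X24

lemma g_1_2_7_13_X22 : Good (27 / 10) [1, 2, 7, 13] 22 :=
  Good.skip (by decide +kernel) g_1_2_7_13_X23

lemma g_1_2_7_13_X21 : Good (27 / 10) [1, 2, 7, 13] 21 :=
  Good.skip (by decide +kernel) g_1_2_7_13_X22

lemma g_1_2_7_13_X20 : Good (27 / 10) [1, 2, 7, 13] 20 :=
  Good.skip (by decide +kernel) g_1_2_7_13_X21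

lemma g_1_2_7_13_X19 : Good (27 / 10) [1, 2, 7, 13] 19 :=
  Good.branch g_1_2_7_13_19_X20 g_1_2_7_13_X20

lemma g_1_2_7_13_X18 : Good (27 / 10) [1, 2, 7, 13] 18 :=
  Good.branch g_1_2_7_13_18_X19 g_1_2_7_13_X19

lemma g_1_2_7_13_X17 : Good (27 / 10) [1, 2, 7, 13] 17 :=
  Good.branch g_1_2_7_13_17_X18 g_1_2_7_13_X18

lemma g_1_2_7_13_X16 : Good (27 / 10) [1, 2, 7, 13] 16 :=
  Good.skip (by decide +kernel) g_1_2_7_13_X17

lemma g_1_2_7_13_X15 : Good (27 / 10) [1, 2, 7, 13] 15 :=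
  Good.skip (by decide +kernel) g_1_2_7_13_X16

lemma g_1_2_7_13_X14 : Good (27 / 10) [1, 2, 7, 13] 14 :=
  Good.skip (by decide +kernel) g_1_2_7_13_X15

lemma g_1_2_7_14_18_X28 : Good (27 / 10) [1, 2, 7, 14, 18] 28 :=
  Good.skip (by decide +kernel) g_1_2_7_14_18_X29

lemma g_1_2_7_14_18_X27 : Good (27 / 10) [1, 2, 7, 14, 18] 27 :=
  Good.skip (by decide +kernel) g_1_2_7_14_18_X28

lemma g_1_2_7_14_18_X26 : Good (27 / 10) [1, 2, 7, 14, 18] 26 :=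
  Good.skip (by decide +kernel) g_1_2_7_14_18_X27

lemma g_1_2_7_14_18_X25 : Good (27 / 10) [1, 2, 7, 14, 18] 25 :=
  Good.skip (by decide +kernel) g_1_2_7_14_18_X26

lemma g_1_2_7_14_18_X24 : Good (27 / 10) [1, 2, 7, 14, 18] 24 :=
  Good.skip (by decide +kernel) g_1_2_7_14_18_X25

lemma g_1_2_7_14_18_X23 : Good (27 / 10) [1, 2, 7, 14, 18] 23 :=
  Good.skip (by decide +kernel) g_1_2_7_14_18_X24

lemma g_1_2_7_14_18_X22 : Good (27 / 10) [1, 2, 7, 14, 18] 22 :=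
  Good.skip (by decide +kernel) g_1_2_7_14_18_X23

lemma g_1_2_7_14_18_X21 : Good (27 / 10) [1, 2, 7, 14, 18] 21 :=
  Good.skip (by decide +kernel) g_1_2_7_14_18_X22

lemma g_1_2_7_14_18_X20 : Good (27 / 10) [1, 2, 7, 14, 18] 20 :=
  Good.skip (by decide +kernel) g_1_2_7_14_18_X21

lemma g_1_2_7_14_18_X19 : Good (27 / 10) [1, 2, 7, 14, 18] 19 :=
  Good.skip (by decide +kernel) g_1_2_7_14_18_X20

lemma g_1_2_7_14_19_X24 : Good (27 / 10) [1, 2, 7, 14, 19] 24 :=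
  Good.skip (by decide +kernel) g_1_2_7_14_19_X25

lemma g_1_2_7_14_19_X23 : Good (27 / 10) [1, 2, 7, 14, 19] 23 :=
  Good.skip (by decide +kernel) g_1_2_7_14_19_X24

lemma g_1_2_7_14_19_X22 : Good (27 / 10) [1, 2, 7, 14, 19] 22 :=
  Good.skip (by decide +kernel) g_1_2_7_14_19_X23

lemma g_1_2_7_14_19_X21 : Good (27 / 10) [1, 2, 7, 14, 19] 21 :=
  Good.skip (by decide +kernel) g_1_2_7_14_19_X22

lemma g_1_2_7_14_19_X20 : Good (27 / 10) [1, 2, 7, 14, 19] 20 :=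
  Good.skip (by decide +kernel) g_1_2_7_14_19_X21

lemma g_1_2_7_14_20_X24 : Good (27 / 10) [1, 2, 7, 14, 20] 24 :=
  Good.skip (by decide +kernel) g_1_2_7_14_20_X25

lemma g_1_2_7_14_20_X23 : Good (27 / 10) [1, 2, 7, 14, 20] 23 :=
  Good.skip (by decide +kernel) g_1_2_7_14_20_X24

lemma g_1_2_7_14_20_X22 : Good (27 / 10) [1, 2, 7, 14, 20] 22 :=
  Good.skip (by decide +kernel) g_1_2_7_14_20_X23

lemma g_1_2_7_14_20_X21 : Good (27 / 10) [1, 2, 7, 14, 20] 21 :=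
  Good.skip (by decide +kernel) g_1_2_7_14_20_X22

lemma g_1_2_7_14_X24 : Good (27 / 10) [1, 2, 7, 14] 24 :=
  Good.skip (by decide +kernel) g_1_2_7_14_X25

lemma g_1_2_7_14_X23 : Good (27 / 10) [1, 2, 7, 14] 23 :=
  Good.skip (by decide +kernel) g_1_2_7_14_X24

lemma g_1_2_7_14_X22 : Good (27 / 10) [1, 2, 7, 14] 22 :=
  Good.skip (by decide +kernel) g_1_2_7_14_X23

lemma g_1_2_7_14_X21 : Good (27 / 10) [1, 2, 7, 14] 21 :=
  Good.skip (by decide +kernel) g_1_2_7_14_X22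

lemma g_1_2_7_14_X20 : Good (27 / 10) [1, 2, 7, 14] 20 :=
  Good.branch g_1_2_7_14_20_X21 g_1_2_7_14_X21

lemma g_1_2_7_14_X19 : Good (27 / 10) [1, 2, 7, 14] 19 :=
  Good.branch g_1_2_7_14_19_X20 g_1_2_7_14_X20

lemma g_1_2_7_14_X18 : Good (27 / 10) [1, 2, 7, 14] 18 :=
  Good.branch g_1_2_7_14_18_X19 g_1_2_7_14_X19

lemma g_1_2_7_14_X17 : Good (27 / 10) [1, 2, 7, 14] 17 :=
  Good.skip (by decide +kernel) g_1_2_7_14_X18

lemma g_1_2_7_14_X16 : Good (27 / 10) [1, 2, 7, 14] 16 :=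
  Good.skip (by decide +kernel) g_1_2_7_14_X17

lemma g_1_2_7_14_X15 : Good (27 / 10) [1, 2, 7, 14] 15 :=
  Good.skip (by decide +kernel) g_1_2_7_14_X16

lemma g_1_2_7_15_X18 : Good (27 / 10) [1, 2, 7, 15] 18 :=
  Good.skip (by decide +kernel) g_1_2_7_15_X19

lemma g_1_2_7_15_X17 : Good (27 / 10) [1, 2, 7, 15] 17 :=
  Good.skip (by decide +kernel) g_1_2_7_15_X18

lemma g_1_2_7_15_X16 : Good (27 / 10) [1, 2, 7, 15] 16 :=
  Good.skip (by decide +kernel) g_1_2_7_15_X17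

lemma g_1_2_7_16_X19 : Good (27 / 10) [1, 2, 7, 16] 19 :=
  Good.skip (by decide +kernel) g_1_2_7_16_X20

lemma g_1_2_7_16_X18 : Good (27 / 10) [1, 2, 7, 16] 18 :=
  Good.skip (by decide +kernel) g_1_2_7_16_X19

lemma g_1_2_7_16_X17 : Good (27 / 10) [1, 2, 7, 16] 17 :=
  Good.skip (by decide +kernel) g_1_2_7_16_X18

lemma g_1_2_7_17_21_X31 : Good (27 / 10) [1, 2, 7, 17, 21] 31 :=
  Good.skip (by decide +kernel) g_1_2_7_17_21_X32

lemma g_1_2_7_17_21_X30 : Good (27 / 10) [1, 2, 7, 17, 21] 30 :=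
  Good.skip (by decide +kernel) g_1_2_7_17_21_X31

lemma g_1_2_7_17_21_X29 : Good (27 / 10) [1, 2, 7, 17, 21] 29 :=
  Good.skip (by decide +kernel) g_1_2_7_17_21_X30

lemma g_1_2_7_17_21_X28 : Good (27 / 10) [1, 2, 7, 17, 21] 28 :=
  Good.skip (by decide +kernel) g_1_2_7_17_21_X29

lemma g_1_2_7_17_21_X27 : Good (27 / 10) [1, 2, 7, 17, 21] 27 :=
  Good.skip (by decide +kernel) g_1_2_7_17_21_X28

lemma g_1_2_7_17_21_X26 : Good (27 / 10) [1, 2, 7, 17, 21] 26 :=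
  Good.skip (by decide +kernel) g_1_2_7_17_21_X27

lemma g_1_2_7_17_21_X25 : Good (27 / 10) [1, 2, 7, 17, 21] 25 :=
  Good.skip (by decide +kernel) g_1_2_7_17_21_X26

lemma g_1_2_7_17_21_X24 : Good (27 / 10) [1, 2, 7, 17, 21] 24 :=
  Good.skip (by decide +kernel) g_1_2_7_17_21_X25

lemma g_1_2_7_17_21_X23 : Good (27 / 10) [1, 2, 7, 17, 21] 23 :=
  Good.skip (by decide +kernel) g_1_2_7_17_21_X24

lemma g_1_2_7_17_21_X22 : Good (27 / 10) [1, 2, 7, 17, 21] 22 :=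
  Good.skip (by decide +kernel) g_1_2_7_17_21_X23

lemma g_1_2_7_17_X21 : Good (27 / 10) [1, 2, 7, 17] 21 :=
  Good.branch g_1_2_7_17_21_X22 g_1_2_7_17_X22

lemma g_1_2_7_17_X20 : Good (27 / 10) [1, 2, 7, 17] 20 :=
  Good.skip (by decide +kernel) g_1_2_7_17_X21

lemma g_1_2_7_17_X19 : Good (27 / 10) [1, 2, 7, 17] 19 :=
  Good.skip (by decide +kernel) g_1_2_7_17_X20

lemma g_1_2_7_17_X18 : Good (27 / 10) [1, 2, 7, 17] 18 :=
  Good.skip (by decide +kernel) g_1_2_7_17_X19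

lemma g_1_2_7_18_22_X32 : Good (27 / 10) [1, 2, 7, 18, 22] 32 :=
  Good.skip (by decide +kernel) g_1_2_7_18_22_X33

lemma g_1_2_7_18_22_X31 : Good (27 / 10) [1, 2, 7, 18, 22] 31 :=
  Good.skip (by decide +kernel) g_1_2_7_18_22_X32

lemma g_1_2_7_18_22_X30 : Good (27 / 10) [1, 2, 7, 18, 22] 30 :=
  Good.skip (by decide +kernel) g_1_2_7_18_22_X31

lemma g_1_2_7_18_22_X29 : Good (27 / 10) [1, 2, 7, 18, 22] 29 :=
  Good.skip (by decide +kernel) g_1_2_7_18_22_X30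

lemma g_1_2_7_18_22_X28 : Good (27 / 10) [1, 2, 7, 18, 22] 28 :=
  Good.skip (by decide +kernel) g_1_2_7_18_22_X29

lemma g_1_2_7_18_22_X27 : Good (27 / 10) [1, 2, 7, 18, 22] 27 :=
  Good.skip (by decide +kernel) g_1_2_7_18_22_X28

lemma g_1_2_7_18_22_X26 : Good (27 / 10) [1, 2, 7, 18, 22] 26 :=
  Good.skip (by decide +kernel) g_1_2_7_18_22_X27

lemma g_1_2_7_18_22_X25 : Good (27 / 10) [1, 2, 7, 18, 22] 25 :=
  Good.skip (by decide +kernel) g_1_2_7_18_22_X26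

lemma g_1_2_7_18_22_X24 : Good (27 / 10) [1, 2, 7, 18, 22] 24 :=
  Good.skip (by decide +kernel) g_1_2_7_18_22_X25

lemma g_1_2_7_18_22_X23 : Good (27 / 10) [1, 2, 7, 18, 22] 23 :=
  Good.skip (by decide +kernel) g_1_2_7_18_22_X24

lemma g_1_2_7_18_23_X28 : Good (27 / 10) [1, 2, 7, 18, 23] 28 :=
  Good.skip (by decide +kernel) g_1_2_7_18_23_X29

lemma g_1_2_7_18_23_X27 : Good (27 / 10) [1, 2, 7, 18, 23] 27 :=
  Good.skip (by decide +kernel) g_1_2_7_18_23_X28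

lemma g_1_2_7_18_23_X26 : Good (27 / 10) [1, 2, 7, 18, 23] 26 :=
  Good.skip (by decide +kernel) g_1_2_7_18_23_X27

lemma g_1_2_7_18_23_X25 : Good (27 / 10) [1, 2, 7, 18, 23] 25 :=
  Good.skip (by decide +kernel) g_1_2_7_18_23_X26

lemma g_1_2_7_18_23_X24 : Good (27 / 10) [1, 2, 7, 18, 23] 24 :=
  Good.skip (by decide +kernel) g_1_2_7_18_23_X25

lemma g_1_2_7_18_24_29_X34 : Good (27 / 10) [1, 2, 7, 18, 24, 29] 34 :=
  Good.skip (by decide +kernel) g_1_2_7_18_24_29_X35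

lemma g_1_2_7_18_24_29_X33 : Good (27 / 10) [1, 2, 7, 18, 24, 29] 33 :=
  Good.skip (by decide +kernel) g_1_2_7_18_24_29_X34

lemma g_1_2_7_18_24_29_X32 : Good (27 / 10) [1, 2, 7, 18, 24, 29] 32 :=
  Good.skip (by decide +kernel) g_1_2_7_18_24_29_X33

lemma g_1_2_7_18_24_29_X31 : Good (27 / 10) [1, 2, 7, 18, 24, 29] 31 :=
  Good.skip (by decide +kernel) g_1_2_7_18_24_29_X32

lemma g_1_2_7_18_24_29_X30 : Good (27 / 10) [1, 2, 7, 18, 24, 29] 30 :=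
  Good.skip (by decide +kernel) g_1_2_7_18_24_29_X31

lemma g_1_2_7_18_24_30_X34 : Good (27 / 10) [1, 2, 7, 18, 24, 30] 34 :=
  Good.skip (by decide +kernel) g_1_2_7_18_24_30_X35

lemma g_1_2_7_18_24_30_X33 : Good (27 / 10) [1, 2, 7, 18, 24, 30] 33 :=
  Good.skip (by decide +kernel) g_1_2_7_18_24_30_X34

lemma g_1_2_7_18_24_30_X32 : Good (27 / 10) [1, 2, 7, 18, 24, 30] 32 :=
  Good.skip (by decide +kernel) g_1_2_7_18_24_30_X33

lemma g_1_2_7_18_24_30_X31 : Good (27 / 10) [1, 2, 7, 18, 24, 30] 31 :=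
  Good.skip (by decide +kernel) g_1_2_7_18_24_30_X32

lemma g_1_2_7_18_24_X34 : Good (27 / 10) [1, 2, 7, 18, 24] 34 :=
  Good.skip (by decide +kernel) g_1_2_7_18_24_X35

lemma g_1_2_7_18_24_X33 : Good (27 / 10) [1, 2, 7, 18, 24] 33 :=
  Good.skip (by decide +kernel) g_1_2_7_18_24_X34

lemma g_1_2_7_18_24_X32 : Good (27 / 10) [1, 2, 7, 18, 24] 32 :=
  Good.skip (by decide +kernel) g_1_2_7_18_24_X33

lemma g_1_2_7_18_24_X31 : Good (27 / 10) [1, 2, 7, 18, 24] 31 :=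
  Good.skip (by decide +kernel) g_1_2_7_18_24_X32

lemma g_1_2_7_18_24_X30 : Good (27 / 10) [1, 2, 7, 18, 24] 30 :=
  Good.branch g_1_2_7_18_24_30_X31 g_1_2_7_18_24_X31

lemma g_1_2_7_18_24_X29 : Good (27 / 10) [1, 2, 7, 18, 24] 29 :=
  Good.branch g_1_2_7_18_24_29_X30 g_1_2_7_18_24_X30

lemma g_1_2_7_18_24_X28 : Good (27 / 10) [1, 2, 7, 18, 24] 28 :=
  Good.skip (by decide +kernel) g_1_2_7_18_24_X29

lemma g_1_2_7_18_24_X27 : Good (27 / 10) [1, 2, 7, 18, 24] 27 :=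
  Good.skip (by decide +kernel) g_1_2_7_18_24_X28

lemma g_1_2_7_18_24_X26 : Good (27 / 10) [1, 2, 7, 18, 24] 26 :=
  Good.skip (by decide +kernel) g_1_2_7_18_24_X27

lemma g_1_2_7_18_24_X25 : Good (27 / 10) [1, 2, 7, 18, 24] 25 :=
  Good.skip (by decide +kernel) g_1_2_7_18_24_X26

lemma g_1_2_7_18_X28 : Good (27 / 10) [1, 2, 7, 18] 28 :=
  Good.skip (by decide +kernel) g_1_2_7_18_X29

lemma g_1_2_7_18_X27 : Good (27 / 10) [1, 2, 7, 18] 27 :=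
  Good.skip (by decide +kernel) g_1_2_7_18_X28

lemma g_1_2_7_18_X26 : Good (27 / 10) [1, 2, 7, 18] 26 :=
  Good.skip (by decide +kernel) g_1_2_7_18_X27

lemma g_1_2_7_18_X25 : Good (27 / 10) [1, 2, 7, 18] 25 :=
  Good.skip (by decide +kernel) g_1_2_7_18_X26

lemma g_1_2_7_18_X24 : Good (27 / 10) [1, 2, 7, 18] 24 :=
  Good.branch g_1_2_7_18_24_X25 g_1_2_7_18_X25

lemma g_1_2_7_18_X23 : Good (27 / 10) [1, 2, 7, 18] 23 :=
  Good.branch g_1_2_7_18_23_X24 g_1_2_7_18_X24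

lemma g_1_2_7_18_X22 : Good (27 / 10) [1, 2, 7, 18] 22 :=
  Good.branch g_1_2_7_18_22_X23 g_1_2_7_18_X23

lemma g_1_2_7_18_X21 : Good (27 / 10) [1, 2, 7, 18] 21 :=
  Good.skip (by decide +kernel) g_1_2_7_18_X22

lemma g_1_2_7_18_X20 : Good (27 / 10) [1, 2, 7, 18] 20 :=
  Good.skip (by decide +kernel) g_1_2_7_18_X21

lemma g_1_2_7_18_X19 : Good (27 / 10) [1, 2, 7, 18] 19 :=
  Good.skip (by decide +kernel) g_1_2_7_18_X20

lemma g_1_2_7_19_23_X33 : Good (27 / 10) [1, 2, 7, 19, 23] 33 :=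
  Good.skip (by decide +kernel) g_1_2_7_19_23_X34

lemma g_1_2_7_19_23_X32 : Good (27 / 10) [1, 2, 7, 19, 23] 32 :=
  Good.skip (by decide +kernel) g_1_2_7_19_23_X33

lemma g_1_2_7_19_23_X31 : Good (27 / 10) [1, 2, 7, 19, 23] 31 :=
  Good.skip (by decide +kernel) g_1_2_7_19_23_X32

lemma g_1_2_7_19_23_X30 : Good (27 / 10) [1, 2, 7, 19, 23] 30 :=
  Good.skip (by decide +kernel) g_1_2_7_19_23_X31

lemma g_1_2_7_19_23_X29 : Good (27 / 10) [1, 2, 7, 19, 23] 29 :=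
  Good.skip (by decide +kernel) g_1_2_7_19_23_X30

lemma g_1_2_7_19_23_X28 : Good (27 / 10) [1, 2, 7, 19, 23] 28 :=
  Good.skip (by decide +kernel) g_1_2_7_19_23_X29

lemma g_1_2_7_19_23_X27 : Good (27 / 10) [1, 2, 7, 19, 23] 27 :=
  Good.skip (by decide +kernel) g_1_2_7_19_23_X28

lemma g_1_2_7_19_23_X26 : Good (27 / 10) [1, 2, 7, 19, 23] 26 :=
  Good.skip (by decide +kernel) g_1_2_7_19_23_X27

lemma g_1_2_7_19_23_X25 : Good (27 / 10) [1, 2, 7, 19, 23] 25 :=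
  Good.skip (by decide +kernel) g_1_2_7_19_23_X26

lemma g_1_2_7_19_23_X24 : Good (27 / 10) [1, 2, 7, 19, 23] 24 :=
  Good.skip (by decide +kernel) g_1_2_7_19_23_X25

lemma g_1_2_7_19_24_X29 : Good (27 / 10) [1, 2, 7, 19, 24] 29 :=
  Good.skip (by decide +kernel) g_1_2_7_19_24_X30

lemma g_1_2_7_19_24_X28 : Good (27 / 10) [1, 2, 7, 19, 24] 28 :=
  Good.skip (by decide +kernel) g_1_2_7_19_24_X29

lemma g_1_2_7_19_24_X27 : Good (27 / 10) [1, 2, 7, 19, 24] 27 :=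
  Good.skip (by decide +kernel) g_1_2_7_19_24_X28

lemma g_1_2_7_19_24_X26 : Good (27 / 10) [1, 2, 7, 19, 24] 26 :=
  Good.skip (by decide +kernel) g_1_2_7_19_24_X27

lemma g_1_2_7_19_24_X25 : Good (27 / 10) [1, 2, 7, 19, 24] 25 :=
  Good.skip (by decide +kernel) g_1_2_7_19_24_X26

lemma g_1_2_7_19_25_X29 : Good (27 / 10) [1, 2, 7, 19, 25] 29 :=
  Good.skip (by decide +kernel) g_1_2_7_19_25_X30

lemma g_1_2_7_19_25_X28 : Good (27 / 10) [1, 2, 7, 19, 25] 28 :=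
  Good.skip (by decide +kernel) g_1_2_7_19_25_X29

lemma g_1_2_7_19_25_X27 : Good (27 / 10) [1, 2, 7, 19, 25] 27 :=
  Good.skip (by decide +kernel) g_1_2_7_19_25_X28

lemma g_1_2_7_19_25_X26 : Good (27 / 10) [1, 2, 7, 19, 25] 26 :=
  Good.skip (by decide +kernel) g_1_2_7_19_25_X27

lemma g_1_2_7_19_X29 : Good (27 / 10) [1, 2, 7, 19] 29 :=
  Good.skip (by decide +kernel) g_1_2_7_19_X30

lemma g_1_2_7_19_X28 : Good (27 / 10) [1, 2, 7, 19] 28 :=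
  Good.skip (by decide +kernel) g_1_2_7_19_X29

lemma g_1_2_7_19_X27 : Good (27 / 10) [1, 2, 7, 19] 27 :=
  Good.skip (by decide +kernel) g_1_2_7_19_X28

lemma g_1_2_7_19_X26 : Good (27 / 10) [1, 2, 7, 19] 26 :=
  Good.skip (by decide +kernel) g_1_2_7_19_X27

lemma g_1_2_7_19_X25 : Good (27 / 10) [1, 2, 7, 19] 25 :=
  Good.branch g_1_2_7_19_25_X26 g_1_2_7_19_X26

lemma g_1_2_7_19_X24 : Good (27 / 10) [1, 2, 7, 19] 24 :=
  Good.branch g_1_2_7_19_24_X25 g_1_2_7_19_X25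

lemma g_1_2_7_19_X23 : Good (27 / 10) [1, 2, 7, 19] 23 :=
  Good.branch g_1_2_7_19_23_X24 g_1_2_7_19_X24

lemma g_1_2_7_19_X22 : Good (27 / 10) [1, 2, 7, 19] 22 :=
  Good.skip (by decide +kernel) g_1_2_7_19_X23

lemma g_1_2_7_19_X21 : Good (27 / 10) [1, 2, 7, 19] 21 :=
  Good.skip (by decide +kernel) g_1_2_7_19_X22

lemma g_1_2_7_19_X20 : Good (27 / 10) [1, 2, 7, 19] 20 :=
  Good.skip (by decide +kernel) g_1_2_7_19_X21

lemma g_1_2_7_20_24_X34 : Good (27 / 10) [1, 2, 7, 20, 24] 34 :=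
  Good.skip (by decide +kernel) g_1_2_7_20_24_X35

lemma g_1_2_7_20_24_X33 : Good (27 / 10) [1, 2, 7, 20, 24] 33 :=
  Good.skip (by decide +kernel) g_1_2_7_20_24_X34

lemma g_1_2_7_20_24_X32 : Good (27 / 10) [1, 2, 7, 20, 24] 32 :=
  Good.skip (by decide +kernel) g_1_2_7_20_24_X33

lemma g_1_2_7_20_24_X31 : Good (27 / 10) [1, 2, 7, 20, 24] 31 :=
  Good.skip (by decide +kernel) g_1_2_7_20_24_X32

lemma g_1_2_7_20_24_X30 : Good (27 / 10) [1, 2, 7, 20, 24] 30 :=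
  Good.skip (by decide +kernel) g_1_2_7_20_24_X31

lemma g_1_2_7_20_24_X29 : Good (27 / 10) [1, 2, 7, 20, 24] 29 :=
  Good.skip (by decide +kernel) g_1_2_7_20_24_X30

lemma g_1_2_7_20_24_X28 : Good (27 / 10) [1, 2, 7, 20, 24] 28 :=
  Good.skip (by decide +kernel) g_1_2_7_20_24_X29

lemma g_1_2_7_20_24_X27 : Good (27 / 10) [1, 2, 7, 20, 24] 27 :=
  Good.skip (by decide +kernel) g_1_2_7_20_24_X28

lemma g_1_2_7_20_24_X26 : Good (27 / 10) [1, 2, 7, 20, 24] 26 :=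
  Good.skip (by decide +kernel) g_1_2_7_20_24_X27

lemma g_1_2_7_20_24_X25 : Good (27 / 10) [1, 2, 7, 20, 24] 25 :=
  Good.skip (by decide +kernel) g_1_2_7_20_24_X26

lemma g_1_2_7_20_25_X30 : Good (27 / 10) [1, 2, 7, 20, 25] 30 :=
  Good.skip (by decide +kernel) g_1_2_7_20_25_X31

lemma g_1_2_7_20_25_X29 : Good (27 / 10) [1, 2, 7, 20, 25] 29 :=
  Good.skip (by decide +kernel) g_1_2_7_20_25_X30

lemma g_1_2_7_20_25_X28 : Good (27 / 10) [1, 2, 7, 20, 25] 28 :=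
  Good.skip (by decide +kernel) g_1_2_7_20_25_X29

lemma g_1_2_7_20_25_X27 : Good (27 / 10) [1, 2, 7, 20, 25] 27 :=
  Good.skip (by decide +kernel) g_1_2_7_20_25_X28

lemma g_1_2_7_20_25_X26 : Good (27 / 10) [1, 2, 7, 20, 25] 26 :=
  Good.skip (by decide +kernel) g_1_2_7_20_25_X27

lemma g_1_2_7_20_26_X30 : Good (27 / 10) [1, 2, 7, 20, 26] 30 :=
  Good.skip (by decide +kernel) g_1_2_7_20_26_X31

lemma g_1_2_7_20_26_X29 : Good (27 / 10) [1, 2, 7, 20, 26] 29 :=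
  Good.skip (by decide +kernel) g_1_2_7_20_26_X30

lemma g_1_2_7_20_26_X28 : Good (27 / 10) [1, 2, 7, 20, 26] 28 :=
  Good.skip (by decide +kernel) g_1_2_7_20_26_X29

lemma g_1_2_7_20_26_X27 : Good (27 / 10) [1, 2, 7, 20, 26] 27 :=
  Good.skip (by decide +kernel) g_1_2_7_20_26_X28

lemma g_1_2_7_20_X30 : Good (27 / 10) [1, 2, 7, 20] 30 :=
  Good.skip (by decide +kernel) g_1_2_7_20_X31

lemma g_1_2_7_20_X29 : Good (27 / 10) [1, 2, 7, 20] 29 :=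
  Good.skip (by decide +kernel) g_1_2_7_20_X30

lemma g_1_2_7_20_X28 : Good (27 / 10) [1, 2, 7, 20] 28 :=
  Good.skip (by decide +kernel) g_1_2_7_20_X29

lemma g_1_2_7_20_X27 : Good (27 / 10) [1, 2, 7, 20] 27 :=
  Good.skip (by decide +kernel) g_1_2_7_20_X28

lemma g_1_2_7_20_X26 : Good (27 / 10) [1, 2, 7, 20] 26 :=
  Good.branch g_1_2_7_20_26_X27 g_1_2_7_20_X27

lemma g_1_2_7_20_X25 : Good (27 / 10) [1, 2, 7, 20] 25 :=
  Good.branch g_1_2_7_20_25_X26 g_1_2_7_20_X26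

lemma g_1_2_7_20_X24 : Good (27 / 10) [1, 2, 7, 20] 24 :=
  Good.branch g_1_2_7_20_24_X25 g_1_2_7_20_X25

lemma g_1_2_7_20_X23 : Good (27 / 10) [1, 2, 7, 20] 23 :=
  Good.skip (by decide +kernel) g_1_2_7_20_X24

lemma g_1_2_7_20_X22 : Good (27 / 10) [1, 2, 7, 20] 22 :=
  Good.skip (by decide +kernel) g_1_2_7_20_X23

lemma g_1_2_7_20_X21 : Good (27 / 10) [1, 2, 7, 20] 21 :=
  Good.skip (by decide +kernel) g_1_2_7_20_X22

lemma g_1_2_7_21_25_X35 : Good (27 / 10) [1, 2, 7, 21, 25] 35 :=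
  Good.skip (by decide +kernel) g_1_2_7_21_25_X36

lemma g_1_2_7_21_25_X34 : Good (27 / 10) [1, 2, 7, 21, 25] 34 :=
  Good.skip (by decide +kernel) g_1_2_7_21_25_X35

lemma g_1_2_7_21_25_X33 : Good (27 / 10) [1, 2, 7, 21, 25] 33 :=
  Good.skip (by decide +kernel) g_1_2_7_21_25_X34

lemma g_1_2_7_21_25_X32 : Good (27 / 10) [1, 2, 7, 21, 25] 32 :=
  Good.skip (by decide +kernel) g_1_2_7_21_25_X33

lemma g_1_2_7_21_25_X31 : Good (27 / 10) [1, 2, 7, 21, 25] 31 :=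
  Good.skip (by decide +kernel) g_1_2_7_21_25_X32

lemma g_1_2_7_21_25_X30 : Good (27 / 10) [1, 2, 7, 21, 25] 30 :=
  Good.skip (by decide +kernel) g_1_2_7_21_25_X31

lemma g_1_2_7_21_25_X29 : Good (27 / 10) [1, 2, 7, 21, 25] 29 :=
  Good.skip (by decide +kernel) g_1_2_7_21_25_X30

lemma g_1_2_7_21_25_X28 : Good (27 / 10) [1, 2, 7, 21, 25] 28 :=
  Good.skip (by decide +kernel) g_1_2_7_21_25_X29

lemma g_1_2_7_21_25_X27 : Good (27 / 10) [1, 2, 7, 21, 25] 27 :=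
  Good.skip (by decide +kernel) g_1_2_7_21_25_X28

lemma g_1_2_7_21_25_X26 : Good (27 / 10) [1, 2, 7, 21, 25] 26 :=
  Good.skip (by decide +kernel) g_1_2_7_21_25_X27

lemma g_1_2_7_21_26_X31 : Good (27 / 10) [1, 2, 7, 21, 26] 31 :=
  Good.skip (by decide +kernel) g_1_2_7_21_26_X32

lemma g_1_2_7_21_26_X30 : Good (27 / 10) [1, 2, 7, 21, 26] 30 :=
  Good.skip (by decide +kernel) g_1_2_7_21_26_X31

lemma g_1_2_7_21_26_X29 : Good (27 / 10) [1, 2, 7, 21, 26] 29 :=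
  Good.skip (by decide +kernel) g_1_2_7_21_26_X30

lemma g_1_2_7_21_26_X28 : Good (27 / 10) [1, 2, 7, 21, 26] 28 :=
  Good.skip (by decide +kernel) g_1_2_7_21_26_X29

lemma g_1_2_7_21_26_X27 : Good (27 / 10) [1, 2, 7, 21, 26] 27 :=
  Good.skip (by decide +kernel) g_1_2_7_21_26_X28

lemma g_1_2_7_21_27_X31 : Good (27 / 10) [1, 2, 7, 21, 27] 31 :=
  Good.skip (by decide +kernel) g_1_2_7_21_27_X32

lemma g_1_2_7_21_27_X30 : Good (27 / 10) [1, 2, 7, 21, 27] 30 :=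
  Good.skip (by decide +kernel) g_1_2_7_21_27_X31

lemma g_1_2_7_21_27_X29 : Good (27 / 10) [1, 2, 7, 21, 27] 29 :=
  Good.skip (by decide +kernel) g_1_2_7_21_27_X30

lemma g_1_2_7_21_27_X28 : Good (27 / 10) [1, 2, 7, 21, 27] 28 :=
  Good.skip (by decide +kernel) g_1_2_7_21_27_X29

lemma g_1_2_7_21_X31 : Good (27 / 10) [1, 2, 7, 21] 31 :=
  Good.skip (by decide +kernel) g_1_2_7_21_X32

lemma g_1_2_7_21_X30 : Good (27 / 10) [1, 2, 7, 21] 30 :=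
  Good.skip (by decide +kernel) g_1_2_7_21_X31

lemma g_1_2_7_21_X29 : Good (27 / 10) [1, 2, 7, 21] 29 :=
  Good.skip (by decide +kernel) g_1_2_7_21_X30

lemma g_1_2_7_21_X28 : Good (27 / 10) [1, 2, 7, 21] 28 :=
  Good.skip (by decide +kernel) g_1_2_7_21_X29

lemma g_1_2_7_21_X27 : Good (27 / 10) [1, 2, 7, 21] 27 :=
  Good.branch g_1_2_7_21_27_X28 g_1_2_7_21_X28

lemma g_1_2_7_21_X26 : Good (27 / 10) [1, 2, 7, 21] 26 :=
  Good.branch g_1_2_7_21_26_X27 g_1_2_7_21_X27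

lemma g_1_2_7_21_X25 : Good (27 / 10) [1, 2, 7, 21] 25 :=
  Good.branch g_1_2_7_21_25_X26 g_1_2_7_21_X26

lemma g_1_2_7_21_X24 : Good (27 / 10) [1, 2, 7, 21] 24 :=
  Good.skip (by decide +kernel) g_1_2_7_21_X25

lemma g_1_2_7_21_X23 : Good (27 / 10) [1, 2, 7, 21] 23 :=
  Good.skip (by decide +kernel) g_1_2_7_21_X24

lemma g_1_2_7_21_X22 : Good (27 / 10) [1, 2, 7, 21] 22 :=
  Good.skip (by decide +kernel) g_1_2_7_21_X23

lemma g_1_2_7_22_26_X36 : Good (27 / 10) [1, 2, 7, 22, 26] 36 :=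
  Good.skip (by decide +kernel) g_1_2_7_22_26_X37

lemma g_1_2_7_22_26_X35 : Good (27 / 10) [1, 2, 7, 22, 26] 35 :=
  Good.skip (by decide +kernel) g_1_2_7_22_26_X36

lemma g_1_2_7_22_26_X34 : Good (27 / 10) [1, 2, 7, 22, 26] 34 :=
  Good.skip (by decide +kernel) g_1_2_7_22_26_X35

lemma g_1_2_7_22_26_X33 : Good (27 / 10) [1, 2, 7, 22, 26] 33 :=
  Good.skip (by decide +kernel) g_1_2_7_22_26_X34

lemma g_1_2_7_22_26_X32 : Good (27 / 10) [1, 2, 7, 22, 26] 32 :=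
  Good.skip (by decide +kernel) g_1_2_7_22_26_X33

lemma g_1_2_7_22_26_X31 : Good (27 / 10) [1, 2, 7, 22, 26] 31 :=
  Good.skip (by decide +kernel) g_1_2_7_22_26_X32

lemma g_1_2_7_22_26_X30 : Good (27 / 10) [1, 2, 7, 22, 26] 30 :=
  Good.skip (by decide +kernel) g_1_2_7_22_26_X31

lemma g_1_2_7_22_26_X29 : Good (27 / 10) [1, 2, 7, 22, 26] 29 :=
  Good.skip (by decide +kernel) g_1_2_7_22_26_X30

lemma g_1_2_7_22_26_X28 : Good (27 / 10) [1, 2, 7, 22, 26] 28 :=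
  Good.skip (by decide +kernel) g_1_2_7_22_26_X29

lemma g_1_2_7_22_26_X27 : Good (27 / 10) [1, 2, 7, 22, 26] 27 :=
  Good.skip (by decide +kernel) g_1_2_7_22_26_X28

lemma g_1_2_7_22_27_X32 : Good (27 / 10) [1, 2, 7, 22, 27] 32 :=
  Good.skip (by decide +kernel) g_1_2_7_22_27_X33

lemma g_1_2_7_22_27_X31 : Good (27 / 10) [1, 2, 7, 22, 27] 31 :=
  Good.skip (by decide +kernel) g_1_2_7_22_27_X32

lemma g_1_2_7_22_27_X30 : Good (27 / 10) [1, 2, 7, 22, 27] 30 :=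
  Good.skip (by decide +kernel) g_1_2_7_22_27_X31

lemma g_1_2_7_22_27_X29 : Good (27 / 10) [1, 2, 7, 22, 27] 29 :=
  Good.skip (by decide +kernel) g_1_2_7_22_27_X30

lemma g_1_2_7_22_27_X28 : Good (27 / 10) [1, 2, 7, 22, 27] 28 :=
  Good.skip (by decide +kernel) g_1_2_7_22_27_X29

lemma g_1_2_7_22_28_X32 : Good (27 / 10) [1, 2, 7, 22, 28] 32 :=
  Good.skip (by decide +kernel) g_1_2_7_22_28_X33

lemma g_1_2_7_22_28_X31 : Good (27 / 10) [1, 2, 7, 22, 28] 31 :=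
  Good.skip (by decide +kernel) g_1_2_7_22_28_X32

lemma g_1_2_7_22_28_X30 : Good (27 / 10) [1, 2, 7, 22, 28] 30 :=
  Good.skip (by decide +kernel) g_1_2_7_22_28_X31

lemma g_1_2_7_22_28_X29 : Good (27 / 10) [1, 2, 7, 22, 28] 29 :=
  Good.skip (by decide +kernel) g_1_2_7_22_28_X30

lemma g_1_2_7_22_X32 : Good (27 / 10) [1, 2, 7, 22] 32 :=
  Good.skip (by decide +kernel) g_1_2_7_22_X33

lemma g_1_2_7_22_X31 : Good (27 / 10) [1, 2, 7, 22] 31 :=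
  Good.skip (by decide +kernel) g_1_2_7_22_X32

lemma g_1_2_7_22_X30 : Good (27 / 10) [1, 2, 7, 22] 30 :=
  Good.skip (by decide +kernel) g_1_2_7_22_X31

lemma g_1_2_7_22_X29 : Good (27 / 10) [1, 2, 7, 22] 29 :=
  Good.skip (by decide +kernel) g_1_2_7_22_X30

lemma g_1_2_7_22_X28 : Good (27 / 10) [1, 2, 7, 22] 28 :=
  Good.branch g_1_2_7_22_28_X29 g_1_2_7_22_X29

lemma g_1_2_7_22_X27 : Good (27 / 10) [1, 2, 7, 22] 27 :=
  Good.branch g_1_2_7_22_27_X28 g_1_2_7_22_X28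

lemma g_1_2_7_22_X26 : Good (27 / 10) [1, 2, 7, 22] 26 :=
  Good.branch g_1_2_7_22_26_X27 g_1_2_7_22_X27

lemma g_1_2_7_22_X25 : Good (27 / 10) [1, 2, 7, 22] 25 :=
  Good.skip (by decide +kernel) g_1_2_7_22_X26

lemma g_1_2_7_22_X24 : Good (27 / 10) [1, 2, 7, 22] 24 :=
  Good.skip (by decide +kernel) g_1_2_7_22_X25

lemma g_1_2_7_22_X23 : Good (27 / 10) [1, 2, 7, 22] 23 :=
  Good.skip (by decide +kernel) g_1_2_7_22_X24

lemma g_1_2_7_23_27_X37 : Good (27 / 10) [1, 2, 7, 23, 27] 37 :=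
  Good.skip (by decide +kernel) g_1_2_7_23_27_X38

lemma g_1_2_7_23_27_X36 : Good (27 / 10) [1, 2, 7, 23, 27] 36 :=
  Good.skip (by decide +kernel) g_1_2_7_23_27_X37

lemma g_1_2_7_23_27_X35 : Good (27 / 10) [1, 2, 7, 23, 27] 35 :=
  Good.skip (by decide +kernel) g_1_2_7_23_27_X36

lemma g_1_2_7_23_27_X34 : Good (27 / 10) [1, 2, 7, 23, 27] 34 :=
  Good.skip (by decide +kernel) g_1_2_7_23_27_X35

lemma g_1_2_7_23_27_X33 : Good (27 / 10) [1, 2, 7, 23, 27] 33 :=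
  Good.skip (by decide +kernel) g_1_2_7_23_27_X34

lemma g_1_2_7_23_27_X32 : Good (27 / 10) [1, 2, 7, 23, 27] 32 :=
  Good.skip (by decide +kernel) g_1_2_7_23_27_X33

lemma g_1_2_7_23_27_X31 : Good (27 / 10) [1, 2, 7, 23, 27] 31 :=
  Good.skip (by decide +kernel) g_1_2_7_23_27_X32

lemma g_1_2_7_23_27_X30 : Good (27 / 10) [1, 2, 7, 23, 27] 30 :=
  Good.skip (by decide +kernel) g_1_2_7_23_27_X31

lemma g_1_2_7_23_27_X29 : Good (27 / 10) [1, 2, 7, 23, 27] 29 :=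
  Good.skip (by decide +kernel) g_1_2_7_23_27_X30

lemma g_1_2_7_23_27_X28 : Good (27 / 10) [1, 2, 7, 23, 27] 28 :=
  Good.skip (by decide +kernel) g_1_2_7_23_27_X29

lemma g_1_2_7_23_28_X33 : Good (27 / 10) [1, 2, 7, 23, 28] 33 :=
  Good.skip (by decide +kernel) g_1_2_7_23_28_X34

lemma g_1_2_7_23_28_X32 : Good (27 / 10) [1, 2, 7, 23, 28] 32 :=
  Good.skip (by decide +kernel) g_1_2_7_23_28_X33

lemma g_1_2_7_23_28_X31 : Good (27 / 10) [1, 2, 7, 23, 28] 31 :=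
  Good.skip (by decide +kernel) g_1_2_7_23_28_X32

lemma g_1_2_7_23_28_X30 : Good (27 / 10) [1, 2, 7, 23, 28] 30 :=
  Good.skip (by decide +kernel) g_1_2_7_23_28_X31

lemma g_1_2_7_23_28_X29 : Good (27 / 10) [1, 2, 7, 23, 28] 29 :=
  Good.skip (by decide +kernel) g_1_2_7_23_28_X30

lemma g_1_2_7_23_29_X33 : Good (27 / 10) [1, 2, 7, 23, 29] 33 :=
  Good.skip (by decide +kernel) g_1_2_7_23_29_X34

lemma g_1_2_7_23_29_X32 : Good (27 / 10) [1, 2, 7, 23, 29] 32 :=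
  Good.skip (by decide +kernel) g_1_2_7_23_29_X33

lemma g_1_2_7_23_29_X31 : Good (27 / 10) [1, 2, 7, 23, 29] 31 :=
  Good.skip (by decide +kernel) g_1_2_7_23_29_X32

lemma g_1_2_7_23_29_X30 : Good (27 / 10) [1, 2, 7, 23, 29] 30 :=
  Good.skip (by decide +kernel) g_1_2_7_23_29_X31

lemma g_1_2_7_23_X33 : Good (27 / 10) [1, 2, 7, 23] 33 :=
  Good.skip (by decide +kernel) g_1_2_7_23_X34

lemma g_1_2_7_23_X32 : Good (27 / 10) [1, 2, 7, 23] 32 :=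
  Good.skip (by decide +kernel) g_1_2_7_23_X33

lemma g_1_2_7_23_X31 : Good (27 / 10) [1, 2, 7, 23] 31 :=
  Good.skip (by decide +kernel) g_1_2_7_23_X32

lemma g_1_2_7_23_X30 : Good (27 / 10) [1, 2, 7, 23] 30 :=
  Good.skip (by decide +kernel) g_1_2_7_23_X31

lemma g_1_2_7_23_X29 : Good (27 / 10) [1, 2, 7, 23] 29 :=
  Good.branch g_1_2_7_23_29_X30 g_1_2_7_23_X30

lemma g_1_2_7_23_X28 : Good (27 / 10) [1, 2, 7, 23] 28 :=
  Good.branch g_1_2_7_23_28_X29 g_1_2_7_23_X29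

lemma g_1_2_7_23_X27 : Good (27 / 10) [1, 2, 7, 23] 27 :=
  Good.branch g_1_2_7_23_27_X28 g_1_2_7_23_X28

lemma g_1_2_7_23_X26 : Good (27 / 10) [1, 2, 7, 23] 26 :=
  Good.skip (by decide +kernel) g_1_2_7_23_X27

lemma g_1_2_7_23_X25 : Good (27 / 10) [1, 2, 7, 23] 25 :=
  Good.skip (by decide +kernel) g_1_2_7_23_X26

lemma g_1_2_7_23_X24 : Good (27 / 10) [1, 2, 7, 23] 24 :=
  Good.skip (by decide +kernel) g_1_2_7_23_X25

lemma g_1_2_7_24_28_X38 : Good (27 / 10) [1, 2, 7, 24, 28] 38 :=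
  Good.skip (by decide +kernel) g_1_2_7_24_28_X39

lemma g_1_2_7_24_28_X37 : Good (27 / 10) [1, 2, 7, 24, 28] 37 :=
  Good.skip (by decide +kernel) g_1_2_7_24_28_X38

lemma g_1_2_7_24_28_X36 : Good (27 / 10) [1, 2, 7, 24, 28] 36 :=
  Good.skip (by decide +kernel) g_1_2_7_24_28_X37

lemma g_1_2_7_24_28_X35 : Good (27 / 10) [1, 2, 7, 24, 28] 35 :=
  Good.skip (by decide +kernel) g_1_2_7_24_28_X36

lemma g_1_2_7_24_28_X34 : Good (27 / 10) [1, 2, 7, 24, 28] 34 :=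
  Good.skip (by decide +kernel) g_1_2_7_24_28_X35

lemma g_1_2_7_24_28_X33 : Good (27 / 10) [1, 2, 7, 24, 28] 33 :=
  Good.skip (by decide +kernel) g_1_2_7_24_28_X34

lemma g_1_2_7_24_28_X32 : Good (27 / 10) [1, 2, 7, 24, 28] 32 :=
  Good.skip (by decide +kernel) g_1_2_7_24_28_X33

lemma g_1_2_7_24_28_X31 : Good (27 / 10) [1, 2, 7, 24, 28] 31 :=
  Good.skip (by decide +kernel) g_1_2_7_24_28_X32

lemma g_1_2_7_24_28_X30 : Good (27 / 10) [1, 2, 7, 24, 28] 30 :=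
  Good.skip (by decide +kernel) g_1_2_7_24_28_X31

lemma g_1_2_7_24_28_X29 : Good (27 / 10) [1, 2, 7, 24, 28] 29 :=
  Good.skip (by decide +kernel) g_1_2_7_24_28_X30

lemma g_1_2_7_24_29_X34 : Good (27 / 10) [1, 2, 7, 24, 29] 34 :=
  Good.skip (by decide +kernel) g_1_2_7_24_29_X35

lemma g_1_2_7_24_29_X33 : Good (27 / 10) [1, 2, 7, 24, 29] 33 :=
  Good.skip (by decide +kernel) g_1_2_7_24_29_X34

lemma g_1_2_7_24_29_X32 : Good (27 / 10) [1, 2, 7, 24, 29] 32 :=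
  Good.skip (by decide +kernel) g_1_2_7_24_29_X33

lemma g_1_2_7_24_29_X31 : Good (27 / 10) [1, 2, 7, 24, 29] 31 :=
  Good.skip (by decide +kernel) g_1_2_7_24_29_X32

lemma g_1_2_7_24_29_X30 : Good (27 / 10) [1, 2, 7, 24, 29] 30 :=
  Good.skip (by decide +kernel) g_1_2_7_24_29_X31

lemma g_1_2_7_24_X29 : Good (27 / 10) [1, 2, 7, 24] 29 :=
  Good.branch g_1_2_7_24_29_X30 g_1_2_7_24_X30

lemma g_1_2_7_24_X28 : Good (27 / 10) [1, 2, 7, 24] 28 :=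
  Good.branch g_1_2_7_24_28_X29 g_1_2_7_24_X29

lemma g_1_2_7_24_X27 : Good (27 / 10) [1, 2, 7, 24] 27 :=
  Good.skip (by decide +kernel) g_1_2_7_24_X28

lemma g_1_2_7_24_X26 : Good (27 / 10) [1, 2, 7, 24] 26 :=
  Good.skip (by decide +kernel) g_1_2_7_24_X27

lemma g_1_2_7_24_X25 : Good (27 / 10) [1, 2, 7, 24] 25 :=
  Good.skip (by decide +kernel) g_1_2_7_24_X26

lemma g_1_2_7_25_29_X39 : Good (27 / 10) [1, 2, 7, 25, 29] 39 :=
  Good.skip (by decide +kernel) g_1_2_7_25_29_X40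

lemma g_1_2_7_25_29_X38 : Good (27 / 10) [1, 2, 7, 25, 29] 38 :=
  Good.skip (by decide +kernel) g_1_2_7_25_29_X39

lemma g_1_2_7_25_29_X37 : Good (27 / 10) [1, 2, 7, 25, 29] 37 :=
  Good.skip (by decide +kernel) g_1_2_7_25_29_X38

lemma g_1_2_7_25_29_X36 : Good (27 / 10) [1, 2, 7, 25, 29] 36 :=
  Good.skip (by decide +kernel) g_1_2_7_25_29_X37

lemma g_1_2_7_25_29_X35 : Good (27 / 10) [1, 2, 7, 25, 29] 35 :=
  Good.skip (by decide +kernel) g_1_2_7_25_29_X36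

lemma g_1_2_7_25_29_X34 : Good (27 / 10) [1, 2, 7, 25, 29] 34 :=
  Good.skip (by decide +kernel) g_1_2_7_25_29_X35

lemma g_1_2_7_25_29_X33 : Good (27 / 10) [1, 2, 7, 25, 29] 33 :=
  Good.skip (by decide +kernel) g_1_2_7_25_29_X34

lemma g_1_2_7_25_29_X32 : Good (27 / 10) [1, 2, 7, 25, 29] 32 :=
  Good.skip (by decide +kernel) g_1_2_7_25_29_X33

lemma g_1_2_7_25_29_X31 : Good (27 / 10) [1, 2, 7, 25, 29] 31 :=
  Good.skip (by decide +kernel) g_1_2_7_25_29_X32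

lemma g_1_2_7_25_29_X30 : Good (27 / 10) [1, 2, 7, 25, 29] 30 :=
  Good.skip (by decide +kernel) g_1_2_7_25_29_X31

lemma g_1_2_7_25_30_X35 : Good (27 / 10) [1, 2, 7, 25, 30] 35 :=
  Good.skip (by decide +kernel) g_1_2_7_25_30_X36

lemma g_1_2_7_25_30_X34 : Good (27 / 10) [1, 2, 7, 25, 30] 34 :=
  Good.skip (by decide +kernel) g_1_2_7_25_30_X35

lemma g_1_2_7_25_30_X33 : Good (27 / 10) [1, 2, 7, 25, 30] 33 :=
  Good.skip (by decide +kernel) g_1_2_7_25_30_X34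

lemma g_1_2_7_25_30_X32 : Good (27 / 10) [1, 2, 7, 25, 30] 32 :=
  Good.skip (by decide +kernel) g_1_2_7_25_30_X33

lemma g_1_2_7_25_30_X31 : Good (27 / 10) [1, 2, 7, 25, 30] 31 :=
  Good.skip (by decide +kernel) g_1_2_7_25_30_X32

lemma g_1_2_7_25_X30 : Good (27 / 10) [1, 2, 7, 25] 30 :=
  Good.branch g_1_2_7_25_30_X31 g_1_2_7_25_X31

lemma g_1_2_7_25_X29 : Good (27 / 10) [1, 2, 7, 25] 29 :=
  Good.branch g_1_2_7_25_29_X30 g_1_2_7_25_X30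

lemma g_1_2_7_25_X28 : Good (27 / 10) [1, 2, 7, 25] 28 :=
  Good.skip (by decide +kernel) g_1_2_7_25_X29

lemma g_1_2_7_25_X27 : Good (27 / 10) [1, 2, 7, 25] 27 :=
  Good.skip (by decide +kernel) g_1_2_7_25_X28

lemma g_1_2_7_25_X26 : Good (27 / 10) [1, 2, 7, 25] 26 :=
  Good.skip (by decide +kernel) g_1_2_7_25_X27

lemma g_1_2_7_26_30_X40 : Good (27 / 10) [1, 2, 7, 26, 30] 40 :=
  Good.skip (by decide +kernel) g_1_2_7_26_30_X41

lemma g_1_2_7_26_30_X39 : Good (27 / 10) [1, 2, 7, 26, 30] 39 :=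
  Good.skip (by decide +kernel) g_1_2_7_26_30_X40

lemma g_1_2_7_26_30_X38 : Good (27 / 10) [1, 2, 7, 26, 30] 38 :=
  Good.skip (by decide +kernel) g_1_2_7_26_30_X39

lemma g_1_2_7_26_30_X37 : Good (27 / 10) [1, 2, 7, 26, 30] 37 :=
  Good.skip (by decide +kernel) g_1_2_7_26_30_X38

lemma g_1_2_7_26_30_X36 : Good (27 / 10) [1, 2, 7, 26, 30] 36 :=
  Good.skip (by decide +kernel) g_1_2_7_26_30_X37

lemma g_1_2_7_26_30_X35 : Good (27 / 10) [1, 2, 7, 26, 30] 35 :=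
  Good.skip (by decide +kernel) g_1_2_7_26_30_X36

lemma g_1_2_7_26_30_X34 : Good (27 / 10) [1, 2, 7, 26, 30] 34 :=
  Good.skip (by decide +kernel) g_1_2_7_26_30_X35

lemma g_1_2_7_26_30_X33 : Good (27 / 10) [1, 2, 7, 26, 30] 33 :=
  Good.skip (by decide +kernel) g_1_2_7_26_30_X34

lemma g_1_2_7_26_30_X32 : Good (27 / 10) [1, 2, 7, 26, 30] 32 :=
  Good.skip (by decide +kernel) g_1_2_7_26_30_X33

lemma g_1_2_7_26_30_X31 : Good (27 / 10) [1, 2, 7, 26, 30] 31 :=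
  Good.skip (by decide +kernel) g_1_2_7_26_30_X32

lemma g_1_2_7_26_X30 : Good (27 / 10) [1, 2, 7, 26] 30 :=
  Good.branch g_1_2_7_26_30_X31 g_1_2_7_26_X31

lemma g_1_2_7_26_X29 : Good (27 / 10) [1, 2, 7, 26] 29 :=
  Good.skip (by decide +kernel) g_1_2_7_26_X30

lemma g_1_2_7_26_X28 : Good (27 / 10) [1, 2, 7, 26] 28 :=
  Good.skip (by decide +kernel) g_1_2_7_26_X29

lemma g_1_2_7_26_X27 : Good (27 / 10) [1, 2, 7, 26] 27 :=
  Good.skip (by decide +kernel) g_1_2_7_26_X28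

lemma g_1_2_7_27_31_X41 : Good (27 / 10) [1, 2, 7, 27, 31] 41 :=
  Good.skip (by decide +kernel) g_1_2_7_27_31_X42

lemma g_1_2_7_27_31_X40 : Good (27 / 10) [1, 2, 7, 27, 31] 40 :=
  Good.skip (by decide +kernel) g_1_2_7_27_31_X41

lemma g_1_2_7_27_31_X39 : Good (27 / 10) [1, 2, 7, 27, 31] 39 :=
  Good.skip (by decide +kernel) g_1_2_7_27_31_X40

lemma g_1_2_7_27_31_X38 : Good (27 / 10) [1, 2, 7, 27, 31] 38 :=
  Good.skip (by decide +kernel) g_1_2_7_27_31_X39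

lemma g_1_2_7_27_31_X37 : Good (27 / 10) [1, 2, 7, 27, 31] 37 :=
  Good.skip (by decide +kernel) g_1_2_7_27_31_X38

lemma g_1_2_7_27_31_X36 : Good (27 / 10) [1, 2, 7, 27, 31] 36 :=
  Good.skip (by decide +kernel) g_1_2_7_27_31_X37

lemma g_1_2_7_27_31_X35 : Good (27 / 10) [1, 2, 7, 27, 31] 35 :=
  Good.skip (by decide +kernel) g_1_2_7_27_31_X36

lemma g_1_2_7_27_31_X34 : Good (27 / 10) [1, 2, 7, 27, 31] 34 :=
  Good.skip (by decide +kernel) g_1_2_7_27_31_X35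

lemma g_1_2_7_27_31_X33 : Good (27 / 10) [1, 2, 7, 27, 31] 33 :=
  Good.skip (by decide +kernel) g_1_2_7_27_31_X34

lemma g_1_2_7_27_31_X32 : Good (27 / 10) [1, 2, 7, 27, 31] 32 :=
  Good.skip (by decide +kernel) g_1_2_7_27_31_X33

lemma g_1_2_7_27_X31 : Good (27 / 10) [1, 2, 7, 27] 31 :=
  Good.branch g_1_2_7_27_31_X32 g_1_2_7_27_X32

lemma g_1_2_7_27_X30 : Good (27 / 10) [1, 2, 7, 27] 30 :=
  Good.skip (by decide +kernel) g_1_2_7_27_X31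

lemma g_1_2_7_27_X29 : Good (27 / 10) [1, 2, 7, 27] 29 :=
  Good.skip (by decide +kernel) g_1_2_7_27_X30

lemma g_1_2_7_27_X28 : Good (27 / 10) [1, 2, 7, 27] 28 :=
  Good.skip (by decide +kernel) g_1_2_7_27_X29

lemma g_1_2_7_X27 : Good (27 / 10) [1, 2, 7] 27 :=
  Good.branch g_1_2_7_27_X28 g_1_2_7_X28

lemma g_1_2_7_X26 : Good (27 / 10) [1, 2, 7] 26 :=
  Good.branch g_1_2_7_26_X27 g_1_2_7_X27

lemma g_1_2_7_X25 : Good (27 / 10) [1, 2, 7] 25 :=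
  Good.branch g_1_2_7_25_X26 g_1_2_7_X26

lemma g_1_2_7_X24 : Good (27 / 10) [1, 2, 7] 24 :=
  Good.branch g_1_2_7_24_X25 g_1_2_7_X25

lemma g_1_2_7_X23 : Good (27 / 10) [1, 2, 7] 23 :=
  Good.branch g_1_2_7_23_X24 g_1_2_7_X24

lemma g_1_2_7_X22 : Good (27 / 10) [1, 2, 7] 22 :=
  Good.branch g_1_2_7_22_X23 g_1_2_7_X23

lemma g_1_2_7_X21 : Good (27 / 10) [1, 2, 7] 21 :=
  Good.branch g_1_2_7_21_X22 g_1_2_7_X22

lemma g_1_2_7_X20 : Good (27 / 10) [1, 2, 7] 20 :=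
  Good.branch g_1_2_7_20_X21 g_1_2_7_X21

lemma g_1_2_7_X19 : Good (27 / 10) [1, 2, 7] 19 :=
  Good.branch g_1_2_7_19_X20 g_1_2_7_X20

lemma g_1_2_7_X18 : Good (27 / 10) [1, 2, 7] 18 :=
  Good.branch g_1_2_7_18_X19 g_1_2_7_X19

lemma g_1_2_7_X17 : Good (27 / 10) [1, 2, 7] 17 :=
  Good.branch g_1_2_7_17_X18 g_1_2_7_X18

lemma g_1_2_7_X16 : Good (27 / 10) [1, 2, 7] 16 :=
  Good.branch g_1_2_7_16_X17 g_1_2_7_X17

lemma g_1_2_7_X15 : Good (27 / 10) [1, 2, 7] 15 :=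
  Good.branch g_1_2_7_15_X16 g_1_2_7_X16

lemma g_1_2_7_X14 : Good (27 / 10) [1, 2, 7] 14 :=
  Good.branch g_1_2_7_14_X15 g_1_2_7_X15

lemma g_1_2_7_X13 : Good (27 / 10) [1, 2, 7] 13 :=
  Good.branch g_1_2_7_13_X14 g_1_2_7_X14

lemma g_1_2_7_X12 : Good (27 / 10) [1, 2, 7] 12 :=
  Good.branch g_1_2_7_12_X13 g_1_2_7_X13

lemma g_1_2_7_X11 : Good (27 / 10) [1, 2, 7] 11 :=
  Good.branch g_1_2_7_11_X12 g_1_2_7_X12

lemma g_1_2_7_X10 : Good (27 / 10) [1, 2, 7] 10 :=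
  Good.skip (by decide +kernel) g_1_2_7_X11

lemma g_1_2_7_X9 : Good (27 / 10) [1, 2, 7] 9 :=
  Good.skip (by decide +kernel) g_1_2_7_X10

lemma g_1_2_7_X8 : Good (27 / 10) [1, 2, 7] 8 :=
  Good.skip (by decide +kernel) g_1_2_7_X9

lemma g_1_2_8_12_X15 : Good (27 / 10) [1, 2, 8, 12] 15 :=
  Good.skip (by decide +kernel) g_1_2_8_12_X16

lemma g_1_2_8_12_X14 : Good (27 / 10) [1, 2, 8, 12] 14 :=
  Good.skip (by decide +kernel) g_1_2_8_12_X15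

lemma g_1_2_8_12_X13 : Good (27 / 10) [1, 2, 8, 12] 13 :=
  Good.skip (by decide +kernel) g_1_2_8_12_X14

lemma g_1_2_8_13_17_X28 : Good (27 / 10) [1, 2, 8, 13, 17] 28 :=
  Good.skip (by decide +kernel) g_1_2_8_13_17_X29

lemma g_1_2_8_13_17_X27 : Good (27 / 10) [1, 2, 8, 13, 17] 27 :=
  Good.skip (by decide +kernel) g_1_2_8_13_17_X28

lemma g_1_2_8_13_17_X26 : Good (27 / 10) [1, 2, 8, 13, 17] 26 :=
  Good.skip (by decide +kernel) g_1_2_8_13_17_X27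

lemma g_1_2_8_13_17_X25 : Good (27 / 10) [1, 2, 8, 13, 17] 25 :=
  Good.skip (by decide +kernel) g_1_2_8_13_17_X26

lemma g_1_2_8_13_17_X24 : Good (27 / 10) [1, 2, 8, 13, 17] 24 :=
  Good.skip (by decide +kernel) g_1_2_8_13_17_X25

lemma g_1_2_8_13_17_X23 : Good (27 / 10) [1, 2, 8, 13, 17] 23 :=
  Good.skip (by decide +kernel) g_1_2_8_13_17_X24

lemma g_1_2_8_13_17_X22 : Good (27 / 10) [1, 2, 8, 13, 17] 22 :=
  Good.skip (by decide +kernel) g_1_2_8_13_17_X23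

lemma g_1_2_8_13_17_X21 : Good (27 / 10) [1, 2, 8, 13, 17] 21 :=
  Good.skip (by decide +kernel) g_1_2_8_13_17_X22

lemma g_1_2_8_13_17_X20 : Good (27 / 10) [1, 2, 8, 13, 17] 20 :=
  Good.skip (by decide +kernel) g_1_2_8_13_17_X21

lemma g_1_2_8_13_17_X19 : Good (27 / 10) [1, 2, 8, 13, 17] 19 :=
  Good.skip (by decide +kernel) g_1_2_8_13_17_X20

lemma g_1_2_8_13_17_X18 : Good (27 / 10) [1, 2, 8, 13, 17] 18 :=
  Good.skip (by decide +kernel) g_1_2_8_13_17_X19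

lemma g_1_2_8_13_18_X24 : Good (27 / 10) [1, 2, 8, 13, 18] 24 :=
  Good.skip (by decide +kernel) g_1_2_8_13_18_X25

lemma g_1_2_8_13_18_X23 : Good (27 / 10) [1, 2, 8, 13, 18] 23 :=
  Good.skip (by decide +kernel) g_1_2_8_13_18_X24

lemma g_1_2_8_13_18_X22 : Good (27 / 10) [1, 2, 8, 13, 18] 22 :=
  Good.skip (by decide +kernel) g_1_2_8_13_18_X23

lemma g_1_2_8_13_18_X21 : Good (27 / 10) [1, 2, 8, 13, 18] 21 :=
  Good.skip (by decide +kernel) g_1_2_8_13_18_X22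

lemma g_1_2_8_13_18_X20 : Good (27 / 10) [1, 2, 8, 13, 18] 20 :=
  Good.skip (by decide +kernel) g_1_2_8_13_18_X21

lemma g_1_2_8_13_18_X19 : Good (27 / 10) [1, 2, 8, 13, 18] 19 :=
  Good.skip (by decide +kernel) g_1_2_8_13_18_X20

lemma g_1_2_8_13_19_X24 : Good (27 / 10) [1, 2, 8, 13, 19] 24 :=
  Good.skip (by decide +kernel) g_1_2_8_13_19_X25

lemma g_1_2_8_13_19_X23 : Good (27 / 10) [1, 2, 8, 13, 19] 23 :=
  Good.skip (by decide +kernel) g_1_2_8_13_19_X24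

lemma g_1_2_8_13_19_X22 : Good (27 / 10) [1, 2, 8, 13, 19] 22 :=
  Good.skip (by decide +kernel) g_1_2_8_13_19_X23

lemma g_1_2_8_13_19_X21 : Good (27 / 10) [1, 2, 8, 13, 19] 21 :=
  Good.skip (by decide +kernel) g_1_2_8_13_19_X22

lemma g_1_2_8_13_19_X20 : Good (27 / 10) [1, 2, 8, 13, 19] 20 :=
  Good.skip (by decide +kernel) g_1_2_8_13_19_X21

lemma g_1_2_8_13_20_X24 : Good (27 / 10) [1, 2, 8, 13, 20] 24 :=
  Good.skip (by decide +kernel) g_1_2_8_13_20_X25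

lemma g_1_2_8_13_20_X23 : Good (27 / 10) [1, 2, 8, 13, 20] 23 :=
  Good.skip (by decide +kernel) g_1_2_8_13_20_X24

lemma g_1_2_8_13_20_X22 : Good (27 / 10) [1, 2, 8, 13, 20] 22 :=
  Good.skip (by decide +kernel) g_1_2_8_13_20_X23

lemma g_1_2_8_13_20_X21 : Good (27 / 10) [1, 2, 8, 13, 20] 21 :=
  Good.skip (by decide +kernel) g_1_2_8_13_20_X22

lemma g_1_2_8_13_X24 : Good (27 / 10) [1, 2, 8, 13] 24 :=
  Good.skip (by decide +kernel) g_1_2_8_13_X25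

lemma g_1_2_8_13_X23 : Good (27 / 10) [1, 2, 8, 13] 23 :=
  Good.skip (by decide +kernel) g_1_2_8_13_X24

lemma g_1_2_8_13_X22 : Good (27 / 10) [1, 2, 8, 13] 22 :=
  Good.skip (by decide +kernel) g_1_2_8_13_X23

lemma g_1_2_8_13_X21 : Good (27 / 10) [1, 2, 8, 13] 21 :=
  Good.skip (by decide +kernel) g_1_2_8_13_X22

lemma g_1_2_8_13_X20 : Good (27 / 10) [1, 2, 8, 13] 20 :=
  Good.branch g_1_2_8_13_20_X21 g_1_2_8_13_X21

lemma g_1_2_8_13_X19 : Good (27 / 10) [1, 2, 8, 13] 19 :=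
  Good.branch g_1_2_8_13_19_X20 g_1_2_8_13_X20

lemma g_1_2_8_13_X18 : Good (27 / 10) [1, 2, 8, 13] 18 :=
  Good.branch g_1_2_8_13_18_X19 g_1_2_8_13_X19

lemma g_1_2_8_13_X17 : Good (27 / 10) [1, 2, 8, 13] 17 :=
  Good.branch g_1_2_8_13_17_X18 g_1_2_8_13_X18

lemma g_1_2_8_13_X16 : Good (27 / 10) [1, 2, 8, 13] 16 :=
  Good.skip (by decide +kernel) g_1_2_8_13_X17

lemma g_1_2_8_13_X15 : Good (27 / 10) [1, 2, 8, 13] 15 :=
  Good.skip (by decide +kernel) g_1_2_8_13_X16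

lemma g_1_2_8_13_X14 : Good (27 / 10) [1, 2, 8, 13] 14 :=
  Good.skip (by decide +kernel) g_1_2_8_13_X15

lemma g_1_2_8_14_18_X29 : Good (27 / 10) [1, 2, 8, 14, 18] 29 :=
  Good.skip (by decide +kernel) g_1_2_8_14_18_X30

lemma g_1_2_8_14_18_X28 : Good (27 / 10) [1, 2, 8, 14, 18] 28 :=
  Good.skip (by decide +kernel) g_1_2_8_14_18_X29

lemma g_1_2_8_14_18_X27 : Good (27 / 10) [1, 2, 8, 14, 18] 27 :=
  Good.skip (by decide +kernel) g_1_2_8_14_18_X28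

lemma g_1_2_8_14_18_X26 : Good (27 / 10) [1, 2, 8, 14, 18] 26 :=
  Good.skip (by decide +kernel) g_1_2_8_14_18_X27

lemma g_1_2_8_14_18_X25 : Good (27 / 10) [1, 2, 8, 14, 18] 25 :=
  Good.skip (by decide +kernel) g_1_2_8_14_18_X26

lemma g_1_2_8_14_18_X24 : Good (27 / 10) [1, 2, 8, 14, 18] 24 :=
  Good.skip (by decide +kernel) g_1_2_8_14_18_X25

lemma g_1_2_8_14_18_X23 : Good (27 / 10) [1, 2, 8, 14, 18] 23 :=
  Good.skip (by decide +kernel) g_1_2_8_14_18_X24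

lemma g_1_2_8_14_18_X22 : Good (27 / 10) [1, 2, 8, 14, 18] 22 :=
  Good.skip (by decide +kernel) g_1_2_8_14_18_X23

lemma g_1_2_8_14_18_X21 : Good (27 / 10) [1, 2, 8, 14, 18] 21 :=
  Good.skip (by decide +kernel) g_1_2_8_14_18_X22

lemma g_1_2_8_14_18_X20 : Good (27 / 10) [1, 2, 8, 14, 18] 20 :=
  Good.skip (by decide +kernel) g_1_2_8_14_18_X21

lemma g_1_2_8_14_18_X19 : Good (27 / 10) [1, 2, 8, 14, 18] 19 :=
  Good.skip (by decide +kernel) g_1_2_8_14_18_X20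

lemma g_1_2_8_14_19_X25 : Good (27 / 10) [1, 2, 8, 14, 19] 25 :=
  Good.skip (by decide +kernel) g_1_2_8_14_19_X26

lemma g_1_2_8_14_19_X24 : Good (27 / 10) [1, 2, 8, 14, 19] 24 :=
  Good.skip (by decide +kernel) g_1_2_8_14_19_X25

lemma g_1_2_8_14_19_X23 : Good (27 / 10) [1, 2, 8, 14, 19] 23 :=
  Good.skip (by decide +kernel) g_1_2_8_14_19_X24

lemma g_1_2_8_14_19_X22 : Good (27 / 10) [1, 2, 8, 14, 19] 22 :=
  Good.skip (by decide +kernel) g_1_2_8_14_19_X23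

lemma g_1_2_8_14_19_X21 : Good (27 / 10) [1, 2, 8, 14, 19] 21 :=
  Good.skip (by decide +kernel) g_1_2_8_14_19_X22

lemma g_1_2_8_14_19_X20 : Good (27 / 10) [1, 2, 8, 14, 19] 20 :=
  Good.skip (by decide +kernel) g_1_2_8_14_19_X21

lemma g_1_2_8_14_20_X25 : Good (27 / 10) [1, 2, 8, 14, 20] 25 :=
  Good.skip (by decide +kernel) g_1_2_8_14_20_X26

lemma g_1_2_8_14_20_X24 : Good (27 / 10) [1, 2, 8, 14, 20] 24 :=
  Good.skip (by decide +kernel) g_1_2_8_14_20_X25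

lemma g_1_2_8_14_20_X23 : Good (27 / 10) [1, 2, 8, 14, 20] 23 :=
  Good.skip (by decide +kernel) g_1_2_8_14_20_X24

lemma g_1_2_8_14_20_X22 : Good (27 / 10) [1, 2, 8, 14, 20] 22 :=
  Good.skip (by decide +kernel) g_1_2_8_14_20_X23

lemma g_1_2_8_14_20_X21 : Good (27 / 10) [1, 2, 8, 14, 20] 21 :=
  Good.skip (by decide +kernel) g_1_2_8_14_20_X22

lemma g_1_2_8_14_21_26_X32 : Good (27 / 10) [1, 2, 8, 14, 21, 26] 32 :=
  Good.skip (by decide +kernel) g_1_2_8_14_21_26_X33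

lemma g_1_2_8_14_21_26_X31 : Good (27 / 10) [1, 2, 8, 14, 21, 26] 31 :=
  Good.skip (by decide +kernel) g_1_2_8_14_21_26_X32

lemma g_1_2_8_14_21_26_X30 : Good (27 / 10) [1, 2, 8, 14, 21, 26] 30 :=
  Good.skip (by decide +kernel) g_1_2_8_14_21_26_X31

lemma g_1_2_8_14_21_26_X29 : Good (27 / 10) [1, 2, 8, 14, 21, 26] 29 :=
  Good.skip (by decide +kernel) g_1_2_8_14_21_26_X30

lemma g_1_2_8_14_21_26_X28 : Good (27 / 10) [1, 2, 8, 14, 21, 26] 28 :=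
  Good.skip (by decide +kernel) g_1_2_8_14_21_26_X29

lemma g_1_2_8_14_21_26_X27 : Good (27 / 10) [1, 2, 8, 14, 21, 26] 27 :=
  Good.skip (by decide +kernel) g_1_2_8_14_21_26_X28

lemma g_1_2_8_14_21_X26 : Good (27 / 10) [1, 2, 8, 14, 21] 26 :=
  Good.branch g_1_2_8_14_21_26_X27 g_1_2_8_14_21_X27

lemma g_1_2_8_14_21_X25 : Good (27 / 10) [1, 2, 8, 14, 21] 25 :=
  Good.skip (by decide +kernel) g_1_2_8_14_21_X26

lemma g_1_2_8_14_21_X24 : Good (27 / 10) [1, 2, 8, 14, 21] 24 :=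
  Good.skip (by decide +kernel) g_1_2_8_14_21_X25

lemma g_1_2_8_14_21_X23 : Good (27 / 10) [1, 2, 8, 14, 21] 23 :=
  Good.skip (by decide +kernel) g_1_2_8_14_21_X24

lemma g_1_2_8_14_21_X22 : Good (27 / 10) [1, 2, 8, 14, 21] 22 :=
  Good.skip (by decide +kernel) g_1_2_8_14_21_X23

lemma g_1_2_8_14_X25 : Good (27 / 10) [1, 2, 8, 14] 25 :=
  Good.skip (by decide +kernel) g_1_2_8_14_X26

lemma g_1_2_8_14_X24 : Good (27 / 10) [1, 2, 8, 14] 24 :=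
  Good.skip (by decide +kernel) g_1_2_8_14_X25

lemma g_1_2_8_14_X23 : Good (27 / 10) [1, 2, 8, 14] 23 :=
  Good.skip (by decide +kernel) g_1_2_8_14_X24

lemma g_1_2_8_14_X22 : Good (27 / 10) [1, 2, 8, 14] 22 :=
  Good.skip (by decide +kernel) g_1_2_8_14_X23

lemma g_1_2_8_14_X21 : Good (27 / 10) [1, 2, 8, 14] 21 :=
  Good.branch g_1_2_8_14_21_X22 g_1_2_8_14_X22

lemma g_1_2_8_14_X20 : Good (27 / 10) [1, 2, 8, 14] 20 :=
  Good.branch g_1_2_8_14_20_X21 g_1_2_8_14_X21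

lemma g_1_2_8_14_X19 : Good (27 / 10) [1, 2, 8, 14] 19 :=
  Good.branch g_1_2_8_14_19_X20 g_1_2_8_14_X20

lemma g_1_2_8_14_X18 : Good (27 / 10) [1, 2, 8, 14] 18 :=
  Good.branch g_1_2_8_14_18_X19 g_1_2_8_14_X19

lemma g_1_2_8_14_X17 : Good (27 / 10) [1, 2, 8, 14] 17 :=
  Good.skip (by decide +kernel) g_1_2_8_14_X18

lemma g_1_2_8_14_X16 : Good (27 / 10) [1, 2, 8, 14] 16 :=
  Good.skip (by decide +kernel) g_1_2_8_14_X17

lemma g_1_2_8_14_X15 : Good (27 / 10) [1, 2, 8, 14] 15 :=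
  Good.skip (by decide +kernel) g_1_2_8_14_X16

lemma g_1_2_8_15_19_X30 : Good (27 / 10) [1, 2, 8, 15, 19] 30 :=
  Good.skip (by decide +kernel) g_1_2_8_15_19_X31

lemma g_1_2_8_15_19_X29 : Good (27 / 10) [1, 2, 8, 15, 19] 29 :=
  Good.skip (by decide +kernel) g_1_2_8_15_19_X30

lemma g_1_2_8_15_19_X28 : Good (27 / 10) [1, 2, 8, 15, 19] 28 :=
  Good.skip (by decide +kernel) g_1_2_8_15_19_X29

lemma g_1_2_8_15_19_X27 : Good (27 / 10) [1, 2, 8, 15, 19] 27 :=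
  Good.skip (by decide +kernel) g_1_2_8_15_19_X28

lemma g_1_2_8_15_19_X26 : Good (27 / 10) [1, 2, 8, 15, 19] 26 :=
  Good.skip (by decide +kernel) g_1_2_8_15_19_X27

lemma g_1_2_8_15_19_X25 : Good (27 / 10) [1, 2, 8, 15, 19] 25 :=
  Good.skip (by decide +kernel) g_1_2_8_15_19_X26

lemma g_1_2_8_15_19_X24 : Good (27 / 10) [1, 2, 8, 15, 19] 24 :=
  Good.skip (by decide +kernel) g_1_2_8_15_19_X25

lemma g_1_2_8_15_19_X23 : Good (27 / 10) [1, 2, 8, 15, 19] 23 :=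
  Good.skip (by decide +kernel) g_1_2_8_15_19_X24

lemma g_1_2_8_15_19_X22 : Good (27 / 10) [1, 2, 8, 15, 19] 22 :=
  Good.skip (by decide +kernel) g_1_2_8_15_19_X23

lemma g_1_2_8_15_19_X21 : Good (27 / 10) [1, 2, 8, 15, 19] 21 :=
  Good.skip (by decide +kernel) g_1_2_8_15_19_X22

lemma g_1_2_8_15_19_X20 : Good (27 / 10) [1, 2, 8, 15, 19] 20 :=
  Good.skip (by decide +kernel) g_1_2_8_15_19_X21

lemma g_1_2_8_15_20_X26 : Good (27 / 10) [1, 2, 8, 15, 20] 26 :=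
  Good.skip (by decide +kernel) g_1_2_8_15_20_X27

lemma g_1_2_8_15_20_X25 : Good (27 / 10) [1, 2, 8, 15, 20] 25 :=
  Good.skip (by decide +kernel) g_1_2_8_15_20_X26

lemma g_1_2_8_15_20_X24 : Good (27 / 10) [1, 2, 8, 15, 20] 24 :=
  Good.skip (by decide +kernel) g_1_2_8_15_20_X25

lemma g_1_2_8_15_20_X23 : Good (27 / 10) [1, 2, 8, 15, 20] 23 :=
  Good.skip (by decide +kernel) g_1_2_8_15_20_X24

lemma g_1_2_8_15_20_X22 : Good (27 / 10) [1, 2, 8, 15, 20] 22 :=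
  Good.skip (by decide +kernel) g_1_2_8_15_20_X23

lemma g_1_2_8_15_20_X21 : Good (27 / 10) [1, 2, 8, 15, 20] 21 :=
  Good.skip (by decide +kernel) g_1_2_8_15_20_X22

lemma g_1_2_8_15_21_X26 : Good (27 / 10) [1, 2, 8, 15, 21] 26 :=
  Good.skip (by decide +kernel) g_1_2_8_15_21_X27

lemma g_1_2_8_15_21_X25 : Good (27 / 10) [1, 2, 8, 15, 21] 25 :=
  Good.skip (by decide +kernel) g_1_2_8_15_21_X26

lemma g_1_2_8_15_21_X24 : Good (27 / 10) [1, 2, 8, 15, 21] 24 :=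
  Good.skip (by decide +kernel) g_1_2_8_15_21_X25

lemma g_1_2_8_15_21_X23 : Good (27 / 10) [1, 2, 8, 15, 21] 23 :=
  Good.skip (by decide +kernel) g_1_2_8_15_21_X24

lemma g_1_2_8_15_21_X22 : Good (27 / 10) [1, 2, 8, 15, 21] 22 :=
  Good.skip (by decide +kernel) g_1_2_8_15_21_X23

lemma g_1_2_8_15_22_27_X33 : Good (27 / 10) [1, 2, 8, 15, 22, 27] 33 :=
  Good.skip (by decide +kernel) g_1_2_8_15_22_27_X34

lemma g_1_2_8_15_22_27_X32 : Good (27 / 10) [1, 2, 8, 15, 22, 27] 32 :=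
  Good.skip (by decide +kernel) g_1_2_8_15_22_27_X33

lemma g_1_2_8_15_22_27_X31 : Good (27 / 10) [1, 2, 8, 15, 22, 27] 31 :=
  Good.skip (by decide +kernel) g_1_2_8_15_22_27_X32

lemma g_1_2_8_15_22_27_X30 : Good (27 / 10) [1, 2, 8, 15, 22, 27] 30 :=
  Good.skip (by decide +kernel) g_1_2_8_15_22_27_X31

lemma g_1_2_8_15_22_27_X29 : Good (27 / 10) [1, 2, 8, 15, 22, 27] 29 :=
  Good.skip (by decide +kernel) g_1_2_8_15_22_27_X30

lemma g_1_2_8_15_22_27_X28 : Good (27 / 10) [1, 2, 8, 15, 22, 27] 28 :=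
  Good.skip (by decide +kernel) g_1_2_8_15_22_27_X29

lemma g_1_2_8_15_22_28_X33 : Good (27 / 10) [1, 2, 8, 15, 22, 28] 33 :=
  Good.skip (by decide +kernel) g_1_2_8_15_22_28_X34

lemma g_1_2_8_15_22_28_X32 : Good (27 / 10) [1, 2, 8, 15, 22, 28] 32 :=
  Good.skip (by decide +kernel) g_1_2_8_15_22_28_X33

lemma g_1_2_8_15_22_28_X31 : Good (27 / 10) [1, 2, 8, 15, 22, 28] 31 :=
  Good.skip (by decide +kernel) g_1_2_8_15_22_28_X32

lemma g_1_2_8_15_22_28_X30 : Good (27 / 10) [1, 2, 8, 15, 22, 28] 30 :=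
  Good.skip (by decide +kernel) g_1_2_8_15_22_28_X31

lemma g_1_2_8_15_22_28_X29 : Good (27 / 10) [1, 2, 8, 15, 22, 28] 29 :=
  Good.skip (by decide +kernel) g_1_2_8_15_22_28_X30

lemma g_1_2_8_15_22_29_34_X40 : Good (27 / 10) [1, 2, 8, 15, 22, 29, 34] 40 :=
  Good.skip (by decide +kernel) g_1_2_8_15_22_29_34_X41

lemma g_1_2_8_15_22_29_34_X39 : Good (27 / 10) [1, 2, 8, 15, 22, 29, 34] 39 :=
  Good.skip (by decide +kernel) g_1_2_8_15_22_29_34_X40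

lemma g_1_2_8_15_22_29_34_X38 : Good (27 / 10) [1, 2, 8, 15, 22, 29, 34] 38 :=
  Good.skip (by decide +kernel) g_1_2_8_15_22_29_34_X39

lemma g_1_2_8_15_22_29_34_X37 : Good (27 / 10) [1, 2, 8, 15, 22, 29, 34] 37 :=
  Good.skip (by decide +kernel) g_1_2_8_15_22_29_34_X38

lemma g_1_2_8_15_22_29_34_X36 : Good (27 / 10) [1, 2, 8, 15, 22, 29, 34] 36 :=
  Good.skip (by decide +kernel) g_1_2_8_15_22_29_34_X37

lemma g_1_2_8_15_22_29_34_X35 : Good (27 / 10) [1, 2, 8, 15, 22, 29, 34] 35 :=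
  Good.skip (by decide +kernel) g_1_2_8_15_22_29_34_X36

lemma g_1_2_8_15_22_29_35_X40 : Good (27 / 10) [1, 2, 8, 15, 22, 29, 35] 40 :=
  Good.skip (by decide +kernel) g_1_2_8_15_22_29_35_X41

lemma g_1_2_8_15_22_29_35_X39 : Good (27 / 10) [1, 2, 8, 15, 22, 29, 35] 39 :=
  Good.skip (by decide +kernel) g_1_2_8_15_22_29_35_X40

lemma g_1_2_8_15_22_29_35_X38 : Good (27 / 10) [1, 2, 8, 15, 22, 29, 35] 38 :=
  Good.skip (by decide +kernel) g_1_2_8_15_22_29_35_X39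

lemma g_1_2_8_15_22_29_35_X37 : Good (27 / 10) [1, 2, 8, 15, 22, 29, 35] 37 :=
  Good.skip (by decide +kernel) g_1_2_8_15_22_29_35_X38

lemma g_1_2_8_15_22_29_35_X36 : Good (27 / 10) [1, 2, 8, 15, 22, 29, 35] 36 :=
  Good.skip (by decide +kernel) g_1_2_8_15_22_29_35_X37

lemma g_1_2_8_15_22_29_36_X40 : Good (27 / 10) [1, 2, 8, 15, 22, 29, 36] 40 :=
  Good.skip (by decide +kernel) g_1_2_8_15_22_29_36_X41

lemma g_1_2_8_15_22_29_36_X39 : Good (27 / 10) [1, 2, 8, 15, 22, 29, 36] 39 :=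
  Good.skip (by decide +kernel) g_1_2_8_15_22_29_36_X40

lemma g_1_2_8_15_22_29_36_X38 : Good (27 / 10) [1, 2, 8, 15, 22, 29, 36] 38 :=
  Good.skip (by decide +kernel) g_1_2_8_15_22_29_36_X39

lemma g_1_2_8_15_22_29_36_X37 : Good (27 / 10) [1, 2, 8, 15, 22, 29, 36] 37 :=
  Good.skip (by decide +kernel) g_1_2_8_15_22_29_36_X38

lemma g_1_2_8_15_22_29_X40 : Good (27 / 10) [1, 2, 8, 15, 22, 29] 40 :=
  Good.skip (by decide +kernel) g_1_2_8_15_22_29_X41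

lemma g_1_2_8_15_22_29_X39 : Good (27 / 10) [1, 2, 8, 15, 22, 29] 39 :=
  Good.skip (by decide +kernel) g_1_2_8_15_22_29_X40

lemma g_1_2_8_15_22_29_X38 : Good (27 / 10) [1, 2, 8, 15, 22, 29] 38 :=
  Good.skip (by decide +kernel) g_1_2_8_15_22_29_X39

lemma g_1_2_8_15_22_29_X37 : Good (27 / 10) [1, 2, 8, 15, 22, 29] 37 :=
  Good.skip (by decide +kernel) g_1_2_8_15_22_29_X38

lemma g_1_2_8_15_22_29_X36 : Good (27 / 10) [1, 2, 8, 15, 22, 29] 36 :=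
  Good.branch g_1_2_8_15_22_29_36_X37 g_1_2_8_15_22_29_X37

lemma g_1_2_8_15_22_29_X35 : Good (27 / 10) [1, 2, 8, 15, 22, 29] 35 :=
  Good.branch g_1_2_8_15_22_29_35_X36 g_1_2_8_15_22_29_X36

lemma g_1_2_8_15_22_29_X34 : Good (27 / 10) [1, 2, 8, 15, 22, 29] 34 :=
  Good.branch g_1_2_8_15_22_29_34_X35 g_1_2_8_15_22_29_X35

lemma g_1_2_8_15_22_29_X33 : Good (27 / 10) [1, 2, 8, 15, 22, 29] 33 :=
  Good.skip (by decide +kernel) g_1_2_8_15_22_29_X34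

lemma g_1_2_8_15_22_29_X32 : Good (27 / 10) [1, 2, 8, 15, 22, 29] 32 :=
  Good.skip (by decide +kernel) g_1_2_8_15_22_29_X33

lemma g_1_2_8_15_22_29_X31 : Good (27 / 10) [1, 2, 8, 15, 22, 29] 31 :=
  Good.skip (by decide +kernel) g_1_2_8_15_22_29_X32

lemma g_1_2_8_15_22_29_X30 : Good (27 / 10) [1, 2, 8, 15, 22, 29] 30 :=
  Good.skip (by decide +kernel) g_1_2_8_15_22_29_X31

lemma g_1_2_8_15_22_X33 : Good (27 / 10) [1, 2, 8, 15, 22] 33 :=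
  Good.skip (by decide +kernel) g_1_2_8_15_22_X34

lemma g_1_2_8_15_22_X32 : Good (27 / 10) [1, 2, 8, 15, 22] 32 :=
  Good.skip (by decide +kernel) g_1_2_8_15_22_X33

lemma g_1_2_8_15_22_X31 : Good (27 / 10) [1, 2, 8, 15, 22] 31 :=
  Good.skip (by decide +kernel) g_1_2_8_15_22_X32

lemma g_1_2_8_15_22_X30 : Good (27 / 10) [1, 2, 8, 15, 22] 30 :=
  Good.skip (by decide +kernel) g_1_2_8_15_22_X31

lemma g_1_2_8_15_22_X29 : Good (27 / 10) [1, 2, 8, 15, 22] 29 :=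
  Good.branch g_1_2_8_15_22_29_X30 g_1_2_8_15_22_X30

lemma g_1_2_8_15_22_X28 : Good (27 / 10) [1, 2, 8, 15, 22] 28 :=
  Good.branch g_1_2_8_15_22_28_X29 g_1_2_8_15_22_X29

lemma g_1_2_8_15_22_X27 : Good (27 / 10) [1, 2, 8, 15, 22] 27 :=
  Good.branch g_1_2_8_15_22_27_X28 g_1_2_8_15_22_X28

lemma g_1_2_8_15_22_X26 : Good (27 / 10) [1, 2, 8, 15, 22] 26 :=
  Good.skip (by decide +kernel) g_1_2_8_15_22_X27

lemma g_1_2_8_15_22_X25 : Good (27 / 10) [1, 2, 8, 15, 22] 25 :=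
  Good.skip (by decide +kernel) g_1_2_8_15_22_X26

lemma g_1_2_8_15_22_X24 : Good (27 / 10) [1, 2, 8, 15, 22] 24 :=
  Good.skip (by decide +kernel) g_1_2_8_15_22_X25

lemma g_1_2_8_15_22_X23 : Good (27 / 10) [1, 2, 8, 15, 22] 23 :=
  Good.skip (by decide +kernel) g_1_2_8_15_22_X24

lemma g_1_2_8_15_X26 : Good (27 / 10) [1, 2, 8, 15] 26 :=
  Good.skip (by decide +kernel) g_1_2_8_15_X27

lemma g_1_2_8_15_X25 : Good (27 / 10) [1, 2, 8, 15] 25 :=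
  Good.skip (by decide +kernel) g_1_2_8_15_X26

lemma g_1_2_8_15_X24 : Good (27 / 10) [1, 2, 8, 15] 24 :=
  Good.skip (by decide +kernel) g_1_2_8_15_X25

lemma g_1_2_8_15_X23 : Good (27 / 10) [1, 2, 8, 15] 23 :=
  Good.skip (by decide +kernel) g_1_2_8_15_X24

lemma g_1_2_8_15_X22 : Good (27 / 10) [1, 2, 8, 15] 22 :=
  Good.branch g_1_2_8_15_22_X23 g_1_2_8_15_X23

lemma g_1_2_8_15_X21 : Good (27 / 10) [1, 2, 8, 15] 21 :=
  Good.branch g_1_2_8_15_21_X22 g_1_2_8_15_X22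

lemma g_1_2_8_15_X20 : Good (27 / 10) [1, 2, 8, 15] 20 :=
  Good.branch g_1_2_8_15_20_X21 g_1_2_8_15_X21

lemma g_1_2_8_15_X19 : Good (27 / 10) [1, 2, 8, 15] 19 :=
  Good.branch g_1_2_8_15_19_X20 g_1_2_8_15_X20

lemma g_1_2_8_15_X18 : Good (27 / 10) [1, 2, 8, 15] 18 :=
  Good.skip (by decide +kernel) g_1_2_8_15_X19

lemma g_1_2_8_15_X17 : Good (27 / 10) [1, 2, 8, 15] 17 :=
  Good.skip (by decide +kernel) g_1_2_8_15_X18

lemma g_1_2_8_15_X16 : Good (27 / 10) [1, 2, 8, 15] 16 :=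
  Good.skip (by decide +kernel) g_1_2_8_15_X17

lemma g_1_2_8_16_20_X31 : Good (27 / 10) [1, 2, 8, 16, 20] 31 :=
  Good.skip (by decide +kernel) g_1_2_8_16_20_X32

lemma g_1_2_8_16_20_X30 : Good (27 / 10) [1, 2, 8, 16, 20] 30 :=
  Good.skip (by decide +kernel) g_1_2_8_16_20_X31

lemma g_1_2_8_16_20_X29 : Good (27 / 10) [1, 2, 8, 16, 20] 29 :=
  Good.skip (by decide +kernel) g_1_2_8_16_20_X30

lemma g_1_2_8_16_20_X28 : Good (27 / 10) [1, 2, 8, 16, 20] 28 :=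
  Good.skip (by decide +kernel) g_1_2_8_16_20_X29

lemma g_1_2_8_16_20_X27 : Good (27 / 10) [1, 2, 8, 16, 20] 27 :=
  Good.skip (by decide +kernel) g_1_2_8_16_20_X28

lemma g_1_2_8_16_20_X26 : Good (27 / 10) [1, 2, 8, 16, 20] 26 :=
  Good.skip (by decide +kernel) g_1_2_8_16_20_X27

lemma g_1_2_8_16_20_X25 : Good (27 / 10) [1, 2, 8, 16, 20] 25 :=
  Good.skip (by decide +kernel) g_1_2_8_16_20_X26

lemma g_1_2_8_16_20_X24 : Good (27 / 10) [1, 2, 8, 16, 20] 24 :=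
  Good.skip (by decide +kernel) g_1_2_8_16_20_X25

lemma g_1_2_8_16_20_X23 : Good (27 / 10) [1, 2, 8, 16, 20] 23 :=
  Good.skip (by decide +kernel) g_1_2_8_16_20_X24

lemma g_1_2_8_16_20_X22 : Good (27 / 10) [1, 2, 8, 16, 20] 22 :=
  Good.skip (by decide +kernel) g_1_2_8_16_20_X23

lemma g_1_2_8_16_20_X21 : Good (27 / 10) [1, 2, 8, 16, 20] 21 :=
  Good.skip (by decide +kernel) g_1_2_8_16_20_X22

lemma g_1_2_8_16_X20 : Good (27 / 10) [1, 2, 8, 16] 20 :=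
  Good.branch g_1_2_8_16_20_X21 g_1_2_8_16_X21

lemma g_1_2_8_16_X19 : Good (27 / 10) [1, 2, 8, 16] 19 :=
  Good.skip (by decide +kernel) g_1_2_8_16_X20

lemma g_1_2_8_16_X18 : Good (27 / 10) [1, 2, 8, 16] 18 :=
  Good.skip (by decide +kernel) g_1_2_8_16_X19

lemma g_1_2_8_16_X17 : Good (27 / 10) [1, 2, 8, 16] 17 :=
  Good.skip (by decide +kernel) g_1_2_8_16_X18

lemma g_1_2_8_17_X20 : Good (27 / 10) [1, 2, 8, 17] 20 :=
  Good.skip (by decide +kernel) g_1_2_8_17_X21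

lemma g_1_2_8_17_X19 : Good (27 / 10) [1, 2, 8, 17] 19 :=
  Good.skip (by decide +kernel) g_1_2_8_17_X20

lemma g_1_2_8_17_X18 : Good (27 / 10) [1, 2, 8, 17] 18 :=
  Good.skip (by decide +kernel) g_1_2_8_17_X19

lemma g_1_2_8_18_X21 : Good (27 / 10) [1, 2, 8, 18] 21 :=
  Good.skip (by decide +kernel) g_1_2_8_18_X22

lemma g_1_2_8_18_X20 : Good (27 / 10) [1, 2, 8, 18] 20 :=
  Good.skip (by decide +kernel) g_1_2_8_18_X21

lemma g_1_2_8_18_X19 : Good (27 / 10) [1, 2, 8, 18] 19 :=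
  Good.skip (by decide +kernel) g_1_2_8_18_X20

lemma g_1_2_8_19_X22 : Good (27 / 10) [1, 2, 8, 19] 22 :=
  Good.skip (by decide +kernel) g_1_2_8_19_X23

lemma g_1_2_8_19_X21 : Good (27 / 10) [1, 2, 8, 19] 21 :=
  Good.skip (by decide +kernel) g_1_2_8_19_X22

lemma g_1_2_8_19_X20 : Good (27 / 10) [1, 2, 8, 19] 20 :=
  Good.skip (by decide +kernel) g_1_2_8_19_X21

lemma g_1_2_8_20_24_X35 : Good (27 / 10) [1, 2, 8, 20, 24] 35 :=
  Good.skip (by decide +kernel) g_1_2_8_20_24_X36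

lemma g_1_2_8_20_24_X34 : Good (27 / 10) [1, 2, 8, 20, 24] 34 :=
  Good.skip (by decide +kernel) g_1_2_8_20_24_X35

lemma g_1_2_8_20_24_X33 : Good (27 / 10) [1, 2, 8, 20, 24] 33 :=
  Good.skip (by decide +kernel) g_1_2_8_20_24_X34

lemma g_1_2_8_20_24_X32 : Good (27 / 10) [1, 2, 8, 20, 24] 32 :=
  Good.skip (by decide +kernel) g_1_2_8_20_24_X33

lemma g_1_2_8_20_24_X31 : Good (27 / 10) [1, 2, 8, 20, 24] 31 :=
  Good.skip (by decide +kernel) g_1_2_8_20_24_X32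

lemma g_1_2_8_20_24_X30 : Good (27 / 10) [1, 2, 8, 20, 24] 30 :=
  Good.skip (by decide +kernel) g_1_2_8_20_24_X31

lemma g_1_2_8_20_24_X29 : Good (27 / 10) [1, 2, 8, 20, 24] 29 :=
  Good.skip (by decide +kernel) g_1_2_8_20_24_X30

lemma g_1_2_8_20_24_X28 : Good (27 / 10) [1, 2, 8, 20, 24] 28 :=
  Good.skip (by decide +kernel) g_1_2_8_20_24_X29

lemma g_1_2_8_20_24_X27 : Good (27 / 10) [1, 2, 8, 20, 24] 27 :=
  Good.skip (by decide +kernel) g_1_2_8_20_24_X28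

lemma g_1_2_8_20_24_X26 : Good (27 / 10) [1, 2, 8, 20, 24] 26 :=
  Good.skip (by decide +kernel) g_1_2_8_20_24_X27

lemma g_1_2_8_20_24_X25 : Good (27 / 10) [1, 2, 8, 20, 24] 25 :=
  Good.skip (by decide +kernel) g_1_2_8_20_24_X26

lemma g_1_2_8_20_25_X31 : Good (27 / 10) [1, 2, 8, 20, 25] 31 :=
  Good.skip (by decide +kernel) g_1_2_8_20_25_X32

lemma g_1_2_8_20_25_X30 : Good (27 / 10) [1, 2, 8, 20, 25] 30 :=
  Good.skip (by decide +kernel) g_1_2_8_20_25_X31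

lemma g_1_2_8_20_25_X29 : Good (27 / 10) [1, 2, 8, 20, 25] 29 :=
  Good.skip (by decide +kernel) g_1_2_8_20_25_X30

lemma g_1_2_8_20_25_X28 : Good (27 / 10) [1, 2, 8, 20, 25] 28 :=
  Good.skip (by decide +kernel) g_1_2_8_20_25_X29

lemma g_1_2_8_20_25_X27 : Good (27 / 10) [1, 2, 8, 20, 25] 27 :=
  Good.skip (by decide +kernel) g_1_2_8_20_25_X28

lemma g_1_2_8_20_25_X26 : Good (27 / 10) [1, 2, 8, 20, 25] 26 :=
  Good.skip (by decide +kernel) g_1_2_8_20_25_X27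

lemma g_1_2_8_20_26_X31 : Good (27 / 10) [1, 2, 8, 20, 26] 31 :=
  Good.skip (by decide +kernel) g_1_2_8_20_26_X32

lemma g_1_2_8_20_26_X30 : Good (27 / 10) [1, 2, 8, 20, 26] 30 :=
  Good.skip (by decide +kernel) g_1_2_8_20_26_X31

lemma g_1_2_8_20_26_X29 : Good (27 / 10) [1, 2, 8, 20, 26] 29 :=
  Good.skip (by decide +kernel) g_1_2_8_20_26_X30

lemma g_1_2_8_20_26_X28 : Good (27 / 10) [1, 2, 8, 20, 26] 28 :=
  Good.skip (by decide +kernel) g_1_2_8_20_26_X29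

lemma g_1_2_8_20_26_X27 : Good (27 / 10) [1, 2, 8, 20, 26] 27 :=
  Good.skip (by decide +kernel) g_1_2_8_20_26_X28

lemma g_1_2_8_20_27_X31 : Good (27 / 10) [1, 2, 8, 20, 27] 31 :=
  Good.skip (by decide +kernel) g_1_2_8_20_27_X32

lemma g_1_2_8_20_27_X30 : Good (27 / 10) [1, 2, 8, 20, 27] 30 :=
  Good.skip (by decide +kernel) g_1_2_8_20_27_X31

lemma g_1_2_8_20_27_X29 : Good (27 / 10) [1, 2, 8, 20, 27] 29 :=
  Good.skip (by decide +kernel) g_1_2_8_20_27_X30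

lemma g_1_2_8_20_27_X28 : Good (27 / 10) [1, 2, 8, 20, 27] 28 :=
  Good.skip (by decide +kernel) g_1_2_8_20_27_X29

lemma g_1_2_8_20_X31 : Good (27 / 10) [1, 2, 8, 20] 31 :=
  Good.skip (by decide +kernel) g_1_2_8_20_X32

lemma g_1_2_8_20_X30 : Good (27 / 10) [1, 2, 8, 20] 30 :=
  Good.skip (by decide +kernel) g_1_2_8_20_X31

lemma g_1_2_8_20_X29 : Good (27 / 10) [1, 2, 8, 20] 29 :=
  Good.skip (by decide +kernel) g_1_2_8_20_X30

lemma g_1_2_8_20_X28 : Good (27 / 10) [1, 2, 8, 20] 28 :=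
  Good.skip (by decide +kernel) g_1_2_8_20_X29

lemma g_1_2_8_20_X27 : Good (27 / 10) [1, 2, 8, 20] 27 :=
  Good.branch g_1_2_8_20_27_X28 g_1_2_8_20_X28

lemma g_1_2_8_20_X26 : Good (27 / 10) [1, 2, 8, 20] 26 :=
  Good.branch g_1_2_8_20_26_X27 g_1_2_8_20_X27

lemma g_1_2_8_20_X25 : Good (27 / 10) [1, 2, 8, 20] 25 :=
  Good.branch g_1_2_8_20_25_X26 g_1_2_8_20_X26

lemma g_1_2_8_20_X24 : Good (27 / 10) [1, 2, 8, 20] 24 :=
  Good.branch g_1_2_8_20_24_X25 g_1_2_8_20_X25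

lemma g_1_2_8_20_X23 : Good (27 / 10) [1, 2, 8, 20] 23 :=
  Good.skip (by decide +kernel) g_1_2_8_20_X24

lemma g_1_2_8_20_X22 : Good (27 / 10) [1, 2, 8, 20] 22 :=
  Good.skip (by decide +kernel) g_1_2_8_20_X23

lemma g_1_2_8_20_X21 : Good (27 / 10) [1, 2, 8, 20] 21 :=
  Good.skip (by decide +kernel) g_1_2_8_20_X22

lemma g_1_2_8_21_25_X36 : Good (27 / 10) [1, 2, 8, 21, 25] 36 :=
  Good.skip (by decide +kernel) g_1_2_8_21_25_X37

lemma g_1_2_8_21_25_X35 : Good (27 / 10) [1, 2, 8, 21, 25] 35 :=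
  Good.skip (by decide +kernel) g_1_2_8_21_25_X36

lemma g_1_2_8_21_25_X34 : Good (27 / 10) [1, 2, 8, 21, 25] 34 :=
  Good.skip (by decide +kernel) g_1_2_8_21_25_X35

lemma g_1_2_8_21_25_X33 : Good (27 / 10) [1, 2, 8, 21, 25] 33 :=
  Good.skip (by decide +kernel) g_1_2_8_21_25_X34

lemma g_1_2_8_21_25_X32 : Good (27 / 10) [1, 2, 8, 21, 25] 32 :=
  Good.skip (by decide +kernel) g_1_2_8_21_25_X33

lemma g_1_2_8_21_25_X31 : Good (27 / 10) [1, 2, 8, 21, 25] 31 :=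
  Good.skip (by decide +kernel) g_1_2_8_21_25_X32

lemma g_1_2_8_21_25_X30 : Good (27 / 10) [1, 2, 8, 21, 25] 30 :=
  Good.skip (by decide +kernel) g_1_2_8_21_25_X31

lemma g_1_2_8_21_25_X29 : Good (27 / 10) [1, 2, 8, 21, 25] 29 :=
  Good.skip (by decide +kernel) g_1_2_8_21_25_X30

lemma g_1_2_8_21_25_X28 : Good (27 / 10) [1, 2, 8, 21, 25] 28 :=
  Good.skip (by decide +kernel) g_1_2_8_21_25_X29

lemma g_1_2_8_21_25_X27 : Good (27 / 10) [1, 2, 8, 21, 25] 27 :=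
  Good.skip (by decide +kernel) g_1_2_8_21_25_X28

lemma g_1_2_8_21_25_X26 : Good (27 / 10) [1, 2, 8, 21, 25] 26 :=
  Good.skip (by decide +kernel) g_1_2_8_21_25_X27

lemma g_1_2_8_21_26_X32 : Good (27 / 10) [1, 2, 8, 21, 26] 32 :=
  Good.skip (by decide +kernel) g_1_2_8_21_26_X33

lemma g_1_2_8_21_26_X31 : Good (27 / 10) [1, 2, 8, 21, 26] 31 :=
  Good.skip (by decide +kernel) g_1_2_8_21_26_X32

lemma g_1_2_8_21_26_X30 : Good (27 / 10) [1, 2, 8, 21, 26] 30 :=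
  Good.skip (by decide +kernel) g_1_2_8_21_26_X31

lemma g_1_2_8_21_26_X29 : Good (27 / 10) [1, 2, 8, 21, 26] 29 :=
  Good.skip (by decide +kernel) g_1_2_8_21_26_X30

lemma g_1_2_8_21_26_X28 : Good (27 / 10) [1, 2, 8, 21, 26] 28 :=
  Good.skip (by decide +kernel) g_1_2_8_21_26_X29

lemma g_1_2_8_21_26_X27 : Good (27 / 10) [1, 2, 8, 21, 26] 27 :=
  Good.skip (by decide +kernel) g_1_2_8_21_26_X28

lemma g_1_2_8_21_27_X32 : Good (27 / 10) [1, 2, 8, 21, 27] 32 :=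
  Good.skip (by decide +kernel) g_1_2_8_21_27_X33

lemma g_1_2_8_21_27_X31 : Good (27 / 10) [1, 2, 8, 21, 27] 31 :=
  Good.skip (by decide +kernel) g_1_2_8_21_27_X32

lemma g_1_2_8_21_27_X30 : Good (27 / 10) [1, 2, 8, 21, 27] 30 :=
  Good.skip (by decide +kernel) g_1_2_8_21_27_X31

lemma g_1_2_8_21_27_X29 : Good (27 / 10) [1, 2, 8, 21, 27] 29 :=
  Good.skip (by decide +kernel) g_1_2_8_21_27_X30

lemma g_1_2_8_21_27_X28 : Good (27 / 10) [1, 2, 8, 21, 27] 28 :=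
  Good.skip (by decide +kernel) g_1_2_8_21_27_X29

lemma g_1_2_8_21_X27 : Good (27 / 10) [1, 2, 8, 21] 27 :=
  Good.branch g_1_2_8_21_27_X28 g_1_2_8_21_X28

lemma g_1_2_8_21_X26 : Good (27 / 10) [1, 2, 8, 21] 26 :=
  Good.branch g_1_2_8_21_26_X27 g_1_2_8_21_X27

lemma g_1_2_8_21_X25 : Good (27 / 10) [1, 2, 8, 21] 25 :=
  Good.branch g_1_2_8_21_25_X26 g_1_2_8_21_X26

lemma g_1_2_8_21_X24 : Good (27 / 10) [1, 2, 8, 21] 24 :=
  Good.skip (by decide +kernel) g_1_2_8_21_X25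

lemma g_1_2_8_21_X23 : Good (27 / 10) [1, 2, 8, 21] 23 :=
  Good.skip (by decide +kernel) g_1_2_8_21_X24

lemma g_1_2_8_21_X22 : Good (27 / 10) [1, 2, 8, 21] 22 :=
  Good.skip (by decide +kernel) g_1_2_8_21_X23

lemma g_1_2_8_22_26_X37 : Good (27 / 10) [1, 2, 8, 22, 26] 37 :=
  Good.skip (by decide +kernel) g_1_2_8_22_26_X38

lemma g_1_2_8_22_26_X36 : Good (27 / 10) [1, 2, 8, 22, 26] 36 :=
  Good.skip (by decide +kernel) g_1_2_8_22_26_X37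

lemma g_1_2_8_22_26_X35 : Good (27 / 10) [1, 2, 8, 22, 26] 35 :=
  Good.skip (by decide +kernel) g_1_2_8_22_26_X36

lemma g_1_2_8_22_26_X34 : Good (27 / 10) [1, 2, 8, 22, 26] 34 :=
  Good.skip (by decide +kernel) g_1_2_8_22_26_X35

lemma g_1_2_8_22_26_X33 : Good (27 / 10) [1, 2, 8, 22, 26] 33 :=
  Good.skip (by decide +kernel) g_1_2_8_22_26_X34

lemma g_1_2_8_22_26_X32 : Good (27 / 10) [1, 2, 8, 22, 26] 32 :=
  Good.skip (by decide +kernel) g_1_2_8_22_26_X33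

lemma g_1_2_8_22_26_X31 : Good (27 / 10) [1, 2, 8, 22, 26] 31 :=
  Good.skip (by decide +kernel) g_1_2_8_22_26_X32

lemma g_1_2_8_22_26_X30 : Good (27 / 10) [1, 2, 8, 22, 26] 30 :=
  Good.skip (by decide +kernel) g_1_2_8_22_26_X31

lemma g_1_2_8_22_26_X29 : Good (27 / 10) [1, 2, 8, 22, 26] 29 :=
  Good.skip (by decide +kernel) g_1_2_8_22_26_X30

lemma g_1_2_8_22_26_X28 : Good (27 / 10) [1, 2, 8, 22, 26] 28 :=
  Good.skip (by decide +kernel) g_1_2_8_22_26_X29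

lemma g_1_2_8_22_26_X27 : Good (27 / 10) [1, 2, 8, 22, 26] 27 :=
  Good.skip (by decide +kernel) g_1_2_8_22_26_X28

lemma g_1_2_8_22_27_X33 : Good (27 / 10) [1, 2, 8, 22, 27] 33 :=
  Good.skip (by decide +kernel) g_1_2_8_22_27_X34

lemma g_1_2_8_22_27_X32 : Good (27 / 10) [1, 2, 8, 22, 27] 32 :=
  Good.skip (by decide +kernel) g_1_2_8_22_27_X33

lemma g_1_2_8_22_27_X31 : Good (27 / 10) [1, 2, 8, 22, 27] 31 :=
  Good.skip (by decide +kernel) g_1_2_8_22_27_X32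

lemma g_1_2_8_22_27_X30 : Good (27 / 10) [1, 2, 8, 22, 27] 30 :=
  Good.skip (by decide +kernel) g_1_2_8_22_27_X31

lemma g_1_2_8_22_27_X29 : Good (27 / 10) [1, 2, 8, 22, 27] 29 :=
  Good.skip (by decide +kernel) g_1_2_8_22_27_X30

lemma g_1_2_8_22_27_X28 : Good (27 / 10) [1, 2, 8, 22, 27] 28 :=
  Good.skip (by decide +kernel) g_1_2_8_22_27_X29

lemma g_1_2_8_22_28_X33 : Good (27 / 10) [1, 2, 8, 22, 28] 33 :=
  Good.skip (by decide +kernel) g_1_2_8_22_28_X34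

lemma g_1_2_8_22_28_X32 : Good (27 / 10) [1, 2, 8, 22, 28] 32 :=
  Good.skip (by decide +kernel) g_1_2_8_22_28_X33

lemma g_1_2_8_22_28_X31 : Good (27 / 10) [1, 2, 8, 22, 28] 31 :=
  Good.skip (by decide +kernel) g_1_2_8_22_28_X32

lemma g_1_2_8_22_28_X30 : Good (27 / 10) [1, 2, 8, 22, 28] 30 :=
  Good.skip (by decide +kernel) g_1_2_8_22_28_X31

lemma g_1_2_8_22_28_X29 : Good (27 / 10) [1, 2, 8, 22, 28] 29 :=
  Good.skip (by decide +kernel) g_1_2_8_22_28_X30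

lemma g_1_2_8_22_X28 : Good (27 / 10) [1, 2, 8, 22] 28 :=
  Good.branch g_1_2_8_22_28_X29 g_1_2_8_22_X29

lemma g_1_2_8_22_X27 : Good (27 / 10) [1, 2, 8, 22] 27 :=
  Good.branch g_1_2_8_22_27_X28 g_1_2_8_22_X28

lemma g_1_2_8_22_X26 : Good (27 / 10) [1, 2, 8, 22] 26 :=
  Good.branch g_1_2_8_22_26_X27 g_1_2_8_22_X27

lemma g_1_2_8_22_X25 : Good (27 / 10) [1, 2, 8, 22] 25 :=
  Good.skip (by decide +kernel) g_1_2_8_22_X26

lemma g_1_2_8_22_X24 : Good (27 / 10) [1, 2, 8, 22] 24 :=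
  Good.skip (by decide +kernel) g_1_2_8_22_X25

lemma g_1_2_8_22_X23 : Good (27 / 10) [1, 2, 8, 22] 23 :=
  Good.skip (by decide +kernel) g_1_2_8_22_X24

lemma g_1_2_8_23_27_X38 : Good (27 / 10) [1, 2, 8, 23, 27] 38 :=
  Good.skip (by decide +kernel) g_1_2_8_23_27_X39

lemma g_1_2_8_23_27_X37 : Good (27 / 10) [1, 2, 8, 23, 27] 37 :=
  Good.skip (by decide +kernel) g_1_2_8_23_27_X38

lemma g_1_2_8_23_27_X36 : Good (27 / 10) [1, 2, 8, 23, 27] 36 :=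
  Good.skip (by decide +kernel) g_1_2_8_23_27_X37

lemma g_1_2_8_23_27_X35 : Good (27 / 10) [1, 2, 8, 23, 27] 35 :=
  Good.skip (by decide +kernel) g_1_2_8_23_27_X36

lemma g_1_2_8_23_27_X34 : Good (27 / 10) [1, 2, 8, 23, 27] 34 :=
  Good.skip (by decide +kernel) g_1_2_8_23_27_X35

lemma g_1_2_8_23_27_X33 : Good (27 / 10) [1, 2, 8, 23, 27] 33 :=
  Good.skip (by decide +kernel) g_1_2_8_23_27_X34

lemma g_1_2_8_23_27_X32 : Good (27 / 10) [1, 2, 8, 23, 27] 32 :=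
  Good.skip (by decide +kernel) g_1_2_8_23_27_X33

lemma g_1_2_8_23_27_X31 : Good (27 / 10) [1, 2, 8, 23, 27] 31 :=
  Good.skip (by decide +kernel) g_1_2_8_23_27_X32

lemma g_1_2_8_23_27_X30 : Good (27 / 10) [1, 2, 8, 23, 27] 30 :=
  Good.skip (by decide +kernel) g_1_2_8_23_27_X31

lemma g_1_2_8_23_27_X29 : Good (27 / 10) [1, 2, 8, 23, 27] 29 :=
  Good.skip (by decide +kernel) g_1_2_8_23_27_X30

lemma g_1_2_8_23_27_X28 : Good (27 / 10) [1, 2, 8, 23, 27] 28 :=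
  Good.skip (by decide +kernel) g_1_2_8_23_27_X29

lemma g_1_2_8_23_28_X34 : Good (27 / 10) [1, 2, 8, 23, 28] 34 :=
  Good.skip (by decide +kernel) g_1_2_8_23_28_X35

lemma g_1_2_8_23_28_X33 : Good (27 / 10) [1, 2, 8, 23, 28] 33 :=
  Good.skip (by decide +kernel) g_1_2_8_23_28_X34

lemma g_1_2_8_23_28_X32 : Good (27 / 10) [1, 2, 8, 23, 28] 32 :=
  Good.skip (by decide +kernel) g_1_2_8_23_28_X33

lemma g_1_2_8_23_28_X31 : Good (27 / 10) [1, 2, 8, 23, 28] 31 :=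
  Good.skip (by decide +kernel) g_1_2_8_23_28_X32

lemma g_1_2_8_23_28_X30 : Good (27 / 10) [1, 2, 8, 23, 28] 30 :=
  Good.skip (by decide +kernel) g_1_2_8_23_28_X31

lemma g_1_2_8_23_28_X29 : Good (27 / 10) [1, 2, 8, 23, 28] 29 :=
  Good.skip (by decide +kernel) g_1_2_8_23_28_X30

lemma g_1_2_8_23_X28 : Good (27 / 10) [1, 2, 8, 23] 28 :=
  Good.branch g_1_2_8_23_28_X29 g_1_2_8_23_X29

lemma g_1_2_8_23_X27 : Good (27 / 10) [1, 2, 8, 23] 27 :=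
  Good.branch g_1_2_8_23_27_X28 g_1_2_8_23_X28

lemma g_1_2_8_23_X26 : Good (27 / 10) [1, 2, 8, 23] 26 :=
  Good.skip (by decide +kernel) g_1_2_8_23_X27

lemma g_1_2_8_23_X25 : Good (27 / 10) [1, 2, 8, 23] 25 :=
  Good.skip (by decide +kernel) g_1_2_8_23_X26

lemma g_1_2_8_23_X24 : Good (27 / 10) [1, 2, 8, 23] 24 :=
  Good.skip (by decide +kernel) g_1_2_8_23_X25

lemma g_1_2_8_24_28_X39 : Good (27 / 10) [1, 2, 8, 24, 28] 39 :=
  Good.skip (by decide +kernel) g_1_2_8_24_28_X40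

lemma g_1_2_8_24_28_X38 : Good (27 / 10) [1, 2, 8, 24, 28] 38 :=
  Good.skip (by decide +kernel) g_1_2_8_24_28_X39

lemma g_1_2_8_24_28_X37 : Good (27 / 10) [1, 2, 8, 24, 28] 37 :=
  Good.skip (by decide +kernel) g_1_2_8_24_28_X38

lemma g_1_2_8_24_28_X36 : Good (27 / 10) [1, 2, 8, 24, 28] 36 :=
  Good.skip (by decide +kernel) g_1_2_8_24_28_X37

lemma g_1_2_8_24_28_X35 : Good (27 / 10) [1, 2, 8, 24, 28] 35 :=
  Good.skip (by decide +kernel) g_1_2_8_24_28_X36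

lemma g_1_2_8_24_28_X34 : Good (27 / 10) [1, 2, 8, 24, 28] 34 :=
  Good.skip (by decide +kernel) g_1_2_8_24_28_X35

lemma g_1_2_8_24_28_X33 : Good (27 / 10) [1, 2, 8, 24, 28] 33 :=
  Good.skip (by decide +kernel) g_1_2_8_24_28_X34

lemma g_1_2_8_24_28_X32 : Good (27 / 10) [1, 2, 8, 24, 28] 32 :=
  Good.skip (by decide +kernel) g_1_2_8_24_28_X33

lemma g_1_2_8_24_28_X31 : Good (27 / 10) [1, 2, 8, 24, 28] 31 :=
  Good.skip (by decide +kernel) g_1_2_8_24_28_X32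

lemma g_1_2_8_24_28_X30 : Good (27 / 10) [1, 2, 8, 24, 28] 30 :=
  Good.skip (by decide +kernel) g_1_2_8_24_28_X31

lemma g_1_2_8_24_28_X29 : Good (27 / 10) [1, 2, 8, 24, 28] 29 :=
  Good.skip (by decide +kernel) g_1_2_8_24_28_X30

lemma g_1_2_8_24_29_X35 : Good (27 / 10) [1, 2, 8, 24, 29] 35 :=
  Good.skip (by decide +kernel) g_1_2_8_24_29_X36

lemma g_1_2_8_24_29_X34 : Good (27 / 10) [1, 2, 8, 24, 29] 34 :=
  Good.skip (by decide +kernel) g_1_2_8_24_29_X35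

lemma g_1_2_8_24_29_X33 : Good (27 / 10) [1, 2, 8, 24, 29] 33 :=
  Good.skip (by decide +kernel) g_1_2_8_24_29_X34

lemma g_1_2_8_24_29_X32 : Good (27 / 10) [1, 2, 8, 24, 29] 32 :=
  Good.skip (by decide +kernel) g_1_2_8_24_29_X33

lemma g_1_2_8_24_29_X31 : Good (27 / 10) [1, 2, 8, 24, 29] 31 :=
  Good.skip (by decide +kernel) g_1_2_8_24_29_X32

lemma g_1_2_8_24_29_X30 : Good (27 / 10) [1, 2, 8, 24, 29] 30 :=
  Good.skip (by decide +kernel) g_1_2_8_24_29_X31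

lemma g_1_2_8_24_X29 : Good (27 / 10) [1, 2, 8, 24] 29 :=
  Good.branch g_1_2_8_24_29_X30 g_1_2_8_24_X30

lemma g_1_2_8_24_X28 : Good (27 / 10) [1, 2, 8, 24] 28 :=
  Good.branch g_1_2_8_24_28_X29 g_1_2_8_24_X29

lemma g_1_2_8_24_X27 : Good (27 / 10) [1, 2, 8, 24] 27 :=
  Good.skip (by decide +kernel) g_1_2_8_24_X28

lemma g_1_2_8_24_X26 : Good (27 / 10) [1, 2, 8, 24] 26 :=
  Good.skip (by decide +kernel) g_1_2_8_24_X27

lemma g_1_2_8_24_X25 : Good (27 / 10) [1, 2, 8, 24] 25 :=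
  Good.skip (by decide +kernel) g_1_2_8_24_X26

lemma g_1_2_8_X24 : Good (27 / 10) [1, 2, 8] 24 :=
  Good.branch g_1_2_8_24_X25 g_1_2_8_X25

lemma g_1_2_8_X23 : Good (27 / 10) [1, 2, 8] 23 :=
  Good.branch g_1_2_8_23_X24 g_1_2_8_X24

lemma g_1_2_8_X22 : Good (27 / 10) [1, 2, 8] 22 :=
  Good.branch g_1_2_8_22_X23 g_1_2_8_X23

lemma g_1_2_8_X21 : Good (27 / 10) [1, 2, 8] 21 :=
  Good.branch g_1_2_8_21_X22 g_1_2_8_X22

lemma g_1_2_8_X20 : Good (27 / 10) [1, 2, 8] 20 :=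
  Good.branch g_1_2_8_20_X21 g_1_2_8_X21

lemma g_1_2_8_X19 : Good (27 / 10) [1, 2, 8] 19 :=
  Good.branch g_1_2_8_19_X20 g_1_2_8_X20

lemma g_1_2_8_X18 : Good (27 / 10) [1, 2, 8] 18 :=
  Good.branch g_1_2_8_18_X19 g_1_2_8_X19

lemma g_1_2_8_X17 : Good (27 / 10) [1, 2, 8] 17 :=
  Good.branch g_1_2_8_17_X18 g_1_2_8_X18

lemma g_1_2_8_X16 : Good (27 / 10) [1, 2, 8] 16 :=
  Good.branch g_1_2_8_16_X17 g_1_2_8_X17

lemma g_1_2_8_X15 : Good (27 / 10) [1, 2, 8] 15 :=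
  Good.branch g_1_2_8_15_X16 g_1_2_8_X16

lemma g_1_2_8_X14 : Good (27 / 10) [1, 2, 8] 14 :=
  Good.branch g_1_2_8_14_X15 g_1_2_8_X15

lemma g_1_2_8_X13 : Good (27 / 10) [1, 2, 8] 13 :=
  Good.branch g_1_2_8_13_X14 g_1_2_8_X14

lemma g_1_2_8_X12 : Good (27 / 10) [1, 2, 8] 12 :=
  Good.branch g_1_2_8_12_X13 g_1_2_8_X13

lemma g_1_2_8_X11 : Good (27 / 10) [1, 2, 8] 11 :=
  Good.skip (by decide +kernel) g_1_2_8_X12

lemma g_1_2_8_X10 : Good (27 / 10) [1, 2, 8] 10 :=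
  Good.skip (by decide +kernel) g_1_2_8_X11

lemma g_1_2_8_X9 : Good (27 / 10) [1, 2, 8] 9 :=
  Good.skip (by decide +kernel) g_1_2_8_X10

lemma g_1_2_9_13_X16 : Good (27 / 10) [1, 2, 9, 13] 16 :=
  Good.skip (by decide +kernel) g_1_2_9_13_X17

lemma g_1_2_9_13_X15 : Good (27 / 10) [1, 2, 9, 13] 15 :=
  Good.skip (by decide +kernel) g_1_2_9_13_X16

lemma g_1_2_9_13_X14 : Good (27 / 10) [1, 2, 9, 13] 14 :=
  Good.skip (by decide +kernel) g_1_2_9_13_X15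

lemma g_1_2_9_14_18_X21 : Good (27 / 10) [1, 2, 9, 14, 18] 21 :=
  Good.skip (by decide +kernel) g_1_2_9_14_18_X22

lemma g_1_2_9_14_18_X20 : Good (27 / 10) [1, 2, 9, 14, 18] 20 :=
  Good.skip (by decide +kernel) g_1_2_9_14_18_X21

lemma g_1_2_9_14_18_X19 : Good (27 / 10) [1, 2, 9, 14, 18] 19 :=
  Good.skip (by decide +kernel) g_1_2_9_14_18_X20

lemma g_1_2_9_14_19_X26 : Good (27 / 10) [1, 2, 9, 14, 19] 26 :=
  Good.skip (by decide +kernel) g_1_2_9_14_19_X27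

lemma g_1_2_9_14_19_X25 : Good (27 / 10) [1, 2, 9, 14, 19] 25 :=
  Good.skip (by decide +kernel) g_1_2_9_14_19_X26

lemma g_1_2_9_14_19_X24 : Good (27 / 10) [1, 2, 9, 14, 19] 24 :=
  Good.skip (by decide +kernel) g_1_2_9_14_19_X25

lemma g_1_2_9_14_19_X23 : Good (27 / 10) [1, 2, 9, 14, 19] 23 :=
  Good.skip (by decide +kernel) g_1_2_9_14_19_X24

lemma g_1_2_9_14_19_X22 : Good (27 / 10) [1, 2, 9, 14, 19] 22 :=
  Good.skip (by decide +kernel) g_1_2_9_14_19_X23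

lemma g_1_2_9_14_19_X21 : Good (27 / 10) [1, 2, 9, 14, 19] 21 :=
  Good.skip (by decide +kernel) g_1_2_9_14_19_X22

lemma g_1_2_9_14_19_X20 : Good (27 / 10) [1, 2, 9, 14, 19] 20 :=
  Good.skip (by decide +kernel) g_1_2_9_14_19_X21

lemma g_1_2_9_14_20_X26 : Good (27 / 10) [1, 2, 9, 14, 20] 26 :=
  Good.skip (by decide +kernel) g_1_2_9_14_20_X27

lemma g_1_2_9_14_20_X25 : Good (27 / 10) [1, 2, 9, 14, 20] 25 :=
  Good.skip (by decide +kernel) g_1_2_9_14_20_X26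

lemma g_1_2_9_14_20_X24 : Good (27 / 10) [1, 2, 9, 14, 20] 24 :=
  Good.skip (by decide +kernel) g_1_2_9_14_20_X25

lemma g_1_2_9_14_20_X23 : Good (27 / 10) [1, 2, 9, 14, 20] 23 :=
  Good.skip (by decide +kernel) g_1_2_9_14_20_X24

lemma g_1_2_9_14_20_X22 : Good (27 / 10) [1, 2, 9, 14, 20] 22 :=
  Good.skip (by decide +kernel) g_1_2_9_14_20_X23

lemma g_1_2_9_14_20_X21 : Good (27 / 10) [1, 2, 9, 14, 20] 21 :=
  Good.skip (by decide +kernel) g_1_2_9_14_20_X22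

lemma g_1_2_9_14_21_X26 : Good (27 / 10) [1, 2, 9, 14, 21] 26 :=
  Good.skip (by decide +kernel) g_1_2_9_14_21_X27

lemma g_1_2_9_14_21_X25 : Good (27 / 10) [1, 2, 9, 14, 21] 25 :=
  Good.skip (by decide +kernel) g_1_2_9_14_21_X26

lemma g_1_2_9_14_21_X24 : Good (27 / 10) [1, 2, 9, 14, 21] 24 :=
  Good.skip (by decide +kernel) g_1_2_9_14_21_X25

lemma g_1_2_9_14_21_X23 : Good (27 / 10) [1, 2, 9, 14, 21] 23 :=
  Good.skip (by decide +kernel) g_1_2_9_14_21_X24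

lemma g_1_2_9_14_21_X22 : Good (27 / 10) [1, 2, 9, 14, 21] 22 :=
  Good.skip (by decide +kernel) g_1_2_9_14_21_X23

lemma g_1_2_9_14_22_X26 : Good (27 / 10) [1, 2, 9, 14, 22] 26 :=
  Good.skip (by decide +kernel) g_1_2_9_14_22_X27

lemma g_1_2_9_14_22_X25 : Good (27 / 10) [1, 2, 9, 14, 22] 25 :=
  Good.skip (by decide +kernel) g_1_2_9_14_22_X26

lemma g_1_2_9_14_22_X24 : Good (27 / 10) [1, 2, 9, 14, 22] 24 :=
  Good.skip (by decide +kernel) g_1_2_9_14_22_X25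

lemma g_1_2_9_14_22_X23 : Good (27 / 10) [1, 2, 9, 14, 22] 23 :=
  Good.skip (by decide +kernel) g_1_2_9_14_22_X24

lemma g_1_2_9_14_X26 : Good (27 / 10) [1, 2, 9, 14] 26 :=
  Good.skip (by decide +kernel) g_1_2_9_14_X27

lemma g_1_2_9_14_X25 : Good (27 / 10) [1, 2, 9, 14] 25 :=
  Good.skip (by decide +kernel) g_1_2_9_14_X26

lemma g_1_2_9_14_X24 : Good (27 / 10) [1, 2, 9, 14] 24 :=
  Good.skip (by decide +kernel) g_1_2_9_14_X25

lemma g_1_2_9_14_X23 : Good (27 / 10) [1, 2, 9, 14] 23 :=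
  Good.skip (by decide +kernel) g_1_2_9_14_X24

lemma g_1_2_9_14_X22 : Good (27 / 10) [1, 2, 9, 14] 22 :=
  Good.branch g_1_2_9_14_22_X23 g_1_2_9_14_X23

lemma g_1_2_9_14_X21 : Good (27 / 10) [1, 2, 9, 14] 21 :=
  Good.branch g_1_2_9_14_21_X22 g_1_2_9_14_X22

lemma g_1_2_9_14_X20 : Good (27 / 10) [1, 2, 9, 14] 20 :=
  Good.branch g_1_2_9_14_20_X21 g_1_2_9_14_X21

lemma g_1_2_9_14_X19 : Good (27 / 10) [1, 2, 9, 14] 19 :=
  Good.branch g_1_2_9_14_19_X20 g_1_2_9_14_X20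

lemma g_1_2_9_14_X18 : Good (27 / 10) [1, 2, 9, 14] 18 :=
  Good.branch g_1_2_9_14_18_X19 g_1_2_9_14_X19

lemma g_1_2_9_14_X17 : Good (27 / 10) [1, 2, 9, 14] 17 :=
  Good.skip (by decide +kernel) g_1_2_9_14_X18

lemma g_1_2_9_14_X16 : Good (27 / 10) [1, 2, 9, 14] 16 :=
  Good.skip (by decide +kernel) g_1_2_9_14_X17

lemma g_1_2_9_14_X15 : Good (27 / 10) [1, 2, 9, 14] 15 :=
  Good.skip (by decide +kernel) g_1_2_9_14_X16

lemma g_1_2_9_15_19_X22 : Good (27 / 10) [1, 2, 9, 15, 19] 22 :=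
  Good.skip (by decide +kernel) g_1_2_9_15_19_X23

lemma g_1_2_9_15_19_X21 : Good (27 / 10) [1, 2, 9, 15, 19] 21 :=
  Good.skip (by decide +kernel) g_1_2_9_15_19_X22

lemma g_1_2_9_15_19_X20 : Good (27 / 10) [1, 2, 9, 15, 19] 20 :=
  Good.skip (by decide +kernel) g_1_2_9_15_19_X21

lemma g_1_2_9_15_20_X27 : Good (27 / 10) [1, 2, 9, 15, 20] 27 :=
  Good.skip (by decide +kernel) g_1_2_9_15_20_X28

lemma g_1_2_9_15_20_X26 : Good (27 / 10) [1, 2, 9, 15, 20] 26 :=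
  Good.skip (by decide +kernel) g_1_2_9_15_20_X27

lemma g_1_2_9_15_20_X25 : Good (27 / 10) [1, 2, 9, 15, 20] 25 :=
  Good.skip (by decide +kernel) g_1_2_9_15_20_X26

lemma g_1_2_9_15_20_X24 : Good (27 / 10) [1, 2, 9, 15, 20] 24 :=
  Good.skip (by decide +kernel) g_1_2_9_15_20_X25

lemma g_1_2_9_15_20_X23 : Good (27 / 10) [1, 2, 9, 15, 20] 23 :=
  Good.skip (by decide +kernel) g_1_2_9_15_20_X24

lemma g_1_2_9_15_20_X22 : Good (27 / 10) [1, 2, 9, 15, 20] 22 :=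
  Good.skip (by decide +kernel) g_1_2_9_15_20_X23

lemma g_1_2_9_15_20_X21 : Good (27 / 10) [1, 2, 9, 15, 20] 21 :=
  Good.skip (by decide +kernel) g_1_2_9_15_20_X22

lemma g_1_2_9_15_21_X27 : Good (27 / 10) [1, 2, 9, 15, 21] 27 :=
  Good.skip (by decide +kernel) g_1_2_9_15_21_X28

lemma g_1_2_9_15_21_X26 : Good (27 / 10) [1, 2, 9, 15, 21] 26 :=
  Good.skip (by decide +kernel) g_1_2_9_15_21_X27

lemma g_1_2_9_15_21_X25 : Good (27 / 10) [1, 2, 9, 15, 21] 25 :=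
  Good.skip (by decide +kernel) g_1_2_9_15_21_X26

lemma g_1_2_9_15_21_X24 : Good (27 / 10) [1, 2, 9, 15, 21] 24 :=
  Good.skip (by decide +kernel) g_1_2_9_15_21_X25

lemma g_1_2_9_15_21_X23 : Good (27 / 10) [1, 2, 9, 15, 21] 23 :=
  Good.skip (by decide +kernel) g_1_2_9_15_21_X24

lemma g_1_2_9_15_21_X22 : Good (27 / 10) [1, 2, 9, 15, 21] 22 :=
  Good.skip (by decide +kernel) g_1_2_9_15_21_X23

lemma g_1_2_9_15_22_X27 : Good (27 / 10) [1, 2, 9, 15, 22] 27 :=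
  Good.skip (by decide +kernel) g_1_2_9_15_22_X28

lemma g_1_2_9_15_22_X26 : Good (27 / 10) [1, 2, 9, 15, 22] 26 :=
  Good.skip (by decide +kernel) g_1_2_9_15_22_X27

lemma g_1_2_9_15_22_X25 : Good (27 / 10) [1, 2, 9, 15, 22] 25 :=
  Good.skip (by decide +kernel) g_1_2_9_15_22_X26

lemma g_1_2_9_15_22_X24 : Good (27 / 10) [1, 2, 9, 15, 22] 24 :=
  Good.skip (by decide +kernel) g_1_2_9_15_22_X25

lemma g_1_2_9_15_22_X23 : Good (27 / 10) [1, 2, 9, 15, 22] 23 :=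
  Good.skip (by decide +kernel) g_1_2_9_15_22_X24

lemma g_1_2_9_15_23_X27 : Good (27 / 10) [1, 2, 9, 15, 23] 27 :=
  Good.skip (by decide +kernel) g_1_2_9_15_23_X28

lemma g_1_2_9_15_23_X26 : Good (27 / 10) [1, 2, 9, 15, 23] 26 :=
  Good.skip (by decide +kernel) g_1_2_9_15_23_X27

lemma g_1_2_9_15_23_X25 : Good (27 / 10) [1, 2, 9, 15, 23] 25 :=
  Good.skip (by decide +kernel) g_1_2_9_15_23_X26

lemma g_1_2_9_15_23_X24 : Good (27 / 10) [1, 2, 9, 15, 23] 24 :=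
  Good.skip (by decide +kernel) g_1_2_9_15_23_X25

lemma g_1_2_9_15_X27 : Good (27 / 10) [1, 2, 9, 15] 27 :=
  Good.skip (by decide +kernel) g_1_2_9_15_X28

lemma g_1_2_9_15_X26 : Good (27 / 10) [1, 2, 9, 15] 26 :=
  Good.skip (by decide +kernel) g_1_2_9_15_X27

lemma g_1_2_9_15_X25 : Good (27 / 10) [1, 2, 9, 15] 25 :=
  Good.skip (by decide +kernel) g_1_2_9_15_X26

lemma g_1_2_9_15_X24 : Good (27 / 10) [1, 2, 9, 15] 24 :=
  Good.skip (by decide +kernel) g_1_2_9_15_X25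

lemma g_1_2_9_15_X23 : Good (27 / 10) [1, 2, 9, 15] 23 :=
  Good.branch g_1_2_9_15_23_X24 g_1_2_9_15_X24

lemma g_1_2_9_15_X22 : Good (27 / 10) [1, 2, 9, 15] 22 :=
  Good.branch g_1_2_9_15_22_X23 g_1_2_9_15_X23

lemma g_1_2_9_15_X21 : Good (27 / 10) [1, 2, 9, 15] 21 :=
  Good.branch g_1_2_9_15_21_X22 g_1_2_9_15_X22

lemma g_1_2_9_15_X20 : Good (27 / 10) [1, 2, 9, 15] 20 :=
  Good.branch g_1_2_9_15_20_X21 g_1_2_9_15_X21

lemma g_1_2_9_15_X19 : Good (27 / 10) [1, 2, 9, 15] 19 :=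
  Good.branch g_1_2_9_15_19_X20 g_1_2_9_15_X20

lemma g_1_2_9_15_X18 : Good (27 / 10) [1, 2, 9, 15] 18 :=
  Good.skip (by decide +kernel) g_1_2_9_15_X19

lemma g_1_2_9_15_X17 : Good (27 / 10) [1, 2, 9, 15] 17 :=
  Good.skip (by decide +kernel) g_1_2_9_15_X18

lemma g_1_2_9_15_X16 : Good (27 / 10) [1, 2, 9, 15] 16 :=
  Good.skip (by decide +kernel) g_1_2_9_15_X17

lemma g_1_2_9_16_20_X23 : Good (27 / 10) [1, 2, 9, 16, 20] 23 :=
  Good.skip (by decide +kernel) g_1_2_9_16_20_X24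

lemma g_1_2_9_16_20_X22 : Good (27 / 10) [1, 2, 9, 16, 20] 22 :=
  Good.skip (by decide +kernel) g_1_2_9_16_20_X23

lemma g_1_2_9_16_20_X21 : Good (27 / 10) [1, 2, 9, 16, 20] 21 :=
  Good.skip (by decide +kernel) g_1_2_9_16_20_X22

lemma g_1_2_9_16_21_X28 : Good (27 / 10) [1, 2, 9, 16, 21] 28 :=
  Good.skip (by decide +kernel) g_1_2_9_16_21_X29

lemma g_1_2_9_16_21_X27 : Good (27 / 10) [1, 2, 9, 16, 21] 27 :=
  Good.skip (by decide +kernel) g_1_2_9_16_21_X28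

lemma g_1_2_9_16_21_X26 : Good (27 / 10) [1, 2, 9, 16, 21] 26 :=
  Good.skip (by decide +kernel) g_1_2_9_16_21_X27

lemma g_1_2_9_16_21_X25 : Good (27 / 10) [1, 2, 9, 16, 21] 25 :=
  Good.skip (by decide +kernel) g_1_2_9_16_21_X26

lemma g_1_2_9_16_21_X24 : Good (27 / 10) [1, 2, 9, 16, 21] 24 :=
  Good.skip (by decide +kernel) g_1_2_9_16_21_X25

lemma g_1_2_9_16_21_X23 : Good (27 / 10) [1, 2, 9, 16, 21] 23 :=
  Good.skip (by decide +kernel) g_1_2_9_16_21_X24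

lemma g_1_2_9_16_21_X22 : Good (27 / 10) [1, 2, 9, 16, 21] 22 :=
  Good.skip (by decide +kernel) g_1_2_9_16_21_X23

lemma g_1_2_9_16_22_X28 : Good (27 / 10) [1, 2, 9, 16, 22] 28 :=
  Good.skip (by decide +kernel) g_1_2_9_16_22_X29

lemma g_1_2_9_16_22_X27 : Good (27 / 10) [1, 2, 9, 16, 22] 27 :=
  Good.skip (by decide +kernel) g_1_2_9_16_22_X28

lemma g_1_2_9_16_22_X26 : Good (27 / 10) [1, 2, 9, 16, 22] 26 :=
  Good.skip (by decide +kernel) g_1_2_9_16_22_X27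

lemma g_1_2_9_16_22_X25 : Good (27 / 10) [1, 2, 9, 16, 22] 25 :=
  Good.skip (by decide +kernel) g_1_2_9_16_22_X26

lemma g_1_2_9_16_22_X24 : Good (27 / 10) [1, 2, 9, 16, 22] 24 :=
  Good.skip (by decide +kernel) g_1_2_9_16_22_X25

lemma g_1_2_9_16_22_X23 : Good (27 / 10) [1, 2, 9, 16, 22] 23 :=
  Good.skip (by decide +kernel) g_1_2_9_16_22_X24

lemma g_1_2_9_16_23_X28 : Good (27 / 10) [1, 2, 9, 16, 23] 28 :=
  Good.skip (by decide +kernel) g_1_2_9_16_23_X29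

lemma g_1_2_9_16_23_X27 : Good (27 / 10) [1, 2, 9, 16, 23] 27 :=
  Good.skip (by decide +kernel) g_1_2_9_16_23_X28

lemma g_1_2_9_16_23_X26 : Good (27 / 10) [1, 2, 9, 16, 23] 26 :=
  Good.skip (by decide +kernel) g_1_2_9_16_23_X27

lemma g_1_2_9_16_23_X25 : Good (27 / 10) [1, 2, 9, 16, 23] 25 :=
  Good.skip (by decide +kernel) g_1_2_9_16_23_X26

lemma g_1_2_9_16_23_X24 : Good (27 / 10) [1, 2, 9, 16, 23] 24 :=
  Good.skip (by decide +kernel) g_1_2_9_16_23_X25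

lemma g_1_2_9_16_24_X28 : Good (27 / 10) [1, 2, 9, 16, 24] 28 :=
  Good.skip (by decide +kernel) g_1_2_9_16_24_X29

lemma g_1_2_9_16_24_X27 : Good (27 / 10) [1, 2, 9, 16, 24] 27 :=
  Good.skip (by decide +kernel) g_1_2_9_16_24_X28

lemma g_1_2_9_16_24_X26 : Good (27 / 10) [1, 2, 9, 16, 24] 26 :=
  Good.skip (by decide +kernel) g_1_2_9_16_24_X27

lemma g_1_2_9_16_24_X25 : Good (27 / 10) [1, 2, 9, 16, 24] 25 :=
  Good.skip (by decide +kernel) g_1_2_9_16_24_X26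

lemma g_1_2_9_16_X28 : Good (27 / 10) [1, 2, 9, 16] 28 :=
  Good.skip (by decide +kernel) g_1_2_9_16_X29

lemma g_1_2_9_16_X27 : Good (27 / 10) [1, 2, 9, 16] 27 :=
  Good.skip (by decide +kernel) g_1_2_9_16_X28

lemma g_1_2_9_16_X26 : Good (27 / 10) [1, 2, 9, 16] 26 :=
  Good.skip (by decide +kernel) g_1_2_9_16_X27

lemma g_1_2_9_16_X25 : Good (27 / 10) [1, 2, 9, 16] 25 :=
  Good.skip (by decide +kernel) g_1_2_9_16_X26

lemma g_1_2_9_16_X24 : Good (27 / 10) [1, 2, 9, 16] 24 :=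
  Good.branch g_1_2_9_16_24_X25 g_1_2_9_16_X25

lemma g_1_2_9_16_X23 : Good (27 / 10) [1, 2, 9, 16] 23 :=
  Good.branch g_1_2_9_16_23_X24 g_1_2_9_16_X24

lemma g_1_2_9_16_X22 : Good (27 / 10) [1, 2, 9, 16] 22 :=
  Good.branch g_1_2_9_16_22_X23 g_1_2_9_16_X23

lemma g_1_2_9_16_X21 : Good (27 / 10) [1, 2, 9, 16] 21 :=
  Good.branch g_1_2_9_16_21_X22 g_1_2_9_16_X22

lemma g_1_2_9_16_X20 : Good (27 / 10) [1, 2, 9, 16] 20 :=
  Good.branch g_1_2_9_16_20_X21 g_1_2_9_16_X21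

lemma g_1_2_9_16_X19 : Good (27 / 10) [1, 2, 9, 16] 19 :=
  Good.skip (by decide +kernel) g_1_2_9_16_X20

lemma g_1_2_9_16_X18 : Good (27 / 10) [1, 2, 9, 16] 18 :=
  Good.skip (by decide +kernel) g_1_2_9_16_X19

lemma g_1_2_9_16_X17 : Good (27 / 10) [1, 2, 9, 16] 17 :=
  Good.skip (by decide +kernel) g_1_2_9_16_X18

lemma g_1_2_9_17_21_X24 : Good (27 / 10) [1, 2, 9, 17, 21] 24 :=
  Good.skip (by decide +kernel) g_1_2_9_17_21_X25

lemma g_1_2_9_17_21_X23 : Good (27 / 10) [1, 2, 9, 17, 21] 23 :=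
  Good.skip (by decide +kernel) g_1_2_9_17_21_X24

lemma g_1_2_9_17_21_X22 : Good (27 / 10) [1, 2, 9, 17, 21] 22 :=
  Good.skip (by decide +kernel) g_1_2_9_17_21_X23

lemma g_1_2_9_17_22_X29 : Good (27 / 10) [1, 2, 9, 17, 22] 29 :=
  Good.skip (by decide +kernel) g_1_2_9_17_22_X30

lemma g_1_2_9_17_22_X28 : Good (27 / 10) [1, 2, 9, 17, 22] 28 :=
  Good.skip (by decide +kernel) g_1_2_9_17_22_X29

lemma g_1_2_9_17_22_X27 : Good (27 / 10) [1, 2, 9, 17, 22] 27 :=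
  Good.skip (by decide +kernel) g_1_2_9_17_22_X28

lemma g_1_2_9_17_22_X26 : Good (27 / 10) [1, 2, 9, 17, 22] 26 :=
  Good.skip (by decide +kernel) g_1_2_9_17_22_X27

lemma g_1_2_9_17_22_X25 : Good (27 / 10) [1, 2, 9, 17, 22] 25 :=
  Good.skip (by decide +kernel) g_1_2_9_17_22_X26

lemma g_1_2_9_17_22_X24 : Good (27 / 10) [1, 2, 9, 17, 22] 24 :=
  Good.skip (by decide +kernel) g_1_2_9_17_22_X25

lemma g_1_2_9_17_22_X23 : Good (27 / 10) [1, 2, 9, 17, 22] 23 :=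
  Good.skip (by decide +kernel) g_1_2_9_17_22_X24

lemma g_1_2_9_17_23_X29 : Good (27 / 10) [1, 2, 9, 17, 23] 29 :=
  Good.skip (by decide +kernel) g_1_2_9_17_23_X30

lemma g_1_2_9_17_23_X28 : Good (27 / 10) [1, 2, 9, 17, 23] 28 :=
  Good.skip (by decide +kernel) g_1_2_9_17_23_X29

lemma g_1_2_9_17_23_X27 : Good (27 / 10) [1, 2, 9, 17, 23] 27 :=
  Good.skip (by decide +kernel) g_1_2_9_17_23_X28

lemma g_1_2_9_17_23_X26 : Good (27 / 10) [1, 2, 9, 17, 23] 26 :=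
  Good.skip (by decide +kernel) g_1_2_9_17_23_X27

lemma g_1_2_9_17_23_X25 : Good (27 / 10) [1, 2, 9, 17, 23] 25 :=
  Good.skip (by decide +kernel) g_1_2_9_17_23_X26

lemma g_1_2_9_17_23_X24 : Good (27 / 10) [1, 2, 9, 17, 23] 24 :=
  Good.skip (by decide +kernel) g_1_2_9_17_23_X25

lemma g_1_2_9_17_24_X29 : Good (27 / 10) [1, 2, 9, 17, 24] 29 :=
  Good.skip (by decide +kernel) g_1_2_9_17_24_X30

lemma g_1_2_9_17_24_X28 : Good (27 / 10) [1, 2, 9, 17, 24] 28 :=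
  Good.skip (by decide +kernel) g_1_2_9_17_24_X29

lemma g_1_2_9_17_24_X27 : Good (27 / 10) [1, 2, 9, 17, 24] 27 :=
  Good.skip (by decide +kernel) g_1_2_9_17_24_X28

lemma g_1_2_9_17_24_X26 : Good (27 / 10) [1, 2, 9, 17, 24] 26 :=
  Good.skip (by decide +kernel) g_1_2_9_17_24_X27

lemma g_1_2_9_17_24_X25 : Good (27 / 10) [1, 2, 9, 17, 24] 25 :=
  Good.skip (by decide +kernel) g_1_2_9_17_24_X26

lemma g_1_2_9_17_25_X29 : Good (27 / 10) [1, 2, 9, 17, 25] 29 :=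
  Good.skip (by decide +kernel) g_1_2_9_17_25_X30

lemma g_1_2_9_17_25_X28 : Good (27 / 10) [1, 2, 9, 17, 25] 28 :=
  Good.skip (by decide +kernel) g_1_2_9_17_25_X29

lemma g_1_2_9_17_25_X27 : Good (27 / 10) [1, 2, 9, 17, 25] 27 :=
  Good.skip (by decide +kernel) g_1_2_9_17_25_X28

lemma g_1_2_9_17_25_X26 : Good (27 / 10) [1, 2, 9, 17, 25] 26 :=
  Good.skip (by decide +kernel) g_1_2_9_17_25_X27

lemma g_1_2_9_17_X29 : Good (27 / 10) [1, 2, 9, 17] 29 :=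
  Good.skip (by decide +kernel) g_1_2_9_17_X30

lemma g_1_2_9_17_X28 : Good (27 / 10) [1, 2, 9, 17] 28 :=
  Good.skip (by decide +kernel) g_1_2_9_17_X29

lemma g_1_2_9_17_X27 : Good (27 / 10) [1, 2, 9, 17] 27 :=
  Good.skip (by decide +kernel) g_1_2_9_17_X28

lemma g_1_2_9_17_X26 : Good (27 / 10) [1, 2, 9, 17] 26 :=
  Good.skip (by decide +kernel) g_1_2_9_17_X27

lemma g_1_2_9_17_X25 : Good (27 / 10) [1, 2, 9, 17] 25 :=
  Good.branch g_1_2_9_17_25_X26 g_1_2_9_17_X26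

lemma g_1_2_9_17_X24 : Good (27 / 10) [1, 2, 9, 17] 24 :=
  Good.branch g_1_2_9_17_24_X25 g_1_2_9_17_X25

lemma g_1_2_9_17_X23 : Good (27 / 10) [1, 2, 9, 17] 23 :=
  Good.branch g_1_2_9_17_23_X24 g_1_2_9_17_X24

lemma g_1_2_9_17_X22 : Good (27 / 10) [1, 2, 9, 17] 22 :=
  Good.branch g_1_2_9_17_22_X23 g_1_2_9_17_X23

lemma g_1_2_9_17_X21 : Good (27 / 10) [1, 2, 9, 17] 21 :=
  Good.branch g_1_2_9_17_21_X22 g_1_2_9_17_X22

lemma g_1_2_9_17_X20 : Good (27 / 10) [1, 2, 9, 17] 20 :=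
  Good.skip (by decide +kernel) g_1_2_9_17_X21

lemma g_1_2_9_17_X19 : Good (27 / 10) [1, 2, 9, 17] 19 :=
  Good.skip (by decide +kernel) g_1_2_9_17_X20

lemma g_1_2_9_17_X18 : Good (27 / 10) [1, 2, 9, 17] 18 :=
  Good.skip (by decide +kernel) g_1_2_9_17_X19

lemma g_1_2_9_18_X21 : Good (27 / 10) [1, 2, 9, 18] 21 :=
  Good.skip (by decide +kernel) g_1_2_9_18_X22

lemma g_1_2_9_18_X20 : Good (27 / 10) [1, 2, 9, 18] 20 :=
  Good.skip (by decide +kernel) g_1_2_9_18_X21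

lemma g_1_2_9_18_X19 : Good (27 / 10) [1, 2, 9, 18] 19 :=
  Good.skip (by decide +kernel) g_1_2_9_18_X20

lemma g_1_2_9_19_X22 : Good (27 / 10) [1, 2, 9, 19] 22 :=
  Good.skip (by decide +kernel) g_1_2_9_19_X23

lemma g_1_2_9_19_X21 : Good (27 / 10) [1, 2, 9, 19] 21 :=
  Good.skip (by decide +kernel) g_1_2_9_19_X22

lemma g_1_2_9_19_X20 : Good (27 / 10) [1, 2, 9, 19] 20 :=
  Good.skip (by decide +kernel) g_1_2_9_19_X21

lemma g_1_2_9_20_X23 : Good (27 / 10) [1, 2, 9, 20] 23 :=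
  Good.skip (by decide +kernel) g_1_2_9_20_X24

lemma g_1_2_9_20_X22 : Good (27 / 10) [1, 2, 9, 20] 22 :=
  Good.skip (by decide +kernel) g_1_2_9_20_X23

lemma g_1_2_9_20_X21 : Good (27 / 10) [1, 2, 9, 20] 21 :=
  Good.skip (by decide +kernel) g_1_2_9_20_X22

lemma g_1_2_9_21_X24 : Good (27 / 10) [1, 2, 9, 21] 24 :=
  Good.skip (by decide +kernel) g_1_2_9_21_X25

lemma g_1_2_9_21_X23 : Good (27 / 10) [1, 2, 9, 21] 23 :=
  Good.skip (by decide +kernel) g_1_2_9_21_X24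

lemma g_1_2_9_21_X22 : Good (27 / 10) [1, 2, 9, 21] 22 :=
  Good.skip (by decide +kernel) g_1_2_9_21_X23

lemma g_1_2_9_22_26_X29 : Good (27 / 10) [1, 2, 9, 22, 26] 29 :=
  Good.skip (by decide +kernel) g_1_2_9_22_26_X30

lemma g_1_2_9_22_26_X28 : Good (27 / 10) [1, 2, 9, 22, 26] 28 :=
  Good.skip (by decide +kernel) g_1_2_9_22_26_X29

lemma g_1_2_9_22_26_X27 : Good (27 / 10) [1, 2, 9, 22, 26] 27 :=
  Good.skip (by decide +kernel) g_1_2_9_22_26_X28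

lemma g_1_2_9_22_27_X34 : Good (27 / 10) [1, 2, 9, 22, 27] 34 :=
  Good.skip (by decide +kernel) g_1_2_9_22_27_X35

lemma g_1_2_9_22_27_X33 : Good (27 / 10) [1, 2, 9, 22, 27] 33 :=
  Good.skip (by decide +kernel) g_1_2_9_22_27_X34

lemma g_1_2_9_22_27_X32 : Good (27 / 10) [1, 2, 9, 22, 27] 32 :=
  Good.skip (by decide +kernel) g_1_2_9_22_27_X33

lemma g_1_2_9_22_27_X31 : Good (27 / 10) [1, 2, 9, 22, 27] 31 :=
  Good.skip (by decide +kernel) g_1_2_9_22_27_X32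

lemma g_1_2_9_22_27_X30 : Good (27 / 10) [1, 2, 9, 22, 27] 30 :=
  Good.skip (by decide +kernel) g_1_2_9_22_27_X31

lemma g_1_2_9_22_27_X29 : Good (27 / 10) [1, 2, 9, 22, 27] 29 :=
  Good.skip (by decide +kernel) g_1_2_9_22_27_X30

lemma g_1_2_9_22_27_X28 : Good (27 / 10) [1, 2, 9, 22, 27] 28 :=
  Good.skip (by decide +kernel) g_1_2_9_22_27_X29

lemma g_1_2_9_22_X27 : Good (27 / 10) [1, 2, 9, 22] 27 :=
  Good.branch g_1_2_9_22_27_X28 g_1_2_9_22_X28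

lemma g_1_2_9_22_X26 : Good (27 / 10) [1, 2, 9, 22] 26 :=
  Good.branch g_1_2_9_22_26_X27 g_1_2_9_22_X27

lemma g_1_2_9_22_X25 : Good (27 / 10) [1, 2, 9, 22] 25 :=
  Good.skip (by decide +kernel) g_1_2_9_22_X26

lemma g_1_2_9_22_X24 : Good (27 / 10) [1, 2, 9, 22] 24 :=
  Good.skip (by decide +kernel) g_1_2_9_22_X25

lemma g_1_2_9_22_X23 : Good (27 / 10) [1, 2, 9, 22] 23 :=
  Good.skip (by decide +kernel) g_1_2_9_22_X24

lemma g_1_2_9_23_27_X30 : Good (27 / 10) [1, 2, 9, 23, 27] 30 :=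
  Good.skip (by decide +kernel) g_1_2_9_23_27_X31

lemma g_1_2_9_23_27_X29 : Good (27 / 10) [1, 2, 9, 23, 27] 29 :=
  Good.skip (by decide +kernel) g_1_2_9_23_27_X30

lemma g_1_2_9_23_27_X28 : Good (27 / 10) [1, 2, 9, 23, 27] 28 :=
  Good.skip (by decide +kernel) g_1_2_9_23_27_X29

lemma g_1_2_9_23_28_X35 : Good (27 / 10) [1, 2, 9, 23, 28] 35 :=
  Good.skip (by decide +kernel) g_1_2_9_23_28_X36

lemma g_1_2_9_23_28_X34 : Good (27 / 10) [1, 2, 9, 23, 28] 34 :=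
  Good.skip (by decide +kernel) g_1_2_9_23_28_X35

lemma g_1_2_9_23_28_X33 : Good (27 / 10) [1, 2, 9, 23, 28] 33 :=
  Good.skip (by decide +kernel) g_1_2_9_23_28_X34

lemma g_1_2_9_23_28_X32 : Good (27 / 10) [1, 2, 9, 23, 28] 32 :=
  Good.skip (by decide +kernel) g_1_2_9_23_28_X33

lemma g_1_2_9_23_28_X31 : Good (27 / 10) [1, 2, 9, 23, 28] 31 :=
  Good.skip (by decide +kernel) g_1_2_9_23_28_X32

lemma g_1_2_9_23_28_X30 : Good (27 / 10) [1, 2, 9, 23, 28] 30 :=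
  Good.skip (by decide +kernel) g_1_2_9_23_28_X31

lemma g_1_2_9_23_28_X29 : Good (27 / 10) [1, 2, 9, 23, 28] 29 :=
  Good.skip (by decide +kernel) g_1_2_9_23_28_X30

lemma g_1_2_9_23_X28 : Good (27 / 10) [1, 2, 9, 23] 28 :=
  Good.branch g_1_2_9_23_28_X29 g_1_2_9_23_X29

lemma g_1_2_9_23_X27 : Good (27 / 10) [1, 2, 9, 23] 27 :=
  Good.branch g_1_2_9_23_27_X28 g_1_2_9_23_X28

lemma g_1_2_9_23_X26 : Good (27 / 10) [1, 2, 9, 23] 26 :=
  Good.skip (by decide +kernel) g_1_2_9_23_X27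

lemma g_1_2_9_23_X25 : Good (27 / 10) [1, 2, 9, 23] 25 :=
  Good.skip (by decide +kernel) g_1_2_9_23_X26

lemma g_1_2_9_23_X24 : Good (27 / 10) [1, 2, 9, 23] 24 :=
  Good.skip (by decide +kernel) g_1_2_9_23_X25

lemma g_1_2_9_X23 : Good (27 / 10) [1, 2, 9] 23 :=
  Good.branch g_1_2_9_23_X24 g_1_2_9_X24

lemma g_1_2_9_X22 : Good (27 / 10) [1, 2, 9] 22 :=
  Good.branch g_1_2_9_22_X23 g_1_2_9_X23

lemma g_1_2_9_X21 : Good (27 / 10) [1, 2, 9] 21 :=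
  Good.branch g_1_2_9_21_X22 g_1_2_9_X22

lemma g_1_2_9_X20 : Good (27 / 10) [1, 2, 9] 20 :=
  Good.branch g_1_2_9_20_X21 g_1_2_9_X21

lemma g_1_2_9_X19 : Good (27 / 10) [1, 2, 9] 19 :=
  Good.branch g_1_2_9_19_X20 g_1_2_9_X20

lemma g_1_2_9_X18 : Good (27 / 10) [1, 2, 9] 18 :=
  Good.branch g_1_2_9_18_X19 g_1_2_9_X19

lemma g_1_2_9_X17 : Good (27 / 10) [1, 2, 9] 17 :=
  Good.branch g_1_2_9_17_X18 g_1_2_9_X18

lemma g_1_2_9_X16 : Good (27 / 10) [1, 2, 9] 16 :=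
  Good.branch g_1_2_9_16_X17 g_1_2_9_X17

lemma g_1_2_9_X15 : Good (27 / 10) [1, 2, 9] 15 :=
  Good.branch g_1_2_9_15_X16 g_1_2_9_X16

lemma g_1_2_9_X14 : Good (27 / 10) [1, 2, 9] 14 :=
  Good.branch g_1_2_9_14_X15 g_1_2_9_X15

lemma g_1_2_9_X13 : Good (27 / 10) [1, 2, 9] 13 :=
  Good.branch g_1_2_9_13_X14 g_1_2_9_X14

lemma g_1_2_9_X12 : Good (27 / 10) [1, 2, 9] 12 :=
  Good.skip (by decide +kernel) g_1_2_9_X13

lemma g_1_2_9_X11 : Good (27 / 10) [1, 2, 9] 11 :=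
  Good.skip (by decide +kernel) g_1_2_9_X12

lemma g_1_2_9_X10 : Good (27 / 10) [1, 2, 9] 10 :=
  Good.skip (by decide +kernel) g_1_2_9_X11

lemma g_1_2_10_14_X17 : Good (27 / 10) [1, 2, 10, 14] 17 :=
  Good.skip (by decide +kernel) g_1_2_10_14_X18

lemma g_1_2_10_14_X16 : Good (27 / 10) [1, 2, 10, 14] 16 :=
  Good.skip (by decide +kernel) g_1_2_10_14_X17

lemma g_1_2_10_14_X15 : Good (27 / 10) [1, 2, 10, 14] 15 :=
  Good.skip (by decide +kernel) g_1_2_10_14_X16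

lemma g_1_2_10_15_19_X22 : Good (27 / 10) [1, 2, 10, 15, 19] 22 :=
  Good.skip (by decide +kernel) g_1_2_10_15_19_X23

lemma g_1_2_10_15_19_X21 : Good (27 / 10) [1, 2, 10, 15, 19] 21 :=
  Good.skip (by decide +kernel) g_1_2_10_15_19_X22

lemma g_1_2_10_15_19_X20 : Good (27 / 10) [1, 2, 10, 15, 19] 20 :=
  Good.skip (by decide +kernel) g_1_2_10_15_19_X21

lemma g_1_2_10_15_20_X23 : Good (27 / 10) [1, 2, 10, 15, 20] 23 :=
  Good.skip (by decide +kernel) g_1_2_10_15_20_X24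

lemma g_1_2_10_15_20_X22 : Good (27 / 10) [1, 2, 10, 15, 20] 22 :=
  Good.skip (by decide +kernel) g_1_2_10_15_20_X23

lemma g_1_2_10_15_20_X21 : Good (27 / 10) [1, 2, 10, 15, 20] 21 :=
  Good.skip (by decide +kernel) g_1_2_10_15_20_X22

lemma g_1_2_10_15_21_X28 : Good (27 / 10) [1, 2, 10, 15, 21] 28 :=
  Good.skip (by decide +kernel) g_1_2_10_15_21_X29

lemma g_1_2_10_15_21_X27 : Good (27 / 10) [1, 2, 10, 15, 21] 27 :=
  Good.skip (by decide +kernel) g_1_2_10_15_21_X28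

lemma g_1_2_10_15_21_X26 : Good (27 / 10) [1, 2, 10, 15, 21] 26 :=
  Good.skip (by decide +kernel) g_1_2_10_15_21_X27

lemma g_1_2_10_15_21_X25 : Good (27 / 10) [1, 2, 10, 15, 21] 25 :=
  Good.skip (by decide +kernel) g_1_2_10_15_21_X26

lemma g_1_2_10_15_21_X24 : Good (27 / 10) [1, 2, 10, 15, 21] 24 :=
  Good.skip (by decide +kernel) g_1_2_10_15_21_X25

lemma g_1_2_10_15_21_X23 : Good (27 / 10) [1, 2, 10, 15, 21] 23 :=
  Good.skip (by decide +kernel) g_1_2_10_15_21_X24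

lemma g_1_2_10_15_21_X22 : Good (27 / 10) [1, 2, 10, 15, 21] 22 :=
  Good.skip (by decide +kernel) g_1_2_10_15_21_X23

lemma g_1_2_10_15_22_X28 : Good (27 / 10) [1, 2, 10, 15, 22] 28 :=
  Good.skip (by decide +kernel) g_1_2_10_15_22_X29

lemma g_1_2_10_15_22_X27 : Good (27 / 10) [1, 2, 10, 15, 22] 27 :=
  Good.skip (by decide +kernel) g_1_2_10_15_22_X28

lemma g_1_2_10_15_22_X26 : Good (27 / 10) [1, 2, 10, 15, 22] 26 :=
  Good.skip (by decide +kernel) g_1_2_10_15_22_X27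

lemma g_1_2_10_15_22_X25 : Good (27 / 10) [1, 2, 10, 15, 22] 25 :=
  Good.skip (by decide +kernel) g_1_2_10_15_22_X26

lemma g_1_2_10_15_22_X24 : Good (27 / 10) [1, 2, 10, 15, 22] 24 :=
  Good.skip (by decide +kernel) g_1_2_10_15_22_X25

lemma g_1_2_10_15_22_X23 : Good (27 / 10) [1, 2, 10, 15, 22] 23 :=
  Good.skip (by decide +kernel) g_1_2_10_15_22_X24

lemma g_1_2_10_15_23_X28 : Good (27 / 10) [1, 2, 10, 15, 23] 28 :=
  Good.skip (by decide +kernel) g_1_2_10_15_23_X29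

lemma g_1_2_10_15_23_X27 : Good (27 / 10) [1, 2, 10, 15, 23] 27 :=
  Good.skip (by decide +kernel) g_1_2_10_15_23_X28

lemma g_1_2_10_15_23_X26 : Good (27 / 10) [1, 2, 10, 15, 23] 26 :=
  Good.skip (by decide +kernel) g_1_2_10_15_23_X27

lemma g_1_2_10_15_23_X25 : Good (27 / 10) [1, 2, 10, 15, 23] 25 :=
  Good.skip (by decide +kernel) g_1_2_10_15_23_X26

lemma g_1_2_10_15_23_X24 : Good (27 / 10) [1, 2, 10, 15, 23] 24 :=
  Good.skip (by decide +kernel) g_1_2_10_15_23_X25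

lemma g_1_2_10_15_24_X28 : Good (27 / 10) [1, 2, 10, 15, 24] 28 :=
  Good.skip (by decide +kernel) g_1_2_10_15_24_X29

lemma g_1_2_10_15_24_X27 : Good (27 / 10) [1, 2, 10, 15, 24] 27 :=
  Good.skip (by decide +kernel) g_1_2_10_15_24_X28

lemma g_1_2_10_15_24_X26 : Good (27 / 10) [1, 2, 10, 15, 24] 26 :=
  Good.skip (by decide +kernel) g_1_2_10_15_24_X27

lemma g_1_2_10_15_24_X25 : Good (27 / 10) [1, 2, 10, 15, 24] 25 :=
  Good.skip (by decide +kernel) g_1_2_10_15_24_X26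

lemma g_1_2_10_15_X28 : Good (27 / 10) [1, 2, 10, 15] 28 :=
  Good.skip (by decide +kernel) g_1_2_10_15_X29

lemma g_1_2_10_15_X27 : Good (27 / 10) [1, 2, 10, 15] 27 :=
  Good.skip (by decide +kernel) g_1_2_10_15_X28

lemma g_1_2_10_15_X26 : Good (27 / 10) [1, 2, 10, 15] 26 :=
  Good.skip (by decide +kernel) g_1_2_10_15_X27

lemma g_1_2_10_15_X25 : Good (27 / 10) [1, 2, 10, 15] 25 :=
  Good.skip (by decide +kernel) g_1_2_10_15_X26

lemma g_1_2_10_15_X24 : Good (27 / 10) [1, 2, 10, 15] 24 :=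
  Good.branch g_1_2_10_15_24_X25 g_1_2_10_15_X25

lemma g_1_2_10_15_X23 : Good (27 / 10) [1, 2, 10, 15] 23 :=
  Good.branch g_1_2_10_15_23_X24 g_1_2_10_15_X24

lemma g_1_2_10_15_X22 : Good (27 / 10) [1, 2, 10, 15] 22 :=
  Good.branch g_1_2_10_15_22_X23 g_1_2_10_15_X23

lemma g_1_2_10_15_X21 : Good (27 / 10) [1, 2, 10, 15] 21 :=
  Good.branch g_1_2_10_15_21_X22 g_1_2_10_15_X22

lemma g_1_2_10_15_X20 : Good (27 / 10) [1, 2, 10, 15] 20 :=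
  Good.branch g_1_2_10_15_20_X21 g_1_2_10_15_X21

lemma g_1_2_10_15_X19 : Good (27 / 10) [1, 2, 10, 15] 19 :=
  Good.branch g_1_2_10_15_19_X20 g_1_2_10_15_X20

lemma g_1_2_10_15_X18 : Good (27 / 10) [1, 2, 10, 15] 18 :=
  Good.skip (by decide +kernel) g_1_2_10_15_X19

lemma g_1_2_10_15_X17 : Good (27 / 10) [1, 2, 10, 15] 17 :=
  Good.skip (by decide +kernel) g_1_2_10_15_X18

lemma g_1_2_10_15_X16 : Good (27 / 10) [1, 2, 10, 15] 16 :=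
  Good.skip (by decide +kernel) g_1_2_10_15_X17

lemma g_1_2_10_16_20_X23 : Good (27 / 10) [1, 2, 10, 16, 20] 23 :=
  Good.skip (by decide +kernel) g_1_2_10_16_20_X24

lemma g_1_2_10_16_20_X22 : Good (27 / 10) [1, 2, 10, 16, 20] 22 :=
  Good.skip (by decide +kernel) g_1_2_10_16_20_X23

lemma g_1_2_10_16_20_X21 : Good (27 / 10) [1, 2, 10, 16, 20] 21 :=
  Good.skip (by decide +kernel) g_1_2_10_16_20_X22

lemma g_1_2_10_16_21_X24 : Good (27 / 10) [1, 2, 10, 16, 21] 24 :=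
  Good.skip (by decide +kernel) g_1_2_10_16_21_X25

lemma g_1_2_10_16_21_X23 : Good (27 / 10) [1, 2, 10, 16, 21] 23 :=
  Good.skip (by decide +kernel) g_1_2_10_16_21_X24

lemma g_1_2_10_16_21_X22 : Good (27 / 10) [1, 2, 10, 16, 21] 22 :=
  Good.skip (by decide +kernel) g_1_2_10_16_21_X23

lemma g_1_2_10_16_22_X29 : Good (27 / 10) [1, 2, 10, 16, 22] 29 :=
  Good.skip (by decide +kernel) g_1_2_10_16_22_X30

lemma g_1_2_10_16_22_X28 : Good (27 / 10) [1, 2, 10, 16, 22] 28 :=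
  Good.skip (by decide +kernel) g_1_2_10_16_22_X29

lemma g_1_2_10_16_22_X27 : Good (27 / 10) [1, 2, 10, 16, 22] 27 :=
  Good.skip (by decide +kernel) g_1_2_10_16_22_X28

lemma g_1_2_10_16_22_X26 : Good (27 / 10) [1, 2, 10, 16, 22] 26 :=
  Good.skip (by decide +kernel) g_1_2_10_16_22_X27

lemma g_1_2_10_16_22_X25 : Good (27 / 10) [1, 2, 10, 16, 22] 25 :=
  Good.skip (by decide +kernel) g_1_2_10_16_22_X26

lemma g_1_2_10_16_22_X24 : Good (27 / 10) [1, 2, 10, 16, 22] 24 :=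
  Good.skip (by decide +kernel) g_1_2_10_16_22_X25

lemma g_1_2_10_16_22_X23 : Good (27 / 10) [1, 2, 10, 16, 22] 23 :=
  Good.skip (by decide +kernel) g_1_2_10_16_22_X24

lemma g_1_2_10_16_23_X29 : Good (27 / 10) [1, 2, 10, 16, 23] 29 :=
  Good.skip (by decide +kernel) g_1_2_10_16_23_X30

lemma g_1_2_10_16_23_X28 : Good (27 / 10) [1, 2, 10, 16, 23] 28 :=
  Good.skip (by decide +kernel) g_1_2_10_16_23_X29

lemma g_1_2_10_16_23_X27 : Good (27 / 10) [1, 2, 10, 16, 23] 27 :=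
  Good.skip (by decide +kernel) g_1_2_10_16_23_X28

lemma g_1_2_10_16_23_X26 : Good (27 / 10) [1, 2, 10, 16, 23] 26 :=
  Good.skip (by decide +kernel) g_1_2_10_16_23_X27

lemma g_1_2_10_16_23_X25 : Good (27 / 10) [1, 2, 10, 16, 23] 25 :=
  Good.skip (by decide +kernel) g_1_2_10_16_23_X26

lemma g_1_2_10_16_23_X24 : Good (27 / 10) [1, 2, 10, 16, 23] 24 :=
  Good.skip (by decide +kernel) g_1_2_10_16_23_X25

lemma g_1_2_10_16_24_X29 : Good (27 / 10) [1, 2, 10, 16, 24] 29 :=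
  Good.skip (by decide +kernel) g_1_2_10_16_24_X30

lemma g_1_2_10_16_24_X28 : Good (27 / 10) [1, 2, 10, 16, 24] 28 :=
  Good.skip (by decide +kernel) g_1_2_10_16_24_X29

lemma g_1_2_10_16_24_X27 : Good (27 / 10) [1, 2, 10, 16, 24] 27 :=
  Good.skip (by decide +kernel) g_1_2_10_16_24_X28

lemma g_1_2_10_16_24_X26 : Good (27 / 10) [1, 2, 10, 16, 24] 26 :=
  Good.skip (by decide +kernel) g_1_2_10_16_24_X27

lemma g_1_2_10_16_24_X25 : Good (27 / 10) [1, 2, 10, 16, 24] 25 :=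
  Good.skip (by decide +kernel) g_1_2_10_16_24_X26

lemma g_1_2_10_16_25_X29 : Good (27 / 10) [1, 2, 10, 16, 25] 29 :=
  Good.skip (by decide +kernel) g_1_2_10_16_25_X30

lemma g_1_2_10_16_25_X28 : Good (27 / 10) [1, 2, 10, 16, 25] 28 :=
  Good.skip (by decide +kernel) g_1_2_10_16_25_X29

lemma g_1_2_10_16_25_X27 : Good (27 / 10) [1, 2, 10, 16, 25] 27 :=
  Good.skip (by decide +kernel) g_1_2_10_16_25_X28

lemma g_1_2_10_16_25_X26 : Good (27 / 10) [1, 2, 10, 16, 25] 26 :=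
  Good.skip (by decide +kernel) g_1_2_10_16_25_X27

lemma g_1_2_10_16_X29 : Good (27 / 10) [1, 2, 10, 16] 29 :=
  Good.skip (by decide +kernel) g_1_2_10_16_X30

lemma g_1_2_10_16_X28 : Good (27 / 10) [1, 2, 10, 16] 28 :=
  Good.skip (by decide +kernel) g_1_2_10_16_X29

lemma g_1_2_10_16_X27 : Good (27 / 10) [1, 2, 10, 16] 27 :=
  Good.skip (by decide +kernel) g_1_2_10_16_X28

lemma g_1_2_10_16_X26 : Good (27 / 10) [1, 2, 10, 16] 26 :=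
  Good.skip (by decide +kernel) g_1_2_10_16_X27

lemma g_1_2_10_16_X25 : Good (27 / 10) [1, 2, 10, 16] 25 :=
  Good.branch g_1_2_10_16_25_X26 g_1_2_10_16_X26

lemma g_1_2_10_16_X24 : Good (27 / 10) [1, 2, 10, 16] 24 :=
  Good.branch g_1_2_10_16_24_X25 g_1_2_10_16_X25

lemma g_1_2_10_16_X23 : Good (27 / 10) [1, 2, 10, 16] 23 :=
  Good.branch g_1_2_10_16_23_X24 g_1_2_10_16_X24

lemma g_1_2_10_16_X22 : Good (27 / 10) [1, 2, 10, 16] 22 :=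
  Good.branch g_1_2_10_16_22_X23 g_1_2_10_16_X23

lemma g_1_2_10_16_X21 : Good (27 / 10) [1, 2, 10, 16] 21 :=
  Good.branch g_1_2_10_16_21_X22 g_1_2_10_16_X22

lemma g_1_2_10_16_X20 : Good (27 / 10) [1, 2, 10, 16] 20 :=
  Good.branch g_1_2_10_16_20_X21 g_1_2_10_16_X21

lemma g_1_2_10_16_X19 : Good (27 / 10) [1, 2, 10, 16] 19 :=
  Good.skip (by decide +kernel) g_1_2_10_16_X20

lemma g_1_2_10_16_X18 : Good (27 / 10) [1, 2, 10, 16] 18 :=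
  Good.skip (by decide +kernel) g_1_2_10_16_X19

lemma g_1_2_10_16_X17 : Good (27 / 10) [1, 2, 10, 16] 17 :=
  Good.skip (by decide +kernel) g_1_2_10_16_X18

lemma g_1_2_10_17_21_X24 : Good (27 / 10) [1, 2, 10, 17, 21] 24 :=
  Good.skip (by decide +kernel) g_1_2_10_17_21_X25

lemma g_1_2_10_17_21_X23 : Good (27 / 10) [1, 2, 10, 17, 21] 23 :=
  Good.skip (by decide +kernel) g_1_2_10_17_21_X24

lemma g_1_2_10_17_21_X22 : Good (27 / 10) [1, 2, 10, 17, 21] 22 :=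
  Good.skip (by decide +kernel) g_1_2_10_17_21_X23

lemma g_1_2_10_17_22_X25 : Good (27 / 10) [1, 2, 10, 17, 22] 25 :=
  Good.skip (by decide +kernel) g_1_2_10_17_22_X26

lemma g_1_2_10_17_22_X24 : Good (27 / 10) [1, 2, 10, 17, 22] 24 :=
  Good.skip (by decide +kernel) g_1_2_10_17_22_X25

lemma g_1_2_10_17_22_X23 : Good (27 / 10) [1, 2, 10, 17, 22] 23 :=
  Good.skip (by decide +kernel) g_1_2_10_17_22_X24

lemma g_1_2_10_17_23_X30 : Good (27 / 10) [1, 2, 10, 17, 23] 30 :=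
  Good.skip (by decide +kernel) g_1_2_10_17_23_X31

lemma g_1_2_10_17_23_X29 : Good (27 / 10) [1, 2, 10, 17, 23] 29 :=
  Good.skip (by decide +kernel) g_1_2_10_17_23_X30

lemma g_1_2_10_17_23_X28 : Good (27 / 10) [1, 2, 10, 17, 23] 28 :=
  Good.skip (by decide +kernel) g_1_2_10_17_23_X29

lemma g_1_2_10_17_23_X27 : Good (27 / 10) [1, 2, 10, 17, 23] 27 :=
  Good.skip (by decide +kernel) g_1_2_10_17_23_X28

lemma g_1_2_10_17_23_X26 : Good (27 / 10) [1, 2, 10, 17, 23] 26 :=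
  Good.skip (by decide +kernel) g_1_2_10_17_23_X27

lemma g_1_2_10_17_23_X25 : Good (27 / 10) [1, 2, 10, 17, 23] 25 :=
  Good.skip (by decide +kernel) g_1_2_10_17_23_X26

lemma g_1_2_10_17_23_X24 : Good (27 / 10) [1, 2, 10, 17, 23] 24 :=
  Good.skip (by decide +kernel) g_1_2_10_17_23_X25

lemma g_1_2_10_17_24_X30 : Good (27 / 10) [1, 2, 10, 17, 24] 30 :=
  Good.skip (by decide +kernel) g_1_2_10_17_24_X31

lemma g_1_2_10_17_24_X29 : Good (27 / 10) [1, 2, 10, 17, 24] 29 :=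
  Good.skip (by decide +kernel) g_1_2_10_17_24_X30

lemma g_1_2_10_17_24_X28 : Good (27 / 10) [1, 2, 10, 17, 24] 28 :=
  Good.skip (by decide +kernel) g_1_2_10_17_24_X29

lemma g_1_2_10_17_24_X27 : Good (27 / 10) [1, 2, 10, 17, 24] 27 :=
  Good.skip (by decide +kernel) g_1_2_10_17_24_X28

lemma g_1_2_10_17_24_X26 : Good (27 / 10) [1, 2, 10, 17, 24] 26 :=
  Good.skip (by decide +kernel) g_1_2_10_17_24_X27

lemma g_1_2_10_17_24_X25 : Good (27 / 10) [1, 2, 10, 17, 24] 25 :=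
  Good.skip (by decide +kernel) g_1_2_10_17_24_X26

lemma g_1_2_10_17_25_X30 : Good (27 / 10) [1, 2, 10, 17, 25] 30 :=
  Good.skip (by decide +kernel) g_1_2_10_17_25_X31

lemma g_1_2_10_17_25_X29 : Good (27 / 10) [1, 2, 10, 17, 25] 29 :=
  Good.skip (by decide +kernel) g_1_2_10_17_25_X30

lemma g_1_2_10_17_25_X28 : Good (27 / 10) [1, 2, 10, 17, 25] 28 :=
  Good.skip (by decide +kernel) g_1_2_10_17_25_X29

lemma g_1_2_10_17_25_X27 : Good (27 / 10) [1, 2, 10, 17, 25] 27 :=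
  Good.skip (by decide +kernel) g_1_2_10_17_25_X28

lemma g_1_2_10_17_25_X26 : Good (27 / 10) [1, 2, 10, 17, 25] 26 :=
  Good.skip (by decide +kernel) g_1_2_10_17_25_X27

lemma g_1_2_10_17_X25 : Good (27 / 10) [1, 2, 10, 17] 25 :=
  Good.branch g_1_2_10_17_25_X26 g_1_2_10_17_X26

lemma g_1_2_10_17_X24 : Good (27 / 10) [1, 2, 10, 17] 24 :=
  Good.branch g_1_2_10_17_24_X25 g_1_2_10_17_X25

lemma g_1_2_10_17_X23 : Good (27 / 10) [1, 2, 10, 17] 23 :=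
  Good.branch g_1_2_10_17_23_X24 g_1_2_10_17_X24

lemma g_1_2_10_17_X22 : Good (27 / 10) [1, 2, 10, 17] 22 :=
  Good.branch g_1_2_10_17_22_X23 g_1_2_10_17_X23

lemma g_1_2_10_17_X21 : Good (27 / 10) [1, 2, 10, 17] 21 :=
  Good.branch g_1_2_10_17_21_X22 g_1_2_10_17_X22

lemma g_1_2_10_17_X20 : Good (27 / 10) [1, 2, 10, 17] 20 :=
  Good.skip (by decide +kernel) g_1_2_10_17_X21

lemma g_1_2_10_17_X19 : Good (27 / 10) [1, 2, 10, 17] 19 :=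
  Good.skip (by decide +kernel) g_1_2_10_17_X20

lemma g_1_2_10_17_X18 : Good (27 / 10) [1, 2, 10, 17] 18 :=
  Good.skip (by decide +kernel) g_1_2_10_17_X19

lemma g_1_2_10_18_22_X25 : Good (27 / 10) [1, 2, 10, 18, 22] 25 :=
  Good.skip (by decide +kernel) g_1_2_10_18_22_X26

lemma g_1_2_10_18_22_X24 : Good (27 / 10) [1, 2, 10, 18, 22] 24 :=
  Good.skip (by decide +kernel) g_1_2_10_18_22_X25

lemma g_1_2_10_18_22_X23 : Good (27 / 10) [1, 2, 10, 18, 22] 23 :=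
  Good.skip (by decide +kernel) g_1_2_10_18_22_X24

lemma g_1_2_10_18_23_X26 : Good (27 / 10) [1, 2, 10, 18, 23] 26 :=
  Good.skip (by decide +kernel) g_1_2_10_18_23_X27

lemma g_1_2_10_18_23_X25 : Good (27 / 10) [1, 2, 10, 18, 23] 25 :=
  Good.skip (by decide +kernel) g_1_2_10_18_23_X26

lemma g_1_2_10_18_23_X24 : Good (27 / 10) [1, 2, 10, 18, 23] 24 :=
  Good.skip (by decide +kernel) g_1_2_10_18_23_X25

lemma g_1_2_10_18_24_X31 : Good (27 / 10) [1, 2, 10, 18, 24] 31 :=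
  Good.skip (by decide +kernel) g_1_2_10_18_24_X32

lemma g_1_2_10_18_24_X30 : Good (27 / 10) [1, 2, 10, 18, 24] 30 :=
  Good.skip (by decide +kernel) g_1_2_10_18_24_X31

lemma g_1_2_10_18_24_X29 : Good (27 / 10) [1, 2, 10, 18, 24] 29 :=
  Good.skip (by decide +kernel) g_1_2_10_18_24_X30

lemma g_1_2_10_18_24_X28 : Good (27 / 10) [1, 2, 10, 18, 24] 28 :=
  Good.skip (by decide +kernel) g_1_2_10_18_24_X29

lemma g_1_2_10_18_24_X27 : Good (27 / 10) [1, 2, 10, 18, 24] 27 :=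
  Good.skip (by decide +kernel) g_1_2_10_18_24_X28

lemma g_1_2_10_18_24_X26 : Good (27 / 10) [1, 2, 10, 18, 24] 26 :=
  Good.skip (by decide +kernel) g_1_2_10_18_24_X27

lemma g_1_2_10_18_24_X25 : Good (27 / 10) [1, 2, 10, 18, 24] 25 :=
  Good.skip (by decide +kernel) g_1_2_10_18_24_X26

lemma g_1_2_10_18_25_X31 : Good (27 / 10) [1, 2, 10, 18, 25] 31 :=
  Good.skip (by decide +kernel) g_1_2_10_18_25_X32

lemma g_1_2_10_18_25_X30 : Good (27 / 10) [1, 2, 10, 18, 25] 30 :=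
  Good.skip (by decide +kernel) g_1_2_10_18_25_X31

lemma g_1_2_10_18_25_X29 : Good (27 / 10) [1, 2, 10, 18, 25] 29 :=
  Good.skip (by decide +kernel) g_1_2_10_18_25_X30

lemma g_1_2_10_18_25_X28 : Good (27 / 10) [1, 2, 10, 18, 25] 28 :=
  Good.skip (by decide +kernel) g_1_2_10_18_25_X29

lemma g_1_2_10_18_25_X27 : Good (27 / 10) [1, 2, 10, 18, 25] 27 :=
  Good.skip (by decide +kernel) g_1_2_10_18_25_X28

lemma g_1_2_10_18_25_X26 : Good (27 / 10) [1, 2, 10, 18, 25] 26 :=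
  Good.skip (by decide +kernel) g_1_2_10_18_25_X27

lemma g_1_2_10_18_26_X31 : Good (27 / 10) [1, 2, 10, 18, 26] 31 :=
  Good.skip (by decide +kernel) g_1_2_10_18_26_X32

lemma g_1_2_10_18_26_X30 : Good (27 / 10) [1, 2, 10, 18, 26] 30 :=
  Good.skip (by decide +kernel) g_1_2_10_18_26_X31

lemma g_1_2_10_18_26_X29 : Good (27 / 10) [1, 2, 10, 18, 26] 29 :=
  Good.skip (by decide +kernel) g_1_2_10_18_26_X30

lemma g_1_2_10_18_26_X28 : Good (27 / 10) [1, 2, 10, 18, 26] 28 :=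
  Good.skip (by decide +kernel) g_1_2_10_18_26_X29

lemma g_1_2_10_18_26_X27 : Good (27 / 10) [1, 2, 10, 18, 26] 27 :=
  Good.skip (by decide +kernel) g_1_2_10_18_26_X28

lemma g_1_2_10_18_X26 : Good (27 / 10) [1, 2, 10, 18] 26 :=
  Good.branch g_1_2_10_18_26_X27 g_1_2_10_18_X27

lemma g_1_2_10_18_X25 : Good (27 / 10) [1, 2, 10, 18] 25 :=
  Good.branch g_1_2_10_18_25_X26 g_1_2_10_18_X26

lemma g_1_2_10_18_X24 : Good (27 / 10) [1, 2, 10, 18] 24 :=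
  Good.branch g_1_2_10_18_24_X25 g_1_2_10_18_X25

lemma g_1_2_10_18_X23 : Good (27 / 10) [1, 2, 10, 18] 23 :=
  Good.branch g_1_2_10_18_23_X24 g_1_2_10_18_X24

lemma g_1_2_10_18_X22 : Good (27 / 10) [1, 2, 10, 18] 22 :=
  Good.branch g_1_2_10_18_22_X23 g_1_2_10_18_X23

lemma g_1_2_10_18_X21 : Good (27 / 10) [1, 2, 10, 18] 21 :=
  Good.skip (by decide +kernel) g_1_2_10_18_X22

lemma g_1_2_10_18_X20 : Good (27 / 10) [1, 2, 10, 18] 20 :=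
  Good.skip (by decide +kernel) g_1_2_10_18_X21

lemma g_1_2_10_18_X19 : Good (27 / 10) [1, 2, 10, 18] 19 :=
  Good.skip (by decide +kernel) g_1_2_10_18_X20

lemma g_1_2_10_19_23_X26 : Good (27 / 10) [1, 2, 10, 19, 23] 26 :=
  Good.skip (by decide +kernel) g_1_2_10_19_23_X27

lemma g_1_2_10_19_23_X25 : Good (27 / 10) [1, 2, 10, 19, 23] 25 :=
  Good.skip (by decide +kernel) g_1_2_10_19_23_X26

lemma g_1_2_10_19_23_X24 : Good (27 / 10) [1, 2, 10, 19, 23] 24 :=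
  Good.skip (by decide +kernel) g_1_2_10_19_23_X25

lemma g_1_2_10_19_24_X27 : Good (27 / 10) [1, 2, 10, 19, 24] 27 :=
  Good.skip (by decide +kernel) g_1_2_10_19_24_X28

lemma g_1_2_10_19_24_X26 : Good (27 / 10) [1, 2, 10, 19, 24] 26 :=
  Good.skip (by decide +kernel) g_1_2_10_19_24_X27

lemma g_1_2_10_19_24_X25 : Good (27 / 10) [1, 2, 10, 19, 24] 25 :=
  Good.skip (by decide +kernel) g_1_2_10_19_24_X26

lemma g_1_2_10_19_25_X32 : Good (27 / 10) [1, 2, 10, 19, 25] 32 :=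
  Good.skip (by decide +kernel) g_1_2_10_19_25_X33

lemma g_1_2_10_19_25_X31 : Good (27 / 10) [1, 2, 10, 19, 25] 31 :=
  Good.skip (by decide +kernel) g_1_2_10_19_25_X32

lemma g_1_2_10_19_25_X30 : Good (27 / 10) [1, 2, 10, 19, 25] 30 :=
  Good.skip (by decide +kernel) g_1_2_10_19_25_X31

lemma g_1_2_10_19_25_X29 : Good (27 / 10) [1, 2, 10, 19, 25] 29 :=
  Good.skip (by decide +kernel) g_1_2_10_19_25_X30

lemma g_1_2_10_19_25_X28 : Good (27 / 10) [1, 2, 10, 19, 25] 28 :=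
  Good.skip (by decide +kernel) g_1_2_10_19_25_X29

lemma g_1_2_10_19_25_X27 : Good (27 / 10) [1, 2, 10, 19, 25] 27 :=
  Good.skip (by decide +kernel) g_1_2_10_19_25_X28

lemma g_1_2_10_19_25_X26 : Good (27 / 10) [1, 2, 10, 19, 25] 26 :=
  Good.skip (by decide +kernel) g_1_2_10_19_25_X27

lemma g_1_2_10_19_26_X32 : Good (27 / 10) [1, 2, 10, 19, 26] 32 :=
  Good.skip (by decide +kernel) g_1_2_10_19_26_X33

lemma g_1_2_10_19_26_X31 : Good (27 / 10) [1, 2, 10, 19, 26] 31 :=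
  Good.skip (by decide +kernel) g_1_2_10_19_26_X32

lemma g_1_2_10_19_26_X30 : Good (27 / 10) [1, 2, 10, 19, 26] 30 :=
  Good.skip (by decide +kernel) g_1_2_10_19_26_X31

lemma g_1_2_10_19_26_X29 : Good (27 / 10) [1, 2, 10, 19, 26] 29 :=
  Good.skip (by decide +kernel) g_1_2_10_19_26_X30

lemma g_1_2_10_19_26_X28 : Good (27 / 10) [1, 2, 10, 19, 26] 28 :=
  Good.skip (by decide +kernel) g_1_2_10_19_26_X29

lemma g_1_2_10_19_26_X27 : Good (27 / 10) [1, 2, 10, 19, 26] 27 :=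
  Good.skip (by decide +kernel) g_1_2_10_19_26_X28

lemma g_1_2_10_19_X26 : Good (27 / 10) [1, 2, 10, 19] 26 :=
  Good.branch g_1_2_10_19_26_X27 g_1_2_10_19_X27

lemma g_1_2_10_19_X25 : Good (27 / 10) [1, 2, 10, 19] 25 :=
  Good.branch g_1_2_10_19_25_X26 g_1_2_10_19_X26

lemma g_1_2_10_19_X24 : Good (27 / 10) [1, 2, 10, 19] 24 :=
  Good.branch g_1_2_10_19_24_X25 g_1_2_10_19_X25

lemma g_1_2_10_19_X23 : Good (27 / 10) [1, 2, 10, 19] 23 :=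
  Good.branch g_1_2_10_19_23_X24 g_1_2_10_19_X24

lemma g_1_2_10_19_X22 : Good (27 / 10) [1, 2, 10, 19] 22 :=
  Good.skip (by decide +kernel) g_1_2_10_19_X23

lemma g_1_2_10_19_X21 : Good (27 / 10) [1, 2, 10, 19] 21 :=
  Good.skip (by decide +kernel) g_1_2_10_19_X22

lemma g_1_2_10_19_X20 : Good (27 / 10) [1, 2, 10, 19] 20 :=
  Good.skip (by decide +kernel) g_1_2_10_19_X21

lemma g_1_2_10_20_X23 : Good (27 / 10) [1, 2, 10, 20] 23 :=
  Good.skip (by decide +kernel) g_1_2_10_20_X24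

lemma g_1_2_10_20_X22 : Good (27 / 10) [1, 2, 10, 20] 22 :=
  Good.skip (by decide +kernel) g_1_2_10_20_X23

lemma g_1_2_10_20_X21 : Good (27 / 10) [1, 2, 10, 20] 21 :=
  Good.skip (by decide +kernel) g_1_2_10_20_X22

lemma g_1_2_10_21_X24 : Good (27 / 10) [1, 2, 10, 21] 24 :=
  Good.skip (by decide +kernel) g_1_2_10_21_X25

lemma g_1_2_10_21_X23 : Good (27 / 10) [1, 2, 10, 21] 23 :=
  Good.skip (by decide +kernel) g_1_2_10_21_X24

lemma g_1_2_10_21_X22 : Good (27 / 10) [1, 2, 10, 21] 22 :=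
  Good.skip (by decide +kernel) g_1_2_10_21_X23

lemma g_1_2_10_22_X25 : Good (27 / 10) [1, 2, 10, 22] 25 :=
  Good.skip (by decide +kernel) g_1_2_10_22_X26

lemma g_1_2_10_22_X24 : Good (27 / 10) [1, 2, 10, 22] 24 :=
  Good.skip (by decide +kernel) g_1_2_10_22_X25

lemma g_1_2_10_22_X23 : Good (27 / 10) [1, 2, 10, 22] 23 :=
  Good.skip (by decide +kernel) g_1_2_10_22_X24

lemma g_1_2_10_X22 : Good (27 / 10) [1, 2, 10] 22 :=
  Good.branch g_1_2_10_22_X23 g_1_2_10_X23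

lemma g_1_2_10_X21 : Good (27 / 10) [1, 2, 10] 21 :=
  Good.branch g_1_2_10_21_X22 g_1_2_10_X22

lemma g_1_2_10_X20 : Good (27 / 10) [1, 2, 10] 20 :=
  Good.branch g_1_2_10_20_X21 g_1_2_10_X21

lemma g_1_2_10_X19 : Good (27 / 10) [1, 2, 10] 19 :=
  Good.branch g_1_2_10_19_X20 g_1_2_10_X20

lemma g_1_2_10_X18 : Good (27 / 10) [1, 2, 10] 18 :=
  Good.branch g_1_2_10_18_X19 g_1_2_10_X19

lemma g_1_2_10_X17 : Good (27 / 10) [1, 2, 10] 17 :=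
  Good.branch g_1_2_10_17_X18 g_1_2_10_X18

lemma g_1_2_10_X16 : Good (27 / 10) [1, 2, 10] 16 :=
  Good.branch g_1_2_10_16_X17 g_1_2_10_X17

lemma g_1_2_10_X15 : Good (27 / 10) [1, 2, 10] 15 :=
  Good.branch g_1_2_10_15_X16 g_1_2_10_X16

lemma g_1_2_10_X14 : Good (27 / 10) [1, 2, 10] 14 :=
  Good.branch g_1_2_10_14_X15 g_1_2_10_X15

lemma g_1_2_10_X13 : Good (27 / 10) [1, 2, 10] 13 :=
  Good.skip (by decide +kernel) g_1_2_10_X14

lemma g_1_2_10_X12 : Good (27 / 10) [1, 2, 10] 12 :=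
  Good.skip (by decide +kernel) g_1_2_10_X13

lemma g_1_2_10_X11 : Good (27 / 10) [1, 2, 10] 11 :=
  Good.skip (by decide +kernel) g_1_2_10_X12

lemma g_1_2_11_15_X18 : Good (27 / 10) [1, 2, 11, 15] 18 :=
  Good.skip (by decide +kernel) g_1_2_11_15_X19

lemma g_1_2_11_15_X17 : Good (27 / 10) [1, 2, 11, 15] 17 :=
  Good.skip (by decide +kernel) g_1_2_11_15_X18

lemma g_1_2_11_15_X16 : Good (27 / 10) [1, 2, 11, 15] 16 :=
  Good.skip (by decide +kernel) g_1_2_11_15_X17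

lemma g_1_2_11_16_20_X23 : Good (27 / 10) [1, 2, 11, 16, 20] 23 :=
  Good.skip (by decide +kernel) g_1_2_11_16_20_X24

lemma g_1_2_11_16_20_X22 : Good (27 / 10) [1, 2, 11, 16, 20] 22 :=
  Good.skip (by decide +kernel) g_1_2_11_16_20_X23

lemma g_1_2_11_16_20_X21 : Good (27 / 10) [1, 2, 11, 16, 20] 21 :=
  Good.skip (by decide +kernel) g_1_2_11_16_20_X22

lemma g_1_2_11_16_21_X24 : Good (27 / 10) [1, 2, 11, 16, 21] 24 :=
  Good.skip (by decide +kernel) g_1_2_11_16_21_X25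

lemma g_1_2_11_16_21_X23 : Good (27 / 10) [1, 2, 11, 16, 21] 23 :=
  Good.skip (by decide +kernel) g_1_2_11_16_21_X24

lemma g_1_2_11_16_21_X22 : Good (27 / 10) [1, 2, 11, 16, 21] 22 :=
  Good.skip (by decide +kernel) g_1_2_11_16_21_X23

lemma g_1_2_11_16_22_X25 : Good (27 / 10) [1, 2, 11, 16, 22] 25 :=
  Good.skip (by decide +kernel) g_1_2_11_16_22_X26

lemma g_1_2_11_16_22_X24 : Good (27 / 10) [1, 2, 11, 16, 22] 24 :=
  Good.skip (by decide +kernel) g_1_2_11_16_22_X25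

lemma g_1_2_11_16_22_X23 : Good (27 / 10) [1, 2, 11, 16, 22] 23 :=
  Good.skip (by decide +kernel) g_1_2_11_16_22_X24

lemma g_1_2_11_16_23_X30 : Good (27 / 10) [1, 2, 11, 16, 23] 30 :=
  Good.skip (by decide +kernel) g_1_2_11_16_23_X31

lemma g_1_2_11_16_23_X29 : Good (27 / 10) [1, 2, 11, 16, 23] 29 :=
  Good.skip (by decide +kernel) g_1_2_11_16_23_X30

lemma g_1_2_11_16_23_X28 : Good (27 / 10) [1, 2, 11, 16, 23] 28 :=
  Good.skip (by decide +kernel) g_1_2_11_16_23_X29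

lemma g_1_2_11_16_23_X27 : Good (27 / 10) [1, 2, 11, 16, 23] 27 :=
  Good.skip (by decide +kernel) g_1_2_11_16_23_X28

lemma g_1_2_11_16_23_X26 : Good (27 / 10) [1, 2, 11, 16, 23] 26 :=
  Good.skip (by decide +kernel) g_1_2_11_16_23_X27

lemma g_1_2_11_16_23_X25 : Good (27 / 10) [1, 2, 11, 16, 23] 25 :=
  Good.skip (by decide +kernel) g_1_2_11_16_23_X26

lemma g_1_2_11_16_23_X24 : Good (27 / 10) [1, 2, 11, 16, 23] 24 :=
  Good.skip (by decide +kernel) g_1_2_11_16_23_X25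

lemma g_1_2_11_16_24_X30 : Good (27 / 10) [1, 2, 11, 16, 24] 30 :=
  Good.skip (by decide +kernel) g_1_2_11_16_24_X31

lemma g_1_2_11_16_24_X29 : Good (27 / 10) [1, 2, 11, 16, 24] 29 :=
  Good.skip (by decide +kernel) g_1_2_11_16_24_X30

lemma g_1_2_11_16_24_X28 : Good (27 / 10) [1, 2, 11, 16, 24] 28 :=
  Good.skip (by decide +kernel) g_1_2_11_16_24_X29

lemma g_1_2_11_16_24_X27 : Good (27 / 10) [1, 2, 11, 16, 24] 27 :=
  Good.skip (by decide +kernel) g_1_2_11_16_24_X28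

lemma g_1_2_11_16_24_X26 : Good (27 / 10) [1, 2, 11, 16, 24] 26 :=
  Good.skip (by decide +kernel) g_1_2_11_16_24_X27

lemma g_1_2_11_16_24_X25 : Good (27 / 10) [1, 2, 11, 16, 24] 25 :=
  Good.skip (by decide +kernel) g_1_2_11_16_24_X26

lemma g_1_2_11_16_25_X30 : Good (27 / 10) [1, 2, 11, 16, 25] 30 :=
  Good.skip (by decide +kernel) g_1_2_11_16_25_X31

lemma g_1_2_11_16_25_X29 : Good (27 / 10) [1, 2, 11, 16, 25] 29 :=
  Good.skip (by decide +kernel) g_1_2_11_16_25_X30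

lemma g_1_2_11_16_25_X28 : Good (27 / 10) [1, 2, 11, 16, 25] 28 :=
  Good.skip (by decide +kernel) g_1_2_11_16_25_X29

lemma g_1_2_11_16_25_X27 : Good (27 / 10) [1, 2, 11, 16, 25] 27 :=
  Good.skip (by decide +kernel) g_1_2_11_16_25_X28

lemma g_1_2_11_16_25_X26 : Good (27 / 10) [1, 2, 11, 16, 25] 26 :=
  Good.skip (by decide +kernel) g_1_2_11_16_25_X27

lemma g_1_2_11_16_X25 : Good (27 / 10) [1, 2, 11, 16] 25 :=
  Good.branch g_1_2_11_16_25_X26 g_1_2_11_16_X26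

lemma g_1_2_11_16_X24 : Good (27 / 10) [1, 2, 11, 16] 24 :=
  Good.branch g_1_2_11_16_24_X25 g_1_2_11_16_X25

lemma g_1_2_11_16_X23 : Good (27 / 10) [1, 2, 11, 16] 23 :=
  Good.branch g_1_2_11_16_23_X24 g_1_2_11_16_X24

lemma g_1_2_11_16_X22 : Good (27 / 10) [1, 2, 11, 16] 22 :=
  Good.branch g_1_2_11_16_22_X23 g_1_2_11_16_X23

lemma g_1_2_11_16_X21 : Good (27 / 10) [1, 2, 11, 16] 21 :=
  Good.branch g_1_2_11_16_21_X22 g_1_2_11_16_X22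

lemma g_1_2_11_16_X20 : Good (27 / 10) [1, 2, 11, 16] 20 :=
  Good.branch g_1_2_11_16_20_X21 g_1_2_11_16_X21

lemma g_1_2_11_16_X19 : Good (27 / 10) [1, 2, 11, 16] 19 :=
  Good.skip (by decide +kernel) g_1_2_11_16_X20

lemma g_1_2_11_16_X18 : Good (27 / 10) [1, 2, 11, 16] 18 :=
  Good.skip (by decide +kernel) g_1_2_11_16_X19

lemma g_1_2_11_16_X17 : Good (27 / 10) [1, 2, 11, 16] 17 :=
  Good.skip (by decide +kernel) g_1_2_11_16_X18

lemma g_1_2_11_17_21_X24 : Good (27 / 10) [1, 2, 11, 17, 21] 24 :=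
  Good.skip (by decide +kernel) g_1_2_11_17_21_X25

lemma g_1_2_11_17_21_X23 : Good (27 / 10) [1, 2, 11, 17, 21] 23 :=
  Good.skip (by decide +kernel) g_1_2_11_17_21_X24

lemma g_1_2_11_17_21_X22 : Good (27 / 10) [1, 2, 11, 17, 21] 22 :=
  Good.skip (by decide +kernel) g_1_2_11_17_21_X23

lemma g_1_2_11_17_22_X25 : Good (27 / 10) [1, 2, 11, 17, 22] 25 :=
  Good.skip (by decide +kernel) g_1_2_11_17_22_X26

lemma g_1_2_11_17_22_X24 : Good (27 / 10) [1, 2, 11, 17, 22] 24 :=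
  Good.skip (by decide +kernel) g_1_2_11_17_22_X25

lemma g_1_2_11_17_22_X23 : Good (27 / 10) [1, 2, 11, 17, 22] 23 :=
  Good.skip (by decide +kernel) g_1_2_11_17_22_X24

lemma g_1_2_11_17_23_X26 : Good (27 / 10) [1, 2, 11, 17, 23] 26 :=
  Good.skip (by decide +kernel) g_1_2_11_17_23_X27

lemma g_1_2_11_17_23_X25 : Good (27 / 10) [1, 2, 11, 17, 23] 25 :=
  Good.skip (by decide +kernel) g_1_2_11_17_23_X26

lemma g_1_2_11_17_23_X24 : Good (27 / 10) [1, 2, 11, 17, 23] 24 :=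
  Good.skip (by decide +kernel) g_1_2_11_17_23_X25

lemma g_1_2_11_17_24_X31 : Good (27 / 10) [1, 2, 11, 17, 24] 31 :=
  Good.skip (by decide +kernel) g_1_2_11_17_24_X32

lemma g_1_2_11_17_24_X30 : Good (27 / 10) [1, 2, 11, 17, 24] 30 :=
  Good.skip (by decide +kernel) g_1_2_11_17_24_X31

lemma g_1_2_11_17_24_X29 : Good (27 / 10) [1, 2, 11, 17, 24] 29 :=
  Good.skip (by decide +kernel) g_1_2_11_17_24_X30

lemma g_1_2_11_17_24_X28 : Good (27 / 10) [1, 2, 11, 17, 24] 28 :=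
  Good.skip (by decide +kernel) g_1_2_11_17_24_X29

lemma g_1_2_11_17_24_X27 : Good (27 / 10) [1, 2, 11, 17, 24] 27 :=
  Good.skip (by decide +kernel) g_1_2_11_17_24_X28

lemma g_1_2_11_17_24_X26 : Good (27 / 10) [1, 2, 11, 17, 24] 26 :=
  Good.skip (by decide +kernel) g_1_2_11_17_24_X27

lemma g_1_2_11_17_24_X25 : Good (27 / 10) [1, 2, 11, 17, 24] 25 :=
  Good.skip (by decide +kernel) g_1_2_11_17_24_X26

lemma g_1_2_11_17_25_X31 : Good (27 / 10) [1, 2, 11, 17, 25] 31 :=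
  Good.skip (by decide +kernel) g_1_2_11_17_25_X32

lemma g_1_2_11_17_25_X30 : Good (27 / 10) [1, 2, 11, 17, 25] 30 :=
  Good.skip (by decide +kernel) g_1_2_11_17_25_X31

lemma g_1_2_11_17_25_X29 : Good (27 / 10) [1, 2, 11, 17, 25] 29 :=
  Good.skip (by decide +kernel) g_1_2_11_17_25_X30

lemma g_1_2_11_17_25_X28 : Good (27 / 10) [1, 2, 11, 17, 25] 28 :=
  Good.skip (by decide +kernel) g_1_2_11_17_25_X29

lemma g_1_2_11_17_25_X27 : Good (27 / 10) [1, 2, 11, 17, 25] 27 :=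
  Good.skip (by decide +kernel) g_1_2_11_17_25_X28

lemma g_1_2_11_17_25_X26 : Good (27 / 10) [1, 2, 11, 17, 25] 26 :=
  Good.skip (by decide +kernel) g_1_2_11_17_25_X27

lemma g_1_2_11_17_X25 : Good (27 / 10) [1, 2, 11, 17] 25 :=
  Good.branch g_1_2_11_17_25_X26 g_1_2_11_17_X26

lemma g_1_2_11_17_X24 : Good (27 / 10) [1, 2, 11, 17] 24 :=
  Good.branch g_1_2_11_17_24_X25 g_1_2_11_17_X25

lemma g_1_2_11_17_X23 : Good (27 / 10) [1, 2, 11, 17] 23 :=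
  Good.branch g_1_2_11_17_23_X24 g_1_2_11_17_X24

lemma g_1_2_11_17_X22 : Good (27 / 10) [1, 2, 11, 17] 22 :=
  Good.branch g_1_2_11_17_22_X23 g_1_2_11_17_X23

lemma g_1_2_11_17_X21 : Good (27 / 10) [1, 2, 11, 17] 21 :=
  Good.branch g_1_2_11_17_21_X22 g_1_2_11_17_X22

lemma g_1_2_11_17_X20 : Good (27 / 10) [1, 2, 11, 17] 20 :=
  Good.skip (by decide +kernel) g_1_2_11_17_X21

lemma g_1_2_11_17_X19 : Good (27 / 10) [1, 2, 11, 17] 19 :=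
  Good.skip (by decide +kernel) g_1_2_11_17_X20

lemma g_1_2_11_17_X18 : Good (27 / 10) [1, 2, 11, 17] 18 :=
  Good.skip (by decide +kernel) g_1_2_11_17_X19

lemma g_1_2_11_18_22_X25 : Good (27 / 10) [1, 2, 11, 18, 22] 25 :=
  Good.skip (by decide +kernel) g_1_2_11_18_22_X26

lemma g_1_2_11_18_22_X24 : Good (27 / 10) [1, 2, 11, 18, 22] 24 :=
  Good.skip (by decide +kernel) g_1_2_11_18_22_X25

lemma g_1_2_11_18_22_X23 : Good (27 / 10) [1, 2, 11, 18, 22] 23 :=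
  Good.skip (by decide +kernel) g_1_2_11_18_22_X24

lemma g_1_2_11_18_23_X26 : Good (27 / 10) [1, 2, 11, 18, 23] 26 :=
  Good.skip (by decide +kernel) g_1_2_11_18_23_X27

lemma g_1_2_11_18_23_X25 : Good (27 / 10) [1, 2, 11, 18, 23] 25 :=
  Good.skip (by decide +kernel) g_1_2_11_18_23_X26

lemma g_1_2_11_18_23_X24 : Good (27 / 10) [1, 2, 11, 18, 23] 24 :=
  Good.skip (by decide +kernel) g_1_2_11_18_23_X25

lemma g_1_2_11_18_24_X27 : Good (27 / 10) [1, 2, 11, 18, 24] 27 :=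
  Good.skip (by decide +kernel) g_1_2_11_18_24_X28

lemma g_1_2_11_18_24_X26 : Good (27 / 10) [1, 2, 11, 18, 24] 26 :=
  Good.skip (by decide +kernel) g_1_2_11_18_24_X27

lemma g_1_2_11_18_24_X25 : Good (27 / 10) [1, 2, 11, 18, 24] 25 :=
  Good.skip (by decide +kernel) g_1_2_11_18_24_X26

lemma g_1_2_11_18_25_X32 : Good (27 / 10) [1, 2, 11, 18, 25] 32 :=
  Good.skip (by decide +kernel) g_1_2_11_18_25_X33

lemma g_1_2_11_18_25_X31 : Good (27 / 10) [1, 2, 11, 18, 25] 31 :=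
  Good.skip (by decide +kernel) g_1_2_11_18_25_X32

lemma g_1_2_11_18_25_X30 : Good (27 / 10) [1, 2, 11, 18, 25] 30 :=
  Good.skip (by decide +kernel) g_1_2_11_18_25_X31

lemma g_1_2_11_18_25_X29 : Good (27 / 10) [1, 2, 11, 18, 25] 29 :=
  Good.skip (by decide +kernel) g_1_2_11_18_25_X30

lemma g_1_2_11_18_25_X28 : Good (27 / 10) [1, 2, 11, 18, 25] 28 :=
  Good.skip (by decide +kernel) g_1_2_11_18_25_X29

lemma g_1_2_11_18_25_X27 : Good (27 / 10) [1, 2, 11, 18, 25] 27 :=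
  Good.skip (by decide +kernel) g_1_2_11_18_25_X28

lemma g_1_2_11_18_25_X26 : Good (27 / 10) [1, 2, 11, 18, 25] 26 :=
  Good.skip (by decide +kernel) g_1_2_11_18_25_X27

lemma g_1_2_11_18_26_X32 : Good (27 / 10) [1, 2, 11, 18, 26] 32 :=
  Good.skip (by decide +kernel) g_1_2_11_18_26_X33

lemma g_1_2_11_18_26_X31 : Good (27 / 10) [1, 2, 11, 18, 26] 31 :=
  Good.skip (by decide +kernel) g_1_2_11_18_26_X32

lemma g_1_2_11_18_26_X30 : Good (27 / 10) [1, 2, 11, 18, 26] 30 :=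
  Good.skip (by decide +kernel) g_1_2_11_18_26_X31

lemma g_1_2_11_18_26_X29 : Good (27 / 10) [1, 2, 11, 18, 26] 29 :=
  Good.skip (by decide +kernel) g_1_2_11_18_26_X30

lemma g_1_2_11_18_26_X28 : Good (27 / 10) [1, 2, 11, 18, 26] 28 :=
  Good.skip (by decide +kernel) g_1_2_11_18_26_X29

lemma g_1_2_11_18_26_X27 : Good (27 / 10) [1, 2, 11, 18, 26] 27 :=
  Good.skip (by decide +kernel) g_1_2_11_18_26_X28

lemma g_1_2_11_18_X26 : Good (27 / 10) [1, 2, 11, 18] 26 :=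
  Good.branch g_1_2_11_18_26_X27 g_1_2_11_18_X27

lemma g_1_2_11_18_X25 : Good (27 / 10) [1, 2, 11, 18] 25 :=
  Good.branch g_1_2_11_18_25_X26 g_1_2_11_18_X26

lemma g_1_2_11_18_X24 : Good (27 / 10) [1, 2, 11, 18] 24 :=
  Good.branch g_1_2_11_18_24_X25 g_1_2_11_18_X25

lemma g_1_2_11_18_X23 : Good (27 / 10) [1, 2, 11, 18] 23 :=
  Good.branch g_1_2_11_18_23_X24 g_1_2_11_18_X24

lemma g_1_2_11_18_X22 : Good (27 / 10) [1, 2, 11, 18] 22 :=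
  Good.branch g_1_2_11_18_22_X23 g_1_2_11_18_X23

lemma g_1_2_11_18_X21 : Good (27 / 10) [1, 2, 11, 18] 21 :=
  Good.skip (by decide +kernel) g_1_2_11_18_X22

lemma g_1_2_11_18_X20 : Good (27 / 10) [1, 2, 11, 18] 20 :=
  Good.skip (by decide +kernel) g_1_2_11_18_X21

lemma g_1_2_11_18_X19 : Good (27 / 10) [1, 2, 11, 18] 19 :=
  Good.skip (by decide +kernel) g_1_2_11_18_X20

lemma g_1_2_11_19_23_X26 : Good (27 / 10) [1, 2, 11, 19, 23] 26 :=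
  Good.skip (by decide +kernel) g_1_2_11_19_23_X27

lemma g_1_2_11_19_23_X25 : Good (27 / 10) [1, 2, 11, 19, 23] 25 :=
  Good.skip (by decide +kernel) g_1_2_11_19_23_X26

lemma g_1_2_11_19_23_X24 : Good (27 / 10) [1, 2, 11, 19, 23] 24 :=
  Good.skip (by decide +kernel) g_1_2_11_19_23_X25

lemma g_1_2_11_19_24_X27 : Good (27 / 10) [1, 2, 11, 19, 24] 27 :=
  Good.skip (by decide +kernel) g_1_2_11_19_24_X28

lemma g_1_2_11_19_24_X26 : Good (27 / 10) [1, 2, 11, 19, 24] 26 :=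
  Good.skip (by decide +kernel) g_1_2_11_19_24_X27

lemma g_1_2_11_19_24_X25 : Good (27 / 10) [1, 2, 11, 19, 24] 25 :=
  Good.skip (by decide +kernel) g_1_2_11_19_24_X26

lemma g_1_2_11_19_25_X28 : Good (27 / 10) [1, 2, 11, 19, 25] 28 :=
  Good.skip (by decide +kernel) g_1_2_11_19_25_X29

lemma g_1_2_11_19_25_X27 : Good (27 / 10) [1, 2, 11, 19, 25] 27 :=
  Good.skip (by decide +kernel) g_1_2_11_19_25_X28

lemma g_1_2_11_19_25_X26 : Good (27 / 10) [1, 2, 11, 19, 25] 26 :=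
  Good.skip (by decide +kernel) g_1_2_11_19_25_X27

lemma g_1_2_11_19_26_X33 : Good (27 / 10) [1, 2, 11, 19, 26] 33 :=
  Good.skip (by decide +kernel) g_1_2_11_19_26_X34

lemma g_1_2_11_19_26_X32 : Good (27 / 10) [1, 2, 11, 19, 26] 32 :=
  Good.skip (by decide +kernel) g_1_2_11_19_26_X33

lemma g_1_2_11_19_26_X31 : Good (27 / 10) [1, 2, 11, 19, 26] 31 :=
  Good.skip (by decide +kernel) g_1_2_11_19_26_X32

lemma g_1_2_11_19_26_X30 : Good (27 / 10) [1, 2, 11, 19, 26] 30 :=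
  Good.skip (by decide +kernel) g_1_2_11_19_26_X31

lemma g_1_2_11_19_26_X29 : Good (27 / 10) [1, 2, 11, 19, 26] 29 :=
  Good.skip (by decide +kernel) g_1_2_11_19_26_X30

lemma g_1_2_11_19_26_X28 : Good (27 / 10) [1, 2, 11, 19, 26] 28 :=
  Good.skip (by decide +kernel) g_1_2_11_19_26_X29

lemma g_1_2_11_19_26_X27 : Good (27 / 10) [1, 2, 11, 19, 26] 27 :=
  Good.skip (by decide +kernel) g_1_2_11_19_26_X28

lemma g_1_2_11_19_X26 : Good (27 / 10) [1, 2, 11, 19] 26 :=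
  Good.branch g_1_2_11_19_26_X27 g_1_2_11_19_X27

lemma g_1_2_11_19_X25 : Good (27 / 10) [1, 2, 11, 19] 25 :=
  Good.branch g_1_2_11_19_25_X26 g_1_2_11_19_X26

lemma g_1_2_11_19_X24 : Good (27 / 10) [1, 2, 11, 19] 24 :=
  Good.branch g_1_2_11_19_24_X25 g_1_2_11_19_X25

lemma g_1_2_11_19_X23 : Good (27 / 10) [1, 2, 11, 19] 23 :=
  Good.branch g_1_2_11_19_23_X24 g_1_2_11_19_X24

lemma g_1_2_11_19_X22 : Good (27 / 10) [1, 2, 11, 19] 22 :=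
  Good.skip (by decide +kernel) g_1_2_11_19_X23

lemma g_1_2_11_19_X21 : Good (27 / 10) [1, 2, 11, 19] 21 :=
  Good.skip (by decide +kernel) g_1_2_11_19_X22

lemma g_1_2_11_19_X20 : Good (27 / 10) [1, 2, 11, 19] 20 :=
  Good.skip (by decide +kernel) g_1_2_11_19_X21

lemma g_1_2_11_20_24_X27 : Good (27 / 10) [1, 2, 11, 20, 24] 27 :=
  Good.skip (by decide +kernel) g_1_2_11_20_24_X28

lemma g_1_2_11_20_24_X26 : Good (27 / 10) [1, 2, 11, 20, 24] 26 :=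
  Good.skip (by decide +kernel) g_1_2_11_20_24_X27

lemma g_1_2_11_20_24_X25 : Good (27 / 10) [1, 2, 11, 20, 24] 25 :=
  Good.skip (by decide +kernel) g_1_2_11_20_24_X26

lemma g_1_2_11_20_25_X28 : Good (27 / 10) [1, 2, 11, 20, 25] 28 :=
  Good.skip (by decide +kernel) g_1_2_11_20_25_X29

lemma g_1_2_11_20_25_X27 : Good (27 / 10) [1, 2, 11, 20, 25] 27 :=
  Good.skip (by decide +kernel) g_1_2_11_20_25_X28

lemma g_1_2_11_20_25_X26 : Good (27 / 10) [1, 2, 11, 20, 25] 26 :=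
  Good.skip (by decide +kernel) g_1_2_11_20_25_X27

lemma g_1_2_11_20_26_X29 : Good (27 / 10) [1, 2, 11, 20, 26] 29 :=
  Good.skip (by decide +kernel) g_1_2_11_20_26_X30

lemma g_1_2_11_20_26_X28 : Good (27 / 10) [1, 2, 11, 20, 26] 28 :=
  Good.skip (by decide +kernel) g_1_2_11_20_26_X29

lemma g_1_2_11_20_26_X27 : Good (27 / 10) [1, 2, 11, 20, 26] 27 :=
  Good.skip (by decide +kernel) g_1_2_11_20_26_X28

lemma g_1_2_11_20_27_X34 : Good (27 / 10) [1, 2, 11, 20, 27] 34 :=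
  Good.skip (by decide +kernel) g_1_2_11_20_27_X35

lemma g_1_2_11_20_27_X33 : Good (27 / 10) [1, 2, 11, 20, 27] 33 :=
  Good.skip (by decide +kernel) g_1_2_11_20_27_X34

lemma g_1_2_11_20_27_X32 : Good (27 / 10) [1, 2, 11, 20, 27] 32 :=
  Good.skip (by decide +kernel) g_1_2_11_20_27_X33

lemma g_1_2_11_20_27_X31 : Good (27 / 10) [1, 2, 11, 20, 27] 31 :=
  Good.skip (by decide +kernel) g_1_2_11_20_27_X32

lemma g_1_2_11_20_27_X30 : Good (27 / 10) [1, 2, 11, 20, 27] 30 :=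
  Good.skip (by decide +kernel) g_1_2_11_20_27_X31

lemma g_1_2_11_20_27_X29 : Good (27 / 10) [1, 2, 11, 20, 27] 29 :=
  Good.skip (by decide +kernel) g_1_2_11_20_27_X30

lemma g_1_2_11_20_27_X28 : Good (27 / 10) [1, 2, 11, 20, 27] 28 :=
  Good.skip (by decide +kernel) g_1_2_11_20_27_X29

lemma g_1_2_11_20_X27 : Good (27 / 10) [1, 2, 11, 20] 27 :=
  Good.branch g_1_2_11_20_27_X28 g_1_2_11_20_X28

lemma g_1_2_11_20_X26 : Good (27 / 10) [1, 2, 11, 20] 26 :=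
  Good.branch g_1_2_11_20_26_X27 g_1_2_11_20_X27

lemma g_1_2_11_20_X25 : Good (27 / 10) [1, 2, 11, 20] 25 :=
  Good.branch g_1_2_11_20_25_X26 g_1_2_11_20_X26

lemma g_1_2_11_20_X24 : Good (27 / 10) [1, 2, 11, 20] 24 :=
  Good.branch g_1_2_11_20_24_X25 g_1_2_11_20_X25

lemma g_1_2_11_20_X23 : Good (27 / 10) [1, 2, 11, 20] 23 :=
  Good.skip (by decide +kernel) g_1_2_11_20_X24

lemma g_1_2_11_20_X22 : Good (27 / 10) [1, 2, 11, 20] 22 :=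
  Good.skip (by decide +kernel) g_1_2_11_20_X23

lemma g_1_2_11_20_X21 : Good (27 / 10) [1, 2, 11, 20] 21 :=
  Good.skip (by decide +kernel) g_1_2_11_20_X22

lemma g_1_2_11_21_25_X28 : Good (27 / 10) [1, 2, 11, 21, 25] 28 :=
  Good.skip (by decide +kernel) g_1_2_11_21_25_X29

lemma g_1_2_11_21_25_X27 : Good (27 / 10) [1, 2, 11, 21, 25] 27 :=
  Good.skip (by decide +kernel) g_1_2_11_21_25_X28

lemma g_1_2_11_21_25_X26 : Good (27 / 10) [1, 2, 11, 21, 25] 26 :=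
  Good.skip (by decide +kernel) g_1_2_11_21_25_X27

lemma g_1_2_11_21_26_X29 : Good (27 / 10) [1, 2, 11, 21, 26] 29 :=
  Good.skip (by decide +kernel) g_1_2_11_21_26_X30

lemma g_1_2_11_21_26_X28 : Good (27 / 10) [1, 2, 11, 21, 26] 28 :=
  Good.skip (by decide +kernel) g_1_2_11_21_26_X29

lemma g_1_2_11_21_26_X27 : Good (27 / 10) [1, 2, 11, 21, 26] 27 :=
  Good.skip (by decide +kernel) g_1_2_11_21_26_X28

lemma g_1_2_11_21_27_X30 : Good (27 / 10) [1, 2, 11, 21, 27] 30 :=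
  Good.skip (by decide +kernel) g_1_2_11_21_27_X31

lemma g_1_2_11_21_27_X29 : Good (27 / 10) [1, 2, 11, 21, 27] 29 :=
  Good.skip (by decide +kernel) g_1_2_11_21_27_X30

lemma g_1_2_11_21_27_X28 : Good (27 / 10) [1, 2, 11, 21, 27] 28 :=
  Good.skip (by decide +kernel) g_1_2_11_21_27_X29

lemma g_1_2_11_21_X27 : Good (27 / 10) [1, 2, 11, 21] 27 :=
  Good.branch g_1_2_11_21_27_X28 g_1_2_11_21_X28

lemma g_1_2_11_21_X26 : Good (27 / 10) [1, 2, 11, 21] 26 :=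
  Good.branch g_1_2_11_21_26_X27 g_1_2_11_21_X27

lemma g_1_2_11_21_X25 : Good (27 / 10) [1, 2, 11, 21] 25 :=
  Good.branch g_1_2_11_21_25_X26 g_1_2_11_21_X26

lemma g_1_2_11_21_X24 : Good (27 / 10) [1, 2, 11, 21] 24 :=
  Good.skip (by decide +kernel) g_1_2_11_21_X25

lemma g_1_2_11_21_X23 : Good (27 / 10) [1, 2, 11, 21] 23 :=
  Good.skip (by decide +kernel) g_1_2_11_21_X24

lemma g_1_2_11_21_X22 : Good (27 / 10) [1, 2, 11, 21] 22 :=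
  Good.skip (by decide +kernel) g_1_2_11_21_X23

lemma g_1_2_11_X21 : Good (27 / 10) [1, 2, 11] 21 :=
  Good.branch g_1_2_11_21_X22 g_1_2_11_X22

lemma g_1_2_11_X20 : Good (27 / 10) [1, 2, 11] 20 :=
  Good.branch g_1_2_11_20_X21 g_1_2_11_X21

lemma g_1_2_11_X19 : Good (27 / 10) [1, 2, 11] 19 :=
  Good.branch g_1_2_11_19_X20 g_1_2_11_X20

lemma g_1_2_11_X18 : Good (27 / 10) [1, 2, 11] 18 :=
  Good.branch g_1_2_11_18_X19 g_1_2_11_X19

lemma g_1_2_11_X17 : Good (27 / 10) [1, 2, 11] 17 :=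
  Good.branch g_1_2_11_17_X18 g_1_2_11_X18

lemma g_1_2_11_X16 : Good (27 / 10) [1, 2, 11] 16 :=
  Good.branch g_1_2_11_16_X17 g_1_2_11_X17

lemma g_1_2_11_X15 : Good (27 / 10) [1, 2, 11] 15 :=
  Good.branch g_1_2_11_15_X16 g_1_2_11_X16

lemma g_1_2_11_X14 : Good (27 / 10) [1, 2, 11] 14 :=
  Good.skip (by decide +kernel) g_1_2_11_X15

lemma g_1_2_11_X13 : Good (27 / 10) [1, 2, 11] 13 :=
  Good.skip (by decide +kernel) g_1_2_11_X14

lemma g_1_2_11_X12 : Good (27 / 10) [1, 2, 11] 12 :=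
  Good.skip (by decide +kernel) g_1_2_11_X13

lemma g_1_2_12_16_X19 : Good (27 / 10) [1, 2, 12, 16] 19 :=
  Good.skip (by decide +kernel) g_1_2_12_16_X20

lemma g_1_2_12_16_X18 : Good (27 / 10) [1, 2, 12, 16] 18 :=
  Good.skip (by decide +kernel) g_1_2_12_16_X19

lemma g_1_2_12_16_X17 : Good (27 / 10) [1, 2, 12, 16] 17 :=
  Good.skip (by decide +kernel) g_1_2_12_16_X18

lemma g_1_2_12_17_21_X24 : Good (27 / 10) [1, 2, 12, 17, 21] 24 :=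
  Good.skip (by decide +kernel) g_1_2_12_17_21_X25

lemma g_1_2_12_17_21_X23 : Good (27 / 10) [1, 2, 12, 17, 21] 23 :=
  Good.skip (by decide +kernel) g_1_2_12_17_21_X24

lemma g_1_2_12_17_21_X22 : Good (27 / 10) [1, 2, 12, 17, 21] 22 :=
  Good.skip (by decide +kernel) g_1_2_12_17_21_X23

lemma g_1_2_12_17_22_X25 : Good (27 / 10) [1, 2, 12, 17, 22] 25 :=
  Good.skip (by decide +kernel) g_1_2_12_17_22_X26

lemma g_1_2_12_17_22_X24 : Good (27 / 10) [1, 2, 12, 17, 22] 24 :=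
  Good.skip (by decide +kernel) g_1_2_12_17_22_X25

lemma g_1_2_12_17_22_X23 : Good (27 / 10) [1, 2, 12, 17, 22] 23 :=
  Good.skip (by decide +kernel) g_1_2_12_17_22_X24

lemma g_1_2_12_17_23_X26 : Good (27 / 10) [1, 2, 12, 17, 23] 26 :=
  Good.skip (by decide +kernel) g_1_2_12_17_23_X27

lemma g_1_2_12_17_23_X25 : Good (27 / 10) [1, 2, 12, 17, 23] 25 :=
  Good.skip (by decide +kernel) g_1_2_12_17_23_X26

lemma g_1_2_12_17_23_X24 : Good (27 / 10) [1, 2, 12, 17, 23] 24 :=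
  Good.skip (by decide +kernel) g_1_2_12_17_23_X25

lemma g_1_2_12_17_24_X27 : Good (27 / 10) [1, 2, 12, 17, 24] 27 :=
  Good.skip (by decide +kernel) g_1_2_12_17_24_X28

lemma g_1_2_12_17_24_X26 : Good (27 / 10) [1, 2, 12, 17, 24] 26 :=
  Good.skip (by decide +kernel) g_1_2_12_17_24_X27

lemma g_1_2_12_17_24_X25 : Good (27 / 10) [1, 2, 12, 17, 24] 25 :=
  Good.skip (by decide +kernel) g_1_2_12_17_24_X26

lemma g_1_2_12_17_25_X32 : Good (27 / 10) [1, 2, 12, 17, 25] 32 :=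
  Good.skip (by decide +kernel) g_1_2_12_17_25_X33

lemma g_1_2_12_17_25_X31 : Good (27 / 10) [1, 2, 12, 17, 25] 31 :=
  Good.skip (by decide +kernel) g_1_2_12_17_25_X32

lemma g_1_2_12_17_25_X30 : Good (27 / 10) [1, 2, 12, 17, 25] 30 :=
  Good.skip (by decide +kernel) g_1_2_12_17_25_X31

lemma g_1_2_12_17_25_X29 : Good (27 / 10) [1, 2, 12, 17, 25] 29 :=
  Good.skip (by decide +kernel) g_1_2_12_17_25_X30

lemma g_1_2_12_17_25_X28 : Good (27 / 10) [1, 2, 12, 17, 25] 28 :=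
  Good.skip (by decide +kernel) g_1_2_12_17_25_X29

lemma g_1_2_12_17_25_X27 : Good (27 / 10) [1, 2, 12, 17, 25] 27 :=
  Good.skip (by decide +kernel) g_1_2_12_17_25_X28

lemma g_1_2_12_17_25_X26 : Good (27 / 10) [1, 2, 12, 17, 25] 26 :=
  Good.skip (by decide +kernel) g_1_2_12_17_25_X27

lemma g_1_2_12_17_26_X32 : Good (27 / 10) [1, 2, 12, 17, 26] 32 :=
  Good.skip (by decide +kernel) g_1_2_12_17_26_X33

lemma g_1_2_12_17_26_X31 : Good (27 / 10) [1, 2, 12, 17, 26] 31 :=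
  Good.skip (by decide +kernel) g_1_2_12_17_26_X32

lemma g_1_2_12_17_26_X30 : Good (27 / 10) [1, 2, 12, 17, 26] 30 :=
  Good.skip (by decide +kernel) g_1_2_12_17_26_X31

lemma g_1_2_12_17_26_X29 : Good (27 / 10) [1, 2, 12, 17, 26] 29 :=
  Good.skip (by decide +kernel) g_1_2_12_17_26_X30

lemma g_1_2_12_17_26_X28 : Good (27 / 10) [1, 2, 12, 17, 26] 28 :=
  Good.skip (by decide +kernel) g_1_2_12_17_26_X29

lemma g_1_2_12_17_26_X27 : Good (27 / 10) [1, 2, 12, 17, 26] 27 :=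
  Good.skip (by decide +kernel) g_1_2_12_17_26_X28

lemma g_1_2_12_17_X26 : Good (27 / 10) [1, 2, 12, 17] 26 :=
  Good.branch g_1_2_12_17_26_X27 g_1_2_12_17_X27

lemma g_1_2_12_17_X25 : Good (27 / 10) [1, 2, 12, 17] 25 :=
  Good.branch g_1_2_12_17_25_X26 g_1_2_12_17_X26

lemma g_1_2_12_17_X24 : Good (27 / 10) [1, 2, 12, 17] 24 :=
  Good.branch g_1_2_12_17_24_X25 g_1_2_12_17_X25

lemma g_1_2_12_17_X23 : Good (27 / 10) [1, 2, 12, 17] 23 :=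
  Good.branch g_1_2_12_17_23_X24 g_1_2_12_17_X24

lemma g_1_2_12_17_X22 : Good (27 / 10) [1, 2, 12, 17] 22 :=
  Good.branch g_1_2_12_17_22_X23 g_1_2_12_17_X23

lemma g_1_2_12_17_X21 : Good (27 / 10) [1, 2, 12, 17] 21 :=
  Good.branch g_1_2_12_17_21_X22 g_1_2_12_17_X22

lemma g_1_2_12_17_X20 : Good (27 / 10) [1, 2, 12, 17] 20 :=
  Good.skip (by decide +kernel) g_1_2_12_17_X21

lemma g_1_2_12_17_X19 : Good (27 / 10) [1, 2, 12, 17] 19 :=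
  Good.skip (by decide +kernel) g_1_2_12_17_X20

lemma g_1_2_12_17_X18 : Good (27 / 10) [1, 2, 12, 17] 18 :=
  Good.skip (by decide +kernel) g_1_2_12_17_X19

lemma g_1_2_12_18_22_X25 : Good (27 / 10) [1, 2, 12, 18, 22] 25 :=
  Good.skip (by decide +kernel) g_1_2_12_18_22_X26

lemma g_1_2_12_18_22_X24 : Good (27 / 10) [1, 2, 12, 18, 22] 24 :=
  Good.skip (by decide +kernel) g_1_2_12_18_22_X25

lemma g_1_2_12_18_22_X23 : Good (27 / 10) [1, 2, 12, 18, 22] 23 :=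
  Good.skip (by decide +kernel) g_1_2_12_18_22_X24

lemma g_1_2_12_18_23_27_X33 : Good (27 / 10) [1, 2, 12, 18, 23, 27] 33 :=
  Good.skip (by decide +kernel) g_1_2_12_18_23_27_X34

lemma g_1_2_12_18_23_27_X32 : Good (27 / 10) [1, 2, 12, 18, 23, 27] 32 :=
  Good.skip (by decide +kernel) g_1_2_12_18_23_27_X33

lemma g_1_2_12_18_23_27_X31 : Good (27 / 10) [1, 2, 12, 18, 23, 27] 31 :=
  Good.skip (by decide +kernel) g_1_2_12_18_23_27_X32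

lemma g_1_2_12_18_23_27_X30 : Good (27 / 10) [1, 2, 12, 18, 23, 27] 30 :=
  Good.skip (by decide +kernel) g_1_2_12_18_23_27_X31

lemma g_1_2_12_18_23_27_X29 : Good (27 / 10) [1, 2, 12, 18, 23, 27] 29 :=
  Good.skip (by decide +kernel) g_1_2_12_18_23_27_X30

lemma g_1_2_12_18_23_27_X28 : Good (27 / 10) [1, 2, 12, 18, 23, 27] 28 :=
  Good.skip (by decide +kernel) g_1_2_12_18_23_27_X29

lemma g_1_2_12_18_23_28_X33 : Good (27 / 10) [1, 2, 12, 18, 23, 28] 33 :=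
  Good.skip (by decide +kernel) g_1_2_12_18_23_28_X34

lemma g_1_2_12_18_23_28_X32 : Good (27 / 10) [1, 2, 12, 18, 23, 28] 32 :=
  Good.skip (by decide +kernel) g_1_2_12_18_23_28_X33

lemma g_1_2_12_18_23_28_X31 : Good (27 / 10) [1, 2, 12, 18, 23, 28] 31 :=
  Good.skip (by decide +kernel) g_1_2_12_18_23_28_X32

lemma g_1_2_12_18_23_28_X30 : Good (27 / 10) [1, 2, 12, 18, 23, 28] 30 :=
  Good.skip (by decide +kernel) g_1_2_12_18_23_28_X31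

lemma g_1_2_12_18_23_28_X29 : Good (27 / 10) [1, 2, 12, 18, 23, 28] 29 :=
  Good.skip (by decide +kernel) g_1_2_12_18_23_28_X30

lemma g_1_2_12_18_23_X28 : Good (27 / 10) [1, 2, 12, 18, 23] 28 :=
  Good.branch g_1_2_12_18_23_28_X29 g_1_2_12_18_23_X29

lemma g_1_2_12_18_23_X27 : Good (27 / 10) [1, 2, 12, 18, 23] 27 :=
  Good.branch g_1_2_12_18_23_27_X28 g_1_2_12_18_23_X28

lemma g_1_2_12_18_23_X26 : Good (27 / 10) [1, 2, 12, 18, 23] 26 :=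
  Good.skip (by decide +kernel) g_1_2_12_18_23_X27

lemma g_1_2_12_18_23_X25 : Good (27 / 10) [1, 2, 12, 18, 23] 25 :=
  Good.skip (by decide +kernel) g_1_2_12_18_23_X26

lemma g_1_2_12_18_23_X24 : Good (27 / 10) [1, 2, 12, 18, 23] 24 :=
  Good.skip (by decide +kernel) g_1_2_12_18_23_X25

lemma g_1_2_12_18_24_X27 : Good (27 / 10) [1, 2, 12, 18, 24] 27 :=
  Good.skip (by decide +kernel) g_1_2_12_18_24_X28

lemma g_1_2_12_18_24_X26 : Good (27 / 10) [1, 2, 12, 18, 24] 26 :=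
  Good.skip (by decide +kernel) g_1_2_12_18_24_X27

lemma g_1_2_12_18_24_X25 : Good (27 / 10) [1, 2, 12, 18, 24] 25 :=
  Good.skip (by decide +kernel) g_1_2_12_18_24_X26

lemma g_1_2_12_18_25_X28 : Good (27 / 10) [1, 2, 12, 18, 25] 28 :=
  Good.skip (by decide +kernel) g_1_2_12_18_25_X29

lemma g_1_2_12_18_25_X27 : Good (27 / 10) [1, 2, 12, 18, 25] 27 :=
  Good.skip (by decide +kernel) g_1_2_12_18_25_X28

lemma g_1_2_12_18_25_X26 : Good (27 / 10) [1, 2, 12, 18, 25] 26 :=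
  Good.skip (by decide +kernel) g_1_2_12_18_25_X27

lemma g_1_2_12_18_26_X33 : Good (27 / 10) [1, 2, 12, 18, 26] 33 :=
  Good.skip (by decide +kernel) g_1_2_12_18_26_X34

lemma g_1_2_12_18_26_X32 : Good (27 / 10) [1, 2, 12, 18, 26] 32 :=
  Good.skip (by decide +kernel) g_1_2_12_18_26_X33

lemma g_1_2_12_18_26_X31 : Good (27 / 10) [1, 2, 12, 18, 26] 31 :=
  Good.skip (by decide +kernel) g_1_2_12_18_26_X32

lemma g_1_2_12_18_26_X30 : Good (27 / 10) [1, 2, 12, 18, 26] 30 :=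
  Good.skip (by decide +kernel) g_1_2_12_18_26_X31

lemma g_1_2_12_18_26_X29 : Good (27 / 10) [1, 2, 12, 18, 26] 29 :=
  Good.skip (by decide +kernel) g_1_2_12_18_26_X30

lemma g_1_2_12_18_26_X28 : Good (27 / 10) [1, 2, 12, 18, 26] 28 :=
  Good.skip (by decide +kernel) g_1_2_12_18_26_X29

lemma g_1_2_12_18_26_X27 : Good (27 / 10) [1, 2, 12, 18, 26] 27 :=
  Good.skip (by decide +kernel) g_1_2_12_18_26_X28

lemma g_1_2_12_18_X26 : Good (27 / 10) [1, 2, 12, 18] 26 :=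
  Good.branch g_1_2_12_18_26_X27 g_1_2_12_18_X27

lemma g_1_2_12_18_X25 : Good (27 / 10) [1, 2, 12, 18] 25 :=
  Good.branch g_1_2_12_18_25_X26 g_1_2_12_18_X26

lemma g_1_2_12_18_X24 : Good (27 / 10) [1, 2, 12, 18] 24 :=
  Good.branch g_1_2_12_18_24_X25 g_1_2_12_18_X25

lemma g_1_2_12_18_X23 : Good (27 / 10) [1, 2, 12, 18] 23 :=
  Good.branch g_1_2_12_18_23_X24 g_1_2_12_18_X24

lemma g_1_2_12_18_X22 : Good (27 / 10) [1, 2, 12, 18] 22 :=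
  Good.branch g_1_2_12_18_22_X23 g_1_2_12_18_X23

lemma g_1_2_12_18_X21 : Good (27 / 10) [1, 2, 12, 18] 21 :=
  Good.skip (by decide +kernel) g_1_2_12_18_X22

lemma g_1_2_12_18_X20 : Good (27 / 10) [1, 2, 12, 18] 20 :=
  Good.skip (by decide +kernel) g_1_2_12_18_X21

lemma g_1_2_12_18_X19 : Good (27 / 10) [1, 2, 12, 18] 19 :=
  Good.skip (by decide +kernel) g_1_2_12_18_X20

lemma g_1_2_12_19_23_X26 : Good (27 / 10) [1, 2, 12, 19, 23] 26 :=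
  Good.skip (by decide +kernel) g_1_2_12_19_23_X27

lemma g_1_2_12_19_23_X25 : Good (27 / 10) [1, 2, 12, 19, 23] 25 :=
  Good.skip (by decide +kernel) g_1_2_12_19_23_X26

lemma g_1_2_12_19_23_X24 : Good (27 / 10) [1, 2, 12, 19, 23] 24 :=
  Good.skip (by decide +kernel) g_1_2_12_19_23_X25

lemma g_1_2_12_19_24_X27 : Good (27 / 10) [1, 2, 12, 19, 24] 27 :=
  Good.skip (by decide +kernel) g_1_2_12_19_24_X28

lemma g_1_2_12_19_24_X26 : Good (27 / 10) [1, 2, 12, 19, 24] 26 :=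
  Good.skip (by decide +kernel) g_1_2_12_19_24_X27

lemma g_1_2_12_19_24_X25 : Good (27 / 10) [1, 2, 12, 19, 24] 25 :=
  Good.skip (by decide +kernel) g_1_2_12_19_24_X26

lemma g_1_2_12_19_25_X28 : Good (27 / 10) [1, 2, 12, 19, 25] 28 :=
  Good.skip (by decide +kernel) g_1_2_12_19_25_X29

lemma g_1_2_12_19_25_X27 : Good (27 / 10) [1, 2, 12, 19, 25] 27 :=
  Good.skip (by decide +kernel) g_1_2_12_19_25_X28

lemma g_1_2_12_19_25_X26 : Good (27 / 10) [1, 2, 12, 19, 25] 26 :=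
  Good.skip (by decide +kernel) g_1_2_12_19_25_X27

lemma g_1_2_12_19_26_X29 : Good (27 / 10) [1, 2, 12, 19, 26] 29 :=
  Good.skip (by decide +kernel) g_1_2_12_19_26_X30

lemma g_1_2_12_19_26_X28 : Good (27 / 10) [1, 2, 12, 19, 26] 28 :=
  Good.skip (by decide +kernel) g_1_2_12_19_26_X29

lemma g_1_2_12_19_26_X27 : Good (27 / 10) [1, 2, 12, 19, 26] 27 :=
  Good.skip (by decide +kernel) g_1_2_12_19_26_X28

lemma g_1_2_12_19_X26 : Good (27 / 10) [1, 2, 12, 19] 26 :=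
  Good.branch g_1_2_12_19_26_X27 g_1_2_12_19_X27

lemma g_1_2_12_19_X25 : Good (27 / 10) [1, 2, 12, 19] 25 :=
  Good.branch g_1_2_12_19_25_X26 g_1_2_12_19_X26

lemma g_1_2_12_19_X24 : Good (27 / 10) [1, 2, 12, 19] 24 :=
  Good.branch g_1_2_12_19_24_X25 g_1_2_12_19_X25

lemma g_1_2_12_19_X23 : Good (27 / 10) [1, 2, 12, 19] 23 :=
  Good.branch g_1_2_12_19_23_X24 g_1_2_12_19_X24

lemma g_1_2_12_19_X22 : Good (27 / 10) [1, 2, 12, 19] 22 :=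
  Good.skip (by decide +kernel) g_1_2_12_19_X23

lemma g_1_2_12_19_X21 : Good (27 / 10) [1, 2, 12, 19] 21 :=
  Good.skip (by decide +kernel) g_1_2_12_19_X22

lemma g_1_2_12_19_X20 : Good (27 / 10) [1, 2, 12, 19] 20 :=
  Good.skip (by decide +kernel) g_1_2_12_19_X21

lemma g_1_2_12_20_24_X27 : Good (27 / 10) [1, 2, 12, 20, 24] 27 :=
  Good.skip (by decide +kernel) g_1_2_12_20_24_X28

lemma g_1_2_12_20_24_X26 : Good (27 / 10) [1, 2, 12, 20, 24] 26 :=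
  Good.skip (by decide +kernel) g_1_2_12_20_24_X27

lemma g_1_2_12_20_24_X25 : Good (27 / 10) [1, 2, 12, 20, 24] 25 :=
  Good.skip (by decide +kernel) g_1_2_12_20_24_X26

lemma g_1_2_12_20_25_X28 : Good (27 / 10) [1, 2, 12, 20, 25] 28 :=
  Good.skip (by decide +kernel) g_1_2_12_20_25_X29

lemma g_1_2_12_20_25_X27 : Good (27 / 10) [1, 2, 12, 20, 25] 27 :=
  Good.skip (by decide +kernel) g_1_2_12_20_25_X28

lemma g_1_2_12_20_25_X26 : Good (27 / 10) [1, 2, 12, 20, 25] 26 :=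
  Good.skip (by decide +kernel) g_1_2_12_20_25_X27

lemma g_1_2_12_20_26_X29 : Good (27 / 10) [1, 2, 12, 20, 26] 29 :=
  Good.skip (by decide +kernel) g_1_2_12_20_26_X30

lemma g_1_2_12_20_26_X28 : Good (27 / 10) [1, 2, 12, 20, 26] 28 :=
  Good.skip (by decide +kernel) g_1_2_12_20_26_X29

lemma g_1_2_12_20_26_X27 : Good (27 / 10) [1, 2, 12, 20, 26] 27 :=
  Good.skip (by decide +kernel) g_1_2_12_20_26_X28

lemma g_1_2_12_20_X26 : Good (27 / 10) [1, 2, 12, 20] 26 :=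
  Good.branch g_1_2_12_20_26_X27 g_1_2_12_20_X27

lemma g_1_2_12_20_X25 : Good (27 / 10) [1, 2, 12, 20] 25 :=
  Good.branch g_1_2_12_20_25_X26 g_1_2_12_20_X26

lemma g_1_2_12_20_X24 : Good (27 / 10) [1, 2, 12, 20] 24 :=
  Good.branch g_1_2_12_20_24_X25 g_1_2_12_20_X25

lemma g_1_2_12_20_X23 : Good (27 / 10) [1, 2, 12, 20] 23 :=
  Good.skip (by decide +kernel) g_1_2_12_20_X24

lemma g_1_2_12_20_X22 : Good (27 / 10) [1, 2, 12, 20] 22 :=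
  Good.skip (by decide +kernel) g_1_2_12_20_X23

lemma g_1_2_12_20_X21 : Good (27 / 10) [1, 2, 12, 20] 21 :=
  Good.skip (by decide +kernel) g_1_2_12_20_X22

lemma g_1_2_12_X20 : Good (27 / 10) [1, 2, 12] 20 :=
  Good.branch g_1_2_12_20_X21 g_1_2_12_X21

lemma g_1_2_12_X19 : Good (27 / 10) [1, 2, 12] 19 :=
  Good.branch g_1_2_12_19_X20 g_1_2_12_X20

lemma g_1_2_12_X18 : Good (27 / 10) [1, 2, 12] 18 :=
  Good.branch g_1_2_12_18_X19 g_1_2_12_X19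

lemma g_1_2_12_X17 : Good (27 / 10) [1, 2, 12] 17 :=
  Good.branch g_1_2_12_17_X18 g_1_2_12_X18

lemma g_1_2_12_X16 : Good (27 / 10) [1, 2, 12] 16 :=
  Good.branch g_1_2_12_16_X17 g_1_2_12_X17

lemma g_1_2_12_X15 : Good (27 / 10) [1, 2, 12] 15 :=
  Good.skip (by decide +kernel) g_1_2_12_X16

lemma g_1_2_12_X14 : Good (27 / 10) [1, 2, 12] 14 :=
  Good.skip (by decide +kernel) g_1_2_12_X15

lemma g_1_2_12_X13 : Good (27 / 10) [1, 2, 12] 13 :=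
  Good.skip (by decide +kernel) g_1_2_12_X14

lemma g_1_2_13_17_X20 : Good (27 / 10) [1, 2, 13, 17] 20 :=
  Good.skip (by decide +kernel) g_1_2_13_17_X21

lemma g_1_2_13_17_X19 : Good (27 / 10) [1, 2, 13, 17] 19 :=
  Good.skip (by decide +kernel) g_1_2_13_17_X20

lemma g_1_2_13_17_X18 : Good (27 / 10) [1, 2, 13, 17] 18 :=
  Good.skip (by decide +kernel) g_1_2_13_17_X19

lemma g_1_2_13_18_22_X25 : Good (27 / 10) [1, 2, 13, 18, 22] 25 :=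
  Good.skip (by decide +kernel) g_1_2_13_18_22_X26

lemma g_1_2_13_18_22_X24 : Good (27 / 10) [1, 2, 13, 18, 22] 24 :=
  Good.skip (by decide +kernel) g_1_2_13_18_22_X25

lemma g_1_2_13_18_22_X23 : Good (27 / 10) [1, 2, 13, 18, 22] 23 :=
  Good.skip (by decide +kernel) g_1_2_13_18_22_X24

lemma g_1_2_13_18_23_X26 : Good (27 / 10) [1, 2, 13, 18, 23] 26 :=
  Good.skip (by decide +kernel) g_1_2_13_18_23_X27

lemma g_1_2_13_18_23_X25 : Good (27 / 10) [1, 2, 13, 18, 23] 25 :=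
  Good.skip (by decide +kernel) g_1_2_13_18_23_X26

lemma g_1_2_13_18_23_X24 : Good (27 / 10) [1, 2, 13, 18, 23] 24 :=
  Good.skip (by decide +kernel) g_1_2_13_18_23_X25

lemma g_1_2_13_18_24_X27 : Good (27 / 10) [1, 2, 13, 18, 24] 27 :=
  Good.skip (by decide +kernel) g_1_2_13_18_24_X28

lemma g_1_2_13_18_24_X26 : Good (27 / 10) [1, 2, 13, 18, 24] 26 :=
  Good.skip (by decide +kernel) g_1_2_13_18_24_X27

lemma g_1_2_13_18_24_X25 : Good (27 / 10) [1, 2, 13, 18, 24] 25 :=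
  Good.skip (by decide +kernel) g_1_2_13_18_24_X26

lemma g_1_2_13_18_25_X28 : Good (27 / 10) [1, 2, 13, 18, 25] 28 :=
  Good.skip (by decide +kernel) g_1_2_13_18_25_X29

lemma g_1_2_13_18_25_X27 : Good (27 / 10) [1, 2, 13, 18, 25] 27 :=
  Good.skip (by decide +kernel) g_1_2_13_18_25_X28

lemma g_1_2_13_18_25_X26 : Good (27 / 10) [1, 2, 13, 18, 25] 26 :=
  Good.skip (by decide +kernel) g_1_2_13_18_25_X27

lemma g_1_2_13_18_26_X29 : Good (27 / 10) [1, 2, 13, 18, 26] 29 :=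
  Good.skip (by decide +kernel) g_1_2_13_18_26_X30

lemma g_1_2_13_18_26_X28 : Good (27 / 10) [1, 2, 13, 18, 26] 28 :=
  Good.skip (by decide +kernel) g_1_2_13_18_26_X29

lemma g_1_2_13_18_26_X27 : Good (27 / 10) [1, 2, 13, 18, 26] 27 :=
  Good.skip (by decide +kernel) g_1_2_13_18_26_X28

lemma g_1_2_13_18_X26 : Good (27 / 10) [1, 2, 13, 18] 26 :=
  Good.branch g_1_2_13_18_26_X27 g_1_2_13_18_X27

lemma g_1_2_13_18_X25 : Good (27 / 10) [1, 2, 13, 18] 25 :=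
  Good.branch g_1_2_13_18_25_X26 g_1_2_13_18_X26

lemma g_1_2_13_18_X24 : Good (27 / 10) [1, 2, 13, 18] 24 :=
  Good.branch g_1_2_13_18_24_X25 g_1_2_13_18_X25

lemma g_1_2_13_18_X23 : Good (27 / 10) [1, 2, 13, 18] 23 :=
  Good.branch g_1_2_13_18_23_X24 g_1_2_13_18_X24

lemma g_1_2_13_18_X22 : Good (27 / 10) [1, 2, 13, 18] 22 :=
  Good.branch g_1_2_13_18_22_X23 g_1_2_13_18_X23

lemma g_1_2_13_18_X21 : Good (27 / 10) [1, 2, 13, 18] 21 :=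
  Good.skip (by decide +kernel) g_1_2_13_18_X22

lemma g_1_2_13_18_X20 : Good (27 / 10) [1, 2, 13, 18] 20 :=
  Good.skip (by decide +kernel) g_1_2_13_18_X21

lemma g_1_2_13_18_X19 : Good (27 / 10) [1, 2, 13, 18] 19 :=
  Good.skip (by decide +kernel) g_1_2_13_18_X20

lemma g_1_2_13_19_23_X26 : Good (27 / 10) [1, 2, 13, 19, 23] 26 :=
  Good.skip (by decide +kernel) g_1_2_13_19_23_X27

lemma g_1_2_13_19_23_X25 : Good (27 / 10) [1, 2, 13, 19, 23] 25 :=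
  Good.skip (by decide +kernel) g_1_2_13_19_23_X26

lemma g_1_2_13_19_23_X24 : Good (27 / 10) [1, 2, 13, 19, 23] 24 :=
  Good.skip (by decide +kernel) g_1_2_13_19_23_X25

lemma g_1_2_13_19_24_28_X35 : Good (27 / 10) [1, 2, 13, 19, 24, 28] 35 :=
  Good.skip (by decide +kernel) g_1_2_13_19_24_28_X36

lemma g_1_2_13_19_24_28_X34 : Good (27 / 10) [1, 2, 13, 19, 24, 28] 34 :=
  Good.skip (by decide +kernel) g_1_2_13_19_24_28_X35

lemma g_1_2_13_19_24_28_X33 : Good (27 / 10) [1, 2, 13, 19, 24, 28] 33 :=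
  Good.skip (by decide +kernel) g_1_2_13_19_24_28_X34

lemma g_1_2_13_19_24_28_X32 : Good (27 / 10) [1, 2, 13, 19, 24, 28] 32 :=
  Good.skip (by decide +kernel) g_1_2_13_19_24_28_X33

lemma g_1_2_13_19_24_28_X31 : Good (27 / 10) [1, 2, 13, 19, 24, 28] 31 :=
  Good.skip (by decide +kernel) g_1_2_13_19_24_28_X32

lemma g_1_2_13_19_24_28_X30 : Good (27 / 10) [1, 2, 13, 19, 24, 28] 30 :=
  Good.skip (by decide +kernel) g_1_2_13_19_24_28_X31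

lemma g_1_2_13_19_24_28_X29 : Good (27 / 10) [1, 2, 13, 19, 24, 28] 29 :=
  Good.skip (by decide +kernel) g_1_2_13_19_24_28_X30

lemma g_1_2_13_19_24_29_X35 : Good (27 / 10) [1, 2, 13, 19, 24, 29] 35 :=
  Good.skip (by decide +kernel) g_1_2_13_19_24_29_X36

lemma g_1_2_13_19_24_29_X34 : Good (27 / 10) [1, 2, 13, 19, 24, 29] 34 :=
  Good.skip (by decide +kernel) g_1_2_13_19_24_29_X35

lemma g_1_2_13_19_24_29_X33 : Good (27 / 10) [1, 2, 13, 19, 24, 29] 33 :=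
  Good.skip (by decide +kernel) g_1_2_13_19_24_29_X34

lemma g_1_2_13_19_24_29_X32 : Good (27 / 10) [1, 2, 13, 19, 24, 29] 32 :=
  Good.skip (by decide +kernel) g_1_2_13_19_24_29_X33

lemma g_1_2_13_19_24_29_X31 : Good (27 / 10) [1, 2, 13, 19, 24, 29] 31 :=
  Good.skip (by decide +kernel) g_1_2_13_19_24_29_X32

lemma g_1_2_13_19_24_29_X30 : Good (27 / 10) [1, 2, 13, 19, 24, 29] 30 :=
  Good.skip (by decide +kernel) g_1_2_13_19_24_29_X31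

lemma g_1_2_13_19_24_X29 : Good (27 / 10) [1, 2, 13, 19, 24] 29 :=
  Good.branch g_1_2_13_19_24_29_X30 g_1_2_13_19_24_X30

lemma g_1_2_13_19_24_X28 : Good (27 / 10) [1, 2, 13, 19, 24] 28 :=
  Good.branch g_1_2_13_19_24_28_X29 g_1_2_13_19_24_X29

lemma g_1_2_13_19_24_X27 : Good (27 / 10) [1, 2, 13, 19, 24] 27 :=
  Good.skip (by decide +kernel) g_1_2_13_19_24_X28

lemma g_1_2_13_19_24_X26 : Good (27 / 10) [1, 2, 13, 19, 24] 26 :=
  Good.skip (by decide +kernel) g_1_2_13_19_24_X27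

lemma g_1_2_13_19_24_X25 : Good (27 / 10) [1, 2, 13, 19, 24] 25 :=
  Good.skip (by decide +kernel) g_1_2_13_19_24_X26

lemma g_1_2_13_19_25_29_X35 : Good (27 / 10) [1, 2, 13, 19, 25, 29] 35 :=
  Good.skip (by decide +kernel) g_1_2_13_19_25_29_X36

lemma g_1_2_13_19_25_29_X34 : Good (27 / 10) [1, 2, 13, 19, 25, 29] 34 :=
  Good.skip (by decide +kernel) g_1_2_13_19_25_29_X35

lemma g_1_2_13_19_25_29_X33 : Good (27 / 10) [1, 2, 13, 19, 25, 29] 33 :=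
  Good.skip (by decide +kernel) g_1_2_13_19_25_29_X34

lemma g_1_2_13_19_25_29_X32 : Good (27 / 10) [1, 2, 13, 19, 25, 29] 32 :=
  Good.skip (by decide +kernel) g_1_2_13_19_25_29_X33

lemma g_1_2_13_19_25_29_X31 : Good (27 / 10) [1, 2, 13, 19, 25, 29] 31 :=
  Good.skip (by decide +kernel) g_1_2_13_19_25_29_X32

lemma g_1_2_13_19_25_29_X30 : Good (27 / 10) [1, 2, 13, 19, 25, 29] 30 :=
  Good.skip (by decide +kernel) g_1_2_13_19_25_29_X31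

lemma g_1_2_13_19_25_X29 : Good (27 / 10) [1, 2, 13, 19, 25] 29 :=
  Good.branch g_1_2_13_19_25_29_X30 g_1_2_13_19_25_X30

lemma g_1_2_13_19_25_X28 : Good (27 / 10) [1, 2, 13, 19, 25] 28 :=
  Good.skip (by decide +kernel) g_1_2_13_19_25_X29

lemma g_1_2_13_19_25_X27 : Good (27 / 10) [1, 2, 13, 19, 25] 27 :=
  Good.skip (by decide +kernel) g_1_2_13_19_25_X28

lemma g_1_2_13_19_25_X26 : Good (27 / 10) [1, 2, 13, 19, 25] 26 :=
  Good.skip (by decide +kernel) g_1_2_13_19_25_X27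

lemma g_1_2_13_19_26_X29 : Good (27 / 10) [1, 2, 13, 19, 26] 29 :=
  Good.skip (by decide +kernel) g_1_2_13_19_26_X30

lemma g_1_2_13_19_26_X28 : Good (27 / 10) [1, 2, 13, 19, 26] 28 :=
  Good.skip (by decide +kernel) g_1_2_13_19_26_X29

lemma g_1_2_13_19_26_X27 : Good (27 / 10) [1, 2, 13, 19, 26] 27 :=
  Good.skip (by decide +kernel) g_1_2_13_19_26_X28

lemma g_1_2_13_19_X26 : Good (27 / 10) [1, 2, 13, 19] 26 :=
  Good.branch g_1_2_13_19_26_X27 g_1_2_13_19_X27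

lemma g_1_2_13_19_X25 : Good (27 / 10) [1, 2, 13, 19] 25 :=
  Good.branch g_1_2_13_19_25_X26 g_1_2_13_19_X26

lemma g_1_2_13_19_X24 : Good (27 / 10) [1, 2, 13, 19] 24 :=
  Good.branch g_1_2_13_19_24_X25 g_1_2_13_19_X25

lemma g_1_2_13_19_X23 : Good (27 / 10) [1, 2, 13, 19] 23 :=
  Good.branch g_1_2_13_19_23_X24 g_1_2_13_19_X24

lemma g_1_2_13_19_X22 : Good (27 / 10) [1, 2, 13, 19] 22 :=
  Good.skip (by decide +kernel) g_1_2_13_19_X23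

lemma g_1_2_13_19_X21 : Good (27 / 10) [1, 2, 13, 19] 21 :=
  Good.skip (by decide +kernel) g_1_2_13_19_X22

lemma g_1_2_13_19_X20 : Good (27 / 10) [1, 2, 13, 19] 20 :=
  Good.skip (by decide +kernel) g_1_2_13_19_X21

lemma g_1_2_13_X19 : Good (27 / 10) [1, 2, 13] 19 :=
  Good.branch g_1_2_13_19_X20 g_1_2_13_X20

lemma g_1_2_13_X18 : Good (27 / 10) [1, 2, 13] 18 :=
  Good.branch g_1_2_13_18_X19 g_1_2_13_X19

lemma g_1_2_13_X17 : Good (27 / 10) [1, 2, 13] 17 :=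
  Good.branch g_1_2_13_17_X18 g_1_2_13_X18

lemma g_1_2_13_X16 : Good (27 / 10) [1, 2, 13] 16 :=
  Good.skip (by decide +kernel) g_1_2_13_X17

lemma g_1_2_13_X15 : Good (27 / 10) [1, 2, 13] 15 :=
  Good.skip (by decide +kernel) g_1_2_13_X16

lemma g_1_2_13_X14 : Good (27 / 10) [1, 2, 13] 14 :=
  Good.skip (by decide +kernel) g_1_2_13_X15

lemma g_1_2_14_18_X21 : Good (27 / 10) [1, 2, 14, 18] 21 :=
  Good.skip (by decide +kernel) g_1_2_14_18_X22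

lemma g_1_2_14_18_X20 : Good (27 / 10) [1, 2, 14, 18] 20 :=
  Good.skip (by decide +kernel) g_1_2_14_18_X21

lemma g_1_2_14_18_X19 : Good (27 / 10) [1, 2, 14, 18] 19 :=
  Good.skip (by decide +kernel) g_1_2_14_18_X20

lemma g_1_2_14_19_23_X26 : Good (27 / 10) [1, 2, 14, 19, 23] 26 :=
  Good.skip (by decide +kernel) g_1_2_14_19_23_X27

lemma g_1_2_14_19_23_X25 : Good (27 / 10) [1, 2, 14, 19, 23] 25 :=
  Good.skip (by decide +kernel) g_1_2_14_19_23_X26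

lemma g_1_2_14_19_23_X24 : Good (27 / 10) [1, 2, 14, 19, 23] 24 :=
  Good.skip (by decide +kernel) g_1_2_14_19_23_X25

lemma g_1_2_14_19_24_X27 : Good (27 / 10) [1, 2, 14, 19, 24] 27 :=
  Good.skip (by decide +kernel) g_1_2_14_19_24_X28

lemma g_1_2_14_19_24_X26 : Good (27 / 10) [1, 2, 14, 19, 24] 26 :=
  Good.skip (by decide +kernel) g_1_2_14_19_24_X27

lemma g_1_2_14_19_24_X25 : Good (27 / 10) [1, 2, 14, 19, 24] 25 :=
  Good.skip (by decide +kernel) g_1_2_14_19_24_X26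

lemma g_1_2_14_19_25_X28 : Good (27 / 10) [1, 2, 14, 19, 25] 28 :=
  Good.skip (by decide +kernel) g_1_2_14_19_25_X29

lemma g_1_2_14_19_25_X27 : Good (27 / 10) [1, 2, 14, 19, 25] 27 :=
  Good.skip (by decide +kernel) g_1_2_14_19_25_X28

lemma g_1_2_14_19_25_X26 : Good (27 / 10) [1, 2, 14, 19, 25] 26 :=
  Good.skip (by decide +kernel) g_1_2_14_19_25_X27

lemma g_1_2_14_19_X25 : Good (27 / 10) [1, 2, 14, 19] 25 :=
  Good.branch g_1_2_14_19_25_X26 g_1_2_14_19_X26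

lemma g_1_2_14_19_X24 : Good (27 / 10) [1, 2, 14, 19] 24 :=
  Good.branch g_1_2_14_19_24_X25 g_1_2_14_19_X25

lemma g_1_2_14_19_X23 : Good (27 / 10) [1, 2, 14, 19] 23 :=
  Good.branch g_1_2_14_19_23_X24 g_1_2_14_19_X24

lemma g_1_2_14_19_X22 : Good (27 / 10) [1, 2, 14, 19] 22 :=
  Good.skip (by decide +kernel) g_1_2_14_19_X23

lemma g_1_2_14_19_X21 : Good (27 / 10) [1, 2, 14, 19] 21 :=
  Good.skip (by decide +kernel) g_1_2_14_19_X22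

lemma g_1_2_14_19_X20 : Good (27 / 10) [1, 2, 14, 19] 20 :=
  Good.skip (by decide +kernel) g_1_2_14_19_X21

lemma g_1_2_14_X19 : Good (27 / 10) [1, 2, 14] 19 :=
  Good.branch g_1_2_14_19_X20 g_1_2_14_X20

lemma g_1_2_14_X18 : Good (27 / 10) [1, 2, 14] 18 :=
  Good.branch g_1_2_14_18_X19 g_1_2_14_X19

lemma g_1_2_14_X17 : Good (27 / 10) [1, 2, 14] 17 :=
  Good.skip (by decide +kernel) g_1_2_14_X18

lemma g_1_2_14_X16 : Good (27 / 10) [1, 2, 14] 16 :=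
  Good.skip (by decide +kernel) g_1_2_14_X17

lemma g_1_2_14_X15 : Good (27 / 10) [1, 2, 14] 15 :=
  Good.skip (by decide +kernel) g_1_2_14_X16

lemma g_1_2_15_X18 : Good (27 / 10) [1, 2, 15] 18 :=
  Good.skip (by decide +kernel) g_1_2_15_X19

lemma g_1_2_15_X17 : Good (27 / 10) [1, 2, 15] 17 :=
  Good.skip (by decide +kernel) g_1_2_15_X18

lemma g_1_2_15_X16 : Good (27 / 10) [1, 2, 15] 16 :=
  Good.skip (by decide +kernel) g_1_2_15_X17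

lemma g_1_2_16_X19 : Good (27 / 10) [1, 2, 16] 19 :=
  Good.skip (by decide +kernel) g_1_2_16_X20

lemma g_1_2_16_X18 : Good (27 / 10) [1, 2, 16] 18 :=
  Good.skip (by decide +kernel) g_1_2_16_X19

lemma g_1_2_16_X17 : Good (27 / 10) [1, 2, 16] 17 :=
  Good.skip (by decide +kernel) g_1_2_16_X18

lemma g_1_2_17_X20 : Good (27 / 10) [1, 2, 17] 20 :=
  Good.skip (by decide +kernel) g_1_2_17_X21

lemma g_1_2_17_X19 : Good (27 / 10) [1, 2, 17] 19 :=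
  Good.skip (by decide +kernel) g_1_2_17_X20

lemma g_1_2_17_X18 : Good (27 / 10) [1, 2, 17] 18 :=
  Good.skip (by decide +kernel) g_1_2_17_X19

lemma g_1_2_18_X21 : Good (27 / 10) [1, 2, 18] 21 :=
  Good.skip (by decide +kernel) g_1_2_18_X22

lemma g_1_2_18_X20 : Good (27 / 10) [1, 2, 18] 20 :=
  Good.skip (by decide +kernel) g_1_2_18_X21

lemma g_1_2_18_X19 : Good (27 / 10) [1, 2, 18] 19 :=
  Good.skip (by decide +kernel) g_1_2_18_X20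

lemma g_1_2_19_X22 : Good (27 / 10) [1, 2, 19] 22 :=
  Good.skip (by decide +kernel) g_1_2_19_X23

lemma g_1_2_19_X21 : Good (27 / 10) [1, 2, 19] 21 :=
  Good.skip (by decide +kernel) g_1_2_19_X22

lemma g_1_2_19_X20 : Good (27 / 10) [1, 2, 19] 20 :=
  Good.skip (by decide +kernel) g_1_2_19_X21

lemma g_1_2_20_X23 : Good (27 / 10) [1, 2, 20] 23 :=
  Good.skip (by decide +kernel) g_1_2_20_X24

lemma g_1_2_20_X22 : Good (27 / 10) [1, 2, 20] 22 :=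
  Good.skip (by decide +kernel) g_1_2_20_X23

lemma g_1_2_20_X21 : Good (27 / 10) [1, 2, 20] 21 :=
  Good.skip (by decide +kernel) g_1_2_20_X22

lemma g_1_2_21_X24 : Good (27 / 10) [1, 2, 21] 24 :=
  Good.skip (by decide +kernel) g_1_2_21_X25

lemma g_1_2_21_X23 : Good (27 / 10) [1, 2, 21] 23 :=
  Good.skip (by decide +kernel) g_1_2_21_X24

lemma g_1_2_21_X22 : Good (27 / 10) [1, 2, 21] 22 :=
  Good.skip (by decide +kernel) g_1_2_21_X23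

lemma g_1_2_X21 : Good (27 / 10) [1, 2] 21 :=
  Good.branch g_1_2_21_X22 g_1_2_X22

lemma g_1_2_X20 : Good (27 / 10) [1, 2] 20 :=
  Good.branch g_1_2_20_X21 g_1_2_X21

lemma g_1_2_X19 : Good (27 / 10) [1, 2] 19 :=
  Good.branch g_1_2_19_X20 g_1_2_X20

lemma g_1_2_X18 : Good (27 / 10) [1, 2] 18 :=
  Good.branch g_1_2_18_X19 g_1_2_X19

lemma g_1_2_X17 : Good (27 / 10) [1, 2] 17 :=
  Good.branch g_1_2_17_X18 g_1_2_X18

lemma g_1_2_X16 : Good (27 / 10) [1, 2] 16 :=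
  Good.branch g_1_2_16_X17 g_1_2_X17

lemma g_1_2_X15 : Good (27 / 10) [1, 2] 15 :=
  Good.branch g_1_2_15_X16 g_1_2_X16

lemma g_1_2_X14 : Good (27 / 10) [1, 2] 14 :=
  Good.branch g_1_2_14_X15 g_1_2_X15

lemma g_1_2_X13 : Good (27 / 10) [1, 2] 13 :=
  Good.branch g_1_2_13_X14 g_1_2_X14

lemma g_1_2_X12 : Good (27 / 10) [1, 2] 12 :=
  Good.branch g_1_2_12_X13 g_1_2_X13

lemma g_1_2_X11 : Good (27 / 10) [1, 2] 11 :=
  Good.branch g_1_2_11_X12 g_1_2_X12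

lemma g_1_2_X10 : Good (27 / 10) [1, 2] 10 :=
  Good.branch g_1_2_10_X11 g_1_2_X11

lemma g_1_2_X9 : Good (27 / 10) [1, 2] 9 :=
  Good.branch g_1_2_9_X10 g_1_2_X10

lemma g_1_2_X8 : Good (27 / 10) [1, 2] 8 :=
  Good.branch g_1_2_8_X9 g_1_2_X9

lemma g_1_2_X7 : Good (27 / 10) [1, 2] 7 :=
  Good.branch g_1_2_7_X8 g_1_2_X8

lemma g_1_2_X6 : Good (27 / 10) [1, 2] 6 :=
  Good.branch g_1_2_6_X7 g_1_2_X7

lemma g_1_2_X5 : Good (27 / 10) [1, 2] 5 :=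
  Good.branch g_1_2_5_X6 g_1_2_X6

lemma g_1_2_X4 : Good (27 / 10) [1, 2] 4 :=
  Good.branch g_1_2_4_X5 g_1_2_X5

lemma g_1_2_X3 : Good (27 / 10) [1, 2] 3 :=
  Good.skip (by decide +kernel) g_1_2_X4

lemma g_1_3_5_7_X13 : Good (27 / 10) [1, 3, 5, 7] 13 :=
  Good.skip (by decide +kernel) g_1_3_5_7_X14

lemma g_1_3_5_7_X12 : Good (27 / 10) [1, 3, 5, 7] 12 :=
  Good.skip (by decide +kernel) g_1_3_5_7_X13

lemma g_1_3_5_7_X11 : Good (27 / 10) [1, 3, 5, 7] 11 :=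
  Good.skip (by decide +kernel) g_1_3_5_7_X12

lemma g_1_3_5_7_X10 : Good (27 / 10) [1, 3, 5, 7] 10 :=
  Good.skip (by decide +kernel) g_1_3_5_7_X11

lemma g_1_3_5_7_X9 : Good (27 / 10) [1, 3, 5, 7] 9 :=
  Good.skip (by decide +kernel) g_1_3_5_7_X10

lemma g_1_3_5_7_X8 : Good (27 / 10) [1, 3, 5, 7] 8 :=
  Good.skip (by decide +kernel) g_1_3_5_7_X9

lemma g_1_3_5_10_X11 : Good (27 / 10) [1, 3, 5, 10] 11 :=
  Good.skip (by decide +kernel) g_1_3_5_10_X12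

lemma g_1_3_5_11_13_X22 : Good (27 / 10) [1, 3, 5, 11, 13] 22 :=
  Good.skip (by decide +kernel) g_1_3_5_11_13_X23

lemma g_1_3_5_11_13_X21 : Good (27 / 10) [1, 3, 5, 11, 13] 21 :=
  Good.skip (by decide +kernel) g_1_3_5_11_13_X22

lemma g_1_3_5_11_13_X20 : Good (27 / 10) [1, 3, 5, 11, 13] 20 :=
  Good.skip (by decide +kernel) g_1_3_5_11_13_X21

lemma g_1_3_5_11_13_X19 : Good (27 / 10) [1, 3, 5, 11, 13] 19 :=
  Good.skip (by decide +kernel) g_1_3_5_11_13_X20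

lemma g_1_3_5_11_13_X18 : Good (27 / 10) [1, 3, 5, 11, 13] 18 :=
  Good.skip (by decide +kernel) g_1_3_5_11_13_X19

lemma g_1_3_5_11_13_X17 : Good (27 / 10) [1, 3, 5, 11, 13] 17 :=
  Good.skip (by decide +kernel) g_1_3_5_11_13_X18

lemma g_1_3_5_11_13_X16 : Good (27 / 10) [1, 3, 5, 11, 13] 16 :=
  Good.skip (by decide +kernel) g_1_3_5_11_13_X17

lemma g_1_3_5_11_13_X15 : Good (27 / 10) [1, 3, 5, 11, 13] 15 :=
  Good.skip (by decide +kernel) g_1_3_5_11_13_X16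

lemma g_1_3_5_11_13_X14 : Good (27 / 10) [1, 3, 5, 11, 13] 14 :=
  Good.skip (by decide +kernel) g_1_3_5_11_13_X15

lemma g_1_3_5_11_X17 : Good (27 / 10) [1, 3, 5, 11] 17 :=
  Good.skip (by decide +kernel) g_1_3_5_11_X18

lemma g_1_3_5_11_X16 : Good (27 / 10) [1, 3, 5, 11] 16 :=
  Good.skip (by decide +kernel) g_1_3_5_11_X17

lemma g_1_3_5_11_X15 : Good (27 / 10) [1, 3, 5, 11] 15 :=
  Good.skip (by decide +kernel) g_1_3_5_11_X16

lemma g_1_3_5_11_X14 : Good (27 / 10) [1, 3, 5, 11] 14 :=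
  Good.skip (by decide +kernel) g_1_3_5_11_X15

lemma g_1_3_5_11_X13 : Good (27 / 10) [1, 3, 5, 11] 13 :=
  Good.branch g_1_3_5_11_13_X14 g_1_3_5_11_X14

lemma g_1_3_5_11_X12 : Good (27 / 10) [1, 3, 5, 11] 12 :=
  Good.skip (by decide +kernel) g_1_3_5_11_X13

lemma g_1_3_5_12_X13 : Good (27 / 10) [1, 3, 5, 12] 13 :=
  Good.skip (by decide +kernel) g_1_3_5_12_X14

lemma g_1_3_5_13_X14 : Good (27 / 10) [1, 3, 5, 13] 14 :=
  Good.skip (by decide +kernel) g_1_3_5_13_X15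

lemma g_1_3_5_14_16_X25 : Good (27 / 10) [1, 3, 5, 14, 16] 25 :=
  Good.skip (by decide +kernel) g_1_3_5_14_16_X26

lemma g_1_3_5_14_16_X24 : Good (27 / 10) [1, 3, 5, 14, 16] 24 :=
  Good.skip (by decide +kernel) g_1_3_5_14_16_X25

lemma g_1_3_5_14_16_X23 : Good (27 / 10) [1, 3, 5, 14, 16] 23 :=
  Good.skip (by decide +kernel) g_1_3_5_14_16_X24

lemma g_1_3_5_14_16_X22 : Good (27 / 10) [1, 3, 5, 14, 16] 22 :=
  Good.skip (by decide +kernel) g_1_3_5_14_16_X23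

lemma g_1_3_5_14_16_X21 : Good (27 / 10) [1, 3, 5, 14, 16] 21 :=
  Good.skip (by decide +kernel) g_1_3_5_14_16_X22

lemma g_1_3_5_14_16_X20 : Good (27 / 10) [1, 3, 5, 14, 16] 20 :=
  Good.skip (by decide +kernel) g_1_3_5_14_16_X21

lemma g_1_3_5_14_16_X19 : Good (27 / 10) [1, 3, 5, 14, 16] 19 :=
  Good.skip (by decide +kernel) g_1_3_5_14_16_X20

lemma g_1_3_5_14_16_X18 : Good (27 / 10) [1, 3, 5, 14, 16] 18 :=
  Good.skip (by decide +kernel) g_1_3_5_14_16_X19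

lemma g_1_3_5_14_16_X17 : Good (27 / 10) [1, 3, 5, 14, 16] 17 :=
  Good.skip (by decide +kernel) g_1_3_5_14_16_X18

lemma g_1_3_5_14_X20 : Good (27 / 10) [1, 3, 5, 14] 20 :=
  Good.skip (by decide +kernel) g_1_3_5_14_X21

lemma g_1_3_5_14_X19 : Good (27 / 10) [1, 3, 5, 14] 19 :=
  Good.skip (by decide +kernel) g_1_3_5_14_X20

lemma g_1_3_5_14_X18 : Good (27 / 10) [1, 3, 5, 14] 18 :=
  Good.skip (by decide +kernel) g_1_3_5_14_X19

lemma g_1_3_5_14_X17 : Good (27 / 10) [1, 3, 5, 14] 17 :=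
  Good.skip (by decide +kernel) g_1_3_5_14_X18

lemma g_1_3_5_14_X16 : Good (27 / 10) [1, 3, 5, 14] 16 :=
  Good.branch g_1_3_5_14_16_X17 g_1_3_5_14_X17

lemma g_1_3_5_14_X15 : Good (27 / 10) [1, 3, 5, 14] 15 :=
  Good.skip (by decide +kernel) g_1_3_5_14_X16

lemma g_1_3_5_X14 : Good (27 / 10) [1, 3, 5] 14 :=
  Good.branch g_1_3_5_14_X15 g_1_3_5_X15

lemma g_1_3_5_X13 : Good (27 / 10) [1, 3, 5] 13 :=
  Good.branch g_1_3_5_13_X14 g_1_3_5_X14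

lemma g_1_3_5_X12 : Good (27 / 10) [1, 3, 5] 12 :=
  Good.branch g_1_3_5_12_X13 g_1_3_5_X13

lemma g_1_3_5_X11 : Good (27 / 10) [1, 3, 5] 11 :=
  Good.branch g_1_3_5_11_X12 g_1_3_5_X12

lemma g_1_3_5_X10 : Good (27 / 10) [1, 3, 5] 10 :=
  Good.branch g_1_3_5_10_X11 g_1_3_5_X11

lemma g_1_3_5_X9 : Good (27 / 10) [1, 3, 5] 9 :=
  Good.skip (by decide +kernel) g_1_3_5_X10

lemma g_1_3_5_X8 : Good (27 / 10) [1, 3, 5] 8 :=
  Good.skip (by decide +kernel) g_1_3_5_X9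

lemma g_1_3_5_X7 : Good (27 / 10) [1, 3, 5] 7 :=
  Good.branch g_1_3_5_7_X8 g_1_3_5_X8

lemma g_1_3_5_X6 : Good (27 / 10) [1, 3, 5] 6 :=
  Good.skip (by decide +kernel) g_1_3_5_X7

lemma g_1_3_6_8_X12 : Good (27 / 10) [1, 3, 6, 8] 12 :=
  Good.skip (by decide +kernel) g_1_3_6_8_X13

lemma g_1_3_6_8_X11 : Good (27 / 10) [1, 3, 6, 8] 11 :=
  Good.skip (by decide +kernel) g_1_3_6_8_X12

lemma g_1_3_6_8_X10 : Good (27 / 10) [1, 3, 6, 8] 10 :=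
  Good.skip (by decide +kernel) g_1_3_6_8_X11

lemma g_1_3_6_8_X9 : Good (27 / 10) [1, 3, 6, 8] 9 :=
  Good.skip (by decide +kernel) g_1_3_6_8_X10

lemma g_1_3_6_11_X12 : Good (27 / 10) [1, 3, 6, 11] 12 :=
  Good.skip (by decide +kernel) g_1_3_6_11_X13

lemma g_1_3_6_12_X13 : Good (27 / 10) [1, 3, 6, 12] 13 :=
  Good.skip (by decide +kernel) g_1_3_6_12_X14

lemma g_1_3_6_X12 : Good (27 / 10) [1, 3, 6] 12 :=
  Good.branch g_1_3_6_12_X13 g_1_3_6_X13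

lemma g_1_3_6_X11 : Good (27 / 10) [1, 3, 6] 11 :=
  Good.branch g_1_3_6_11_X12 g_1_3_6_X12

lemma g_1_3_6_X10 : Good (27 / 10) [1, 3, 6] 10 :=
  Good.skip (by decide +kernel) g_1_3_6_X11

lemma g_1_3_6_X9 : Good (27 / 10) [1, 3, 6] 9 :=
  Good.skip (by decide +kernel) g_1_3_6_X10

lemma g_1_3_6_X8 : Good (27 / 10) [1, 3, 6] 8 :=
  Good.branch g_1_3_6_8_X9 g_1_3_6_X9

lemma g_1_3_6_X7 : Good (27 / 10) [1, 3, 6] 7 :=
  Good.skip (by decide +kernel) g_1_3_6_X8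

lemma g_1_3_7_9_X13 : Good (27 / 10) [1, 3, 7, 9] 13 :=
  Good.skip (by decide +kernel) g_1_3_7_9_X14

lemma g_1_3_7_9_X12 : Good (27 / 10) [1, 3, 7, 9] 12 :=
  Good.skip (by decide +kernel) g_1_3_7_9_X13

lemma g_1_3_7_9_X11 : Good (27 / 10) [1, 3, 7, 9] 11 :=
  Good.skip (by decide +kernel) g_1_3_7_9_X12

lemma g_1_3_7_9_X10 : Good (27 / 10) [1, 3, 7, 9] 10 :=
  Good.skip (by decide +kernel) g_1_3_7_9_X11

lemma g_1_3_7_X11 : Good (27 / 10) [1, 3, 7] 11 :=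
  Good.skip (by decide +kernel) g_1_3_7_X12

lemma g_1_3_7_X10 : Good (27 / 10) [1, 3, 7] 10 :=
  Good.skip (by decide +kernel) g_1_3_7_X11

lemma g_1_3_7_X9 : Good (27 / 10) [1, 3, 7] 9 :=
  Good.branch g_1_3_7_9_X10 g_1_3_7_X10

lemma g_1_3_7_X8 : Good (27 / 10) [1, 3, 7] 8 :=
  Good.skip (by decide +kernel) g_1_3_7_X9

lemma g_1_3_8_10_15_X16 : Good (27 / 10) [1, 3, 8, 10, 15] 16 :=
  Good.skip (by decide +kernel) g_1_3_8_10_15_X17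

lemma g_1_3_8_10_16_X22 : Good (27 / 10) [1, 3, 8, 10, 16] 22 :=
  Good.skip (by decide +kernel) g_1_3_8_10_16_X23

lemma g_1_3_8_10_16_X21 : Good (27 / 10) [1, 3, 8, 10, 16] 21 :=
  Good.skip (by decide +kernel) g_1_3_8_10_16_X22

lemma g_1_3_8_10_16_X20 : Good (27 / 10) [1, 3, 8, 10, 16] 20 :=
  Good.skip (by decide +kernel) g_1_3_8_10_16_X21

lemma g_1_3_8_10_16_X19 : Good (27 / 10) [1, 3, 8, 10, 16] 19 :=
  Good.skip (by decide +kernel) g_1_3_8_10_16_X20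

lemma g_1_3_8_10_16_X18 : Good (27 / 10) [1, 3, 8, 10, 16] 18 :=
  Good.skip (by decide +kernel) g_1_3_8_10_16_X19

lemma g_1_3_8_10_16_X17 : Good (27 / 10) [1, 3, 8, 10, 16] 17 :=
  Good.skip (by decide +kernel) g_1_3_8_10_16_X18

lemma g_1_3_8_10_17_X22 : Good (27 / 10) [1, 3, 8, 10, 17] 22 :=
  Good.skip (by decide +kernel) g_1_3_8_10_17_X23

lemma g_1_3_8_10_17_X21 : Good (27 / 10) [1, 3, 8, 10, 17] 21 :=
  Good.skip (by decide +kernel) g_1_3_8_10_17_X22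

lemma g_1_3_8_10_17_X20 : Good (27 / 10) [1, 3, 8, 10, 17] 20 :=
  Good.skip (by decide +kernel) g_1_3_8_10_17_X21

lemma g_1_3_8_10_17_X19 : Good (27 / 10) [1, 3, 8, 10, 17] 19 :=
  Good.skip (by decide +kernel) g_1_3_8_10_17_X20

lemma g_1_3_8_10_17_X18 : Good (27 / 10) [1, 3, 8, 10, 17] 18 :=
  Good.skip (by decide +kernel) g_1_3_8_10_17_X19

lemma g_1_3_8_10_X19 : Good (27 / 10) [1, 3, 8, 10] 19 :=
  Good.skip (by decide +kernel) g_1_3_8_10_X20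

lemma g_1_3_8_10_X18 : Good (27 / 10) [1, 3, 8, 10] 18 :=
  Good.skip (by decide +kernel) g_1_3_8_10_X19

lemma g_1_3_8_10_X17 : Good (27 / 10) [1, 3, 8, 10] 17 :=
  Good.branch g_1_3_8_10_17_X18 g_1_3_8_10_X18

lemma g_1_3_8_10_X16 : Good (27 / 10) [1, 3, 8, 10] 16 :=
  Good.branch g_1_3_8_10_16_X17 g_1_3_8_10_X17

lemma g_1_3_8_10_X15 : Good (27 / 10) [1, 3, 8, 10] 15 :=
  Good.branch g_1_3_8_10_15_X16 g_1_3_8_10_X16

lemma g_1_3_8_10_X14 : Good (27 / 10) [1, 3, 8, 10] 14 :=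
  Good.skip (by decide +kernel) g_1_3_8_10_X15

lemma g_1_3_8_10_X13 : Good (27 / 10) [1, 3, 8, 10] 13 :=
  Good.skip (by decide +kernel) g_1_3_8_10_X14

lemma g_1_3_8_10_X12 : Good (27 / 10) [1, 3, 8, 10] 12 :=
  Good.skip (by decide +kernel) g_1_3_8_10_X13

lemma g_1_3_8_10_X11 : Good (27 / 10) [1, 3, 8, 10] 11 :=
  Good.skip (by decide +kernel) g_1_3_8_10_X12

lemma g_1_3_8_13_15_X19 : Good (27 / 10) [1, 3, 8, 13, 15] 19 :=
  Good.skip (by decide +kernel) g_1_3_8_13_15_X20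

lemma g_1_3_8_13_15_X18 : Good (27 / 10) [1, 3, 8, 13, 15] 18 :=
  Good.skip (by decide +kernel) g_1_3_8_13_15_X19

lemma g_1_3_8_13_15_X17 : Good (27 / 10) [1, 3, 8, 13, 15] 17 :=
  Good.skip (by decide +kernel) g_1_3_8_13_15_X18

lemma g_1_3_8_13_15_X16 : Good (27 / 10) [1, 3, 8, 13, 15] 16 :=
  Good.skip (by decide +kernel) g_1_3_8_13_15_X17

lemma g_1_3_8_13_X17 : Good (27 / 10) [1, 3, 8, 13] 17 :=
  Good.skip (by decide +kernel) g_1_3_8_13_X18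

lemma g_1_3_8_13_X16 : Good (27 / 10) [1, 3, 8, 13] 16 :=
  Good.skip (by decide +kernel) g_1_3_8_13_X17

lemma g_1_3_8_13_X15 : Good (27 / 10) [1, 3, 8, 13] 15 :=
  Good.branch g_1_3_8_13_15_X16 g_1_3_8_13_X16

lemma g_1_3_8_13_X14 : Good (27 / 10) [1, 3, 8, 13] 14 :=
  Good.skip (by decide +kernel) g_1_3_8_13_X15

lemma g_1_3_8_14_X15 : Good (27 / 10) [1, 3, 8, 14] 15 :=
  Good.skip (by decide +kernel) g_1_3_8_14_X16

lemma g_1_3_8_15_X16 : Good (27 / 10) [1, 3, 8, 15] 16 :=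
  Good.skip (by decide +kernel) g_1_3_8_15_X17

lemma g_1_3_8_16_X17 : Good (27 / 10) [1, 3, 8, 16] 17 :=
  Good.skip (by decide +kernel) g_1_3_8_16_X18

lemma g_1_3_8_17_X18 : Good (27 / 10) [1, 3, 8, 17] 18 :=
  Good.skip (by decide +kernel) g_1_3_8_17_X19

lemma g_1_3_8_18_20_X24 : Good (27 / 10) [1, 3, 8, 18, 20] 24 :=
  Good.skip (by decide +kernel) g_1_3_8_18_20_X25

lemma g_1_3_8_18_20_X23 : Good (27 / 10) [1, 3, 8, 18, 20] 23 :=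
  Good.skip (by decide +kernel) g_1_3_8_18_20_X24

lemma g_1_3_8_18_20_X22 : Good (27 / 10) [1, 3, 8, 18, 20] 22 :=
  Good.skip (by decide +kernel) g_1_3_8_18_20_X23

lemma g_1_3_8_18_20_X21 : Good (27 / 10) [1, 3, 8, 18, 20] 21 :=
  Good.skip (by decide +kernel) g_1_3_8_18_20_X22

lemma g_1_3_8_18_23_X24 : Good (27 / 10) [1, 3, 8, 18, 23] 24 :=
  Good.skip (by decide +kernel) g_1_3_8_18_23_X25

lemma g_1_3_8_18_24_X30 : Good (27 / 10) [1, 3, 8, 18, 24] 30 :=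
  Good.skip (by decide +kernel) g_1_3_8_18_24_X31

lemma g_1_3_8_18_24_X29 : Good (27 / 10) [1, 3, 8, 18, 24] 29 :=
  Good.skip (by decide +kernel) g_1_3_8_18_24_X30

lemma g_1_3_8_18_24_X28 : Good (27 / 10) [1, 3, 8, 18, 24] 28 :=
  Good.skip (by decide +kernel) g_1_3_8_18_24_X29

lemma g_1_3_8_18_24_X27 : Good (27 / 10) [1, 3, 8, 18, 24] 27 :=
  Good.skip (by decide +kernel) g_1_3_8_18_24_X28

lemma g_1_3_8_18_24_X26 : Good (27 / 10) [1, 3, 8, 18, 24] 26 :=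
  Good.skip (by decide +kernel) g_1_3_8_18_24_X27

lemma g_1_3_8_18_24_X25 : Good (27 / 10) [1, 3, 8, 18, 24] 25 :=
  Good.skip (by decide +kernel) g_1_3_8_18_24_X26

lemma g_1_3_8_18_X24 : Good (27 / 10) [1, 3, 8, 18] 24 :=
  Good.branch g_1_3_8_18_24_X25 g_1_3_8_18_X25

lemma g_1_3_8_18_X23 : Good (27 / 10) [1, 3, 8, 18] 23 :=
  Good.branch g_1_3_8_18_23_X24 g_1_3_8_18_X24

lemma g_1_3_8_18_X22 : Good (27 / 10) [1, 3, 8, 18] 22 :=
  Good.skip (by decide +kernel) g_1_3_8_18_X23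

lemma g_1_3_8_18_X21 : Good (27 / 10) [1, 3, 8, 18] 21 :=
  Good.skip (by decide +kernel) g_1_3_8_18_X22

lemma g_1_3_8_18_X20 : Good (27 / 10) [1, 3, 8, 18] 20 :=
  Good.branch g_1_3_8_18_20_X21 g_1_3_8_18_X21

lemma g_1_3_8_18_X19 : Good (27 / 10) [1, 3, 8, 18] 19 :=
  Good.skip (by decide +kernel) g_1_3_8_18_X20

lemma g_1_3_8_19_X20 : Good (27 / 10) [1, 3, 8, 19] 20 :=
  Good.skip (by decide +kernel) g_1_3_8_19_X21

lemma g_1_3_8_20_X21 : Good (27 / 10) [1, 3, 8, 20] 21 :=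
  Good.skip (by decide +kernel) g_1_3_8_20_X22

lemma g_1_3_8_X20 : Good (27 / 10) [1, 3, 8] 20 :=
  Good.branch g_1_3_8_20_X21 g_1_3_8_X21

lemma g_1_3_8_X19 : Good (27 / 10) [1, 3, 8] 19 :=
  Good.branch g_1_3_8_19_X20 g_1_3_8_X20

lemma g_1_3_8_X18 : Good (27 / 10) [1, 3, 8] 18 :=
  Good.branch g_1_3_8_18_X19 g_1_3_8_X19

lemma g_1_3_8_X17 : Good (27 / 10) [1, 3, 8] 17 :=
  Good.branch g_1_3_8_17_X18 g_1_3_8_X18

lemma g_1_3_8_X16 : Good (27 / 10) [1, 3, 8] 16 :=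
  Good.branch g_1_3_8_16_X17 g_1_3_8_X17

lemma g_1_3_8_X15 : Good (27 / 10) [1, 3, 8] 15 :=
  Good.branch g_1_3_8_15_X16 g_1_3_8_X16

lemma g_1_3_8_X14 : Good (27 / 10) [1, 3, 8] 14 :=
  Good.branch g_1_3_8_14_X15 g_1_3_8_X15

lemma g_1_3_8_X13 : Good (27 / 10) [1, 3, 8] 13 :=
  Good.branch g_1_3_8_13_X14 g_1_3_8_X14

lemma g_1_3_8_X12 : Good (27 / 10) [1, 3, 8] 12 :=
  Good.skip (by decide +kernel) g_1_3_8_X13

lemma g_1_3_8_X11 : Good (27 / 10) [1, 3, 8] 11 :=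
  Good.skip (by decide +kernel) g_1_3_8_X12

lemma g_1_3_8_X10 : Good (27 / 10) [1, 3, 8] 10 :=
  Good.branch g_1_3_8_10_X11 g_1_3_8_X11

lemma g_1_3_8_X9 : Good (27 / 10) [1, 3, 8] 9 :=
  Good.skip (by decide +kernel) g_1_3_8_X10

lemma g_1_3_9_11_X15 : Good (27 / 10) [1, 3, 9, 11] 15 :=
  Good.skip (by decide +kernel) g_1_3_9_11_X16

lemma g_1_3_9_11_X14 : Good (27 / 10) [1, 3, 9, 11] 14 :=
  Good.skip (by decide +kernel) g_1_3_9_11_X15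

lemma g_1_3_9_11_X13 : Good (27 / 10) [1, 3, 9, 11] 13 :=
  Good.skip (by decide +kernel) g_1_3_9_11_X14

lemma g_1_3_9_11_X12 : Good (27 / 10) [1, 3, 9, 11] 12 :=
  Good.skip (by decide +kernel) g_1_3_9_11_X13

lemma g_1_3_9_14_X15 : Good (27 / 10) [1, 3, 9, 14] 15 :=
  Good.skip (by decide +kernel) g_1_3_9_14_X16

lemma g_1_3_9_15_X16 : Good (27 / 10) [1, 3, 9, 15] 16 :=
  Good.skip (by decide +kernel) g_1_3_9_15_X17

lemma g_1_3_9_16_X17 : Good (27 / 10) [1, 3, 9, 16] 17 :=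
  Good.skip (by decide +kernel) g_1_3_9_16_X18

lemma g_1_3_9_17_19_X23 : Good (27 / 10) [1, 3, 9, 17, 19] 23 :=
  Good.skip (by decide +kernel) g_1_3_9_17_19_X24

lemma g_1_3_9_17_19_X22 : Good (27 / 10) [1, 3, 9, 17, 19] 22 :=
  Good.skip (by decide +kernel) g_1_3_9_17_19_X23

lemma g_1_3_9_17_19_X21 : Good (27 / 10) [1, 3, 9, 17, 19] 21 :=
  Good.skip (by decide +kernel) g_1_3_9_17_19_X22

lemma g_1_3_9_17_19_X20 : Good (27 / 10) [1, 3, 9, 17, 19] 20 :=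
  Good.skip (by decide +kernel) g_1_3_9_17_19_X21

lemma g_1_3_9_17_22_X23 : Good (27 / 10) [1, 3, 9, 17, 22] 23 :=
  Good.skip (by decide +kernel) g_1_3_9_17_22_X24

lemma g_1_3_9_17_23_X24 : Good (27 / 10) [1, 3, 9, 17, 23] 24 :=
  Good.skip (by decide +kernel) g_1_3_9_17_23_X25

lemma g_1_3_9_17_X23 : Good (27 / 10) [1, 3, 9, 17] 23 :=
  Good.branch g_1_3_9_17_23_X24 g_1_3_9_17_X24

lemma g_1_3_9_17_X22 : Good (27 / 10) [1, 3, 9, 17] 22 :=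
  Good.branch g_1_3_9_17_22_X23 g_1_3_9_17_X23

lemma g_1_3_9_17_X21 : Good (27 / 10) [1, 3, 9, 17] 21 :=
  Good.skip (by decide +kernel) g_1_3_9_17_X22

lemma g_1_3_9_17_X20 : Good (27 / 10) [1, 3, 9, 17] 20 :=
  Good.skip (by decide +kernel) g_1_3_9_17_X21

lemma g_1_3_9_17_X19 : Good (27 / 10) [1, 3, 9, 17] 19 :=
  Good.branch g_1_3_9_17_19_X20 g_1_3_9_17_X20

lemma g_1_3_9_17_X18 : Good (27 / 10) [1, 3, 9, 17] 18 :=
  Good.skip (by decide +kernel) g_1_3_9_17_X19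

lemma g_1_3_9_18_X19 : Good (27 / 10) [1, 3, 9, 18] 19 :=
  Good.skip (by decide +kernel) g_1_3_9_18_X20

lemma g_1_3_9_19_X20 : Good (27 / 10) [1, 3, 9, 19] 20 :=
  Good.skip (by decide +kernel) g_1_3_9_19_X21

lemma g_1_3_9_X19 : Good (27 / 10) [1, 3, 9] 19 :=
  Good.branch g_1_3_9_19_X20 g_1_3_9_X20

lemma g_1_3_9_X18 : Good (27 / 10) [1, 3, 9] 18 :=
  Good.branch g_1_3_9_18_X19 g_1_3_9_X19

lemma g_1_3_9_X17 : Good (27 / 10) [1, 3, 9] 17 :=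
  Good.branch g_1_3_9_17_X18 g_1_3_9_X18

lemma g_1_3_9_X16 : Good (27 / 10) [1, 3, 9] 16 :=
  Good.branch g_1_3_9_16_X17 g_1_3_9_X17

lemma g_1_3_9_X15 : Good (27 / 10) [1, 3, 9] 15 :=
  Good.branch g_1_3_9_15_X16 g_1_3_9_X16

lemma g_1_3_9_X14 : Good (27 / 10) [1, 3, 9] 14 :=
  Good.branch g_1_3_9_14_X15 g_1_3_9_X15

lemma g_1_3_9_X13 : Good (27 / 10) [1, 3, 9] 13 :=
  Good.skip (by decide +kernel) g_1_3_9_X14

lemma g_1_3_9_X12 : Good (27 / 10) [1, 3, 9] 12 :=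
  Good.skip (by decide +kernel) g_1_3_9_X13

lemma g_1_3_9_X11 : Good (27 / 10) [1, 3, 9] 11 :=
  Good.branch g_1_3_9_11_X12 g_1_3_9_X12

lemma g_1_3_9_X10 : Good (27 / 10) [1, 3, 9] 10 :=
  Good.skip (by decide +kernel) g_1_3_9_X11

lemma g_1_3_10_12_X16 : Good (27 / 10) [1, 3, 10, 12] 16 :=
  Good.skip (by decide +kernel) g_1_3_10_12_X17

lemma g_1_3_10_12_X15 : Good (27 / 10) [1, 3, 10, 12] 15 :=
  Good.skip (by decide +kernel) g_1_3_10_12_X16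

lemma g_1_3_10_12_X14 : Good (27 / 10) [1, 3, 10, 12] 14 :=
  Good.skip (by decide +kernel) g_1_3_10_12_X15

lemma g_1_3_10_12_X13 : Good (27 / 10) [1, 3, 10, 12] 13 :=
  Good.skip (by decide +kernel) g_1_3_10_12_X14

lemma g_1_3_10_15_X16 : Good (27 / 10) [1, 3, 10, 15] 16 :=
  Good.skip (by decide +kernel) g_1_3_10_15_X17

lemma g_1_3_10_16_X17 : Good (27 / 10) [1, 3, 10, 16] 17 :=
  Good.skip (by decide +kernel) g_1_3_10_16_X18

lemma g_1_3_10_17_X18 : Good (27 / 10) [1, 3, 10, 17] 18 :=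
  Good.skip (by decide +kernel) g_1_3_10_17_X19

lemma g_1_3_10_18_20_X24 : Good (27 / 10) [1, 3, 10, 18, 20] 24 :=
  Good.skip (by decide +kernel) g_1_3_10_18_20_X25

lemma g_1_3_10_18_20_X23 : Good (27 / 10) [1, 3, 10, 18, 20] 23 :=
  Good.skip (by decide +kernel) g_1_3_10_18_20_X24

lemma g_1_3_10_18_20_X22 : Good (27 / 10) [1, 3, 10, 18, 20] 22 :=
  Good.skip (by decide +kernel) g_1_3_10_18_20_X23

lemma g_1_3_10_18_20_X21 : Good (27 / 10) [1, 3, 10, 18, 20] 21 :=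
  Good.skip (by decide +kernel) g_1_3_10_18_20_X22

lemma g_1_3_10_18_23_X24 : Good (27 / 10) [1, 3, 10, 18, 23] 24 :=
  Good.skip (by decide +kernel) g_1_3_10_18_23_X25

lemma g_1_3_10_18_X23 : Good (27 / 10) [1, 3, 10, 18] 23 :=
  Good.branch g_1_3_10_18_23_X24 g_1_3_10_18_X24

lemma g_1_3_10_18_X22 : Good (27 / 10) [1, 3, 10, 18] 22 :=
  Good.skip (by decide +kernel) g_1_3_10_18_X23

lemma g_1_3_10_18_X21 : Good (27 / 10) [1, 3, 10, 18] 21 :=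
  Good.skip (by decide +kernel) g_1_3_10_18_X22

lemma g_1_3_10_18_X20 : Good (27 / 10) [1, 3, 10, 18] 20 :=
  Good.branch g_1_3_10_18_20_X21 g_1_3_10_18_X21

lemma g_1_3_10_18_X19 : Good (27 / 10) [1, 3, 10, 18] 19 :=
  Good.skip (by decide +kernel) g_1_3_10_18_X20

lemma g_1_3_10_19_21_X25 : Good (27 / 10) [1, 3, 10, 19, 21] 25 :=
  Good.skip (by decide +kernel) g_1_3_10_19_21_X26

lemma g_1_3_10_19_21_X24 : Good (27 / 10) [1, 3, 10, 19, 21] 24 :=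
  Good.skip (by decide +kernel) g_1_3_10_19_21_X25

lemma g_1_3_10_19_21_X23 : Good (27 / 10) [1, 3, 10, 19, 21] 23 :=
  Good.skip (by decide +kernel) g_1_3_10_19_21_X24

lemma g_1_3_10_19_21_X22 : Good (27 / 10) [1, 3, 10, 19, 21] 22 :=
  Good.skip (by decide +kernel) g_1_3_10_19_21_X23

lemma g_1_3_10_19_24_X25 : Good (27 / 10) [1, 3, 10, 19, 24] 25 :=
  Good.skip (by decide +kernel) g_1_3_10_19_24_X26

lemma g_1_3_10_19_X24 : Good (27 / 10) [1, 3, 10, 19] 24 :=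
  Good.branch g_1_3_10_19_24_X25 g_1_3_10_19_X25

lemma g_1_3_10_19_X23 : Good (27 / 10) [1, 3, 10, 19] 23 :=
  Good.skip (by decide +kernel) g_1_3_10_19_X24

lemma g_1_3_10_19_X22 : Good (27 / 10) [1, 3, 10, 19] 22 :=
  Good.skip (by decide +kernel) g_1_3_10_19_X23

lemma g_1_3_10_19_X21 : Good (27 / 10) [1, 3, 10, 19] 21 :=
  Good.branch g_1_3_10_19_21_X22 g_1_3_10_19_X22

lemma g_1_3_10_19_X20 : Good (27 / 10) [1, 3, 10, 19] 20 :=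
  Good.skip (by decide +kernel) g_1_3_10_19_X21

lemma g_1_3_10_X19 : Good (27 / 10) [1, 3, 10] 19 :=
  Good.branch g_1_3_10_19_X20 g_1_3_10_X20

lemma g_1_3_10_X18 : Good (27 / 10) [1, 3, 10] 18 :=
  Good.branch g_1_3_10_18_X19 g_1_3_10_X19

lemma g_1_3_10_X17 : Good (27 / 10) [1, 3, 10] 17 :=
  Good.branch g_1_3_10_17_X18 g_1_3_10_X18

lemma g_1_3_10_X16 : Good (27 / 10) [1, 3, 10] 16 :=
  Good.branch g_1_3_10_16_X17 g_1_3_10_X17

lemma g_1_3_10_X15 : Good (27 / 10) [1, 3, 10] 15 :=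
  Good.branch g_1_3_10_15_X16 g_1_3_10_X16

lemma g_1_3_10_X14 : Good (27 / 10) [1, 3, 10] 14 :=
  Good.skip (by decide +kernel) g_1_3_10_X15

lemma g_1_3_10_X13 : Good (27 / 10) [1, 3, 10] 13 :=
  Good.skip (by decide +kernel) g_1_3_10_X14

lemma g_1_3_10_X12 : Good (27 / 10) [1, 3, 10] 12 :=
  Good.branch g_1_3_10_12_X13 g_1_3_10_X13

lemma g_1_3_10_X11 : Good (27 / 10) [1, 3, 10] 11 :=
  Good.skip (by decide +kernel) g_1_3_10_X12

lemma g_1_3_11_13_X17 : Good (27 / 10) [1, 3, 11, 13] 17 :=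
  Good.skip (by decide +kernel) g_1_3_11_13_X18

lemma g_1_3_11_13_X16 : Good (27 / 10) [1, 3, 11, 13] 16 :=
  Good.skip (by decide +kernel) g_1_3_11_13_X17

lemma g_1_3_11_13_X15 : Good (27 / 10) [1, 3, 11, 13] 15 :=
  Good.skip (by decide +kernel) g_1_3_11_13_X16

lemma g_1_3_11_13_X14 : Good (27 / 10) [1, 3, 11, 13] 14 :=
  Good.skip (by decide +kernel) g_1_3_11_13_X15

lemma g_1_3_11_16_X17 : Good (27 / 10) [1, 3, 11, 16] 17 :=
  Good.skip (by decide +kernel) g_1_3_11_16_X18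

lemma g_1_3_11_17_X18 : Good (27 / 10) [1, 3, 11, 17] 18 :=
  Good.skip (by decide +kernel) g_1_3_11_17_X19

lemma g_1_3_11_18_X19 : Good (27 / 10) [1, 3, 11, 18] 19 :=
  Good.skip (by decide +kernel) g_1_3_11_18_X20

lemma g_1_3_11_X18 : Good (27 / 10) [1, 3, 11] 18 :=
  Good.branch g_1_3_11_18_X19 g_1_3_11_X19

lemma g_1_3_11_X17 : Good (27 / 10) [1, 3, 11] 17 :=
  Good.branch g_1_3_11_17_X18 g_1_3_11_X18

lemma g_1_3_11_X16 : Good (27 / 10) [1, 3, 11] 16 :=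
  Good.branch g_1_3_11_16_X17 g_1_3_11_X17

lemma g_1_3_11_X15 : Good (27 / 10) [1, 3, 11] 15 :=
  Good.skip (by decide +kernel) g_1_3_11_X16

lemma g_1_3_11_X14 : Good (27 / 10) [1, 3, 11] 14 :=
  Good.skip (by decide +kernel) g_1_3_11_X15

lemma g_1_3_11_X13 : Good (27 / 10) [1, 3, 11] 13 :=
  Good.branch g_1_3_11_13_X14 g_1_3_11_X14

lemma g_1_3_11_X12 : Good (27 / 10) [1, 3, 11] 12 :=
  Good.skip (by decide +kernel) g_1_3_11_X13

lemma g_1_3_12_14_X18 : Good (27 / 10) [1, 3, 12, 14] 18 :=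
  Good.skip (by decide +kernel) g_1_3_12_14_X19

lemma g_1_3_12_14_X17 : Good (27 / 10) [1, 3, 12, 14] 17 :=
  Good.skip (by decide +kernel) g_1_3_12_14_X18

lemma g_1_3_12_14_X16 : Good (27 / 10) [1, 3, 12, 14] 16 :=
  Good.skip (by decide +kernel) g_1_3_12_14_X17

lemma g_1_3_12_14_X15 : Good (27 / 10) [1, 3, 12, 14] 15 :=
  Good.skip (by decide +kernel) g_1_3_12_14_X16

lemma g_1_3_12_17_X18 : Good (27 / 10) [1, 3, 12, 17] 18 :=
  Good.skip (by decide +kernel) g_1_3_12_17_X19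

lemma g_1_3_12_X17 : Good (27 / 10) [1, 3, 12] 17 :=
  Good.branch g_1_3_12_17_X18 g_1_3_12_X18

lemma g_1_3_12_X16 : Good (27 / 10) [1, 3, 12] 16 :=
  Good.skip (by decide +kernel) g_1_3_12_X17

lemma g_1_3_12_X15 : Good (27 / 10) [1, 3, 12] 15 :=
  Good.skip (by decide +kernel) g_1_3_12_X16

lemma g_1_3_12_X14 : Good (27 / 10) [1, 3, 12] 14 :=
  Good.branch g_1_3_12_14_X15 g_1_3_12_X15

lemma g_1_3_12_X13 : Good (27 / 10) [1, 3, 12] 13 :=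
  Good.skip (by decide +kernel) g_1_3_12_X14

lemma g_1_3_13_15_X19 : Good (27 / 10) [1, 3, 13, 15] 19 :=
  Good.skip (by decide +kernel) g_1_3_13_15_X20

lemma g_1_3_13_15_X18 : Good (27 / 10) [1, 3, 13, 15] 18 :=
  Good.skip (by decide +kernel) g_1_3_13_15_X19

lemma g_1_3_13_15_X17 : Good (27 / 10) [1, 3, 13, 15] 17 :=
  Good.skip (by decide +kernel) g_1_3_13_15_X18

lemma g_1_3_13_15_X16 : Good (27 / 10) [1, 3, 13, 15] 16 :=
  Good.skip (by decide +kernel) g_1_3_13_15_X17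

lemma g_1_3_13_X17 : Good (27 / 10) [1, 3, 13] 17 :=
  Good.skip (by decide +kernel) g_1_3_13_X18

lemma g_1_3_13_X16 : Good (27 / 10) [1, 3, 13] 16 :=
  Good.skip (by decide +kernel) g_1_3_13_X17

lemma g_1_3_13_X15 : Good (27 / 10) [1, 3, 13] 15 :=
  Good.branch g_1_3_13_15_X16 g_1_3_13_X16

lemma g_1_3_13_X14 : Good (27 / 10) [1, 3, 13] 14 :=
  Good.skip (by decide +kernel) g_1_3_13_X15

lemma g_1_3_14_16_X20 : Good (27 / 10) [1, 3, 14, 16] 20 :=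
  Good.skip (by decide +kernel) g_1_3_14_16_X21

lemma g_1_3_14_16_X19 : Good (27 / 10) [1, 3, 14, 16] 19 :=
  Good.skip (by decide +kernel) g_1_3_14_16_X20

lemma g_1_3_14_16_X18 : Good (27 / 10) [1, 3, 14, 16] 18 :=
  Good.skip (by decide +kernel) g_1_3_14_16_X19

lemma g_1_3_14_16_X17 : Good (27 / 10) [1, 3, 14, 16] 17 :=
  Good.skip (by decide +kernel) g_1_3_14_16_X18

lemma g_1_3_14_X18 : Good (27 / 10) [1, 3, 14] 18 :=
  Good.skip (by decide +kernel) g_1_3_14_X19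

lemma g_1_3_14_X17 : Good (27 / 10) [1, 3, 14] 17 :=
  Good.skip (by decide +kernel) g_1_3_14_X18

lemma g_1_3_14_X16 : Good (27 / 10) [1, 3, 14] 16 :=
  Good.branch g_1_3_14_16_X17 g_1_3_14_X17

lemma g_1_3_14_X15 : Good (27 / 10) [1, 3, 14] 15 :=
  Good.skip (by decide +kernel) g_1_3_14_X16

lemma g_1_3_15_17_X21 : Good (27 / 10) [1, 3, 15, 17] 21 :=
  Good.skip (by decide +kernel) g_1_3_15_17_X22

lemma g_1_3_15_17_X20 : Good (27 / 10) [1, 3, 15, 17] 20 :=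
  Good.skip (by decide +kernel) g_1_3_15_17_X21

lemma g_1_3_15_17_X19 : Good (27 / 10) [1, 3, 15, 17] 19 :=
  Good.skip (by decide +kernel) g_1_3_15_17_X20

lemma g_1_3_15_17_X18 : Good (27 / 10) [1, 3, 15, 17] 18 :=
  Good.skip (by decide +kernel) g_1_3_15_17_X19

lemma g_1_3_15_X19 : Good (27 / 10) [1, 3, 15] 19 :=
  Good.skip (by decide +kernel) g_1_3_15_X20

lemma g_1_3_15_X18 : Good (27 / 10) [1, 3, 15] 18 :=
  Good.skip (by decide +kernel) g_1_3_15_X19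

lemma g_1_3_15_X17 : Good (27 / 10) [1, 3, 15] 17 :=
  Good.branch g_1_3_15_17_X18 g_1_3_15_X18

lemma g_1_3_15_X16 : Good (27 / 10) [1, 3, 15] 16 :=
  Good.skip (by decide +kernel) g_1_3_15_X17

lemma g_1_3_16_18_X22 : Good (27 / 10) [1, 3, 16, 18] 22 :=
  Good.skip (by decide +kernel) g_1_3_16_18_X23

lemma g_1_3_16_18_X21 : Good (27 / 10) [1, 3, 16, 18] 21 :=
  Good.skip (by decide +kernel) g_1_3_16_18_X22

lemma g_1_3_16_18_X20 : Good (27 / 10) [1, 3, 16, 18] 20 :=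
  Good.skip (by decide +kernel) g_1_3_16_18_X21

lemma g_1_3_16_18_X19 : Good (27 / 10) [1, 3, 16, 18] 19 :=
  Good.skip (by decide +kernel) g_1_3_16_18_X20

lemma g_1_3_16_X20 : Good (27 / 10) [1, 3, 16] 20 :=
  Good.skip (by decide +kernel) g_1_3_16_X21

lemma g_1_3_16_X19 : Good (27 / 10) [1, 3, 16] 19 :=
  Good.skip (by decide +kernel) g_1_3_16_X20

lemma g_1_3_16_X18 : Good (27 / 10) [1, 3, 16] 18 :=
  Good.branch g_1_3_16_18_X19 g_1_3_16_X19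

lemma g_1_3_16_X17 : Good (27 / 10) [1, 3, 16] 17 :=
  Good.skip (by decide +kernel) g_1_3_16_X18

lemma g_1_3_17_19_X23 : Good (27 / 10) [1, 3, 17, 19] 23 :=
  Good.skip (by decide +kernel) g_1_3_17_19_X24

lemma g_1_3_17_19_X22 : Good (27 / 10) [1, 3, 17, 19] 22 :=
  Good.skip (by decide +kernel) g_1_3_17_19_X23

lemma g_1_3_17_19_X21 : Good (27 / 10) [1, 3, 17, 19] 21 :=
  Good.skip (by decide +kernel) g_1_3_17_19_X22

lemma g_1_3_17_19_X20 : Good (27 / 10) [1, 3, 17, 19] 20 :=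
  Good.skip (by decide +kernel) g_1_3_17_19_X21

lemma g_1_3_17_X21 : Good (27 / 10) [1, 3, 17] 21 :=
  Good.skip (by decide +kernel) g_1_3_17_X22

lemma g_1_3_17_X20 : Good (27 / 10) [1, 3, 17] 20 :=
  Good.skip (by decide +kernel) g_1_3_17_X21

lemma g_1_3_17_X19 : Good (27 / 10) [1, 3, 17] 19 :=
  Good.branch g_1_3_17_19_X20 g_1_3_17_X20

lemma g_1_3_17_X18 : Good (27 / 10) [1, 3, 17] 18 :=
  Good.skip (by decide +kernel) g_1_3_17_X19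

lemma g_1_3_18_20_X24 : Good (27 / 10) [1, 3, 18, 20] 24 :=
  Good.skip (by decide +kernel) g_1_3_18_20_X25

lemma g_1_3_18_20_X23 : Good (27 / 10) [1, 3, 18, 20] 23 :=
  Good.skip (by decide +kernel) g_1_3_18_20_X24

lemma g_1_3_18_20_X22 : Good (27 / 10) [1, 3, 18, 20] 22 :=
  Good.skip (by decide +kernel) g_1_3_18_20_X23

lemma g_1_3_18_20_X21 : Good (27 / 10) [1, 3, 18, 20] 21 :=
  Good.skip (by decide +kernel) g_1_3_18_20_X22

lemma g_1_3_18_X22 : Good (27 / 10) [1, 3, 18] 22 :=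
  Good.skip (by decide +kernel) g_1_3_18_X23

lemma g_1_3_18_X21 : Good (27 / 10) [1, 3, 18] 21 :=
  Good.skip (by decide +kernel) g_1_3_18_X22

lemma g_1_3_18_X20 : Good (27 / 10) [1, 3, 18] 20 :=
  Good.branch g_1_3_18_20_X21 g_1_3_18_X21

lemma g_1_3_18_X19 : Good (27 / 10) [1, 3, 18] 19 :=
  Good.skip (by decide +kernel) g_1_3_18_X20

lemma g_1_3_19_X20 : Good (27 / 10) [1, 3, 19] 20 :=
  Good.skip (by decide +kernel) g_1_3_19_X21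

lemma g_1_3_20_X21 : Good (27 / 10) [1, 3, 20] 21 :=
  Good.skip (by decide +kernel) g_1_3_20_X22

lemma g_1_3_21_X22 : Good (27 / 10) [1, 3, 21] 22 :=
  Good.skip (by decide +kernel) g_1_3_21_X23

lemma g_1_3_X21 : Good (27 / 10) [1, 3] 21 :=
  Good.branch g_1_3_21_X22 g_1_3_X22

lemma g_1_3_X20 : Good (27 / 10) [1, 3] 20 :=
  Good.branch g_1_3_20_X21 g_1_3_X21

lemma g_1_3_X19 : Good (27 / 10) [1, 3] 19 :=
  Good.branch g_1_3_19_X20 g_1_3_X20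

lemma g_1_3_X18 : Good (27 / 10) [1, 3] 18 :=
  Good.branch g_1_3_18_X19 g_1_3_X19

lemma g_1_3_X17 : Good (27 / 10) [1, 3] 17 :=
  Good.branch g_1_3_17_X18 g_1_3_X18

lemma g_1_3_X16 : Good (27 / 10) [1, 3] 16 :=
  Good.branch g_1_3_16_X17 g_1_3_X17

lemma g_1_3_X15 : Good (27 / 10) [1, 3] 15 :=
  Good.branch g_1_3_15_X16 g_1_3_X16

lemma g_1_3_X14 : Good (27 / 10) [1, 3] 14 :=
  Good.branch g_1_3_14_X15 g_1_3_X15

lemma g_1_3_X13 : Good (27 / 10) [1, 3] 13 :=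
  Good.branch g_1_3_13_X14 g_1_3_X14

lemma g_1_3_X12 : Good (27 / 10) [1, 3] 12 :=
  Good.branch g_1_3_12_X13 g_1_3_X13

lemma g_1_3_X11 : Good (27 / 10) [1, 3] 11 :=
  Good.branch g_1_3_11_X12 g_1_3_X12

lemma g_1_3_X10 : Good (27 / 10) [1, 3] 10 :=
  Good.branch g_1_3_10_X11 g_1_3_X11

lemma g_1_3_X9 : Good (27 / 10) [1, 3] 9 :=
  Good.branch g_1_3_9_X10 g_1_3_X10

lemma g_1_3_X8 : Good (27 / 10) [1, 3] 8 :=
  Good.branch g_1_3_8_X9 g_1_3_X9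

lemma g_1_3_X7 : Good (27 / 10) [1, 3] 7 :=
  Good.branch g_1_3_7_X8 g_1_3_X8

lemma g_1_3_X6 : Good (27 / 10) [1, 3] 6 :=
  Good.branch g_1_3_6_X7 g_1_3_X7

lemma g_1_3_X5 : Good (27 / 10) [1, 3] 5 :=
  Good.branch g_1_3_5_X6 g_1_3_X6

lemma g_1_3_X4 : Good (27 / 10) [1, 3] 4 :=
  Good.skip (by decide +kernel) g_1_3_X5

lemma g_1_4_6_8_X15 : Good (27 / 10) [1, 4, 6, 8] 15 :=
  Good.skip (by decide +kernel) g_1_4_6_8_X16

lemma g_1_4_6_8_X14 : Good (27 / 10) [1, 4, 6, 8] 14 :=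
  Good.skip (by decide +kernel) g_1_4_6_8_X15

lemma g_1_4_6_8_X13 : Good (27 / 10) [1, 4, 6, 8] 13 :=
  Good.skip (by decide +kernel) g_1_4_6_8_X14

lemma g_1_4_6_8_X12 : Good (27 / 10) [1, 4, 6, 8] 12 :=
  Good.skip (by decide +kernel) g_1_4_6_8_X13

lemma g_1_4_6_8_X11 : Good (27 / 10) [1, 4, 6, 8] 11 :=
  Good.skip (by decide +kernel) g_1_4_6_8_X12

lemma g_1_4_6_8_X10 : Good (27 / 10) [1, 4, 6, 8] 10 :=
  Good.skip (by decide +kernel) g_1_4_6_8_X11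

lemma g_1_4_6_8_X9 : Good (27 / 10) [1, 4, 6, 8] 9 :=
  Good.skip (by decide +kernel) g_1_4_6_8_X10

lemma g_1_4_6_9_X11 : Good (27 / 10) [1, 4, 6, 9] 11 :=
  Good.skip (by decide +kernel) g_1_4_6_9_X12

lemma g_1_4_6_9_X10 : Good (27 / 10) [1, 4, 6, 9] 10 :=
  Good.skip (by decide +kernel) g_1_4_6_9_X11

lemma g_1_4_6_X11 : Good (27 / 10) [1, 4, 6] 11 :=
  Good.skip (by decide +kernel) g_1_4_6_X12

lemma g_1_4_6_X10 : Good (27 / 10) [1, 4, 6] 10 :=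
  Good.skip (by decide +kernel) g_1_4_6_X11

lemma g_1_4_6_X9 : Good (27 / 10) [1, 4, 6] 9 :=
  Good.branch g_1_4_6_9_X10 g_1_4_6_X10

lemma g_1_4_6_X8 : Good (27 / 10) [1, 4, 6] 8 :=
  Good.branch g_1_4_6_8_X9 g_1_4_6_X9

lemma g_1_4_6_X7 : Good (27 / 10) [1, 4, 6] 7 :=
  Good.skip (by decide +kernel) g_1_4_6_X8

lemma g_1_4_7_9_X14 : Good (27 / 10) [1, 4, 7, 9] 14 :=
  Good.skip (by decide +kernel) g_1_4_7_9_X15

lemma g_1_4_7_9_X13 : Good (27 / 10) [1, 4, 7, 9] 13 :=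
  Good.skip (by decide +kernel) g_1_4_7_9_X14

lemma g_1_4_7_9_X12 : Good (27 / 10) [1, 4, 7, 9] 12 :=
  Good.skip (by decide +kernel) g_1_4_7_9_X13

lemma g_1_4_7_9_X11 : Good (27 / 10) [1, 4, 7, 9] 11 :=
  Good.skip (by decide +kernel) g_1_4_7_9_X12

lemma g_1_4_7_9_X10 : Good (27 / 10) [1, 4, 7, 9] 10 :=
  Good.skip (by decide +kernel) g_1_4_7_9_X11

lemma g_1_4_7_10_13_X15 : Good (27 / 10) [1, 4, 7, 10, 13] 15 :=
  Good.skip (by decide +kernel) g_1_4_7_10_13_X16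

lemma g_1_4_7_10_13_X14 : Good (27 / 10) [1, 4, 7, 10, 13] 14 :=
  Good.skip (by decide +kernel) g_1_4_7_10_13_X15

lemma g_1_4_7_10_16_X18 : Good (27 / 10) [1, 4, 7, 10, 16] 18 :=
  Good.skip (by decide +kernel) g_1_4_7_10_16_X19

lemma g_1_4_7_10_16_X17 : Good (27 / 10) [1, 4, 7, 10, 16] 17 :=
  Good.skip (by decide +kernel) g_1_4_7_10_16_X18

lemma g_1_4_7_10_X18 : Good (27 / 10) [1, 4, 7, 10] 18 :=
  Good.skip (by decide +kernel) g_1_4_7_10_X19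

lemma g_1_4_7_10_X17 : Good (27 / 10) [1, 4, 7, 10] 17 :=
  Good.skip (by decide +kernel) g_1_4_7_10_X18

lemma g_1_4_7_10_X16 : Good (27 / 10) [1, 4, 7, 10] 16 :=
  Good.branch g_1_4_7_10_16_X17 g_1_4_7_10_X17

lemma g_1_4_7_10_X15 : Good (27 / 10) [1, 4, 7, 10] 15 :=
  Good.skip (by decide +kernel) g_1_4_7_10_X16

lemma g_1_4_7_10_X14 : Good (27 / 10) [1, 4, 7, 10] 14 :=
  Good.skip (by decide +kernel) g_1_4_7_10_X15

lemma g_1_4_7_10_X13 : Good (27 / 10) [1, 4, 7, 10] 13 :=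
  Good.branch g_1_4_7_10_13_X14 g_1_4_7_10_X14

lemma g_1_4_7_10_X12 : Good (27 / 10) [1, 4, 7, 10] 12 :=
  Good.skip (by decide +kernel) g_1_4_7_10_X13

lemma g_1_4_7_10_X11 : Good (27 / 10) [1, 4, 7, 10] 11 :=
  Good.skip (by decide +kernel) g_1_4_7_10_X12

lemma g_1_4_7_13_X14 : Good (27 / 10) [1, 4, 7, 13] 14 :=
  Good.skip (by decide +kernel) g_1_4_7_13_X15

lemma g_1_4_7_14_X15 : Good (27 / 10) [1, 4, 7, 14] 15 :=
  Good.skip (by decide +kernel) g_1_4_7_14_X16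

lemma g_1_4_7_15_X16 : Good (27 / 10) [1, 4, 7, 15] 16 :=
  Good.skip (by decide +kernel) g_1_4_7_15_X17

lemma g_1_4_7_X15 : Good (27 / 10) [1, 4, 7] 15 :=
  Good.branch g_1_4_7_15_X16 g_1_4_7_X16

lemma g_1_4_7_X14 : Good (27 / 10) [1, 4, 7] 14 :=
  Good.branch g_1_4_7_14_X15 g_1_4_7_X15

lemma g_1_4_7_X13 : Good (27 / 10) [1, 4, 7] 13 :=
  Good.branch g_1_4_7_13_X14 g_1_4_7_X14

lemma g_1_4_7_X12 : Good (27 / 10) [1, 4, 7] 12 :=
  Good.skip (by decide +kernel) g_1_4_7_X13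

lemma g_1_4_7_X11 : Good (27 / 10) [1, 4, 7] 11 :=
  Good.skip (by decide +kernel) g_1_4_7_X12

lemma g_1_4_7_X10 : Good (27 / 10) [1, 4, 7] 10 :=
  Good.branch g_1_4_7_10_X11 g_1_4_7_X11

lemma g_1_4_7_X9 : Good (27 / 10) [1, 4, 7] 9 :=
  Good.branch g_1_4_7_9_X10 g_1_4_7_X10

lemma g_1_4_7_X8 : Good (27 / 10) [1, 4, 7] 8 :=
  Good.skip (by decide +kernel) g_1_4_7_X9

lemma g_1_4_8_10_X15 : Good (27 / 10) [1, 4, 8, 10] 15 :=
  Good.skip (by decide +kernel) g_1_4_8_10_X16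

lemma g_1_4_8_10_X14 : Good (27 / 10) [1, 4, 8, 10] 14 :=
  Good.skip (by decide +kernel) g_1_4_8_10_X15

lemma g_1_4_8_10_X13 : Good (27 / 10) [1, 4, 8, 10] 13 :=
  Good.skip (by decide +kernel) g_1_4_8_10_X14

lemma g_1_4_8_10_X12 : Good (27 / 10) [1, 4, 8, 10] 12 :=
  Good.skip (by decide +kernel) g_1_4_8_10_X13

lemma g_1_4_8_10_X11 : Good (27 / 10) [1, 4, 8, 10] 11 :=
  Good.skip (by decide +kernel) g_1_4_8_10_X12

lemma g_1_4_8_X10 : Good (27 / 10) [1, 4, 8] 10 :=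
  Good.branch g_1_4_8_10_X11 g_1_4_8_X11

lemma g_1_4_8_X9 : Good (27 / 10) [1, 4, 8] 9 :=
  Good.skip (by decide +kernel) g_1_4_8_X10

lemma g_1_4_9_11_X16 : Good (27 / 10) [1, 4, 9, 11] 16 :=
  Good.skip (by decide +kernel) g_1_4_9_11_X17

lemma g_1_4_9_11_X15 : Good (27 / 10) [1, 4, 9, 11] 15 :=
  Good.skip (by decide +kernel) g_1_4_9_11_X16

lemma g_1_4_9_11_X14 : Good (27 / 10) [1, 4, 9, 11] 14 :=
  Good.skip (by decide +kernel) g_1_4_9_11_X15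

lemma g_1_4_9_11_X13 : Good (27 / 10) [1, 4, 9, 11] 13 :=
  Good.skip (by decide +kernel) g_1_4_9_11_X14

lemma g_1_4_9_11_X12 : Good (27 / 10) [1, 4, 9, 11] 12 :=
  Good.skip (by decide +kernel) g_1_4_9_11_X13

lemma g_1_4_9_X11 : Good (27 / 10) [1, 4, 9] 11 :=
  Good.branch g_1_4_9_11_X12 g_1_4_9_X12

lemma g_1_4_9_X10 : Good (27 / 10) [1, 4, 9] 10 :=
  Good.skip (by decide +kernel) g_1_4_9_X11

lemma g_1_4_10_12_X17 : Good (27 / 10) [1, 4, 10, 12] 17 :=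
  Good.skip (by decide +kernel) g_1_4_10_12_X18

lemma g_1_4_10_12_X16 : Good (27 / 10) [1, 4, 10, 12] 16 :=
  Good.skip (by decide +kernel) g_1_4_10_12_X17

lemma g_1_4_10_12_X15 : Good (27 / 10) [1, 4, 10, 12] 15 :=
  Good.skip (by decide +kernel) g_1_4_10_12_X16

lemma g_1_4_10_12_X14 : Good (27 / 10) [1, 4, 10, 12] 14 :=
  Good.skip (by decide +kernel) g_1_4_10_12_X15

lemma g_1_4_10_12_X13 : Good (27 / 10) [1, 4, 10, 12] 13 :=
  Good.skip (by decide +kernel) g_1_4_10_12_X14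

lemma g_1_4_10_13_16_X18 : Good (27 / 10) [1, 4, 10, 13, 16] 18 :=
  Good.skip (by decide +kernel) g_1_4_10_13_16_X19

lemma g_1_4_10_13_16_X17 : Good (27 / 10) [1, 4, 10, 13, 16] 17 :=
  Good.skip (by decide +kernel) g_1_4_10_13_16_X18

lemma g_1_4_10_13_X18 : Good (27 / 10) [1, 4, 10, 13] 18 :=
  Good.skip (by decide +kernel) g_1_4_10_13_X19

lemma g_1_4_10_13_X17 : Good (27 / 10) [1, 4, 10, 13] 17 :=
  Good.skip (by decide +kernel) g_1_4_10_13_X18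

lemma g_1_4_10_13_X16 : Good (27 / 10) [1, 4, 10, 13] 16 :=
  Good.branch g_1_4_10_13_16_X17 g_1_4_10_13_X17

lemma g_1_4_10_13_X15 : Good (27 / 10) [1, 4, 10, 13] 15 :=
  Good.skip (by decide +kernel) g_1_4_10_13_X16

lemma g_1_4_10_13_X14 : Good (27 / 10) [1, 4, 10, 13] 14 :=
  Good.skip (by decide +kernel) g_1_4_10_13_X15

lemma g_1_4_10_X15 : Good (27 / 10) [1, 4, 10] 15 :=
  Good.skip (by decide +kernel) g_1_4_10_X16

lemma g_1_4_10_X14 : Good (27 / 10) [1, 4, 10] 14 :=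
  Good.skip (by decide +kernel) g_1_4_10_X15

lemma g_1_4_10_X13 : Good (27 / 10) [1, 4, 10] 13 :=
  Good.branch g_1_4_10_13_X14 g_1_4_10_X14

lemma g_1_4_10_X12 : Good (27 / 10) [1, 4, 10] 12 :=
  Good.branch g_1_4_10_12_X13 g_1_4_10_X13

lemma g_1_4_10_X11 : Good (27 / 10) [1, 4, 10] 11 :=
  Good.skip (by decide +kernel) g_1_4_10_X12

lemma g_1_4_11_13_X18 : Good (27 / 10) [1, 4, 11, 13] 18 :=
  Good.skip (by decide +kernel) g_1_4_11_13_X19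

lemma g_1_4_11_13_X17 : Good (27 / 10) [1, 4, 11, 13] 17 :=
  Good.skip (by decide +kernel) g_1_4_11_13_X18

lemma g_1_4_11_13_X16 : Good (27 / 10) [1, 4, 11, 13] 16 :=
  Good.skip (by decide +kernel) g_1_4_11_13_X17

lemma g_1_4_11_13_X15 : Good (27 / 10) [1, 4, 11, 13] 15 :=
  Good.skip (by decide +kernel) g_1_4_11_13_X16

lemma g_1_4_11_13_X14 : Good (27 / 10) [1, 4, 11, 13] 14 :=
  Good.skip (by decide +kernel) g_1_4_11_13_X15

lemma g_1_4_11_14_17_X19 : Good (27 / 10) [1, 4, 11, 14, 17] 19 :=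
  Good.skip (by decide +kernel) g_1_4_11_14_17_X20

lemma g_1_4_11_14_17_X18 : Good (27 / 10) [1, 4, 11, 14, 17] 18 :=
  Good.skip (by decide +kernel) g_1_4_11_14_17_X19

lemma g_1_4_11_14_X19 : Good (27 / 10) [1, 4, 11, 14] 19 :=
  Good.skip (by decide +kernel) g_1_4_11_14_X20

lemma g_1_4_11_14_X18 : Good (27 / 10) [1, 4, 11, 14] 18 :=
  Good.skip (by decide +kernel) g_1_4_11_14_X19

lemma g_1_4_11_14_X17 : Good (27 / 10) [1, 4, 11, 14] 17 :=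
  Good.branch g_1_4_11_14_17_X18 g_1_4_11_14_X18

lemma g_1_4_11_14_X16 : Good (27 / 10) [1, 4, 11, 14] 16 :=
  Good.skip (by decide +kernel) g_1_4_11_14_X17

lemma g_1_4_11_14_X15 : Good (27 / 10) [1, 4, 11, 14] 15 :=
  Good.skip (by decide +kernel) g_1_4_11_14_X16

lemma g_1_4_11_X16 : Good (27 / 10) [1, 4, 11] 16 :=
  Good.skip (by decide +kernel) g_1_4_11_X17

lemma g_1_4_11_X15 : Good (27 / 10) [1, 4, 11] 15 :=
  Good.skip (by decide +kernel) g_1_4_11_X16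

lemma g_1_4_11_X14 : Good (27 / 10) [1, 4, 11] 14 :=
  Good.branch g_1_4_11_14_X15 g_1_4_11_X15

lemma g_1_4_11_X13 : Good (27 / 10) [1, 4, 11] 13 :=
  Good.branch g_1_4_11_13_X14 g_1_4_11_X14

lemma g_1_4_11_X12 : Good (27 / 10) [1, 4, 11] 12 :=
  Good.skip (by decide +kernel) g_1_4_11_X13

lemma g_1_4_12_14_X19 : Good (27 / 10) [1, 4, 12, 14] 19 :=
  Good.skip (by decide +kernel) g_1_4_12_14_X20

lemma g_1_4_12_14_X18 : Good (27 / 10) [1, 4, 12, 14] 18 :=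
  Good.skip (by decide +kernel) g_1_4_12_14_X19

lemma g_1_4_12_14_X17 : Good (27 / 10) [1, 4, 12, 14] 17 :=
  Good.skip (by decide +kernel) g_1_4_12_14_X18

lemma g_1_4_12_14_X16 : Good (27 / 10) [1, 4, 12, 14] 16 :=
  Good.skip (by decide +kernel) g_1_4_12_14_X17

lemma g_1_4_12_14_X15 : Good (27 / 10) [1, 4, 12, 14] 15 :=
  Good.skip (by decide +kernel) g_1_4_12_14_X16

lemma g_1_4_12_15_X17 : Good (27 / 10) [1, 4, 12, 15] 17 :=
  Good.skip (by decide +kernel) g_1_4_12_15_X18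

lemma g_1_4_12_15_X16 : Good (27 / 10) [1, 4, 12, 15] 16 :=
  Good.skip (by decide +kernel) g_1_4_12_15_X17

lemma g_1_4_12_X17 : Good (27 / 10) [1, 4, 12] 17 :=
  Good.skip (by decide +kernel) g_1_4_12_X18

lemma g_1_4_12_X16 : Good (27 / 10) [1, 4, 12] 16 :=
  Good.skip (by decide +kernel) g_1_4_12_X17

lemma g_1_4_12_X15 : Good (27 / 10) [1, 4, 12] 15 :=
  Good.branch g_1_4_12_15_X16 g_1_4_12_X16

lemma g_1_4_12_X14 : Good (27 / 10) [1, 4, 12] 14 :=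
  Good.branch g_1_4_12_14_X15 g_1_4_12_X15

lemma g_1_4_12_X13 : Good (27 / 10) [1, 4, 12] 13 :=
  Good.skip (by decide +kernel) g_1_4_12_X14

lemma g_1_4_13_15_X20 : Good (27 / 10) [1, 4, 13, 15] 20 :=
  Good.skip (by decide +kernel) g_1_4_13_15_X21

lemma g_1_4_13_15_X19 : Good (27 / 10) [1, 4, 13, 15] 19 :=
  Good.skip (by decide +kernel) g_1_4_13_15_X20

lemma g_1_4_13_15_X18 : Good (27 / 10) [1, 4, 13, 15] 18 :=
  Good.skip (by decide +kernel) g_1_4_13_15_X19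

lemma g_1_4_13_15_X17 : Good (27 / 10) [1, 4, 13, 15] 17 :=
  Good.skip (by decide +kernel) g_1_4_13_15_X18

lemma g_1_4_13_15_X16 : Good (27 / 10) [1, 4, 13, 15] 16 :=
  Good.skip (by decide +kernel) g_1_4_13_15_X17

lemma g_1_4_13_16_X18 : Good (27 / 10) [1, 4, 13, 16] 18 :=
  Good.skip (by decide +kernel) g_1_4_13_16_X19

lemma g_1_4_13_16_X17 : Good (27 / 10) [1, 4, 13, 16] 17 :=
  Good.skip (by decide +kernel) g_1_4_13_16_X18

lemma g_1_4_13_X18 : Good (27 / 10) [1, 4, 13] 18 :=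
  Good.skip (by decide +kernel) g_1_4_13_X19

lemma g_1_4_13_X17 : Good (27 / 10) [1, 4, 13] 17 :=
  Good.skip (by decide +kernel) g_1_4_13_X18

lemma g_1_4_13_X16 : Good (27 / 10) [1, 4, 13] 16 :=
  Good.branch g_1_4_13_16_X17 g_1_4_13_X17

lemma g_1_4_13_X15 : Good (27 / 10) [1, 4, 13] 15 :=
  Good.branch g_1_4_13_15_X16 g_1_4_13_X16

lemma g_1_4_13_X14 : Good (27 / 10) [1, 4, 13] 14 :=
  Good.skip (by decide +kernel) g_1_4_13_X15

lemma g_1_4_14_16_X21 : Good (27 / 10) [1, 4, 14, 16] 21 :=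
  Good.skip (by decide +kernel) g_1_4_14_16_X22

lemma g_1_4_14_16_X20 : Good (27 / 10) [1, 4, 14, 16] 20 :=
  Good.skip (by decide +kernel) g_1_4_14_16_X21

lemma g_1_4_14_16_X19 : Good (27 / 10) [1, 4, 14, 16] 19 :=
  Good.skip (by decide +kernel) g_1_4_14_16_X20

lemma g_1_4_14_16_X18 : Good (27 / 10) [1, 4, 14, 16] 18 :=
  Good.skip (by decide +kernel) g_1_4_14_16_X19

lemma g_1_4_14_16_X17 : Good (27 / 10) [1, 4, 14, 16] 17 :=
  Good.skip (by decide +kernel) g_1_4_14_16_X18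

lemma g_1_4_14_X16 : Good (27 / 10) [1, 4, 14] 16 :=
  Good.branch g_1_4_14_16_X17 g_1_4_14_X17

lemma g_1_4_14_X15 : Good (27 / 10) [1, 4, 14] 15 :=
  Good.skip (by decide +kernel) g_1_4_14_X16

lemma g_1_4_15_17_X22 : Good (27 / 10) [1, 4, 15, 17] 22 :=
  Good.skip (by decide +kernel) g_1_4_15_17_X23

lemma g_1_4_15_17_X21 : Good (27 / 10) [1, 4, 15, 17] 21 :=
  Good.skip (by decide +kernel) g_1_4_15_17_X22

lemma g_1_4_15_17_X20 : Good (27 / 10) [1, 4, 15, 17] 20 :=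
  Good.skip (by decide +kernel) g_1_4_15_17_X21

lemma g_1_4_15_17_X19 : Good (27 / 10) [1, 4, 15, 17] 19 :=
  Good.skip (by decide +kernel) g_1_4_15_17_X20

lemma g_1_4_15_17_X18 : Good (27 / 10) [1, 4, 15, 17] 18 :=
  Good.skip (by decide +kernel) g_1_4_15_17_X19

lemma g_1_4_15_X17 : Good (27 / 10) [1, 4, 15] 17 :=
  Good.branch g_1_4_15_17_X18 g_1_4_15_X18

lemma g_1_4_15_X16 : Good (27 / 10) [1, 4, 15] 16 :=
  Good.skip (by decide +kernel) g_1_4_15_X17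

lemma g_1_4_16_X17 : Good (27 / 10) [1, 4, 16] 17 :=
  Good.skip (by decide +kernel) g_1_4_16_X18

lemma g_1_4_X16 : Good (27 / 10) [1, 4] 16 :=
  Good.branch g_1_4_16_X17 g_1_4_X17

lemma g_1_4_X15 : Good (27 / 10) [1, 4] 15 :=
  Good.branch g_1_4_15_X16 g_1_4_X16

lemma g_1_4_X14 : Good (27 / 10) [1, 4] 14 :=
  Good.branch g_1_4_14_X15 g_1_4_X15

lemma g_1_4_X13 : Good (27 / 10) [1, 4] 13 :=
  Good.branch g_1_4_13_X14 g_1_4_X14

lemma g_1_4_X12 : Good (27 / 10) [1, 4] 12 :=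
  Good.branch g_1_4_12_X13 g_1_4_X13

lemma g_1_4_X11 : Good (27 / 10) [1, 4] 11 :=
  Good.branch g_1_4_11_X12 g_1_4_X12

lemma g_1_4_X10 : Good (27 / 10) [1, 4] 10 :=
  Good.branch g_1_4_10_X11 g_1_4_X11

lemma g_1_4_X9 : Good (27 / 10) [1, 4] 9 :=
  Good.branch g_1_4_9_X10 g_1_4_X10

lemma g_1_4_X8 : Good (27 / 10) [1, 4] 8 :=
  Good.branch g_1_4_8_X9 g_1_4_X9

lemma g_1_4_X7 : Good (27 / 10) [1, 4] 7 :=
  Good.branch g_1_4_7_X8 g_1_4_X8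

lemma g_1_4_X6 : Good (27 / 10) [1, 4] 6 :=
  Good.branch g_1_4_6_X7 g_1_4_X7

lemma g_1_4_X5 : Good (27 / 10) [1, 4] 5 :=
  Good.skip (by decide +kernel) g_1_4_X6

lemma g_1_5_7_9_X10 : Good (27 / 10) [1, 5, 7, 9] 10 :=
  Good.skip (by decide +kernel) g_1_5_7_9_X11

lemma g_1_5_7_10_X13 : Good (27 / 10) [1, 5, 7, 10] 13 :=
  Good.skip (by decide +kernel) g_1_5_7_10_X14

lemma g_1_5_7_10_X12 : Good (27 / 10) [1, 5, 7, 10] 12 :=
  Good.skip (by decide +kernel) g_1_5_7_10_X13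

lemma g_1_5_7_10_X11 : Good (27 / 10) [1, 5, 7, 10] 11 :=
  Good.skip (by decide +kernel) g_1_5_7_10_X12

lemma g_1_5_7_X10 : Good (27 / 10) [1, 5, 7] 10 :=
  Good.branch g_1_5_7_10_X11 g_1_5_7_X11

lemma g_1_5_7_X9 : Good (27 / 10) [1, 5, 7] 9 :=
  Good.branch g_1_5_7_9_X10 g_1_5_7_X10

lemma g_1_5_7_X8 : Good (27 / 10) [1, 5, 7] 8 :=
  Good.skip (by decide +kernel) g_1_5_7_X9

lemma g_1_5_8_10_12_X28 : Good (27 / 10) [1, 5, 8, 10, 12] 28 :=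
  Good.skip (by decide +kernel) g_1_5_8_10_12_X29

lemma g_1_5_8_10_12_X27 : Good (27 / 10) [1, 5, 8, 10, 12] 27 :=
  Good.skip (by decide +kernel) g_1_5_8_10_12_X28

lemma g_1_5_8_10_12_X26 : Good (27 / 10) [1, 5, 8, 10, 12] 26 :=
  Good.skip (by decide +kernel) g_1_5_8_10_12_X27

lemma g_1_5_8_10_12_X25 : Good (27 / 10) [1, 5, 8, 10, 12] 25 :=
  Good.skip (by decide +kernel) g_1_5_8_10_12_X26

lemma g_1_5_8_10_12_X24 : Good (27 / 10) [1, 5, 8, 10, 12] 24 :=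
  Good.skip (by decide +kernel) g_1_5_8_10_12_X25

lemma g_1_5_8_10_12_X23 : Good (27 / 10) [1, 5, 8, 10, 12] 23 :=
  Good.skip (by decide +kernel) g_1_5_8_10_12_X24

lemma g_1_5_8_10_12_X22 : Good (27 / 10) [1, 5, 8, 10, 12] 22 :=
  Good.skip (by decide +kernel) g_1_5_8_10_12_X23

lemma g_1_5_8_10_12_X21 : Good (27 / 10) [1, 5, 8, 10, 12] 21 :=
  Good.skip (by decide +kernel) g_1_5_8_10_12_X22

lemma g_1_5_8_10_12_X20 : Good (27 / 10) [1, 5, 8, 10, 12] 20 :=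
  Good.skip (by decide +kernel) g_1_5_8_10_12_X21

lemma g_1_5_8_10_12_X19 : Good (27 / 10) [1, 5, 8, 10, 12] 19 :=
  Good.skip (by decide +kernel) g_1_5_8_10_12_X20

lemma g_1_5_8_10_12_X18 : Good (27 / 10) [1, 5, 8, 10, 12] 18 :=
  Good.skip (by decide +kernel) g_1_5_8_10_12_X19

lemma g_1_5_8_10_12_X17 : Good (27 / 10) [1, 5, 8, 10, 12] 17 :=
  Good.skip (by decide +kernel) g_1_5_8_10_12_X18

lemma g_1_5_8_10_12_X16 : Good (27 / 10) [1, 5, 8, 10, 12] 16 :=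
  Good.skip (by decide +kernel) g_1_5_8_10_12_X17

lemma g_1_5_8_10_12_X15 : Good (27 / 10) [1, 5, 8, 10, 12] 15 :=
  Good.skip (by decide +kernel) g_1_5_8_10_12_X16

lemma g_1_5_8_10_12_X14 : Good (27 / 10) [1, 5, 8, 10, 12] 14 :=
  Good.skip (by decide +kernel) g_1_5_8_10_12_X15

lemma g_1_5_8_10_12_X13 : Good (27 / 10) [1, 5, 8, 10, 12] 13 :=
  Good.skip (by decide +kernel) g_1_5_8_10_12_X14

lemma g_1_5_8_10_X16 : Good (27 / 10) [1, 5, 8, 10] 16 :=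
  Good.skip (by decide +kernel) g_1_5_8_10_X17

lemma g_1_5_8_10_X15 : Good (27 / 10) [1, 5, 8, 10] 15 :=
  Good.skip (by decide +kernel) g_1_5_8_10_X16

lemma g_1_5_8_10_X14 : Good (27 / 10) [1, 5, 8, 10] 14 :=
  Good.skip (by decide +kernel) g_1_5_8_10_X15

lemma g_1_5_8_10_X13 : Good (27 / 10) [1, 5, 8, 10] 13 :=
  Good.skip (by decide +kernel) g_1_5_8_10_X14

lemma g_1_5_8_10_X12 : Good (27 / 10) [1, 5, 8, 10] 12 :=
  Good.branch g_1_5_8_10_12_X13 g_1_5_8_10_X13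

lemma g_1_5_8_10_X11 : Good (27 / 10) [1, 5, 8, 10] 11 :=
  Good.skip (by decide +kernel) g_1_5_8_10_X12

lemma g_1_5_8_11_X14 : Good (27 / 10) [1, 5, 8, 11] 14 :=
  Good.skip (by decide +kernel) g_1_5_8_11_X15

lemma g_1_5_8_11_X13 : Good (27 / 10) [1, 5, 8, 11] 13 :=
  Good.skip (by decide +kernel) g_1_5_8_11_X14

lemma g_1_5_8_11_X12 : Good (27 / 10) [1, 5, 8, 11] 12 :=
  Good.skip (by decide +kernel) g_1_5_8_11_X13

lemma g_1_5_8_12_15_X18 : Good (27 / 10) [1, 5, 8, 12, 15] 18 :=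
  Good.skip (by decide +kernel) g_1_5_8_12_15_X19

lemma g_1_5_8_12_15_X17 : Good (27 / 10) [1, 5, 8, 12, 15] 17 :=
  Good.skip (by decide +kernel) g_1_5_8_12_15_X18

lemma g_1_5_8_12_15_X16 : Good (27 / 10) [1, 5, 8, 12, 15] 16 :=
  Good.skip (by decide +kernel) g_1_5_8_12_15_X17

lemma g_1_5_8_12_16_X18 : Good (27 / 10) [1, 5, 8, 12, 16] 18 :=
  Good.skip (by decide +kernel) g_1_5_8_12_16_X19

lemma g_1_5_8_12_16_X17 : Good (27 / 10) [1, 5, 8, 12, 16] 17 :=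
  Good.skip (by decide +kernel) g_1_5_8_12_16_X18

lemma g_1_5_8_12_X18 : Good (27 / 10) [1, 5, 8, 12] 18 :=
  Good.skip (by decide +kernel) g_1_5_8_12_X19

lemma g_1_5_8_12_X17 : Good (27 / 10) [1, 5, 8, 12] 17 :=
  Good.skip (by decide +kernel) g_1_5_8_12_X18

lemma g_1_5_8_12_X16 : Good (27 / 10) [1, 5, 8, 12] 16 :=
  Good.branch g_1_5_8_12_16_X17 g_1_5_8_12_X17

lemma g_1_5_8_12_X15 : Good (27 / 10) [1, 5, 8, 12] 15 :=
  Good.branch g_1_5_8_12_15_X16 g_1_5_8_12_X16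

lemma g_1_5_8_12_X14 : Good (27 / 10) [1, 5, 8, 12] 14 :=
  Good.skip (by decide +kernel) g_1_5_8_12_X15

lemma g_1_5_8_12_X13 : Good (27 / 10) [1, 5, 8, 12] 13 :=
  Good.skip (by decide +kernel) g_1_5_8_12_X14

lemma g_1_5_8_X14 : Good (27 / 10) [1, 5, 8] 14 :=
  Good.skip (by decide +kernel) g_1_5_8_X15

lemma g_1_5_8_X13 : Good (27 / 10) [1, 5, 8] 13 :=
  Good.skip (by decide +kernel) g_1_5_8_X14

lemma g_1_5_8_X12 : Good (27 / 10) [1, 5, 8] 12 :=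
  Good.branch g_1_5_8_12_X13 g_1_5_8_X13

lemma g_1_5_8_X11 : Good (27 / 10) [1, 5, 8] 11 :=
  Good.branch g_1_5_8_11_X12 g_1_5_8_X12

lemma g_1_5_8_X10 : Good (27 / 10) [1, 5, 8] 10 :=
  Good.branch g_1_5_8_10_X11 g_1_5_8_X11

lemma g_1_5_8_X9 : Good (27 / 10) [1, 5, 8] 9 :=
  Good.skip (by decide +kernel) g_1_5_8_X10

lemma g_1_5_9_11_X12 : Good (27 / 10) [1, 5, 9, 11] 12 :=
  Good.skip (by decide +kernel) g_1_5_9_11_X13

lemma g_1_5_9_12_X15 : Good (27 / 10) [1, 5, 9, 12] 15 :=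
  Good.skip (by decide +kernel) g_1_5_9_12_X16

lemma g_1_5_9_12_X14 : Good (27 / 10) [1, 5, 9, 12] 14 :=
  Good.skip (by decide +kernel) g_1_5_9_12_X15

lemma g_1_5_9_12_X13 : Good (27 / 10) [1, 5, 9, 12] 13 :=
  Good.skip (by decide +kernel) g_1_5_9_12_X14

lemma g_1_5_9_13_X15 : Good (27 / 10) [1, 5, 9, 13] 15 :=
  Good.skip (by decide +kernel) g_1_5_9_13_X16

lemma g_1_5_9_13_X14 : Good (27 / 10) [1, 5, 9, 13] 14 :=
  Good.skip (by decide +kernel) g_1_5_9_13_X15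

lemma g_1_5_9_X15 : Good (27 / 10) [1, 5, 9] 15 :=
  Good.skip (by decide +kernel) g_1_5_9_X16

lemma g_1_5_9_X14 : Good (27 / 10) [1, 5, 9] 14 :=
  Good.skip (by decide +kernel) g_1_5_9_X15

lemma g_1_5_9_X13 : Good (27 / 10) [1, 5, 9] 13 :=
  Good.branch g_1_5_9_13_X14 g_1_5_9_X14

lemma g_1_5_9_X12 : Good (27 / 10) [1, 5, 9] 12 :=
  Good.branch g_1_5_9_12_X13 g_1_5_9_X13

lemma g_1_5_9_X11 : Good (27 / 10) [1, 5, 9] 11 :=
  Good.branch g_1_5_9_11_X12 g_1_5_9_X12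

lemma g_1_5_9_X10 : Good (27 / 10) [1, 5, 9] 10 :=
  Good.skip (by decide +kernel) g_1_5_9_X11

lemma g_1_5_10_X11 : Good (27 / 10) [1, 5, 10] 11 :=
  Good.skip (by decide +kernel) g_1_5_10_X12

lemma g_1_5_11_X12 : Good (27 / 10) [1, 5, 11] 12 :=
  Good.skip (by decide +kernel) g_1_5_11_X13

lemma g_1_5_12_14_X15 : Good (27 / 10) [1, 5, 12, 14] 15 :=
  Good.skip (by decide +kernel) g_1_5_12_14_X16

lemma g_1_5_12_15_X18 : Good (27 / 10) [1, 5, 12, 15] 18 :=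
  Good.skip (by decide +kernel) g_1_5_12_15_X19

lemma g_1_5_12_15_X17 : Good (27 / 10) [1, 5, 12, 15] 17 :=
  Good.skip (by decide +kernel) g_1_5_12_15_X18

lemma g_1_5_12_15_X16 : Good (27 / 10) [1, 5, 12, 15] 16 :=
  Good.skip (by decide +kernel) g_1_5_12_15_X17

lemma g_1_5_12_X15 : Good (27 / 10) [1, 5, 12] 15 :=
  Good.branch g_1_5_12_15_X16 g_1_5_12_X16

lemma g_1_5_12_X14 : Good (27 / 10) [1, 5, 12] 14 :=
  Good.branch g_1_5_12_14_X15 g_1_5_12_X15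

lemma g_1_5_12_X13 : Good (27 / 10) [1, 5, 12] 13 :=
  Good.skip (by decide +kernel) g_1_5_12_X14

lemma g_1_5_13_15_X16 : Good (27 / 10) [1, 5, 13, 15] 16 :=
  Good.skip (by decide +kernel) g_1_5_13_15_X17

lemma g_1_5_13_X15 : Good (27 / 10) [1, 5, 13] 15 :=
  Good.branch g_1_5_13_15_X16 g_1_5_13_X16

lemma g_1_5_13_X14 : Good (27 / 10) [1, 5, 13] 14 :=
  Good.skip (by decide +kernel) g_1_5_13_X15

lemma g_1_5_14_X15 : Good (27 / 10) [1, 5, 14] 15 :=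
  Good.skip (by decide +kernel) g_1_5_14_X16

lemma g_1_5_X14 : Good (27 / 10) [1, 5] 14 :=
  Good.branch g_1_5_14_X15 g_1_5_X15

lemma g_1_5_X13 : Good (27 / 10) [1, 5] 13 :=
  Good.branch g_1_5_13_X14 g_1_5_X14

lemma g_1_5_X12 : Good (27 / 10) [1, 5] 12 :=
  Good.branch g_1_5_12_X13 g_1_5_X13

lemma g_1_5_X11 : Good (27 / 10) [1, 5] 11 :=
  Good.branch g_1_5_11_X12 g_1_5_X12

lemma g_1_5_X10 : Good (27 / 10) [1, 5] 10 :=
  Good.branch g_1_5_10_X11 g_1_5_X11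

lemma g_1_5_X9 : Good (27 / 10) [1, 5] 9 :=
  Good.branch g_1_5_9_X10 g_1_5_X10

lemma g_1_5_X8 : Good (27 / 10) [1, 5] 8 :=
  Good.branch g_1_5_8_X9 g_1_5_X9

lemma g_1_5_X7 : Good (27 / 10) [1, 5] 7 :=
  Good.branch g_1_5_7_X8 g_1_5_X8

lemma g_1_5_X6 : Good (27 / 10) [1, 5] 6 :=
  Good.skip (by decide +kernel) g_1_5_X7

lemma g_1_6_8_X9 : Good (27 / 10) [1, 6, 8] 9 :=
  Good.skip (by decide +kernel) g_1_6_8_X10

lemma g_1_6_9_11_X12 : Good (27 / 10) [1, 6, 9, 11] 12 :=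
  Good.skip (by decide +kernel) g_1_6_9_11_X13

lemma g_1_6_9_12_X13 : Good (27 / 10) [1, 6, 9, 12] 13 :=
  Good.skip (by decide +kernel) g_1_6_9_12_X14

lemma g_1_6_9_13_X16 : Good (27 / 10) [1, 6, 9, 13] 16 :=
  Good.skip (by decide +kernel) g_1_6_9_13_X17

lemma g_1_6_9_13_X15 : Good (27 / 10) [1, 6, 9, 13] 15 :=
  Good.skip (by decide +kernel) g_1_6_9_13_X16

lemma g_1_6_9_13_X14 : Good (27 / 10) [1, 6, 9, 13] 14 :=
  Good.skip (by decide +kernel) g_1_6_9_13_X15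

lemma g_1_6_9_X13 : Good (27 / 10) [1, 6, 9] 13 :=
  Good.branch g_1_6_9_13_X14 g_1_6_9_X14

lemma g_1_6_9_X12 : Good (27 / 10) [1, 6, 9] 12 :=
  Good.branch g_1_6_9_12_X13 g_1_6_9_X13

lemma g_1_6_9_X11 : Good (27 / 10) [1, 6, 9] 11 :=
  Good.branch g_1_6_9_11_X12 g_1_6_9_X12

lemma g_1_6_9_X10 : Good (27 / 10) [1, 6, 9] 10 :=
  Good.skip (by decide +kernel) g_1_6_9_X11

lemma g_1_6_10_12_X13 : Good (27 / 10) [1, 6, 10, 12] 13 :=
  Good.skip (by decide +kernel) g_1_6_10_12_X14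

lemma g_1_6_10_13_X14 : Good (27 / 10) [1, 6, 10, 13] 14 :=
  Good.skip (by decide +kernel) g_1_6_10_13_X15

lemma g_1_6_10_14_X17 : Good (27 / 10) [1, 6, 10, 14] 17 :=
  Good.skip (by decide +kernel) g_1_6_10_14_X18

lemma g_1_6_10_14_X16 : Good (27 / 10) [1, 6, 10, 14] 16 :=
  Good.skip (by decide +kernel) g_1_6_10_14_X17

lemma g_1_6_10_14_X15 : Good (27 / 10) [1, 6, 10, 14] 15 :=
  Good.skip (by decide +kernel) g_1_6_10_14_X16

lemma g_1_6_10_X14 : Good (27 / 10) [1, 6, 10] 14 :=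
  Good.branch g_1_6_10_14_X15 g_1_6_10_X15

lemma g_1_6_10_X13 : Good (27 / 10) [1, 6, 10] 13 :=
  Good.branch g_1_6_10_13_X14 g_1_6_10_X14

lemma g_1_6_10_X12 : Good (27 / 10) [1, 6, 10] 12 :=
  Good.branch g_1_6_10_12_X13 g_1_6_10_X13

lemma g_1_6_10_X11 : Good (27 / 10) [1, 6, 10] 11 :=
  Good.skip (by decide +kernel) g_1_6_10_X12

lemma g_1_6_11_13_X14 : Good (27 / 10) [1, 6, 11, 13] 14 :=
  Good.skip (by decide +kernel) g_1_6_11_13_X15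

lemma g_1_6_11_14_16_X18 : Good (27 / 10) [1, 6, 11, 14, 16] 18 :=
  Good.skip (by decide +kernel) g_1_6_11_14_16_X19

lemma g_1_6_11_14_16_X17 : Good (27 / 10) [1, 6, 11, 14, 16] 17 :=
  Good.skip (by decide +kernel) g_1_6_11_14_16_X18

lemma g_1_6_11_14_X18 : Good (27 / 10) [1, 6, 11, 14] 18 :=
  Good.skip (by decide +kernel) g_1_6_11_14_X19

lemma g_1_6_11_14_X17 : Good (27 / 10) [1, 6, 11, 14] 17 :=
  Good.skip (by decide +kernel) g_1_6_11_14_X18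

lemma g_1_6_11_14_X16 : Good (27 / 10) [1, 6, 11, 14] 16 :=
  Good.branch g_1_6_11_14_16_X17 g_1_6_11_14_X17

lemma g_1_6_11_14_X15 : Good (27 / 10) [1, 6, 11, 14] 15 :=
  Good.skip (by decide +kernel) g_1_6_11_14_X16

lemma g_1_6_11_X14 : Good (27 / 10) [1, 6, 11] 14 :=
  Good.branch g_1_6_11_14_X15 g_1_6_11_X15

lemma g_1_6_11_X13 : Good (27 / 10) [1, 6, 11] 13 :=
  Good.branch g_1_6_11_13_X14 g_1_6_11_X14

lemma g_1_6_11_X12 : Good (27 / 10) [1, 6, 11] 12 :=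
  Good.skip (by decide +kernel) g_1_6_11_X13

lemma g_1_6_12_X13 : Good (27 / 10) [1, 6, 12] 13 :=
  Good.skip (by decide +kernel) g_1_6_12_X14

lemma g_1_6_13_X14 : Good (27 / 10) [1, 6, 13] 14 :=
  Good.skip (by decide +kernel) g_1_6_13_X15

lemma g_1_6_X13 : Good (27 / 10) [1, 6] 13 :=
  Good.branch g_1_6_13_X14 g_1_6_X14

lemma g_1_6_X12 : Good (27 / 10) [1, 6] 12 :=
  Good.branch g_1_6_12_X13 g_1_6_X13

lemma g_1_6_X11 : Good (27 / 10) [1, 6] 11 :=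
  Good.branch g_1_6_11_X12 g_1_6_X12

lemma g_1_6_X10 : Good (27 / 10) [1, 6] 10 :=
  Good.branch g_1_6_10_X11 g_1_6_X11

lemma g_1_6_X9 : Good (27 / 10) [1, 6] 9 :=
  Good.branch g_1_6_9_X10 g_1_6_X10

lemma g_1_6_X8 : Good (27 / 10) [1, 6] 8 :=
  Good.branch g_1_6_8_X9 g_1_6_X9

lemma g_1_6_X7 : Good (27 / 10) [1, 6] 7 :=
  Good.skip (by decide +kernel) g_1_6_X8

lemma g_1_7_9_X10 : Good (27 / 10) [1, 7, 9] 10 :=
  Good.skip (by decide +kernel) g_1_7_9_X11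

lemma g_1_7_10_12_X13 : Good (27 / 10) [1, 7, 10, 12] 13 :=
  Good.skip (by decide +kernel) g_1_7_10_12_X14

lemma g_1_7_10_13_15_X18 : Good (27 / 10) [1, 7, 10, 13, 15] 18 :=
  Good.skip (by decide +kernel) g_1_7_10_13_15_X19

lemma g_1_7_10_13_15_X17 : Good (27 / 10) [1, 7, 10, 13, 15] 17 :=
  Good.skip (by decide +kernel) g_1_7_10_13_15_X18

lemma g_1_7_10_13_15_X16 : Good (27 / 10) [1, 7, 10, 13, 15] 16 :=
  Good.skip (by decide +kernel) g_1_7_10_13_15_X17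

lemma g_1_7_10_13_X15 : Good (27 / 10) [1, 7, 10, 13] 15 :=
  Good.branch g_1_7_10_13_15_X16 g_1_7_10_13_X16

lemma g_1_7_10_13_X14 : Good (27 / 10) [1, 7, 10, 13] 14 :=
  Good.skip (by decide +kernel) g_1_7_10_13_X15

lemma g_1_7_10_14_X15 : Good (27 / 10) [1, 7, 10, 14] 15 :=
  Good.skip (by decide +kernel) g_1_7_10_14_X16

lemma g_1_7_10_X14 : Good (27 / 10) [1, 7, 10] 14 :=
  Good.branch g_1_7_10_14_X15 g_1_7_10_X15

lemma g_1_7_10_X13 : Good (27 / 10) [1, 7, 10] 13 :=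
  Good.branch g_1_7_10_13_X14 g_1_7_10_X14

lemma g_1_7_10_X12 : Good (27 / 10) [1, 7, 10] 12 :=
  Good.branch g_1_7_10_12_X13 g_1_7_10_X13

lemma g_1_7_10_X11 : Good (27 / 10) [1, 7, 10] 11 :=
  Good.skip (by decide +kernel) g_1_7_10_X12

lemma g_1_7_11_13_X14 : Good (27 / 10) [1, 7, 11, 13] 14 :=
  Good.skip (by decide +kernel) g_1_7_11_13_X15

lemma g_1_7_11_14_X15 : Good (27 / 10) [1, 7, 11, 14] 15 :=
  Good.skip (by decide +kernel) g_1_7_11_14_X16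

lemma g_1_7_11_X14 : Good (27 / 10) [1, 7, 11] 14 :=
  Good.branch g_1_7_11_14_X15 g_1_7_11_X15

lemma g_1_7_11_X13 : Good (27 / 10) [1, 7, 11] 13 :=
  Good.branch g_1_7_11_13_X14 g_1_7_11_X14

lemma g_1_7_11_X12 : Good (27 / 10) [1, 7, 11] 12 :=
  Good.skip (by decide +kernel) g_1_7_11_X13

lemma g_1_7_12_14_X15 : Good (27 / 10) [1, 7, 12, 14] 15 :=
  Good.skip (by decide +kernel) g_1_7_12_14_X16

lemma g_1_7_12_X14 : Good (27 / 10) [1, 7, 12] 14 :=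
  Good.branch g_1_7_12_14_X15 g_1_7_12_X15

lemma g_1_7_12_X13 : Good (27 / 10) [1, 7, 12] 13 :=
  Good.skip (by decide +kernel) g_1_7_12_X14

lemma g_1_7_X12 : Good (27 / 10) [1, 7] 12 :=
  Good.branch g_1_7_12_X13 g_1_7_X13

lemma g_1_7_X11 : Good (27 / 10) [1, 7] 11 :=
  Good.branch g_1_7_11_X12 g_1_7_X12

lemma g_1_7_X10 : Good (27 / 10) [1, 7] 10 :=
  Good.branch g_1_7_10_X11 g_1_7_X11

lemma g_1_7_X9 : Good (27 / 10) [1, 7] 9 :=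
  Good.branch g_1_7_9_X10 g_1_7_X10

lemma g_1_7_X8 : Good (27 / 10) [1, 7] 8 :=
  Good.skip (by decide +kernel) g_1_7_X9

lemma g_1_8_10_X11 : Good (27 / 10) [1, 8, 10] 11 :=
  Good.skip (by decide +kernel) g_1_8_10_X12

lemma g_1_8_11_13_X14 : Good (27 / 10) [1, 8, 11, 13] 14 :=
  Good.skip (by decide +kernel) g_1_8_11_13_X15

lemma g_1_8_11_14_16_X17 : Good (27 / 10) [1, 8, 11, 14, 16] 17 :=
  Good.skip (by decide +kernel) g_1_8_11_14_16_X18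

lemma g_1_8_11_14_X16 : Good (27 / 10) [1, 8, 11, 14] 16 :=
  Good.branch g_1_8_11_14_16_X17 g_1_8_11_14_X17

lemma g_1_8_11_14_X15 : Good (27 / 10) [1, 8, 11, 14] 15 :=
  Good.skip (by decide +kernel) g_1_8_11_14_X16

lemma g_1_8_11_X14 : Good (27 / 10) [1, 8, 11] 14 :=
  Good.branch g_1_8_11_14_X15 g_1_8_11_X15

lemma g_1_8_11_X13 : Good (27 / 10) [1, 8, 11] 13 :=
  Good.branch g_1_8_11_13_X14 g_1_8_11_X14

lemma g_1_8_11_X12 : Good (27 / 10) [1, 8, 11] 12 :=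
  Good.skip (by decide +kernel) g_1_8_11_X13

lemma g_1_8_X11 : Good (27 / 10) [1, 8] 11 :=
  Good.branch g_1_8_11_X12 g_1_8_X12

lemma g_1_8_X10 : Good (27 / 10) [1, 8] 10 :=
  Good.branch g_1_8_10_X11 g_1_8_X11

lemma g_1_8_X9 : Good (27 / 10) [1, 8] 9 :=
  Good.skip (by decide +kernel) g_1_8_X10

lemma g_1_9_11_X12 : Good (27 / 10) [1, 9, 11] 12 :=
  Good.skip (by decide +kernel) g_1_9_11_X13

lemma g_1_9_X11 : Good (27 / 10) [1, 9] 11 :=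
  Good.branch g_1_9_11_X12 g_1_9_X12

lemma g_1_9_X10 : Good (27 / 10) [1, 9] 10 :=
  Good.skip (by decide +kernel) g_1_9_X11

lemma g_1_10_X11 : Good (27 / 10) [1, 10] 11 :=
  Good.skip (by decide +kernel) g_1_10_X12

lemma g_1_11_X12 : Good (27 / 10) [1, 11] 12 :=
  Good.skip (by decide +kernel) g_1_11_X13

lemma g_1_12_X13 : Good (27 / 10) [1, 12] 13 :=
  Good.skip (by decide +kernel) g_1_12_X14

lemma g_1_13_X14 : Good (27 / 10) [1, 13] 14 :=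
  Good.skip (by decide +kernel) g_1_13_X15

lemma g_1_X13 : Good (27 / 10) [1] 13 :=
  Good.branch g_1_13_X14 g_1_X14

lemma g_1_X12 : Good (27 / 10) [1] 12 :=
  Good.branch g_1_12_X13 g_1_X13

lemma g_1_X11 : Good (27 / 10) [1] 11 :=
  Good.branch g_1_11_X12 g_1_X12

lemma g_1_X10 : Good (27 / 10) [1] 10 :=
  Good.branch g_1_10_X11 g_1_X11

lemma g_1_X9 : Good (27 / 10) [1] 9 :=
  Good.branch g_1_9_X10 g_1_X10

lemma g_1_X8 : Good (27 / 10) [1] 8 :=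
  Good.branch g_1_8_X9 g_1_X9

lemma g_1_X7 : Good (27 / 10) [1] 7 :=
  Good.branch g_1_7_X8 g_1_X8

lemma g_1_X6 : Good (27 / 10) [1] 6 :=
  Good.branch g_1_6_X7 g_1_X7

lemma g_1_X5 : Good (27 / 10) [1] 5 :=
  Good.branch g_1_5_X6 g_1_X6

lemma g_1_X4 : Good (27 / 10) [1] 4 :=
  Good.branch g_1_4_X5 g_1_X5

lemma g_1_X3 : Good (27 / 10) [1] 3 :=
  Good.branch g_1_3_X4 g_1_X4

lemma g_1_X2 : Good (27 / 10) [1] 2 :=
  Good.branch g_1_2_X3 g_1_X3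

lemma g_2_3_4_X7 : Good (27 / 10) [2, 3, 4] 7 :=
  Good.skip (by decide +kernel) g_2_3_4_X8

lemma g_2_3_4_X6 : Good (27 / 10) [2, 3, 4] 6 :=
  Good.skip (by decide +kernel) g_2_3_4_X7

lemma g_2_3_4_X5 : Good (27 / 10) [2, 3, 4] 5 :=
  Good.skip (by decide +kernel) g_2_3_4_X6

lemma g_2_3_X5 : Good (27 / 10) [2, 3] 5 :=
  Good.skip (by decide +kernel) g_2_3_X6

lemma g_2_3_X4 : Good (27 / 10) [2, 3] 4 :=
  Good.branch g_2_3_4_X5 g_2_3_X5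

lemma g_2_X4 : Good (27 / 10) [2] 4 :=
  Good.branch g_2_4_X5 g_2_X5

lemma g_2_X3 : Good (27 / 10) [2] 3 :=
  Good.branch g_2_3_X4 g_2_X4

lemma g_X4 : Good (27 / 10) [] 4 :=
  Good.branch g_4_X5 g_X5

lemma g_X3 : Good (27 / 10) [] 3 :=
  Good.branch g_3_X4 g_X4

lemma g_X2 : Good (27 / 10) [] 2 :=
  Good.branch g_2_X3 g_X3

lemma g_X1 : Good (27 / 10) [] 1 :=
  Good.branch g_1_X2 g_X2

end Pool.Agent.Helper994_AS
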